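import Pool.Agent.TRC.St

/-! TRC, module CEN (helper34): the centroid of a tree. -/

set_option autoImplicit false

namespace Pool.Agent.TRC

open Finset

namespace MCEN

variable {α : Type}

theorem bridge {T : SimpleGraph α} (hT : T.IsAcyclic) {c v : α} (h : T.Adj c v) :
    ¬ (cut T c v).Reachable c v := by
  have h1 := SimpleGraph.isAcyclic_iff_forall_adj_isBridge.1 hT h
  rw [SimpleGraph.isBridge_iff] at h1
  intro h2
  refine h1 (h2.mono ?_)
  intro a b hab
  rw [SimpleGraph.deleteEdges_adj]
  refine ⟨hab.1, fun h4 => ?_⟩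
  simp only [Set.mem_singleton_iff, Sym2.eq_iff] at h4
  rcases h4 with h4 | h4
  · exact hab.2.1 h4
  · exact hab.2.2 h4

theorem cut_comm (T : SimpleGraph α) (c v : α) : cut T c v = cut T v c := by
  ext a b
  simp only [cut]
  tauto

/-- Induction along a reachable relation. -/
theorem reach_ind {G : SimpleGraph α} {x : α} (P : α → Prop) (h0 : P x)
    (hs : ∀ y z, G.Reachable x y → P y → G.Adj y z → P z) : ∀ y, G.Reachable x y → P y := by
  intro y hy
  have h1 := (SimpleGraph.reachable_iff_reflTransGen x y).1 hy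
  clear hy
  induction h1 with
  | refl => exact h0
  | tail h2 h3 ih => exact hs _ _ ((SimpleGraph.reachable_iff_reflTransGen _ _).2 h2) ih h3

theorem del_le_cut (T : SimpleGraph α) (c v : α) : del T c ≤ cut T v c := by
  intro a b h
  exact ⟨h.1, fun g => h.2.2 g.2, fun g => h.2.1 g.1⟩

theorem del_iso {T : SimpleGraph α} {c y : α} (h : (del T c).Reachable c y) : y = c := by
  refine reach_ind (fun y => y = c) rfl ?_ y h
  intro y z _ h1 h2
  exact absurd h1 h2.2.1

theorem del_iff {T : SimpleGraph α} {c v : α} (hb : ¬ (cut T v c).Reachable v c) (y : α) :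
    (del T c).Reachable v y ↔ (cut T v c).Reachable v y := by
  constructor
  · intro h
    exact h.mono (del_le_cut T c v)
  · intro h
    refine reach_ind (G := cut T v c) (fun y => (del T c).Reachable v y)
      (SimpleGraph.Reachable.refl v) ?_ y h
    intro y z h1 h2 h3
    have hy : y ≠ c := fun g => hb (g ▸ h1)
    have hz : z ≠ c := fun g => hb (g ▸ h1.trans h3.reachable)
    have h4 : (del T c).Adj y z := ⟨h3.1, hy, hz⟩
    exact h2.trans h4.reachable

theorem nbr {T : SimpleGraph α} (hT : T.Connected) {c x : α} (hx : x ≠ c) :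
    ∃ v, T.Adj c v ∧ (del T c).Reachable x v := by
  have key : ∀ y, T.Reachable x y →
      ((del T c).Reachable x y ∧ y ≠ c) ∨ ∃ v, T.Adj c v ∧ (del T c).Reachable x v := by
    refine reach_ind _ (Or.inl ⟨SimpleGraph.Reachable.refl x, hx⟩) ?_
    intro y z _ h1 h2
    rcases h1 with ⟨h1, hy⟩ | h1
    · by_cases hz : z = c
      · exact Or.inr ⟨y, by rw [← hz]; exact h2.symm, h1⟩
      · have h4 : (del T c).Adj y z := ⟨h2, hy, hz⟩
        exact Or.inl ⟨h1.trans h4.reachable, hz⟩
    · exact Or.inr h1
  rcases key c (hT.preconnected x c) with h | h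
  · exact absurd rfl h.2
  · exact h

variable [Fintype α]

theorem mem_blk {T : SimpleGraph α} {c x y : α} : y ∈ blk T c x ↔ (del T c).Reachable x y := by
  simp [blk]

theorem mem_side {T : SimpleGraph α} {c v y : α} : y ∈ side T c v ↔ (cut T c v).Reachable c y := by
  simp [side]

theorem blk_eq {T : SimpleGraph α} {c x v : α} (h : (del T c).Reachable x v) :
    blk T c x = blk T c v := by
  ext y
  rw [mem_blk, mem_blk]
  exact ⟨fun g => h.symm.trans g, fun g => h.trans g⟩

theorem blk_side {T : SimpleGraph α} (hT : T.IsAcyclic) {c v : α} (h : T.Adj c v) :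
    blk T c v = side T v c := by
  ext y
  rw [mem_blk, mem_side, del_iff (bridge hT h.symm)]

theorem side_add {T : SimpleGraph α} (hT : T.IsTree) {c v : α} (h : T.Adj c v) :
    (side T c v).card + (side T v c).card = Fintype.card α := by
  classical
  have hd : Disjoint (side T c v) (side T v c) := by
    rw [Finset.disjoint_left]
    intro y h1 h2
    rw [mem_side] at h1 h2
    rw [← cut_comm] at h2
    exact bridge hT.isAcyclic h (h1.trans h2.symm)
  have hu : side T c v ∪ side T v c = univ := by
    ext y
    simp only [mem_union, mem_univ, iff_true, mem_side]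
    rw [← cut_comm T c v]
    refine reach_ind (G := T) (x := c)
      (fun y => (cut T c v).Reachable c y ∨ (cut T c v).Reachable v y)
      (Or.inl (SimpleGraph.Reachable.refl c)) ?_ y (hT.connected.preconnected c y)
    intro y z _ h1 h2
    by_cases e1 : y = c ∧ z = v
    · rw [e1.2]
      exact Or.inr (SimpleGraph.Reachable.refl v)
    by_cases e2 : y = v ∧ z = c
    · rw [e2.2]
      exact Or.inl (SimpleGraph.Reachable.refl c)
    have h3 : (cut T c v).Adj y z := ⟨h2, e1, e2⟩
    exact h1.imp (fun g => g.trans h3.reachable) fun g => g.trans h3.reachable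
  rw [← Finset.card_union_of_disjoint hd, hu, Finset.card_univ]

theorem side_lt {T : SimpleGraph α} (hT : T.IsAcyclic) {c v w : α} (hc : T.Adj v c)
    (hw : T.Adj v w) (hne : w ≠ c) : (side T w v).card < (side T v c).card := by
  apply Finset.card_lt_card
  rw [Finset.ssubset_iff_of_subset]
  · refine ⟨v, mem_side.2 (SimpleGraph.Reachable.refl v), fun h => ?_⟩
    rw [mem_side] at h
    exact bridge hT hw.symm h
  · intro y hy
    rw [mem_side, ← del_iff (bridge hT hw.symm)] at hy
    rw [mem_side]
    have h1 : (cut T v c).Adj v w := ⟨hw, fun g => hne g.2, fun g => hc.ne g.1⟩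
    have h2 : del T v ≤ cut T v c := by
      rw [cut_comm]
      exact del_le_cut T v c
    exact h1.reachable.trans (hy.mono h2)

end MCEN

open MCEN in
/-- **CEN**. -/
theorem t_CEN : S_CEN := by
  intro α _ _ T hT hcard
  classical
  obtain ⟨S, hS⟩ : ∃ S : Finset (α × α), S = univ.filter fun p : α × α =>
      T.Adj p.1 p.2 ∧ Fintype.card α ≤ 2 * (side T p.2 p.1).card := ⟨_, rfl⟩
  have hmem : ∀ c v : α, (c, v) ∈ S ↔ T.Adj c v ∧ Fintype.card α ≤ 2 * (side T v c).card := by
    intro c v
    rw [hS]
    simp
  rcases S.eq_empty_or_nonempty with h0 | h0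
  · left
    have hne : Nonempty α := Fintype.card_pos_iff.1 (by omega)
    obtain ⟨c⟩ := hne
    refine ⟨c, fun x hx => ?_⟩
    obtain ⟨v, hv, hr⟩ := nbr hT.connected hx
    rw [blk_eq hr, blk_side hT.isAcyclic hv]
    by_contra h1
    have h2 : (c, v) ∈ S := (hmem c v).2 ⟨hv, not_lt.1 h1⟩
    rw [h0] at h2
    simp at h2
  · obtain ⟨⟨c, v⟩, hp, hmin⟩ := Finset.exists_min_image S
      (fun p : α × α => (side T p.2 p.1).card) h0
    obtain ⟨hcv, hge⟩ := (hmem c v).1 hp
    rcases hge.eq_or_lt with heq | hlt
    · right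
      have h1 := side_add hT hcv
      exact ⟨c, v, hcv, bridge hT.isAcyclic hcv, by omega, heq.symm⟩
    · left
      refine ⟨v, fun x hx => ?_⟩
      obtain ⟨w, hw, hr⟩ := nbr hT.connected hx
      rw [blk_eq hr, blk_side hT.isAcyclic hw]
      by_contra h1
      have h2 : (v, w) ∈ S := (hmem v w).2 ⟨hw, not_lt.1 h1⟩
      have h3 := hmin _ h2
      simp only at h3
      by_cases hwc : w = c
      · subst hwc
        have h4 := side_add hT hcv
        have h5 := ((hmem _ _).1 h2).2
        omega
      · have h4 := side_lt hT.isAcyclic hcv.symm hw hwc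
        omega

end Pool.Agent.TRC
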