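import Pool.Agent.TRC.Stb

set_option autoImplicit false

namespace Pool.Agent.TRC

open Finset Pool.Agent.Lib_helper61.SwitchBasic Pool.Agent.Lib_helper61.SwCograph

namespace MDST

variable {α : Type} [Fintype α] [DecidableEq α]

/-- every edge has an end in `{u, v}` -/
theorem edges (T : SimpleGraph α) [DecidableRel T.Adj] (hT : T.IsTree) (u v : α) (huv : T.Adj u v)
    (hd : T.degree u + T.degree v = Fintype.card α) (x y : α) (hxy : T.Adj x y) :
    x = u ∨ x = v ∨ y = u ∨ y = v := by
  classical
  have h1 := hT.card_edgeFinset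
  have hsub : T.incidenceFinset u ∪ T.incidenceFinset v ⊆ T.edgeFinset := by
    intro e he
    rw [SimpleGraph.mem_edgeFinset]
    rcases mem_union.1 he with he | he
    · rw [SimpleGraph.mem_incidenceFinset] at he
      exact T.incidenceSet_subset u he
    · rw [SimpleGraph.mem_incidenceFinset] at he
      exact T.incidenceSet_subset v he
  have hint : T.incidenceFinset u ∩ T.incidenceFinset v ⊆ {s(u, v)} := by
    intro e he
    rw [mem_inter, SimpleGraph.mem_incidenceFinset, SimpleGraph.mem_incidenceFinset] at he
    rw [mem_singleton]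
    have h2 := he.1.2
    have h3 := he.2.2
    exact (Sym2.mem_and_mem_iff huv.ne).1 ⟨h2, h3⟩
  have hc := card_union_add_card_inter (T.incidenceFinset u) (T.incidenceFinset v)
  rw [SimpleGraph.card_incidenceFinset_eq_degree, SimpleGraph.card_incidenceFinset_eq_degree] at hc
  have hi := card_le_card hint
  rw [card_singleton] at hi
  have heq : T.incidenceFinset u ∪ T.incidenceFinset v = T.edgeFinset := by
    apply eq_of_subset_of_card_le hsub
    omega
  have he : s(x, y) ∈ T.edgeFinset := by
    rw [SimpleGraph.mem_edgeFinset]; exact hxy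
  rw [← heq, mem_union, SimpleGraph.mem_incidenceFinset, SimpleGraph.mem_incidenceFinset] at he
  rcases he with he | he
  · have := he.2
    rw [Sym2.mem_iff] at this
    rcases this with h | h
    · exact Or.inl h.symm
    · exact Or.inr (Or.inr (Or.inl h.symm))
  · have := he.2
    rw [Sym2.mem_iff] at this
    rcases this with h | h
    · exact Or.inr (Or.inl h.symm)
    · exact Or.inr (Or.inr (Or.inr h.symm))

theorem cover (T : SimpleGraph α) [DecidableRel T.Adj] (hT : T.IsTree) (u v : α) (huv : T.Adj u v)
    (hd : T.degree u + T.degree v = Fintype.card α) (x : α) : T.Adj u x ∨ T.Adj v x := by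
  by_cases hxu : x = u
  · subst hxu; exact Or.inr huv.symm
  by_cases hxv : x = v
  · subst hxv; exact Or.inl huv
  haveI : Nontrivial α := ⟨⟨x, u, hxu⟩⟩
  have hp := hT.connected.preconnected.degree_pos_of_nontrivial x
  rw [SimpleGraph.degree_pos_iff_exists_adj] at hp
  obtain ⟨y, hy⟩ := hp
  rcases edges T hT u v huv hd x y hy with h | h | h | h
  · exact absurd h hxu
  · exact absurd h hxv
  · subst h; exact Or.inl hy.symm
  · subst h; exact Or.inr hy.symm

theorem excl (T : SimpleGraph α) [DecidableRel T.Adj] (hT : T.IsTree) (u v : α) (huv : T.Adj u v)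
    (hd : T.degree u + T.degree v = Fintype.card α) (x : α) (h1 : T.Adj u x) (h2 : T.Adj v x) :
    False := by
  have hun : T.neighborFinset u ∪ T.neighborFinset v = univ := by
    ext y
    simp only [mem_union, SimpleGraph.mem_neighborFinset, mem_univ, iff_true]
    exact cover T hT u v huv hd y
  have hc := card_union_add_card_inter (T.neighborFinset u) (T.neighborFinset v)
  rw [hun, card_univ, SimpleGraph.card_neighborFinset_eq_degree,
    SimpleGraph.card_neighborFinset_eq_degree, hd] at hc
  have h0 : (T.neighborFinset u ∩ T.neighborFinset v).card = 0 := by omega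
  rw [card_eq_zero] at h0
  have : x ∈ T.neighborFinset u ∩ T.neighborFinset v := by
    simp [h1, h2]
  rw [h0] at this
  exact notMem_empty _ this

end MDST

theorem t_DST : S_DST := by
  intro α _ _ T _ hT u v huv hd
  have hcov := MDST.cover T hT u v huv hd
  have hex := MDST.excl T hT u v huv hd
  have hed := MDST.edges T hT u v huv hd
  have key : ∀ a b, (sw T {u}).Adj a b →
      ((a = u ∨ a = v) ∧ (b ≠ u ∧ b ≠ v ∧ T.Adj v b)) ∨
      ((b = u ∨ b = v) ∧ (a ≠ u ∧ a ≠ v ∧ T.Adj v a)) := by
    intro a b h
    obtain ⟨hab, h⟩ := h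
    rw [mem_singleton, mem_singleton] at h
    by_cases ha : a = u
    · subst ha
      have hb : b ≠ a := fun h => hab h.symm
      have h3 : ¬ T.Adj a b := fun g => hb ((h.1 g).1 rfl)
      left
      refine ⟨Or.inl rfl, hb, ?_, (hcov b).resolve_left h3⟩
      rintro rfl
      exact h3 huv
    · by_cases hb : b = u
      · subst hb
        have h3 : ¬ T.Adj a b := fun g => ha ((h.1 g).2 rfl)
        right
        refine ⟨Or.inl rfl, ha, ?_, (hcov a).resolve_left fun g => h3 g.symm⟩
        rintro rfl
        exact h3 huv.symm
      · have h3 : T.Adj a b := h.2 ⟨fun g => absurd g ha, fun g => absurd g hb⟩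
        rcases hed a b h3 with g | g | g | g
        · exact absurd g ha
        · subst g
          left
          exact ⟨Or.inr rfl, hb, fun g => h3.ne g.symm, h3⟩
        · exact absurd g hb
        · subst g
          right
          exact ⟨Or.inr rfl, ha, h3.ne, h3.symm⟩
  have key2 : ∀ a b, (a = u ∨ a = v) → (b ≠ u ∧ b ≠ v ∧ T.Adj v b) → (sw T {u}).Adj a b := by
    intro a b ha hb
    rcases ha with rfl | rfl
    · refine ⟨fun g => hb.1 g.symm, ?_⟩
      rw [mem_singleton, mem_singleton]
      constructor
      · intro g
        exact absurd hb.2.2 (hex b g)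
      · intro g
        exact absurd (g.1 rfl) hb.1
    · refine ⟨fun g => hb.2.1 g.symm, ?_⟩
      rw [mem_singleton, mem_singleton]
      constructor
      · intro _
        exact ⟨fun g => absurd g huv.ne', fun g => absurd g hb.1⟩
      · intro _
        exact hb.2.2
  intro a b c d hab hbc hcd _ _ had
  apply had
  rcases key a b hab with ⟨ha, hb⟩ | ⟨hb, ha⟩
  · rcases key b c hbc with ⟨hb', _⟩ | ⟨hc, _⟩
    · rcases hb' with h | h
      · exact absurd h hb.1
      · exact absurd h hb.2.1
    · rcases key c d hcd with ⟨_, hd'⟩ | ⟨_, hc'⟩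
      · exact key2 a d ha hd'
      · rcases hc with h | h
        · exact absurd h hc'.1
        · exact absurd h hc'.2.1
  · rcases key b c hbc with ⟨_, hc⟩ | ⟨_, hb'⟩
    · rcases key c d hcd with ⟨hc', _⟩ | ⟨hd', _⟩
      · rcases hc' with h | h
        · exact absurd h hc.1
        · exact absurd h hc.2.1
      · exact (key2 d a hd' ha).symm
    · rcases hb with h | h
      · exact absurd h hb'.1
      · exact absurd h hb'.2.1

end Pool.Agent.TRC
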