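import Pool.Agent.TRC.St

/-!
# TRC: a central edge is fixed by all automorphisms (module EUQ)
-/

set_option autoImplicit false

namespace Pool.Agent.TRC

open Finset Pool.Agent.Lib_helper61.SwitchBasic

namespace EUQ

theorem cut_comm {α : Type} (C : SimpleGraph α) (c d : α) : cut C c d = cut C d c := by
  ext u v
  exact ⟨fun h => ⟨h.1, h.2.2, h.2.1⟩, fun h => ⟨h.1, h.2.2, h.2.1⟩⟩

theorem mem_side {α : Type} [Fintype α] (C : SimpleGraph α) (c d y : α) :
    y ∈ side C c d ↔ (cut C c d).Reachable c y := by
  classical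
  unfold side
  simp only [Finset.mem_filter, Finset.mem_univ, true_and]

theorem cover {α : Type} (C : SimpleGraph α) (c d : α) (hcon : C.Connected) (v : α) :
    (cut C c d).Reachable c v ∨ (cut C c d).Reachable d v := by
  have h := hcon.preconnected c v
  rw [SimpleGraph.reachable_iff_reflTransGen] at h
  induction h with
  | refl => exact Or.inl (SimpleGraph.Reachable.refl _)
  | @tail u w _ huw ih =>
    by_cases h1 : u = c ∧ w = d
    · rw [h1.2]
      exact Or.inr (SimpleGraph.Reachable.refl _)
    by_cases h2 : u = d ∧ w = c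
    · rw [h2.2]
      exact Or.inl (SimpleGraph.Reachable.refl _)
    have h3 : (cut C c d).Adj u w := ⟨huw, h1, h2⟩
    rcases ih with h | h
    · exact Or.inl (h.trans h3.reachable)
    · exact Or.inr (h.trans h3.reachable)

theorem core {α : Type} [Fintype α] [DecidableEq α] (C : SimpleGraph α) (c d c' d' : α)
    (hcon : C.Connected) (hadj : C.Adj c d) (h1 : ¬ (c = c' ∧ d = d')) (h2 : ¬ (c = d' ∧ d = c'))
    (hB : c' ∉ side C d c) (hcd : ¬ (cut C c d).Reachable c d)
    (hcard : 2 * (side C d c).card = Fintype.card α)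
    (h3 : 2 * (side C c' d').card = Fintype.card α)
    (h4 : 2 * (side C d' c').card = Fintype.card α) : False := by
  have hcB : c ∉ side C d c := by
    rw [mem_side, ← cut_comm]
    exact fun h => hcd h.symm
  have hd : (cut C c' d').Adj c d := ⟨hadj, h1, h2⟩
  have hreach : ∀ y, (cut C d c).Reachable d y → (cut C c' d').Reachable d y := by
    intro y hy
    rw [SimpleGraph.reachable_iff_reflTransGen] at hy
    induction hy with
    | refl => exact SimpleGraph.Reachable.refl _
    | @tail u w hu huw ih =>
      have hu' : (cut C d c).Reachable d u := (SimpleGraph.reachable_iff_reflTransGen _ _).2 hu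
      have hw' : (cut C d c).Reachable d w := hu'.trans huw.reachable
      have a1 : u ≠ c' := by
        intro h
        rw [h] at hu'
        exact hB ((mem_side C d c c').2 hu')
      have a2 : w ≠ c' := by
        intro h
        rw [h] at hw'
        exact hB ((mem_side C d c c').2 hw')
      have a3 : (cut C c' d').Adj u w := ⟨huw.1, fun g => a1 g.1, fun g => a2 g.2⟩
      exact ih.trans a3.reachable
  have hK : ∀ y ∈ insert c (side C d c), (cut C c' d').Reachable c y := by
    intro y hy
    rcases Finset.mem_insert.1 hy with h | h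
    · rw [h]
    · exact hd.reachable.trans (hreach y ((mem_side C d c y).1 h))
  have hcK : (insert c (side C d c)).card = (side C d c).card + 1 :=
    Finset.card_insert_of_notMem hcB
  rcases cover C c' d' hcon c with h | h
  · have hsub : insert c (side C d c) ⊆ side C c' d' := fun y hy =>
      (mem_side C c' d' y).2 (h.trans (hK y hy))
    have := Finset.card_le_card hsub
    omega
  · have hsub : insert c (side C d c) ⊆ side C d' c' := fun y hy =>
      (mem_side C d' c' y).2 (by rw [← cut_comm C c' d']; exact h.trans (hK y hy))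
    have := Finset.card_le_card hsub
    omega

/-- The isomorphism of the cut graphs given by an automorphism. -/
def cutIso {α : Type} (C : SimpleGraph α) (c d : α) (σ : Equiv.Perm α) (hσ : IsAut C σ) :
    cut C c d ≃g cut C (σ c) (σ d) where
  toEquiv := σ
  map_rel_iff' := by
    intro u v
    constructor
    · intro h
      exact ⟨(hσ u v).1 h.1, fun g => h.2.1 ⟨by rw [g.1], by rw [g.2]⟩,
        fun g => h.2.2 ⟨by rw [g.1], by rw [g.2]⟩⟩
    · intro h
      exact ⟨(hσ u v).2 h.1, fun g => h.2.1 ⟨σ.injective g.1, σ.injective g.2⟩,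
        fun g => h.2.2 ⟨σ.injective g.1, σ.injective g.2⟩⟩

theorem card_side {α : Type} [Fintype α] (C : SimpleGraph α) (c d : α) (σ : Equiv.Perm α)
    (hσ : IsAut C σ) : (side C (σ c) (σ d)).card = (side C c d).card := by
  symm
  refine Finset.card_bij' (fun y _ => σ y) (fun y _ => σ.symm y) ?_ ?_ ?_ ?_
  · intro y hy
    rw [mem_side] at hy ⊢
    exact (cutIso C c d σ hσ).reachable_iff.2 hy
  · intro y hy
    rw [mem_side] at hy ⊢
    refine (cutIso C c d σ hσ).reachable_iff.1 ?_
    change (cut C (σ c) (σ d)).Reachable (σ c) (σ (σ.symm y))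
    rw [Equiv.apply_symm_apply]
    exact hy
  · intro y _
    exact σ.symm_apply_apply y
  · intro y _
    exact σ.apply_symm_apply y

end EUQ

open EUQ in
theorem t_EUQ : S_EUQ := by
  intro α _ _ C c d hcon hadj hcd h1 h2 σ hσ
  by_contra hne
  have g1 : 2 * (side C (σ c) (σ d)).card = Fintype.card α := by
    rw [card_side C c d σ hσ]
    exact h1
  have g2 : 2 * (side C (σ d) (σ c)).card = Fintype.card α := by
    rw [card_side C d c σ hσ]
    exact h2
  have n1 : ¬ (c = σ c ∧ d = σ d) := fun g => hne (Or.inl ⟨g.1.symm, g.2.symm⟩)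
  have n2 : ¬ (c = σ d ∧ d = σ c) := fun g => hne (Or.inr ⟨g.2.symm, g.1.symm⟩)
  by_cases hB : σ c ∈ side C d c
  · have hA : σ c ∉ side C c d := by
      intro hA
      rw [mem_side] at hA hB
      rw [← cut_comm C c d] at hB
      exact hcd (hA.trans hB.symm)
    refine core C d c (σ c) (σ d) hcon hadj.symm (fun g => n2 ⟨g.2, g.1⟩) (fun g => n1 ⟨g.2, g.1⟩)
      hA ?_ h1 g1 g2
    rw [← cut_comm C c d]
    exact fun h => hcd h.symm
  · exact core C c d (σ c) (σ d) hcon hadj n1 n2 hB hcd h2 g1 g2

end Pool.Agent.TRC
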