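import Pool.Agent.TRC.St

/-!
# TRC, module FIX: a central cut vertex is fixed by all automorphisms
-/

set_option autoImplicit false

namespace Pool.Agent.TRC

namespace FIX

open Finset

theorem key {α : Type} (C : SimpleGraph α) (c c' : α) (hcc : c' ≠ c) :
    ∀ {y w : α} (_ : C.Walk y w), w = c → ¬ (del C c).Reachable y c' →
      (del C c').Reachable y c
  | _, _, .nil, h, _ => h ▸ SimpleGraph.Reachable.refl _
  | y, _, .cons (v := y1) h p, hw, hn => by
    by_cases hy : y = c
    · rw [hy]
    · have hyc' : y ≠ c' := fun e => hn (e ▸ SimpleGraph.Reachable.refl _)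
      by_cases h1 : y1 = c
      · subst h1
        have : (del C c').Adj y y1 := ⟨h, hyc', hcc.symm⟩
        exact this.reachable
      · have hadj : (del C c).Adj y y1 := ⟨h, hy, h1⟩
        have hn1 : ¬ (del C c).Reachable y1 c' := fun e => hn (hadj.reachable.trans e)
        have hy1 : y1 ≠ c' := fun e => hn1 (e ▸ SimpleGraph.Reachable.refl _)
        have ih := key C c c' hcc p hw hn1
        have : (del C c').Adj y y1 := ⟨h, hyc', hy1⟩
        exact this.reachable.trans ih

theorem mem_blk {α : Type} [Fintype α] (C : SimpleGraph α) (c x y : α) :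
    y ∈ blk C c x ↔ (del C c).Reachable x y := by
  classical
  simp [blk]

/-- `σ` as an isomorphism of the graphs without the edges at `c` and at `σ c`. -/
def iso {α : Type} (C : SimpleGraph α) (c : α) (σ : Equiv.Perm α) (h : IsAut C σ) :
    del C c ≃g del C (σ c) where
  toEquiv := σ
  map_rel_iff' := by
    intro u v
    show (C.Adj (σ u) (σ v) ∧ σ u ≠ σ c ∧ σ v ≠ σ c) ↔ (C.Adj u v ∧ u ≠ c ∧ v ≠ c)
    rw [h u v, σ.injective.ne_iff, σ.injective.ne_iff]

theorem card_blk {α : Type} [Fintype α] [DecidableEq α] (C : SimpleGraph α) (c z : α)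
    (σ : Equiv.Perm α) (h : IsAut C σ) : (blk C (σ c) (σ z)).card = (blk C c z).card := by
  symm
  apply Finset.card_bij (fun y _ => σ y)
  · intro y hy
    rw [mem_blk] at hy ⊢
    exact ((iso C c σ h).reachable_iff).2 hy
  · intro a _ b _ hab
    exact σ.injective hab
  · intro b hb
    refine ⟨σ.symm b, ?_, σ.apply_symm_apply b⟩
    rw [mem_blk] at hb ⊢
    refine ((iso C c σ h).reachable_iff).1 ?_
    have : (iso C c σ h) (σ.symm b) = b := σ.apply_symm_apply b
    rw [this]
    exact hb

end FIX

open Finset FIX in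
theorem t_FIX : S_FIX := by
  intro α _ _ C c hC hblk σ hσ
  by_contra hne
  have hB := hblk (σ c) hne
  set z : α := σ.symm c with hz
  have hσz : σ z = c := σ.apply_symm_apply c
  have hzc : z ≠ c := by
    intro e
    rw [e] at hσz
    exact hne hσz
  have hz2 := hblk z hzc
  rw [← card_blk C c z σ hσ, hσz] at hz2
  have hsub : (blk C c (σ c))ᶜ ⊆ blk C (σ c) c := by
    intro y hy
    rw [mem_compl] at hy
    rw [mem_blk] at hy ⊢
    have hn : ¬ (del C c).Reachable y (σ c) := fun e => hy e.symm
    obtain ⟨p⟩ := hC.preconnected y c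
    exact (key C c (σ c) hne p rfl hn).symm
  have h1 := card_le_card hsub
  rw [card_compl] at h1
  omega

end Pool.Agent.TRC
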