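import Pool.Agent.TRC.Stb

/-!
# TRC_RIG: a class automorphism that fixes a central vertex is an automorphism
-/

set_option autoImplicit false

namespace Pool.Agent.TRC

open Finset Pool.Agent.Lib_helper61.SwitchBasic Pool.Agent.Lib_helper61.SwCograph

namespace RIG

open Classical in
theorem mem_blk {α : Type} [Fintype α] (C : SimpleGraph α) (c x y : α) :
    y ∈ blk C c x ↔ (del C c).Reachable x y := by
  unfold blk
  simp

/-- a connected component of the graph without `c` lies in a block -/
theorem comp_le {α : Type} [Fintype α] [DecidableEq α] (C : SimpleGraph α) (c : α)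
    (x : {x : α // x ≠ c}) :
    ((C.comap (Subtype.val : {x : α // x ≠ c} → α)).connectedComponentMk x).supp.ncard ≤
      (blk C c x.1).card := by
  classical
  have hf : C.comap (Subtype.val : {x : α // x ≠ c} → α) ≤
      (del C c).comap (Subtype.val : {x : α // x ≠ c} → α) := by
    intro u v huv
    exact ⟨huv, u.2, v.2⟩
  have hsub : (Subtype.val : {x : α // x ≠ c} → α) ''
      ((C.comap (Subtype.val : {x : α // x ≠ c} → α)).connectedComponentMk x).supp ⊆
      ((blk C c x.1 : Finset α) : Set α) := by
    rintro y ⟨z, hz, rfl⟩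
    rw [SimpleGraph.ConnectedComponent.mem_supp_iff, SimpleGraph.ConnectedComponent.eq] at hz
    have h1 : ((del C c).comap (Subtype.val : {x : α // x ≠ c} → α)).Reachable z x := hz.mono hf
    have h2 : (del C c).Reachable z.1 x.1 := by
      have := h1.map (SimpleGraph.Hom.comap (Subtype.val : {x : α // x ≠ c} → α) (del C c))
      exact this
    rw [mem_coe, mem_blk]
    exact h2.symm
  have h3 := Set.ncard_le_ncard hsub (Finset.finite_toSet _)
  rwa [Set.ncard_image_of_injective _ Subtype.val_injective, Set.ncard_coe_finset] at h3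

/-- small components: at least three of them -/
theorem three {β : Type} [Fintype β] [DecidableEq β] (D : SimpleGraph β) (hne : Nonempty β)
    (hs : ∀ x : β, 2 * (D.connectedComponentMk x).supp.ncard < Fintype.card β) :
    3 ≤ Nat.card D.ConnectedComponent := by
  classical
  by_contra hcon
  rw [not_le] at hcon
  haveI : Fintype D.ConnectedComponent := Fintype.ofFinite _
  rw [Nat.card_eq_fintype_card] at hcon
  have h1 : (univ : Finset β).card = ∑ k : D.ConnectedComponent,
      ((univ : Finset β).filter (fun x => D.connectedComponentMk x = k)).card :=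
    Finset.card_eq_sum_card_fiberwise (fun _ _ => mem_coe.2 (mem_univ _))
  have h2 : ∀ k : D.ConnectedComponent,
      2 * ((univ : Finset β).filter (fun x => D.connectedComponentMk x = k)).card + 1 ≤
        Fintype.card β := by
    intro k
    obtain ⟨x, rfl⟩ := k.exists_rep
    have h3 := hs x
    have h4 : (((univ : Finset β).filter
        (fun y => D.connectedComponentMk y = D.connectedComponentMk x)).card) =
        (D.connectedComponentMk x).supp.ncard := by
      rw [← Set.ncard_coe_finset]
      congr 1
      ext y
      simp [SimpleGraph.ConnectedComponent.mem_supp_iff]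
    have h5 : (Quot.mk D.Reachable x : D.ConnectedComponent) = D.connectedComponentMk x := rfl
    rw [h5, h4]
    omega
  have h6 : ∑ k : D.ConnectedComponent,
      (2 * ((univ : Finset β).filter (fun x => D.connectedComponentMk x = k)).card + 1) ≤
      ∑ _k : D.ConnectedComponent, Fintype.card β := Finset.sum_le_sum fun k _ => h2 k
  rw [Finset.sum_add_distrib, ← Finset.mul_sum, ← h1, Finset.sum_const, Finset.sum_const,
    Finset.card_univ, Finset.card_univ] at h6
  simp only [smul_eq_mul, mul_one] at h6
  have h7 : 0 < Fintype.card β := Fintype.card_pos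
  have h8 : 0 < Fintype.card D.ConnectedComponent := by
    obtain ⟨x⟩ := hne
    haveI : Nonempty D.ConnectedComponent := ⟨D.connectedComponentMk x⟩
    exact Fintype.card_pos
  have h9 : Fintype.card D.ConnectedComponent * Fintype.card β ≤ 2 * Fintype.card β :=
    Nat.mul_le_mul_right _ (by omega)
  omega

end RIG

theorem t_RIG : S_RIG := by
  classical
  intro α _ _ C c hev hblk σ hσ hc
  obtain ⟨S, hS⟩ := hσ
  have hσc : ∀ x, σ x ≠ c ↔ x ≠ c := by
    intro x
    rw [not_iff_not]
    constructor
    · intro h
      apply σ.injective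
      rw [h, hc]
    · intro h
      rw [h, hc]
  -- the restricted graph
  obtain ⟨D, hD⟩ : ∃ D : SimpleGraph {x : α // x ≠ c}, D = C.comap Subtype.val := ⟨_, rfl⟩
  have hDadj : ∀ u v : {x : α // x ≠ c}, D.Adj u v ↔ C.Adj u.1 v.1 := by
    intro u v
    rw [hD]
    rfl
  have hcardβ : Fintype.card {x : α // x ≠ c} + 1 = Fintype.card α := by
    have h1 : Fintype.card {x : α // x ≠ c} = Fintype.card α - 1 := by
      have := Fintype.card_subtype_compl (fun x : α => x = c)
      rw [Fintype.card_subtype_eq] at this
      exact this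
    have h2 : 0 < Fintype.card α := Fintype.card_pos_iff.2 ⟨c⟩
    omega
  -- everything outside c has the same membership in S
  have hsame : ∀ u v : α, u ≠ c → v ≠ c → (C.Adj (σ u) (σ v) ↔ C.Adj u v) := by
    intro u v hu hv
    have h2 : ∀ x : {x : α // x ≠ c}, 2 * (D.connectedComponentMk x).supp.ncard + 2 ≤
        Fintype.card α := by
      intro x
      have h3 := RIG.comp_le C c x
      rw [← hD] at h3
      have h4 := hblk x.1 x.2
      obtain ⟨k, hk⟩ := hev
      omega
    have h3 : 3 ≤ Nat.card D.ConnectedComponent := by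
      refine RIG.three D ⟨⟨u, hu⟩⟩ ?_
      intro x
      have := h2 x
      omega
    have h4 : ∀ k : D.ConnectedComponent, 2 * k.supp.ncard ≤ Fintype.card {x : α // x ≠ c} := by
      intro k
      obtain ⟨x, rfl⟩ := k.exists_rep
      have h5 := h2 x
      have h6 : (Quot.mk D.Reachable x : D.ConnectedComponent) = D.connectedComponentMk x := rfl
      rw [h6]
      omega
    have h5 : IsClassAut D (σ.subtypePerm hσc) := by
      refine ⟨univ.filter (fun x => x.1 ∈ S), ?_⟩
      intro a b
      have h6 := hS a.1 b.1
      rw [sw_adj] at h6 ⊢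
      rw [hDadj, hDadj, mem_filter, mem_filter]
      simp only [mem_univ, true_and, Equiv.Perm.subtypePerm_apply, ne_eq, Subtype.mk.injEq]
      exact h6
    have h7 := Pool.Agent.Lib_helper61.SwMain.small_aut D h3 h4 (σ.subtypePerm hσc) h5
      ⟨u, hu⟩ ⟨v, hv⟩
    rw [hDadj, hDadj] at h7
    simpa only [Equiv.Perm.subtypePerm_apply] using h7
  have hmem : ∀ x y : α, x ≠ c → y ≠ c → (x ∈ S ↔ y ∈ S) := by
    intro x y hx hy
    by_cases hxy : x = y
    · rw [hxy]
    obtain ⟨u, rfl⟩ := σ.surjective x
    obtain ⟨v, rfl⟩ := σ.surjective y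
    have hu := (hσc u).1 hx
    have hv := (hσc v).1 hy
    have h1 := hsame u v hu hv
    have h2 := hS u v
    rw [sw_adj] at h2
    by_cases h3 : C.Adj (σ u) (σ v)
    · have h4 := h2.2 (h1.1 h3)
      exact h4.2.1 h3
    · have h5 : ¬ C.Adj u v := fun h => h3 (h1.2 h)
      by_contra h6
      exact h5 (h2.1 ⟨hxy, ⟨fun h => absurd h h3, fun h => absurd h h6⟩⟩)
  by_cases hcS : ∀ x, x ≠ c → (x ∈ S ↔ c ∈ S)
  · -- sw C S = C
    intro u v
    have h1 := hS u v
    rw [sw_adj] at h1
    have h2 : ∀ x y : α, (x ∈ S ↔ y ∈ S) := by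
      intro x y
      by_cases hx : x = c
      · by_cases hy : y = c
        · rw [hx, hy]
        · rw [hx]
          exact (hcS y hy).symm
      · by_cases hy : y = c
        · rw [hy]
          exact hcS x hx
        · exact hmem x y hx hy
    rw [← h1]
    constructor
    · intro h
      exact ⟨h.ne, ⟨fun _ => h2 _ _, fun _ => h⟩⟩
    · intro h
      exact h.2.2 (h2 _ _)
  · exfalso
    rw [not_forall] at hcS
    obtain ⟨x0, hx0⟩ := hcS
    rw [Classical.not_imp] at hx0
    obtain ⟨hx0c, hx0S⟩ := hx0
    have hdiff : ∀ x, x ≠ c → ¬ (c ∈ S ↔ x ∈ S) := by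
      intro x hx h
      exact hx0S ((hmem x0 x hx0c hx).trans h.symm)
    have hflip : ∀ v, v ≠ c → (¬ C.Adj c (σ v) ↔ C.Adj c v) := by
      intro v hv
      have h1 := hS c v
      rw [sw_adj, hc] at h1
      have h2 : σ v ≠ c := (hσc v).2 hv
      have h3 := hdiff (σ v) h2
      constructor
      · intro h
        exact h1.1 ⟨h2.symm, ⟨fun g => absurd g h, fun g => absurd g h3⟩⟩
      · intro h g
        exact h3 ((h1.2 h).2.1 g)
    have hcard : ((univ : Finset α).filter (fun v => C.Adj c v)).card =
        ((univ : Finset α).filter (fun v => v ≠ c ∧ ¬ C.Adj c v)).card := by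
      refine Finset.card_equiv σ ?_
      intro v
      rw [mem_filter, mem_filter]
      constructor
      · rintro ⟨-, h⟩
        have hv : v ≠ c := h.ne'
        exact ⟨mem_univ _, (hσc v).2 hv, (hflip v hv).2 h⟩
      · rintro ⟨-, h1, h2⟩
        have hv : v ≠ c := (hσc v).1 h1
        exact ⟨mem_univ _, (hflip v hv).1 h2⟩
    have htot : ((univ : Finset α).filter (fun v => C.Adj c v)).card +
        ((univ : Finset α).filter (fun v => v ≠ c ∧ ¬ C.Adj c v)).card + 1 =
        Fintype.card α := by
      have h1 : (univ : Finset α) = insert c (((univ : Finset α).filter (fun v => C.Adj c v)) ∪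
          ((univ : Finset α).filter (fun v => v ≠ c ∧ ¬ C.Adj c v))) := by
        ext v
        simp only [mem_univ, mem_insert, mem_union, mem_filter, true_and, true_iff]
        tauto
      have h2 : c ∉ (((univ : Finset α).filter (fun v => C.Adj c v)) ∪
          ((univ : Finset α).filter (fun v => v ≠ c ∧ ¬ C.Adj c v))) := by
        simp
      have h3 : Disjoint ((univ : Finset α).filter (fun v => C.Adj c v))
          ((univ : Finset α).filter (fun v => v ≠ c ∧ ¬ C.Adj c v)) := by
        rw [Finset.disjoint_left]
        intro v hv hv'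
        rw [mem_filter] at hv hv'
        exact hv'.2.2 hv.2
      rw [← Finset.card_univ]
      conv_rhs => rw [h1]
      rw [Finset.card_insert_of_notMem h2, Finset.card_union_of_disjoint h3]
    obtain ⟨k, hk⟩ := hev
    omega

end Pool.Agent.TRC
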