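import Pool.Agent.TRC.St

/-!
# TRC, module TAU (helper87): class automorphisms of a tree
-/

set_option autoImplicit false

namespace Pool.Agent.TRC

open Finset Pool.Agent.Lib_helper61.SwitchBasic

namespace TAU

variable {α : Type} [Fintype α] [DecidableEq α]

/-- The indicator of adjacency. -/
def ad (T : SimpleGraph α) [DecidableRel T.Adj] (u v : α) : ℤ := if T.Adj u v then 1 else 0

omit [Fintype α] [DecidableEq α] in
theorem ad_comm (T : SimpleGraph α) [DecidableRel T.Adj] (u v : α) : ad T u v = ad T v u := by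
  unfold ad
  rw [if_congr (T.adj_comm u v) rfl rfl]

omit [Fintype α] [DecidableEq α] in
theorem ad_self (T : SimpleGraph α) [DecidableRel T.Adj] (u : α) : ad T u u = 0 := by
  unfold ad
  rw [if_neg (T.loopless.irrefl u)]

omit [Fintype α] [DecidableEq α] in
theorem ad_nonneg (T : SimpleGraph α) [DecidableRel T.Adj] (u v : α) : 0 ≤ ad T u v := by
  unfold ad
  split_ifs <;> norm_num

omit [DecidableEq α] in
theorem deg_eq (T : SimpleGraph α) [DecidableRel T.Adj] (u : α) :
    (T.degree u : ℤ) = ∑ v, ad T u v := by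
  unfold ad
  rw [← SimpleGraph.card_neighborFinset_eq_degree, SimpleGraph.neighborFinset_eq_filter,
    Finset.card_filter]
  push_cast
  rfl

theorem total (T : SimpleGraph α) [DecidableRel T.Adj] (hT : T.IsTree) :
    ∑ u, ∑ v, ad T u v = 2 * ((Fintype.card α : ℤ) - 1) := by
  have h1 := T.sum_degrees_eq_twice_card_edges
  have h2 := hT.card_edgeFinset
  have h3 : ∑ u, ∑ v, ad T u v = ((∑ u, T.degree u : ℕ) : ℤ) := by
    push_cast
    exact Finset.sum_congr rfl fun u _ => (deg_eq T u).symm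
  rw [h3, h1]
  push_cast
  have h4 : (T.edgeFinset.card : ℤ) + 1 = (Fintype.card α : ℤ) := by exact_mod_cast h2
  linarith

/-- The number of pairs with one end in `S`. -/
def cr (T : SimpleGraph α) [DecidableRel T.Adj] (S : Finset α) : ℤ :=
  ∑ u ∈ S, ∑ v ∈ Sᶜ, ad T u v

theorem cr_compl (T : SimpleGraph α) [DecidableRel T.Adj] (S : Finset α) :
    cr T Sᶜ = cr T S := by
  unfold cr
  rw [compl_compl, Finset.sum_comm]
  refine Finset.sum_congr rfl fun u _ => Finset.sum_congr rfl fun v _ => ad_comm T v u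

theorem split (f : α → α → ℤ) (S : Finset α) :
    ∑ u, ∑ v, f u v = (∑ u ∈ S, ∑ v ∈ S, f u v) + (∑ u ∈ S, ∑ v ∈ Sᶜ, f u v) +
      ((∑ u ∈ Sᶜ, ∑ v ∈ S, f u v) + ∑ u ∈ Sᶜ, ∑ v ∈ Sᶜ, f u v) := by
  rw [← Finset.sum_add_sum_compl S (fun u => ∑ v, f u v)]
  congr 1
  · rw [← Finset.sum_add_distrib]
    exact Finset.sum_congr rfl fun u _ => (Finset.sum_add_sum_compl S (f u)).symm
  · rw [← Finset.sum_add_distrib]
    exact Finset.sum_congr rfl fun u _ => (Finset.sum_add_sum_compl S (f u)).symm

theorem key (T : SimpleGraph α) [DecidableRel T.Adj] (S : Finset α) (σ : Equiv.Perm α)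
    (h : ∀ u v : α, (sw T S).Adj (σ u) (σ v) ↔ T.Adj u v) :
    (S.card : ℤ) * ((Fintype.card α : ℤ) - S.card) = 2 * cr T S := by
  classical
  have e1 : ∑ u, ∑ v, ad (sw T S) u v = ∑ u, ∑ v, ad T u v := by
    rw [← Equiv.sum_comp σ (fun u => ∑ v, ad (sw T S) u v)]
    refine Finset.sum_congr rfl fun u _ => ?_
    rw [← Equiv.sum_comp σ (fun v => ad (sw T S) (σ u) v)]
    refine Finset.sum_congr rfl fun v _ => ?_
    unfold ad
    exact if_congr (h u v) rfl rfl
  have same : ∀ u v, (u ∈ S ↔ v ∈ S) → ad (sw T S) u v = ad T u v := by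
    intro u v huv
    unfold ad
    refine if_congr ?_ rfl rfl
    rw [sw_adj]
    constructor
    · intro hh
      exact hh.2.2 huv
    · intro hh
      exact ⟨hh.ne, ⟨fun _ => huv, fun _ => hh⟩⟩
  have diff : ∀ u v, ¬ (u ∈ S ↔ v ∈ S) → ad (sw T S) u v = 1 - ad T u v := by
    intro u v huv
    have hne : u ≠ v := by
      rintro rfl
      exact huv Iff.rfl
    unfold ad
    by_cases hh : T.Adj u v
    · rw [if_pos hh, if_neg]
      · norm_num
      · rw [sw_adj]
        intro h2
        exact huv (h2.2.1 hh)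
    · rw [if_neg hh, if_pos]
      · norm_num
      · rw [sw_adj]
        exact ⟨hne, ⟨fun h3 => absurd h3 hh, fun h3 => absurd h3 huv⟩⟩
  rw [split (ad (sw T S)) S, split (ad T) S] at e1
  have a1 : (∑ u ∈ S, ∑ v ∈ S, ad (sw T S) u v) = ∑ u ∈ S, ∑ v ∈ S, ad T u v :=
    Finset.sum_congr rfl fun u hu => Finset.sum_congr rfl fun v hv => same u v (by simp [hu, hv])
  have a4 : (∑ u ∈ Sᶜ, ∑ v ∈ Sᶜ, ad (sw T S) u v) = ∑ u ∈ Sᶜ, ∑ v ∈ Sᶜ, ad T u v :=
    Finset.sum_congr rfl fun u hu => Finset.sum_congr rfl fun v hv => same u v (by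
      rw [Finset.mem_compl] at hu hv
      simp [hu, hv])
  have a2 : (∑ u ∈ S, ∑ v ∈ Sᶜ, ad (sw T S) u v) = (S.card : ℤ) * Sᶜ.card - cr T S := by
    have : (∑ u ∈ S, ∑ v ∈ Sᶜ, ad (sw T S) u v) = ∑ u ∈ S, ∑ v ∈ Sᶜ, (1 - ad T u v) :=
      Finset.sum_congr rfl fun u hu => Finset.sum_congr rfl fun v hv => diff u v (by
        rw [Finset.mem_compl] at hv
        simp [hu, hv])
    rw [this]
    simp only [Finset.sum_sub_distrib, Finset.sum_const, nsmul_eq_mul, mul_one]
    rfl
  have a3 : (∑ u ∈ Sᶜ, ∑ v ∈ S, ad (sw T S) u v) = (S.card : ℤ) * Sᶜ.card - cr T S := by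
    have : (∑ u ∈ Sᶜ, ∑ v ∈ S, ad (sw T S) u v) = ∑ u ∈ Sᶜ, ∑ v ∈ S, (1 - ad T u v) :=
      Finset.sum_congr rfl fun u hu => Finset.sum_congr rfl fun v hv => diff u v (by
        rw [Finset.mem_compl] at hu
        simp [hu, hv])
    rw [this, ← cr_compl T S]
    simp only [Finset.sum_sub_distrib, Finset.sum_const, nsmul_eq_mul, mul_one]
    unfold cr
    rw [compl_compl]
    ring
  have b2 : (∑ u ∈ S, ∑ v ∈ Sᶜ, ad T u v) = cr T S := rfl
  have b3 : (∑ u ∈ Sᶜ, ∑ v ∈ S, ad T u v) = cr T S := by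
    rw [← cr_compl T S]
    unfold cr
    rw [compl_compl]
  rw [a1, a2, a3, a4, b2, b3] at e1
  have hc : (Sᶜ.card : ℤ) = (Fintype.card α : ℤ) - S.card := by
    have h5 := Finset.card_add_card_compl S
    have h6 : (S.card : ℤ) + Sᶜ.card = Fintype.card α := by exact_mod_cast h5
    linarith
  rw [← hc]
  linarith

theorem cr_le (T : SimpleGraph α) [DecidableRel T.Adj] (hT : T.IsTree) (S : Finset α) :
    2 * cr T S ≤ 2 * ((Fintype.card α : ℤ) - 1) := by
  rw [← total T hT, split (ad T) S]
  have b3 : (∑ u ∈ Sᶜ, ∑ v ∈ S, ad T u v) = cr T S := by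
    rw [← cr_compl T S]
    unfold cr
    rw [compl_compl]
  have b2 : (∑ u ∈ S, ∑ v ∈ Sᶜ, ad T u v) = cr T S := rfl
  have c1 : 0 ≤ ∑ u ∈ S, ∑ v ∈ S, ad T u v :=
    Finset.sum_nonneg fun u _ => Finset.sum_nonneg fun v _ => ad_nonneg T u v
  have c2 : 0 ≤ ∑ u ∈ Sᶜ, ∑ v ∈ Sᶜ, ad T u v :=
    Finset.sum_nonneg fun u _ => Finset.sum_nonneg fun v _ => ad_nonneg T u v
  rw [b2, b3]
  linarith

theorem cr_pair (T : SimpleGraph α) [DecidableRel T.Adj] (u v : α) (huv : u ≠ v) :
    cr T {u, v} = T.degree u + T.degree v - 2 * ad T u v := by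
  have hrow : ∀ w, ∑ x ∈ ({u, v} : Finset α)ᶜ, ad T w x = T.degree w - (ad T w u + ad T w v) := by
    intro w
    have h1 := Finset.sum_add_sum_compl ({u, v} : Finset α) (ad T w)
    rw [Finset.sum_pair huv, ← deg_eq] at h1
    linarith
  unfold cr
  rw [Finset.sum_pair huv, hrow, hrow, ad_self, ad_self, ad_comm T v u]
  ring

end TAU

theorem t_TAU : S_TAU := by
  intro α _ _ T _ hT h8 heven hdeg σ hσ
  obtain ⟨S, hS⟩ := hσ
  have hk := TAU.key T S σ hS
  have hl := TAU.cr_le T hT S
  have hsc : S.card ≤ Fintype.card α := Finset.card_le_univ S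
  have pair : ∀ u v, u ≠ v → TAU.cr T {u, v} ≠ (Fintype.card α : ℤ) - 2 := by
    intro u v huv h
    rw [TAU.cr_pair T u v huv] at h
    have h1 := hdeg u v huv
    unfold TAU.ad at h
    by_cases ha : T.Adj u v
    · rw [if_pos ha] at h h1
      apply h1
      have : ((T.degree u + T.degree v : ℕ) : ℤ) = (Fintype.card α : ℕ) := by
        push_cast
        linarith
      exact_mod_cast this
    · rw [if_neg ha] at h h1
      apply h1
      have : ((T.degree u + T.degree v : ℕ) : ℤ) = ((Fintype.card α - 2 : ℕ) : ℤ) := by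
        rw [Nat.cast_sub (by omega)]
        push_cast
        linarith
      exact_mod_cast this
  have hcases : S.card = 0 ∨ S.card = Fintype.card α := by
    by_contra hcon
    rw [not_or] at hcon
    obtain ⟨h0, hp⟩ := hcon
    obtain ⟨k, hk2⟩ := heven
    -- `2 * cr T S = s (p - s)`
    rcases Nat.lt_or_ge S.card 3 with h3 | h3
    · have h12 : S.card = 1 ∨ S.card = 2 := by omega
      rcases h12 with h1 | h2
      · rw [h1] at hk
        push_cast at hk
        have : (Fintype.card α : ℤ) = k + k := by exact_mod_cast hk2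
        omega
      · obtain ⟨u, v, huv, rfl⟩ := Finset.card_eq_two.1 h2
        apply pair u v huv
        rw [h2] at hk
        push_cast at hk
        linarith
    · rcases Nat.lt_or_ge (Fintype.card α - 3) S.card with h4 | h4
      · have h12 : S.card + 1 = Fintype.card α ∨ S.card + 2 = Fintype.card α := by omega
        rcases h12 with h1 | h2
        · have e : (S.card : ℤ) + 1 = Fintype.card α := by exact_mod_cast h1
          have e' : (S.card : ℤ) = (Fintype.card α : ℤ) - 1 := by linarith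
          rw [e'] at hk
          have : (Fintype.card α : ℤ) = k + k := by exact_mod_cast hk2
          have hk3 : (Fintype.card α : ℤ) - 1 = 2 * TAU.cr T S := by
            rw [← hk]; ring
          omega
        · have hc2 : Sᶜ.card = 2 := by
            rw [Finset.card_compl]
            omega
          obtain ⟨u, v, huv, hSc⟩ := Finset.card_eq_two.1 hc2
          apply pair u v huv
          rw [← hSc, TAU.cr_compl]
          have e : (S.card : ℤ) + 2 = Fintype.card α := by exact_mod_cast h2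
          have e' : (S.card : ℤ) = (Fintype.card α : ℤ) - 2 := by linarith
          rw [e'] at hk
          have hk3 : 2 * ((Fintype.card α : ℤ) - 2) = 2 * TAU.cr T S := by
            rw [← hk]; ring
          linarith
      · have g3 : (3 : ℤ) ≤ S.card := by exact_mod_cast h3
        have g4 : (S.card : ℤ) ≤ (Fintype.card α : ℤ) - 3 := by
          have : S.card + 3 ≤ Fintype.card α := by omega
          have h' : (S.card : ℤ) + 3 ≤ Fintype.card α := by exact_mod_cast this
          linarith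
        have g8 : (8 : ℤ) ≤ Fintype.card α := by exact_mod_cast h8
        nlinarith [mul_nonneg (sub_nonneg.2 g3) (sub_nonneg.2 g4)]
  have hsw : ∀ u v, (sw T S).Adj u v ↔ T.Adj u v := by
    intro u v
    rw [sw_adj]
    have hiff : (u ∈ S ↔ v ∈ S) := by
      rcases hcases with h | h
      · rw [Finset.card_eq_zero] at h
        rw [h]
        simp
      · have : S = univ := (Finset.card_eq_iff_eq_univ S).1 h
        rw [this]
        simp
    constructor
    · intro h
      exact h.2.2 hiff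
    · intro h
      exact ⟨h.ne, ⟨fun _ => hiff, fun _ => h⟩⟩
  intro u v
  rw [← hsw, hS]

end Pool.Agent.TRC
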