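import Pool.Agent.TRC.App

/-!
# TRC (MP_e73337_co): the exceptional trees. Statements of the modules

`S_xxx` is proved in the file `Pool/Agent/TRC/Mxxx.lean` as `theorem t_xxx : S_xxx` (namespace
`Pool.Agent.TRC`); for `EX1`, `EX2` with hypotheses, see there. `im s S` is the image of the set `S`
under the permutation `s` (`Pool/Agent/TRC/Grp.lean`; lemmas `mem_im`, `im_mul`, `im_one`; in
`Pool/Agent/TRC/App.lean`: `im_compl`, `im_sd`, `swC_compl`, `sw_eq`, `iso_im`, `iso_iff`, `mem_AA`).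
-/

set_option autoImplicit false

namespace Pool.Agent.TRC

open Finset Pool.Agent.Lib_helper61.SwitchBasic

/-- All graphs of the class of `C` are reconstructible. -/
def AllRec {α : Type} (C : SimpleGraph α) : Prop :=
  ∀ t t' : Finset α, SameDeck (sw C t) (sw C t') → Nonempty (sw C t ≃g sw C t')

/-- `T` is two stars with centres `u`, `v` (no common neighbour), joined by the edge `xy` of two leaves:
`u ~ x`, `v ~ y`. -/
structure E1 {α : Type} (T : SimpleGraph α) (u v x y : α) : Prop where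
  uv : u ≠ v
  nuv : ¬ T.Adj u v
  ux : T.Adj u x
  vy : T.Adj v y
  xy : T.Adj x y
  one : ∀ z, z ≠ u → z ≠ v → (T.Adj u z ↔ ¬ T.Adj v z)
  rest : ∀ a b, T.Adj a b → a = u ∨ a = v ∨ b = u ∨ b = v ∨ (a = x ∧ b = y) ∨ (a = y ∧ b = x)

/-- `T` is two stars with centres `u`, `v` and a common leaf `w`, to which a leaf `z` is attached. -/
structure E2 {α : Type} (T : SimpleGraph α) (u v w z : α) : Prop where
  uv : u ≠ v
  nuv : ¬ T.Adj u v
  uw : T.Adj u w
  vw : T.Adj v w
  wz : T.Adj w z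
  nuz : ¬ T.Adj u z
  nvz : ¬ T.Adj v z
  zu : z ≠ u
  zv : z ≠ v
  one : ∀ q, q ≠ u → q ≠ v → q ≠ w → q ≠ z → (T.Adj u q ↔ ¬ T.Adj v q)
  rest : ∀ a b, T.Adj a b → a = u ∨ a = v ∨ b = u ∨ b = v ∨ (a = w ∧ b = z) ∨ (a = z ∧ b = w)

/-- OPP. PROOF. `F S := ff (sw C t) (sw C t') (symmDiff t S)`; `sw (sw C t) (symmDiff t S) = sw C S`. By
`sum_ff` and `tr_zero` the sum of `F` over all `S` with `S ∩ U = S₀ ∩ U` is 0 (compare the proof of
`colour` in `Pool/Agent/TRC/Fin.lean`). The term `S₀` is positive, so some term is negative, and there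
`sw C S ≃g sw C t'`. -/
def S_OPP : Prop :=
  ∀ (α : Type) [Fintype α] [DecidableEq α] (C : SimpleGraph α) (t t' U S₀ : Finset α),
    SameDeck (sw C t) (sw C t') → ¬ Nonempty (sw C t ≃g sw C t') → 2 * U.card < Fintype.card α →
    Nonempty (sw C S₀ ≃g sw C t) → ∃ S, S ∩ U = S₀ ∩ U ∧ Nonempty (sw C S ≃g sw C t')

/-- PRR. PROOF. `ff_switch` with `V = {u, v}`, `j = 1`, `S = ∅` (`V` is invariant for `sw C t` too: the
class automorphisms are the same): `ff G H {u, v} = - ff G H ∅ < 0`, so `sw G {u, v} ≃g H`. -/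
def S_PRR : Prop :=
  ∀ (α : Type) [Fintype α] [DecidableEq α] (C : SimpleGraph α) (t t' : Finset α) (u v : α),
    SameDeck (sw C t) (sw C t') → ¬ Nonempty (sw C t ≃g sw C t') → Fintype.card α ≠ 4 → u ≠ v →
    (∀ σ, IsClassAut C σ → (σ u = u ∧ σ v = v) ∨ (σ u = v ∧ σ v = u)) →
    Nonempty (sw C (symmDiff t {u, v}) ≃g sw C t')

/-- ISO. PROOF. First part: `τ` is an isomorphism from `sw C t` to
`sw (sw C V) (im τ t) = sw C (symmDiff (im τ t) V)`. Second part: an isomorphism `σ : sw C S ≃g sw C t` is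
a class automorphism of `C` (`classAut_of_iso`). If `IsAut C σ`, then `σ` maps `sw C S` onto
`sw C (im σ S)`, so `im σ S = t` or `tᶜ` (`sw_eq`; see `iso_iff`). Otherwise `s = τ * σ` is an automorphism
of `C` (`τ` maps `sw C V` onto `sw (sw C V) (im τ V) = C`), `σ = τ * s`, and `σ` maps `sw C S` onto
`sw (sw C V) (im σ S)`, so `symmDiff V (im τ (im s S))` is `t` or `tᶜ`; apply `im τ`. -/
def S_ISO : Prop :=
  ∀ (α : Type) [Fintype α] [DecidableEq α] (C : SimpleGraph α) (τ : Equiv.Perm α) (V : Finset α),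
    (∀ a b, (sw C V).Adj (τ a) (τ b) ↔ C.Adj a b) → (∀ a, τ (τ a) = a) → im τ V = V →
    (∀ t, Nonempty (sw C t ≃g sw C (symmDiff (im τ t) V))) ∧
    ((∀ σ, IsClassAut C σ → IsAut C σ ∨ ∀ a b, (sw C V).Adj (σ a) (σ b) ↔ C.Adj a b) →
      ∀ S t, Nonempty (sw C S ≃g sw C t) → ∃ s, IsAut C s ∧
        (im s S = t ∨ im s S = tᶜ ∨ im s S = symmDiff (im τ t) V ∨
          im s S = (symmDiff (im τ t) V)ᶜ))

/-- PRM. A permutation of `A` and of `B` mapping `S` to `S'`. -/
def S_PRM : Prop :=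
  ∀ (α : Type) [Fintype α] [DecidableEq α] (A B S S' : Finset α), Disjoint A B →
    (S ∩ A).card = (S' ∩ A).card → (S ∩ B).card = (S' ∩ B).card →
    (∀ z, z ∉ A → z ∉ B → (z ∈ S ↔ z ∈ S')) →
    ∃ π : Equiv.Perm α, (∀ z, z ∉ A → z ∉ B → π z = z) ∧ (∀ z ∈ A, π z ∈ A) ∧
      (∀ z ∈ B, π z ∈ B) ∧ im π S = S'

/-- SCL. PROOF. In `Γ = sw C {w}` the vertices of `L` are isolated (`w ∉ L`), so `Γ` has at least
`|L| + 1 ≥ 3` components, and each of them is one vertex or is disjoint from `L`, so it has at most half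
of the vertices. Then as in `core` of `Pool/Agent/Results/MP_e73337_co/Cographs.lean` (theorems
`small_aut`, `main_comps` of `Lib_helper61.SwMain`), with `G = sw C t`, `H = sw C t'`,
`Γ = sw G (symmDiff t {w})`. -/
def S_SCL : Prop :=
  ∀ (α : Type) [Fintype α] [DecidableEq α] (C : SimpleGraph α) (w : α) (L : Finset α),
    (∀ x ∈ L, ∀ y, C.Adj x y ↔ y = w) → Fintype.card α ≤ 2 * L.card → 8 ≤ Fintype.card α →
    AllRec C

/-- CLS. PROOF. As `t_TAU` (`Pool/Agent/TRC/MTAU.lean`): a class automorphism maps `T` onto `sw T S` with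
`|S| ∈ {0, 2, p - 2, p}`, and if `S` or its complement is a pair `{a, b}`, the number of edges gives the
degree equation for `a, b`, so `{a, b} = {u, v}`. -/
def S_CLS : Prop :=
  ∀ (α : Type) [Fintype α] [DecidableEq α] (T : SimpleGraph α) [DecidableRel T.Adj], T.IsTree →
    8 ≤ Fintype.card α → Even (Fintype.card α) → ∀ u v : α, u ≠ v →
    (∀ a b, a ≠ b → T.degree a + T.degree b =
      (if T.Adj a b then Fintype.card α else Fintype.card α - 2) →
      (a = u ∧ b = v) ∨ (a = v ∧ b = u)) →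
    ∀ σ, IsClassAut T σ → IsAut T σ ∨ ∀ a b, (sw T {u, v}).Adj (σ a) (σ b) ↔ T.Adj a b

/-- STR. PROOF. `p = card α`, `T` has `p - 1` edges, exactly `p - 2` of them have an end in `{u, v}` (not
both), so exactly one edge `e` has none. The type of `z ∉ {u, v}` is (z ~ u, z ~ v). At most one vertex
has type (1,1) (no 4-cycle); as `deg u + deg v = p - 2` the number of vertices of type (1,1) is the number
of vertices of type (0,0).
Case 0: no such vertices. `T` is connected, so `e = xy` with `u ~ x`, `v ~ y`: `E1`.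
Case 1: `w` of type (1,1), `z` of type (0,0); `z` has a neighbour, so `e = zr`. If `r = w` this is `E2`.
If `r ≠ w` then `w` has no neighbour in `sw T {u, v}` (`T.Adj w u`, `T.Adj w v`, no other neighbours), so it
is not connected.
Leaves: let `L_u` be the set of leaves at `u` (all vertices whose only neighbour is `u`), similarly `L_v`.
If `|L_u| ≥ p/2` or `|L_v| ≥ p/2` the first alternative holds. Otherwise: in case 0 and for `E2`,
`deg u ≤ |L_u| + 1`, so `deg u, deg v ≤ p/2`, and the other degrees are at most 3. In the last case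
`deg u ≤ |L_u| + 2 ≤ p/2 + 1`, also for `v`, and the other degrees are at most 2. So for `{a, b} ≠ {u, v}`:
`deg a + deg b ≤ p/2 + 3 < p - 2` (`p ≥ 12`). -/
def S_STR : Prop :=
  ∀ (α : Type) [Fintype α] [DecidableEq α] (T : SimpleGraph α) [DecidableRel T.Adj], T.IsTree →
    12 ≤ Fintype.card α → Even (Fintype.card α) → ∀ u v : α, u ≠ v → ¬ T.Adj u v →
    T.degree u + T.degree v = Fintype.card α - 2 →
    (∃ (w : α) (L : Finset α), (∀ x ∈ L, ∀ y, T.Adj x y ↔ y = w) ∧
      Fintype.card α ≤ 2 * L.card) ∨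
    ((∀ a b, a ≠ b → T.degree a + T.degree b =
      (if T.Adj a b then Fintype.card α else Fintype.card α - 2) →
      (a = u ∧ b = v) ∨ (a = v ∧ b = u)) ∧
    ((∃ x y, E1 T u v x y) ∨
      (∃ w z, E2 T u v w z ∧ 2 * T.degree u < Fintype.card α + 2 ∧
        2 * T.degree v < Fintype.card α + 2) ∨
      ¬ (sw T {u, v}).Connected))

/-- EX1: prove `theorem t_EX1 : S_OPP → S_PRR → S_ISO → S_PRM → S_EX1` (the four statements are proved
by others). PROOF. By contradiction. Write `t_z` for `z ∈ t`, `τ = Equiv.swap u v`, `V = {u, v}`,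
`A = N(u) \ {x}`, `B = N(v) \ {y}`, so all vertices are `u, v, x, y` and those of `A`, `B` (leaves).
`(sw T V).Adj (τ a) (τ b) ↔ T.Adj a b` (by `one`), `im τ V = V`. Let `t'' = symmDiff t V`.
(0) All class automorphisms preserve `V` (those of `T` by hypothesis; if `σ` maps `T` onto `sw T V` then
`τ * σ` is an automorphism of `T`). So by PRR `sw T t'' ≃g sw T t' =: H`.
(1) If `t_u ↔ t_v` then `symmDiff (im τ t) V = t''`, so by ISO `sw T t ≃g sw T t'' ≃g H`: done.
(2) Let `t_u ↔ ¬ t_v`. Then `symmDiff (im τ t'') V = t''`, so by ISO `sw T S ≃g H` implies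
`im s S = t''` or `t''ᶜ` for an automorphism `s` of `T` (use `sw T S ≃g sw T t''`). An automorphism `s`
that fixes `u, v` fixes `x, y` and maps `A`, `B` to themselves; one that swaps `u, v` swaps `x, y` and
`A, B` (`xy` is the only edge that does not meet `{u, v}`).
(3) OPP with `U = {u, x}`, `S₀ = t`: `S` with `S_u = t_u`, `S_x = t_x` and `s` as in (2). If `s` fixes `u`:
as `t''_u = ¬ t_u`, `im s S = t''ᶜ`, so `S_x = ¬ t''_x = ¬ t_x`, contradiction. So `s =: ρ` swaps `u, v`,
`t''_v = ¬ t_v = t_u`, so `im ρ S = t''`, `t_y = S_x = t_x`. In particular `|A| = |B| =: a`,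
`card α = 2 a + 4`, `t_x ↔ t_y`.
(4) Let `m = |t ∩ A|`, `n = |t ∩ B|`. OPP with `U = insert u A` (`2 |U| = 2 a + 2`), `S₀ = t`: if `s` fixes
`u` then `im s S = t''ᶜ`, `m = |S ∩ A| = a - m`; if `s` swaps, `im s S = t''`, `m = |S ∩ A| = n`.
Similarly with `insert v B`: `n = a - n` or `n = m`. So `m = n`.
(5) `im ρ t''` agrees with `t` in `u, v, x, y` (`t''_v = t_u`, ..., `t_y = t_x`) and has `n = m`
elements in `A` and `m = n` in `B`. By PRM there is `π` with `im π (im ρ t'') = t`; it is an automorphism of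
`T` (the vertices of `A`, `B` are leaves). So `sw T t'' ≃g sw T t` (`iso_im`), contradiction. -/
def S_EX1 : Prop :=
  ∀ (α : Type) [Fintype α] [DecidableEq α] (T : SimpleGraph α) (u v x y : α), E1 T u v x y →
    8 ≤ Fintype.card α →
    (∀ s, IsAut T s → (s u = u ∧ s v = v) ∨ (s u = v ∧ s v = u)) →
    (∀ σ, IsClassAut T σ → IsAut T σ ∨ ∀ a b, (sw T {u, v}).Adj (σ a) (σ b) ↔ T.Adj a b) →
    AllRec T

/-- EX2: prove `theorem t_EX2 : S_OPP → S_PRR → S_ISO → S_PRM → S_EX2` (the four statements are proved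
by others). PROOF. By contradiction. Notation as in EX1, now `τ = Equiv.swap u v * Equiv.swap w z`,
`V = {u, v}`, `A = N(u) \ {w}`, `B = N(v) \ {w}`, `a = |A|`, `b = |B|`, `card α = a + b + 4 = 0 mod 4`,
`a = b mod 2`, so the degree hypotheses give `a ≤ b + 2` and `b ≤ a + 2`. Again
`(sw T V).Adj (τ a) (τ b) ↔ T.Adj a b`. Write `q^τ = symmDiff (im τ q) V`: `q^τ` has the colours
`¬ q_v, ¬ q_u, q_z, q_w` at `u, v, w, z` and is `q` on `A ∪ B`. Automorphisms of `T` fix `w, z` and fix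
`u, v, A, B` or swap `u, v` and `A, B`.
(0) All class automorphisms preserve `V`; PRR: `sw T t'' ≃g H`, `t'' = symmDiff t V`. By ISO
`sw T S ≃g H` implies that `im s S` is one of `t''`, `t''ᶜ`, `t''^τ`, `(t''^τ)ᶜ`.
(1) `t_u ↔ t_v`. If `t_w ↔ t_z` then `t^τ = t''`, so `sw T t ≃g sw T t''`, done. If `t_w ↔ ¬ t_z`: OPP with
`U = {u, w}`, `S₀ = t`: `S_u = t_u`, `S_w = t_w`. All four sets have equal colours at `u, v`, so
`(im s S)_u = S_u = t_u` and `(im s S)_w = S_w = t_w`; but the colours at `(u, w)` are: `t''`: `¬ t_u`;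
`t''ᶜ`: `(t_u, ¬ t_w)`; `t''^τ`: `(t_u, t_z)`, `t_z = ¬ t_w`; `(t''^τ)ᶜ`: `¬ t_u`. Contradiction.
(2) `t_u ↔ ¬ t_v`. Then `t''^τ` is `t''` with the colours of `w, z` exchanged. If `S_u = t_u` and
`sw T S ≃g H` with `s` as in (0): if `s` fixes `u`, `im s S` is `t''ᶜ` or `(t''^τ)ᶜ`; if `s` swaps
`u, v`, it is `t''` or `t''^τ`. The same if `S_v = t_v`.
Let `m = |t ∩ A|`, `n = |t ∩ B|`. OPP with `U = insert u A` (if `a < b + 2`) and `S₀ = t` gives:
(i) `m = a - m`, or (ii) there is a swapping automorphism `ρ` and `m = n`. OPP with `U = insert v B` (if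
`b < a + 2`) gives: (i') `n = b - n`, or (ii') there is a swapping `ρ` and `m = n`.
If `a ≥ b + 2`, so `a = b + 2`, then `a, b` are odd (`card α = 2 b + 6 = 0 mod 4`), so (i') is
impossible and (ii') is impossible as `a ≠ b` (`ρ` maps `A` onto `B`). The same if `b ≥ a + 2`.
So both are available. If (ii) or (ii') holds: `im ρ t''` agrees with `t` in `u, v, w, z` and has as many
elements as `t` in `A` and in `B`; PRM gives an automorphism `π` with `im π (im ρ t'') = t`, so
`sw T t'' ≃g sw T t`, contradiction. Otherwise `m = a - m`, `n = b - n`. If `t_w ↔ ¬ t_z`, then `t''ᶜ` has the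
colours `t_u, t_v, t_z, t_w` at `u, v, w, z`, as `t^τ`, and as many elements in `A`, `B`, so PRM gives
`sw T t'' ≃g sw T t^τ ≃g sw T t`. If `t_w ↔ t_z`: OPP with `U = {u, w}`, `S₀ = t`: if `s` fixes `u` then `S_w` is
`¬ t_w` or `¬ t_z`, but `S_w = t_w`, contradiction; so there is a swapping `ρ`, `a = b`,
`m = n = a/2`, and we are in the situation of (ii). -/
def S_EX2 : Prop :=
  ∀ (α : Type) [Fintype α] [DecidableEq α] (T : SimpleGraph α) [DecidableRel T.Adj] (u v w z : α),
    E2 T u v w z → 8 ≤ Fintype.card α → Fintype.card α % 4 = 0 →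
    2 * T.degree u < Fintype.card α + 2 → 2 * T.degree v < Fintype.card α + 2 →
    (∀ s, IsAut T s → (s u = u ∧ s v = v) ∨ (s u = v ∧ s v = u)) →
    (∀ σ, IsClassAut T σ → IsAut T σ ∨ ∀ a b, (sw T {u, v}).Adj (σ a) (σ b) ↔ T.Adj a b) →
    AllRec T

end Pool.Agent.TRC
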