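import Pool.Agent.TRC.Fin
import Pool.Agent.TRC.Std
import Pool.Agent.TRC.MCEN
import Pool.Agent.TRC.MTAU
import Pool.Agent.TRC.MFIX
import Pool.Agent.TRC.MEUQ
import Pool.Agent.TRC.MRIG
import Pool.Agent.TRC.MDST

/-!
# TRC: the theorems on central vertices, central edges and trees
-/

set_option autoImplicit false

namespace Pool.Agent.TRC

open Finset Pool.Agent.Lib_helper61.SwitchBasic Pool.Agent.Lib_helper61.SwMain
  Pool.Agent.Lib_helper61.SwCograph

variable {α : Type} [Fintype α] [DecidableEq α]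

/-- a graph with the deck of a member of the class is isomorphic to a member of the class -/
theorem of_all {C : SimpleGraph α} (h : AllRec C) (S : Finset α) (H : SimpleGraph α)
    (hdeck : SameDeck (sw C S) H) : Nonempty (sw C S ≃g H) := by
  by_cases hα : Nonempty α
  · obtain ⟨i⟩ := hα
    obtain ⟨T, ⟨φ⟩⟩ := exists_sw hdeck i
    rw [sw_sw] at φ
    have h2 : SameDeck (sw C S) (sw C (symmDiff S T)) := by
      obtain ⟨σ, hσ⟩ := hdeck
      refine ⟨σ.trans φ.symm.toEquiv, fun j => ?_⟩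
      obtain ⟨ψ⟩ := hσ j
      have θ := isoSw φ.symm {σ j}
      rw [Finset.map_singleton] at θ
      exact ⟨ψ.trans θ⟩
    obtain ⟨χ⟩ := h S (symmDiff S T) h2
    exact ⟨χ.trans φ⟩
  · have : IsEmpty α := not_nonempty_iff.1 hα
    exact ⟨⟨Equiv.refl _, fun {a} => isEmptyElim a⟩⟩

theorem classAut_of_aut {C : SimpleGraph α} {s : Equiv.Perm α} (hs : IsAut C s) :
    IsClassAut C s := ⟨∅, fun u v => by rw [sw_empty]; exact hs u v⟩

/-- Central vertex. -/
theorem central_vertex (h4 : Fintype.card α ≠ 4) (C : SimpleGraph α) (c : α)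
    (hc : ∀ x, x ≠ c → 2 * (blk C c x).card < Fintype.card α)
    (hfix : ∀ σ, IsClassAut C σ → σ c = c) : AllRec C := by
  intro t t' hdeck
  by_contra hne
  obtain ⟨⟨m, hm⟩, h0⟩ := four_dvd hdeck hne
  have he : Even (Fintype.card α) := ⟨2 * m, by omega⟩
  apply hne
  exact vertex_core (c := c) (by omega) he hc
    (fun σ hσ => t_RIG α C c he hc σ hσ (hfix σ hσ))
    (fun s hs => hfix s (classAut_of_aut hs)) hdeck

/-- Central edge. -/
theorem central_edge (h4 : Fintype.card α ≠ 4) (C : SimpleGraph α) (hC : C.Connected) (c d : α)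
    (hcd : C.Adj c d) (hr : ¬ (cut C c d).Reachable c d)
    (h1 : 2 * (side C c d).card = Fintype.card α) (h2 : 2 * (side C d c).card = Fintype.card α)
    (hA : ∀ σ, IsClassAut C σ → IsAut C σ) : AllRec C := by
  intro t t' hdeck
  by_contra hne
  obtain ⟨⟨m, hm⟩, h0⟩ := four_dvd hdeck hne
  apply hne
  exact edge_core (by omega) hcd hr h1 h2 hA
    (fun s hs => t_EUQ α C c d hC hcd hr h1 h2 s hs) hdeck

/-- Cographs (the landed theorem on cographs, for the library form of the hypothesis). -/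
theorem cograph_core {G H Γ : SimpleGraph α} (h4 : Fintype.card α ≠ 4) {S : Finset α}
    (hΓ : sw G S = Γ) (h3 : 3 ≤ Nat.card Γ.ConnectedComponent)
    (hs : ∀ c : Γ.ConnectedComponent, 2 * c.supp.ncard ≤ Fintype.card α)
    (hdeck : SameDeck G H) : Nonempty (G ≃g H) := by
  by_contra hne
  obtain ⟨⟨m, hm⟩, h0⟩ := four_dvd hdeck hne
  apply hne
  refine main_comps h4 h3 (fun c => ?_) (small_aut _ h3 hs) S hΓ hdeck
  have := hs c
  omega

theorem cograph_all {C : SimpleGraph α} (h4 : Fintype.card α ≠ 4) (S : Finset α)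
    (hP : P4Free (sw C S)) : AllRec C := by
  intro t t' hdeck
  by_contra hne
  obtain ⟨⟨m, hm⟩, h0⟩ := four_dvd hdeck hne
  apply hne
  have e1 : ∀ T, sw (sw C t) (symmDiff t (symmDiff S T)) = sw (sw C S) T := by
    intro T
    rw [sw_sw, sw_sw, symmDiff_symmDiff_cancel_left]
  obtain ⟨T, ⟨h3, hs⟩ | ⟨h3, hs⟩⟩ := exists_three (sw C S) hP (by omega)
  · exact cograph_core h4 (e1 T) h3 hs hdeck
  · refine iso_compl (cograph_core h4 (S := symmDiff t (symmDiff S T)) ?_ h3 hs
      (sameDeck_compl hdeck))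
    rw [← sw_isoCompl, e1, sw_isoCompl]

/-- Trees all of whose class automorphisms are automorphisms. -/
theorem tree_core (h4 : Fintype.card α ≠ 4) (T : SimpleGraph α) (hT : T.IsTree)
    (hA : ∀ σ, IsClassAut T σ → IsAut T σ) : AllRec T := by
  intro t t' hdeck
  by_contra hne
  obtain ⟨⟨m, hm⟩, h0⟩ := four_dvd hdeck hne
  apply hne
  rcases t_CEN α T hT (by omega) with ⟨c, hc⟩ | ⟨c, d, hcd, hr, h1, h2⟩
  · exact central_vertex h4 T c hc (fun σ hσ => t_FIX α T c hT.connected hc σ (hA σ hσ))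
      t t' hdeck
  · exact central_edge h4 T hT.connected c d hcd hr h1 h2 hA t t' hdeck

/-- Trees without an exceptional pair of vertices. -/
theorem tree_pair (h4 : Fintype.card α ≠ 4) (T : SimpleGraph α) [DecidableRel T.Adj]
    (hT : T.IsTree)
    (hd : ∀ u v, u ≠ v → ¬ T.Adj u v → T.degree u + T.degree v ≠ Fintype.card α - 2) :
    AllRec T := by
  intro t t' hdeck
  by_contra hne
  obtain ⟨⟨m, hm⟩, h0⟩ := four_dvd hdeck hne
  apply hne
  by_cases hu : ∃ u v, T.Adj u v ∧ T.degree u + T.degree v = Fintype.card α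
  · obtain ⟨u, v, huv, h⟩ := hu
    exact cograph_all h4 {u} (t_DST α T hT u v huv h) t t' hdeck
  · push Not at hu
    refine tree_core h4 T hT (t_TAU α T hT (by omega) ⟨2 * m, by omega⟩ ?_) t t' hdeck
    intro u v huv
    split_ifs with h
    · exact hu u v h
    · exact hd u v huv h

end Pool.Agent.TRC
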