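import Pool.Agent.TRC.Ste
import Pool.Agent.TRC.MTAU

/-!
# TRC, module CL2: class automorphisms of a tree
-/

set_option autoImplicit false

namespace Pool.Agent.TRC

open Finset Pool.Agent.Lib_helper61.SwitchBasic

namespace CL2

variable {α : Type} [Fintype α] [DecidableEq α]

omit [Fintype α] [DecidableEq α] in
/-- `sw` only depends on the partition `S`, `Sᶜ`. -/
theorem sw_congr (T : SimpleGraph α) (S S' : Finset α)
    (h : ∀ x y, ((x ∈ S ↔ y ∈ S) ↔ (x ∈ S' ↔ y ∈ S'))) (x y : α) :
    (sw T S).Adj x y ↔ (sw T S').Adj x y := by
  rw [sw_adj, sw_adj, h x y]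

end CL2

theorem t_CL2 : S_CL2 := by
  intro α _ _ T _ hT h8 heven σ hσ
  obtain ⟨S, hS⟩ := hσ
  have hk := TAU.key T S σ hS
  have hl := TAU.cr_le T hT S
  have hsc : S.card ≤ Fintype.card α := Finset.card_le_univ S
  have pair : ∀ u v, u ≠ v → TAU.cr T {u, v} = (Fintype.card α : ℤ) - 2 → DegEq T u v := by
    intro u v huv h
    rw [TAU.cr_pair T u v huv] at h
    refine ⟨huv, ?_⟩
    unfold TAU.ad at h
    by_cases ha : T.Adj u v
    · rw [if_pos ha] at h ⊢
      have : ((T.degree u + T.degree v : ℕ) : ℤ) = (Fintype.card α : ℕ) := by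
        push_cast
        linarith
      exact_mod_cast this
    · rw [if_neg ha] at h ⊢
      have : ((T.degree u + T.degree v : ℕ) : ℤ) = ((Fintype.card α - 2 : ℕ) : ℤ) := by
        rw [Nat.cast_sub (by omega)]
        push_cast
        linarith
      exact_mod_cast this
  have hcases : (S.card = 0 ∨ S.card = Fintype.card α) ∨
      ∃ u v, DegEq T u v ∧ (S = {u, v} ∨ Sᶜ = {u, v}) := by
    by_contra hcon
    rw [not_or, not_or] at hcon
    obtain ⟨⟨h0, hp⟩, hq⟩ := hcon
    obtain ⟨k, hk2⟩ := heven
    -- `2 * cr T S = s (p - s)`
    rcases Nat.lt_or_ge S.card 3 with h3 | h3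
    · have h12 : S.card = 1 ∨ S.card = 2 := by omega
      rcases h12 with h1 | h2
      · rw [h1] at hk
        push_cast at hk
        have : (Fintype.card α : ℤ) = k + k := by exact_mod_cast hk2
        omega
      · obtain ⟨u, v, huv, hSe⟩ := Finset.card_eq_two.1 h2
        apply hq
        refine ⟨u, v, ?_, Or.inl hSe⟩
        apply pair u v huv
        rw [← hSe]
        rw [h2] at hk
        push_cast at hk
        linarith
    · rcases Nat.lt_or_ge (Fintype.card α - 3) S.card with h4 | h4
      · have h12 : S.card + 1 = Fintype.card α ∨ S.card + 2 = Fintype.card α := by omega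
        rcases h12 with h1 | h2
        · have e : (S.card : ℤ) + 1 = Fintype.card α := by exact_mod_cast h1
          have e' : (S.card : ℤ) = (Fintype.card α : ℤ) - 1 := by linarith
          rw [e'] at hk
          have : (Fintype.card α : ℤ) = k + k := by exact_mod_cast hk2
          have hk3 : (Fintype.card α : ℤ) - 1 = 2 * TAU.cr T S := by
            rw [← hk]; ring
          omega
        · have hc2 : Sᶜ.card = 2 := by
            rw [Finset.card_compl]
            omega
          obtain ⟨u, v, huv, hSc⟩ := Finset.card_eq_two.1 hc2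
          apply hq
          refine ⟨u, v, ?_, Or.inr hSc⟩
          apply pair u v huv
          rw [← hSc, TAU.cr_compl]
          have e : (S.card : ℤ) + 2 = Fintype.card α := by exact_mod_cast h2
          have e' : (S.card : ℤ) = (Fintype.card α : ℤ) - 2 := by linarith
          rw [e'] at hk
          have hk3 : 2 * ((Fintype.card α : ℤ) - 2) = 2 * TAU.cr T S := by
            rw [← hk]; ring
          linarith
      · have g3 : (3 : ℤ) ≤ S.card := by exact_mod_cast h3
        have g4 : (S.card : ℤ) ≤ (Fintype.card α : ℤ) - 3 := by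
          have : S.card + 3 ≤ Fintype.card α := by omega
          have h' : (S.card : ℤ) + 3 ≤ Fintype.card α := by exact_mod_cast this
          linarith
        have g8 : (8 : ℤ) ≤ Fintype.card α := by exact_mod_cast h8
        nlinarith [mul_nonneg (sub_nonneg.2 g3) (sub_nonneg.2 g4)]
  rcases hcases with hcases | hcases
  · left
    have hsw : ∀ u v, (sw T S).Adj u v ↔ T.Adj u v := by
      intro u v
      rw [sw_adj]
      have hiff : (u ∈ S ↔ v ∈ S) := by
        rcases hcases with h | h
        · rw [Finset.card_eq_zero] at h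
          rw [h]
          simp
        · have : S = univ := (Finset.card_eq_iff_eq_univ S).1 h
          rw [this]
          simp
      constructor
      · intro h
        exact h.2.2 hiff
      · intro h
        exact ⟨h.ne, ⟨fun _ => hiff, fun _ => h⟩⟩
    intro u v
    rw [← hsw, hS]
  · right
    obtain ⟨u, v, huv, hcases⟩ := hcases
    refine ⟨u, v, huv, fun a b => ?_⟩
    rcases hcases with h | h
    · rw [← h]
      exact hS a b
    · rw [← h]
      rw [← hS a b]
      apply CL2.sw_congr
      intro x y
      rw [Finset.mem_compl, Finset.mem_compl]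
      tauto

end Pool.Agent.TRC
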