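import Pool.Agent.TRC.Std

/-!
# TRC, module EX1: the exceptional trees of the first kind
-/

set_option autoImplicit false

namespace Pool.Agent.TRC

open Finset Pool.Agent.Lib_helper61.SwitchBasic

namespace EX1

section

variable {α : Type} {T : SimpleGraph α} {u v x y : α}

theorem xu (h : E1 T u v x y) : x ≠ u := h.ux.ne'

theorem yv (h : E1 T u v x y) : y ≠ v := h.vy.ne'

theorem xv (h : E1 T u v x y) : x ≠ v := by
  intro e
  have := h.ux
  rw [e] at this
  exact h.nuv this

theorem symE (h : E1 T u v x y) : E1 T v u y x where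
  uv := h.uv.symm
  nuv := fun g => h.nuv g.symm
  ux := h.vy
  vy := h.ux
  xy := h.xy.symm
  one := fun z h1 h2 => by
    have := h.one z h2 h1
    tauto
  rest := fun a b g => by
    rcases h.rest a b g with e | e | e | e | e | e
    · right; left; exact e
    · left; exact e
    · right; right; right; left; exact e
    · right; right; left; exact e
    · right; right; right; right; right; exact e
    · right; right; right; right; left; exact e

theorem yu (h : E1 T u v x y) : y ≠ u := xv (symE h)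

theorem nvx (h : E1 T u v x y) : ¬ T.Adj v x := (h.one x (xu h) (xv h)).1 h.ux

theorem nuy (h : E1 T u v x y) : ¬ T.Adj u y := nvx (symE h)

theorem fix (h : E1 T u v x y) {s : Equiv.Perm α} (hs : IsAut T s) (h1 : s u = u)
    (h2 : s v = v) : s x = x ∧ s y = y := by
  have e : T.Adj (s x) (s y) := (hs x y).2 h.xy
  have n1 : s x ≠ u := fun g => xu h (s.injective (g.trans h1.symm))
  have n2 : s x ≠ v := fun g => xv h (s.injective (g.trans h2.symm))
  have n3 : s y ≠ u := fun g => yu h (s.injective (g.trans h1.symm))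
  have n4 : s y ≠ v := fun g => yv h (s.injective (g.trans h2.symm))
  rcases h.rest _ _ e with g | g | g | g | g | g
  · exact absurd g n1
  · exact absurd g n2
  · exact absurd g n3
  · exact absurd g n4
  · exact g
  · have g2 : T.Adj (s u) (s x) := (hs u x).2 h.ux
    rw [h1, g.1] at g2
    exact absurd g2 (nuy h)

theorem swp (h : E1 T u v x y) {s : Equiv.Perm α} (hs : IsAut T s) (h1 : s u = v)
    (h2 : s v = u) : s x = y ∧ s y = x := by
  have e : T.Adj (s x) (s y) := (hs x y).2 h.xy
  have n1 : s x ≠ u := fun g => xv h (s.injective (g.trans h2.symm))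
  have n2 : s x ≠ v := fun g => xu h (s.injective (g.trans h1.symm))
  have n3 : s y ≠ u := fun g => yv h (s.injective (g.trans h2.symm))
  have n4 : s y ≠ v := fun g => yu h (s.injective (g.trans h1.symm))
  rcases h.rest _ _ e with g | g | g | g | g | g
  · exact absurd g n1
  · exact absurd g n2
  · exact absurd g n3
  · exact absurd g n4
  · have g2 : T.Adj (s u) (s x) := (hs u x).2 h.ux
    rw [h1, g.1] at g2
    exact absurd g2 (nvx h)
  · exact g

end

section

variable {α : Type} [DecidableEq α] {T : SimpleGraph α} {u v x y : α}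

theorem sdu (q : Finset α) : u ∈ symmDiff q {u, v} ↔ u ∉ q := by
  rw [mem_symmDiff]; simp

theorem sdv (q : Finset α) : v ∈ symmDiff q {u, v} ↔ v ∉ q := by
  rw [mem_symmDiff]; simp

theorem sdz (q : Finset α) {z : α} (hu : z ≠ u) (hv : z ≠ v) :
    z ∈ symmDiff q {u, v} ↔ z ∈ q := by
  rw [mem_symmDiff]; simp [hu, hv]

theorem tau (h : E1 T u v x y) (a b : α) :
    (sw T {u, v}).Adj (Equiv.swap u v a) (Equiv.swap u v b) ↔ T.Adj a b := by
  have hvu : ¬ T.Adj v u := fun g => h.nuv g.symm
  have huv := h.nuv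
  have huv' := h.uv
  have huv'' := h.uv.symm
  rw [sw_adj]
  by_cases a1 : a = u
  · rw [a1, Equiv.swap_apply_left]
    by_cases b1 : b = u
    · rw [b1, Equiv.swap_apply_left]; simp
    · by_cases b2 : b = v
      · rw [b2, Equiv.swap_apply_right]; simp [huv, hvu]
      · rw [Equiv.swap_apply_of_ne_of_ne b1 b2]
        have := h.one b b1 b2
        have b2' : v ≠ b := fun e => b2 e.symm
        simp [b1, b2, b2', this]
  · by_cases a2 : a = v
    · rw [a2, Equiv.swap_apply_right]
      by_cases b1 : b = u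
      · rw [b1, Equiv.swap_apply_left]; simp [huv, hvu]
      · by_cases b2 : b = v
        · rw [b2, Equiv.swap_apply_right]; simp
        · rw [Equiv.swap_apply_of_ne_of_ne b1 b2]
          have := h.one b b1 b2
          have b1' : u ≠ b := fun e => b1 e.symm
          simp [b1, b2, b1', this]
    · rw [Equiv.swap_apply_of_ne_of_ne a1 a2]
      by_cases b1 : b = u
      · rw [b1, Equiv.swap_apply_left]
        have := h.one a a1 a2
        rw [T.adj_comm a v, T.adj_comm a u, this]
        simp [a1, a2]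
      · by_cases b2 : b = v
        · rw [b2, Equiv.swap_apply_right]
          have := h.one a a1 a2
          rw [T.adj_comm a v, T.adj_comm a u, this]
          simp [a1, a2]
        · rw [Equiv.swap_apply_of_ne_of_ne b1 b2]
          simp only [mem_insert, mem_singleton, a1, a2, b1, b2, or_self, iff_self, iff_true]
          constructor
          · exact fun g => g.2
          · exact fun g => ⟨g.ne, g⟩

theorem im_tau_eq (t : Finset α) (h : u ∈ t ↔ v ∈ t) : im (Equiv.swap u v) t = t := by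
  ext z
  rw [mem_im, Equiv.swap_inv]
  by_cases h1 : z = u
  · rw [h1, Equiv.swap_apply_left]; exact h.symm
  · by_cases h2 : z = v
    · rw [h2, Equiv.swap_apply_right]; exact h
    · rw [Equiv.swap_apply_of_ne_of_ne h1 h2]

theorem im_tau : im (Equiv.swap u v) {u, v} = ({u, v} : Finset α) :=
  im_tau_eq _ (by simp)

theorem im_tau_sd (q : Finset α) (h : u ∈ q ↔ v ∉ q) :
    symmDiff (im (Equiv.swap u v) q) {u, v} = q := by
  ext z
  by_cases h1 : z = u
  · rw [h1, sdu, mem_im, Equiv.swap_inv, Equiv.swap_apply_left]; exact h.symm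
  · by_cases h2 : z = v
    · rw [h2, sdv, mem_im, Equiv.swap_inv, Equiv.swap_apply_right]; tauto
    · rw [sdz _ h1 h2, mem_im, Equiv.swap_inv, Equiv.swap_apply_of_ne_of_ne h1 h2]

variable [Fintype α]

open Classical in
/-- The neighbours of `u` except `x`. -/
noncomputable def sA {α : Type} [Fintype α] (T : SimpleGraph α) (u x : α) : Finset α :=
  univ.filter fun z => T.Adj u z ∧ z ≠ x

omit [DecidableEq α] in
theorem mem_sA {z : α} : z ∈ sA T u x ↔ T.Adj u z ∧ z ≠ x := by
  simp [sA]

omit [DecidableEq α] in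
theorem leafA (h : E1 T u v x y) {z : α} (hz : z ∈ sA T u x) (b : α) : T.Adj z b ↔ b = u := by
  rw [mem_sA] at hz
  constructor
  · intro g
    have zu : z ≠ u := hz.1.ne'
    have zv : z ≠ v := fun e => h.nuv (e ▸ hz.1)
    have zy : z ≠ y := fun e => nuy h (e ▸ hz.1)
    rcases h.rest _ _ g with e | e | e | e | e | e
    · exact absurd e zu
    · exact absurd e zv
    · exact e
    · rw [e] at g
      exact absurd g.symm ((h.one z zu zv).1 hz.1)
    · exact absurd e.1 hz.2
    · exact absurd e.1 zy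
  · intro g; rw [g]; exact hz.1.symm

omit [DecidableEq α] in
theorem notA (h : E1 T u v x y) : u ∉ sA T u x ∧ v ∉ sA T u x ∧ x ∉ sA T u x ∧ y ∉ sA T u x := by
  refine ⟨?_, ?_, ?_, ?_⟩
  · rw [mem_sA]; exact fun g => g.1.ne rfl
  · rw [mem_sA]; exact fun g => h.nuv g.1
  · rw [mem_sA]; exact fun g => g.2 rfl
  · rw [mem_sA]; exact fun g => nuy h g.1

omit [DecidableEq α] in
theorem disjAB (h : E1 T u v x y) : Disjoint (sA T u x) (sA T v y) := by
  rw [Finset.disjoint_left]
  intro z h1 h2
  have h3 := (leafA h h1 v).1 ((mem_sA.1 h2).1.symm)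
  exact h.uv h3.symm

theorem card_ge (h : E1 T u v x y) :
    (sA T u x).card + (sA T v y).card + 4 ≤ Fintype.card α := by
  obtain ⟨a1, a2, a3, a4⟩ := notA h
  obtain ⟨b1, b2, b3, b4⟩ := notA (symE h)
  have e4 : (insert y (sA T u x ∪ sA T v y)).card = (sA T u x).card + (sA T v y).card + 1 := by
    rw [card_insert_of_notMem, card_union_of_disjoint (disjAB h)]
    rw [mem_union]; tauto
  have e3 : (insert x (insert y (sA T u x ∪ sA T v y))).card =
      (sA T u x).card + (sA T v y).card + 2 := by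
    rw [card_insert_of_notMem, e4]
    rw [mem_insert, mem_union]
    have := h.xy.ne
    tauto
  have e2 : (insert v (insert x (insert y (sA T u x ∪ sA T v y)))).card =
      (sA T u x).card + (sA T v y).card + 3 := by
    rw [card_insert_of_notMem, e3]
    rw [mem_insert, mem_insert, mem_union]
    have := (xv h).symm
    have := (yv h).symm
    tauto
  have e1 : (insert u (insert v (insert x (insert y (sA T u x ∪ sA T v y))))).card =
      (sA T u x).card + (sA T v y).card + 4 := by
    rw [card_insert_of_notMem, e2]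
    rw [mem_insert, mem_insert, mem_insert, mem_union]
    have := h.uv
    have := (xu h).symm
    have := (yu h).symm
    tauto
  rw [← e1]
  exact card_le_univ _

omit [DecidableEq α] in
theorem mapA {s : Equiv.Perm α} (hs : IsAut T s) {p q p' q' : α} (h1 : s p = p') (h2 : s q = q')
    (z : α) : s z ∈ sA T p' q' ↔ z ∈ sA T p q := by
  rw [mem_sA, mem_sA, ← h1, ← h2, hs p z]
  exact and_congr Iff.rfl s.injective.ne_iff

theorem card_im {s : Equiv.Perm α} (hs : IsAut T s) {p q p' q' : α} (h1 : s p = p')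
    (h2 : s q = q') (S : Finset α) : (im s S ∩ sA T p' q').card = (S ∩ sA T p q).card := by
  have e : im s S ∩ sA T p' q' = im s (S ∩ sA T p q) := by
    ext z
    rw [mem_inter, mem_im, mem_im, mem_inter]
    have := mapA hs h1 h2 (s⁻¹ z)
    rw [show s (s⁻¹ z) = z by simp] at this
    rw [this]
  rw [e]
  exact card_map _

theorem card_A {s : Equiv.Perm α} (hs : IsAut T s) {p q p' q' : α} (h1 : s p = p')
    (h2 : s q = q') : (sA T p' q').card = (sA T p q).card := by
  have h3 := card_im hs h1 h2 univ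
  have e : im s (univ : Finset α) = univ := by
    ext z
    rw [mem_im]
    simp
  rwa [e, univ_inter, univ_inter] at h3

end


theorem inv_of {α : Type} {s : Equiv.Perm α} {a b : α} (h : s a = b) : s⁻¹ b = a := by
  rw [← h]; simp

theorem pr1 {a b : Prop} (h : ¬ (a ↔ b)) : ¬ a ↔ ¬ ¬ b := by tauto

theorem pr2 {a b : Prop} (h : ¬ ¬ b ↔ a) : a ↔ b := by tauto

theorem pr3 {a b : Prop} (h : ¬ ¬ a ↔ b) : a ↔ b := by tauto

theorem pr4 {a b : Prop} : ¬ a ∧ b ↔ b ∧ ¬ (a ∧ b) := by tauto

theorem pr5 {a b : Prop} (h : ¬ (a ↔ b)) : ¬ b ↔ a := by tauto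

theorem pr6 {a b : Prop} (h : ¬ (a ↔ b)) : ¬ a ↔ b := by tauto

end EX1

theorem t_EX1 : S_OPP → S_PRR → S_ISO → S_PRM → S_EX1 := by
  intro hOPP hPRR hISO hPRM α _ _ T u v x y h hn hV hC t t' hdeck
  by_contra hne
  obtain ⟨iso1, iso2'⟩ := hISO α T (Equiv.swap u v) {u, v} (EX1.tau h)
    (fun a => Equiv.swap_apply_self u v a) EX1.im_tau
  have iso2 := iso2' hC
  have hcls : ∀ σ, IsClassAut T σ → (σ u = u ∧ σ v = v) ∨ (σ u = v ∧ σ v = u) := by
    intro σ hσ
    rcases hC σ hσ with h1 | h1
    · exact hV σ h1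
    · have h2 : IsAut T (Equiv.swap u v * σ) := by
        intro a b
        have h3 := EX1.tau h (Equiv.swap u v (σ a)) (Equiv.swap u v (σ b))
        rw [Equiv.swap_apply_self, Equiv.swap_apply_self, h1] at h3
        exact h3.symm
      rcases hV _ h2 with ⟨h3, h4⟩ | ⟨h3, h4⟩
      · right
        rw [Equiv.Perm.mul_apply] at h3 h4
        constructor
        · have := congrArg (Equiv.swap u v) h3
          rwa [Equiv.swap_apply_self, Equiv.swap_apply_left] at this
        · have := congrArg (Equiv.swap u v) h4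
          rwa [Equiv.swap_apply_self, Equiv.swap_apply_right] at this
      · left
        rw [Equiv.Perm.mul_apply] at h3 h4
        constructor
        · have := congrArg (Equiv.swap u v) h3
          rwa [Equiv.swap_apply_self, Equiv.swap_apply_right] at this
        · have := congrArg (Equiv.swap u v) h4
          rwa [Equiv.swap_apply_self, Equiv.swap_apply_left] at this
  have hH : Nonempty (sw T (symmDiff t {u, v}) ≃g sw T t') :=
    hPRR α T t t' u v hdeck hne (by omega) h.uv hcls
  have hne2 : ¬ Nonempty (sw T (symmDiff t {u, v}) ≃g sw T t) := fun ⟨φ⟩ =>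
    hH.elim fun ψ => hne ⟨φ.symm.trans ψ⟩
  by_cases hc : (u ∈ t ↔ v ∈ t)
  · have g := iso1 t
    rw [EX1.im_tau_eq t hc] at g
    exact hne2 (g.map fun φ => φ.symm)
  have tu : u ∈ symmDiff t {u, v} ↔ u ∉ t := EX1.sdu t
  have tv : v ∈ symmDiff t {u, v} ↔ v ∉ t := EX1.sdv t
  have tz : ∀ z, z ≠ u → z ≠ v → (z ∈ symmDiff t {u, v} ↔ z ∈ t) := fun z h1 h2 =>
    EX1.sdz t h1 h2
  have key : ∀ U : Finset α, 2 * U.card < Fintype.card α → (u ∈ U ∨ v ∈ U) →
      ∃ (S : Finset α) (s : Equiv.Perm α), (∀ z ∈ U, (z ∈ S ↔ z ∈ t)) ∧ IsAut T s ∧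
        ((s u = u ∧ s v = v ∧ im s S = (symmDiff t {u, v})ᶜ) ∨
          (s u = v ∧ s v = u ∧ im s S = symmDiff t {u, v})) := by
    intro U hU huU
    obtain ⟨S, hS1, ⟨φ⟩⟩ := hOPP α T t t' U t hdeck hne hU ⟨SimpleGraph.Iso.refl⟩
    have hS : ∀ z ∈ U, (z ∈ S ↔ z ∈ t) := by
      intro z hz
      have h1 : z ∈ S ∩ U ↔ z ∈ t ∩ U := by rw [hS1]
      rw [mem_inter, mem_inter] at h1
      exact ⟨fun g => (h1.1 ⟨g, hz⟩).1, fun g => (h1.2 ⟨g, hz⟩).1⟩
    have hiso : Nonempty (sw T S ≃g sw T (symmDiff t {u, v})) :=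
      hH.elim fun ψ => ⟨φ.trans ψ.symm⟩
    obtain ⟨s, hs, h4⟩ := iso2 S _ hiso
    have hq : symmDiff (im (Equiv.swap u v) (symmDiff t {u, v})) {u, v} = symmDiff t {u, v} :=
      EX1.im_tau_sd _ (by rw [tu, tv]; exact EX1.pr1 hc)
    rw [hq] at h4
    have h5 : im s S = symmDiff t {u, v} ∨ im s S = (symmDiff t {u, v})ᶜ := by
      rcases h4 with h4 | h4 | h4 | h4
      · exact Or.inl h4
      · exact Or.inr h4
      · exact Or.inl h4
      · exact Or.inr h4
    refine ⟨S, s, hS, hs, ?_⟩
    rcases hV s hs with ⟨a1, a2⟩ | ⟨a1, a2⟩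
    · left
      refine ⟨a1, a2, ?_⟩
      rcases h5 with h5 | h5
      · exfalso
        rcases huU with hu | hv
        · have h6 : u ∈ im s S ↔ u ∈ S := by rw [mem_im, EX1.inv_of a1]
          rw [h5, tu, hS u hu] at h6
          exact not_iff_self h6
        · have h6 : v ∈ im s S ↔ v ∈ S := by rw [mem_im, EX1.inv_of a2]
          rw [h5, tv, hS v hv] at h6
          exact not_iff_self h6
      · exact h5
    · right
      refine ⟨a1, a2, ?_⟩
      rcases h5 with h5 | h5
      · exact h5
      · exfalso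
        rcases huU with hu | hv
        · have h6 : v ∈ im s S ↔ u ∈ S := by rw [mem_im, EX1.inv_of a1]
          rw [h5, mem_compl, tv, hS u hu] at h6
          exact hc (EX1.pr2 h6)
        · have h6 : u ∈ im s S ↔ v ∈ S := by rw [mem_im, EX1.inv_of a2]
          rw [h5, mem_compl, tu, hS v hv] at h6
          exact hc (EX1.pr3 h6)
  -- a swapping automorphism
  have hcard := EX1.card_ge h
  obtain ⟨S, ρ, hS, hρ, hcase⟩ := key {u, x} (by
    have : ({u, x} : Finset α).card ≤ 2 := card_le_two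
    omega) (Or.inl (by simp))
  have hsw : ρ u = v ∧ ρ v = u ∧ im ρ S = symmDiff t {u, v} := by
    rcases hcase with ⟨a1, a2, a3⟩ | a
    · exfalso
      have hx := (EX1.fix h hρ a1 a2).1
      have h6 : x ∈ im ρ S ↔ x ∈ S := by rw [mem_im, EX1.inv_of hx]
      rw [a3, mem_compl, tz x (EX1.xu h) (EX1.xv h), hS x (by simp)] at h6
      exact not_iff_self h6
    · exact a
  obtain ⟨r1, r2, r3⟩ := hsw
  obtain ⟨r4, r5⟩ := EX1.swp h hρ r1 r2
  have hxy : x ∈ t ↔ y ∈ t := by
    have h6 : y ∈ im ρ S ↔ x ∈ S := by rw [mem_im, EX1.inv_of r4]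
    rw [r3, tz y (EX1.yu h) (EX1.yv h), hS x (by simp)] at h6
    exact h6.symm
  have hAB : (EX1.sA T v y).card = (EX1.sA T u x).card := EX1.card_A hρ r1 r4
  obtain ⟨na1, na2, na3, na4⟩ := EX1.notA h
  obtain ⟨nb1, nb2, nb3, nb4⟩ := EX1.notA (EX1.symE h)
  have tA : symmDiff t {u, v} ∩ EX1.sA T u x = t ∩ EX1.sA T u x := by
    ext z
    rw [mem_inter, mem_inter]
    constructor
    · rintro ⟨g1, g2⟩
      exact ⟨(tz z (fun e => na1 (e ▸ g2)) (fun e => na2 (e ▸ g2))).1 g1, g2⟩
    · rintro ⟨g1, g2⟩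
      exact ⟨(tz z (fun e => na1 (e ▸ g2)) (fun e => na2 (e ▸ g2))).2 g1, g2⟩
  have tB : symmDiff t {u, v} ∩ EX1.sA T v y = t ∩ EX1.sA T v y := by
    ext z
    rw [mem_inter, mem_inter]
    constructor
    · rintro ⟨g1, g2⟩
      exact ⟨(tz z (fun e => nb2 (e ▸ g2)) (fun e => nb1 (e ▸ g2))).1 g1, g2⟩
    · rintro ⟨g1, g2⟩
      exact ⟨(tz z (fun e => nb2 (e ▸ g2)) (fun e => nb1 (e ▸ g2))).2 g1, g2⟩
  have cA : ((symmDiff t {u, v})ᶜ ∩ EX1.sA T u x).card + (t ∩ EX1.sA T u x).card =
      (EX1.sA T u x).card := by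
    have e : (symmDiff t {u, v})ᶜ ∩ EX1.sA T u x =
        EX1.sA T u x \ (symmDiff t {u, v} ∩ EX1.sA T u x) := by
      ext z
      rw [mem_inter, mem_compl, mem_sdiff, mem_inter]
      exact EX1.pr4
    rw [e, ← tA]
    exact card_sdiff_add_card_eq_card inter_subset_right
  have cB : ((symmDiff t {u, v})ᶜ ∩ EX1.sA T v y).card + (t ∩ EX1.sA T v y).card =
      (EX1.sA T v y).card := by
    have e : (symmDiff t {u, v})ᶜ ∩ EX1.sA T v y =
        EX1.sA T v y \ (symmDiff t {u, v} ∩ EX1.sA T v y) := by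
      ext z
      rw [mem_inter, mem_compl, mem_sdiff, mem_inter]
      exact EX1.pr4
    rw [e, ← tB]
    exact card_sdiff_add_card_eq_card inter_subset_right
  have hm : (t ∩ EX1.sA T u x).card + (t ∩ EX1.sA T u x).card = (EX1.sA T u x).card ∨
      (t ∩ EX1.sA T u x).card = (t ∩ EX1.sA T v y).card := by
    obtain ⟨S, s, hS, hs, hcase⟩ := key (insert u (EX1.sA T u x)) (by
      have := card_insert_le u (EX1.sA T u x)
      omega) (Or.inl (mem_insert_self _ _))
    have hSA : S ∩ EX1.sA T u x = t ∩ EX1.sA T u x := by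
      ext z
      rw [mem_inter, mem_inter]
      constructor
      · rintro ⟨g1, g2⟩
        exact ⟨(hS z (mem_insert_of_mem g2)).1 g1, g2⟩
      · rintro ⟨g1, g2⟩
        exact ⟨(hS z (mem_insert_of_mem g2)).2 g1, g2⟩
    rcases hcase with ⟨a1, a2, a3⟩ | ⟨a1, a2, a3⟩
    · left
      have h6 := EX1.card_im hs a1 (EX1.fix h hs a1 a2).1 S
      rw [a3, hSA] at h6
      omega
    · right
      have h6 := EX1.card_im hs a1 (EX1.swp h hs a1 a2).1 S
      rw [a3, hSA, tB] at h6
      exact h6.symm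
  have hn' : (t ∩ EX1.sA T v y).card + (t ∩ EX1.sA T v y).card = (EX1.sA T v y).card ∨
      (t ∩ EX1.sA T u x).card = (t ∩ EX1.sA T v y).card := by
    obtain ⟨S, s, hS, hs, hcase⟩ := key (insert v (EX1.sA T v y)) (by
      have := card_insert_le v (EX1.sA T v y)
      omega) (Or.inr (mem_insert_self _ _))
    have hSB : S ∩ EX1.sA T v y = t ∩ EX1.sA T v y := by
      ext z
      rw [mem_inter, mem_inter]
      constructor
      · rintro ⟨g1, g2⟩
        exact ⟨(hS z (mem_insert_of_mem g2)).1 g1, g2⟩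
      · rintro ⟨g1, g2⟩
        exact ⟨(hS z (mem_insert_of_mem g2)).2 g1, g2⟩
    rcases hcase with ⟨a1, a2, a3⟩ | ⟨a1, a2, a3⟩
    · left
      have h6 := EX1.card_im hs a2 (EX1.fix h hs a1 a2).2 S
      rw [a3, hSB] at h6
      omega
    · right
      have h6 := EX1.card_im hs a2 (EX1.swp h hs a1 a2).2 S
      rw [a3, hSB, tA] at h6
      exact h6
  have hmn : (t ∩ EX1.sA T u x).card = (t ∩ EX1.sA T v y).card := by omega
  -- the last step
  have i1 : (im ρ (symmDiff t {u, v}) ∩ EX1.sA T u x).card = (t ∩ EX1.sA T u x).card := by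
    rw [EX1.card_im hρ r2 r5, tB, hmn]
  have i2 : (im ρ (symmDiff t {u, v}) ∩ EX1.sA T v y).card = (t ∩ EX1.sA T v y).card := by
    rw [EX1.card_im hρ r1 r4, tA, hmn]
  obtain ⟨π, p1, p2, p3, p4⟩ := hPRM α (EX1.sA T u x) (EX1.sA T v y)
    (im ρ (symmDiff t {u, v})) t (EX1.disjAB h) i1 i2 (by
      intro z z1 z2
      by_cases e1 : z = u
      · rw [e1, mem_im, EX1.inv_of r2, tv]
        exact EX1.pr5 hc
      · by_cases e2 : z = v
        · rw [e2, mem_im, EX1.inv_of r1, tu]
          exact EX1.pr6 hc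
        · by_cases e3 : z = x
          · rw [e3, mem_im, EX1.inv_of r5, tz y (EX1.yu h) (EX1.yv h)]
            exact hxy.symm
          · by_cases e4 : z = y
            · rw [e4, mem_im, EX1.inv_of r4, tz x (EX1.xu h) (EX1.xv h)]
              exact hxy
            · exfalso
              rw [EX1.mem_sA] at z1 z2
              have h7 := h.one z e1 e2
              by_cases g : T.Adj u z
              · exact z1 ⟨g, e3⟩
              · exact z2 ⟨by
                  by_contra g'
                  exact g (h7.2 g'), e4⟩)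
  have pu : π u = u := p1 u na1 nb2
  have pv : π v = v := p1 v na2 nb1
  have hπ : IsAut T π := by
    have hA : ∀ a b, a ∈ EX1.sA T u x → (T.Adj (π a) (π b) ↔ T.Adj a b) := by
      intro a b ha
      rw [EX1.leafA h (p2 a ha), EX1.leafA h ha]
      constructor
      · exact fun g => π.injective (g.trans pu.symm)
      · exact fun g => by rw [g, pu]
    have hB : ∀ a b, a ∈ EX1.sA T v y → (T.Adj (π a) (π b) ↔ T.Adj a b) := by
      intro a b ha
      rw [EX1.leafA (EX1.symE h) (p3 a ha), EX1.leafA (EX1.symE h) ha]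
      constructor
      · exact fun g => π.injective (g.trans pv.symm)
      · exact fun g => by rw [g, pv]
    intro a b
    by_cases a1 : a ∈ EX1.sA T u x
    · exact hA a b a1
    · by_cases a2 : a ∈ EX1.sA T v y
      · exact hB a b a2
      · by_cases b1 : b ∈ EX1.sA T u x
        · rw [T.adj_comm, T.adj_comm a b]
          exact hA b a b1
        · by_cases b2 : b ∈ EX1.sA T v y
          · rw [T.adj_comm, T.adj_comm a b]
            exact hB b a b2
          · rw [p1 a a1 a2, p1 b b1 b2]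
  obtain ⟨φ1⟩ := iso_im (mem_AA.2 hρ) (symmDiff t {u, v})
  obtain ⟨φ2⟩ := iso_im (mem_AA.2 hπ) (im ρ (symmDiff t {u, v}))
  rw [p4] at φ2
  exact hne2 ⟨φ1.trans φ2⟩

end Pool.Agent.TRC
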