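import Pool.Agent.TRC.Std

/-! TRC, module EX2 (helper34): exceptional trees of the second kind. -/

set_option autoImplicit false
set_option linter.unusedSectionVars false
set_option linter.unusedTactic false
set_option linter.unreachableTactic false

namespace Pool.Agent.TRC

open Finset Pool.Agent.Lib_helper61.SwitchBasic

namespace MEX2

variable {α : Type} [Fintype α] [DecidableEq α] {T : SimpleGraph α} {u v w z : α}

theorem sy (h : E2 T u v w z) : E2 T v u w z where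
  uv := h.uv.symm
  nuv := fun g => h.nuv g.symm
  uw := h.vw
  vw := h.uw
  wz := h.wz
  nuz := h.nvz
  nvz := h.nuz
  zu := h.zv
  zv := h.zu
  one := fun q h1 h2 h3 h4 => by
    have := h.one q h2 h1 h3 h4
    tauto
  rest := fun a b hab => by
    have := h.rest a b hab
    tauto

open Classical in
/-- The neighbours of `u` without `w`. -/
noncomputable def NA (T : SimpleGraph α) (u w : α) : Finset α :=
  univ.filter fun q => T.Adj u q ∧ q ≠ w

theorem mem_NA {q : α} : q ∈ NA T u w ↔ T.Adj u q ∧ q ≠ w := by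
  simp [NA]

theorem nA (h : E2 T u v w z) :
    u ∉ NA T u w ∧ v ∉ NA T u w ∧ w ∉ NA T u w ∧ z ∉ NA T u w := by
  simp only [mem_NA]
  exact ⟨fun g => g.1.ne rfl, fun g => h.nuv g.1, fun g => g.2 rfl, fun g => h.nuz g.1⟩

theorem cover (h : E2 T u v w z) (x : α) :
    x = u ∨ x = v ∨ x = w ∨ x = z ∨ x ∈ NA T u w ∨ x ∈ NA T v w := by
  by_cases h1 : x = u
  · exact Or.inl h1
  by_cases h2 : x = v
  · exact Or.inr (Or.inl h2)
  by_cases h3 : x = w
  · exact Or.inr (Or.inr (Or.inl h3))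
  by_cases h4 : x = z
  · exact Or.inr (Or.inr (Or.inr (Or.inl h4)))
  have := h.one x h1 h2 h3 h4
  rw [mem_NA, mem_NA]
  tauto

theorem disj (h : E2 T u v w z) : Disjoint (NA T u w) (NA T v w) := by
  rw [Finset.disjoint_left]
  intro x hx hy
  have n1 := nA h
  have n2 := nA (sy h)
  have h1 : x ≠ u := fun g => n1.1 (g ▸ hx)
  have h2 : x ≠ v := fun g => n1.2.1 (g ▸ hx)
  have h3 : x ≠ w := fun g => n1.2.2.1 (g ▸ hx)
  have h4 : x ≠ z := fun g => n1.2.2.2 (g ▸ hx)
  exact (h.one x h1 h2 h3 h4).1 (mem_NA.1 hx).1 (mem_NA.1 hy).1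

theorem card_eq (h : E2 T u v w z) :
    Fintype.card α = (NA T u w).card + (NA T v w).card + 4 := by
  have n1 := nA h
  have n2 := nA (sy h)
  have hu : (univ : Finset α) =
      insert u (insert v (insert w (insert z (NA T u w ∪ NA T v w)))) := by
    ext x
    simp only [mem_univ, mem_insert, mem_union, true_iff]
    exact cover h x
  have hwu : w ≠ u := h.uw.ne'
  have hwv : w ≠ v := h.vw.ne'
  have hwz : w ≠ z := h.wz.ne
  rw [← Finset.card_univ, hu, card_insert_of_notMem, card_insert_of_notMem,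
    card_insert_of_notMem, card_insert_of_notMem, card_union_of_disjoint (disj h)]
  · simp only [mem_union]
    tauto
  · simp only [mem_insert, mem_union]
    tauto
  · simp only [mem_insert, mem_union]
    have := h.zv.symm
    have := hwv.symm
    tauto
  · simp only [mem_insert, mem_union]
    have := h.zu.symm
    have := hwu.symm
    have := h.uv
    tauto

theorem deg_eq [DecidableRel T.Adj] (h : E2 T u v w z) : T.degree u = (NA T u w).card + 1 := by
  have : T.neighborFinset u = insert w (NA T u w) := by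
    ext x
    rw [SimpleGraph.mem_neighborFinset, mem_insert, mem_NA]
    constructor
    · intro hx
      by_cases hw : x = w
      · exact Or.inl hw
      · exact Or.inr ⟨hx, hw⟩
    · rintro (rfl | hx)
      · exact h.uw
      · exact hx.1
  rw [← SimpleGraph.card_neighborFinset_eq_degree, this, card_insert_of_notMem (nA h).2.2.1]

/-- The adjacency. -/
theorem adj_iff (h : E2 T u v w z) (a b : α) : T.Adj a b ↔
    (a = u ∧ (b ∈ NA T u w ∨ b = w)) ∨ (b = u ∧ (a ∈ NA T u w ∨ a = w)) ∨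
    (a = v ∧ (b ∈ NA T v w ∨ b = w)) ∨ (b = v ∧ (a ∈ NA T v w ∨ a = w)) ∨
    (a = w ∧ b = z) ∨ (a = z ∧ b = w) := by
  constructor
  · intro hab
    rcases h.rest a b hab with g | g | g | g | g | g
    · subst g
      left
      refine ⟨rfl, ?_⟩
      rw [mem_NA]
      by_cases hb : b = w
      · exact Or.inr hb
      · exact Or.inl ⟨hab, hb⟩
    · subst g
      right; right; left
      refine ⟨rfl, ?_⟩
      rw [mem_NA]
      by_cases hb : b = w
      · exact Or.inr hb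
      · exact Or.inl ⟨hab, hb⟩
    · subst g
      right; left
      refine ⟨rfl, ?_⟩
      rw [mem_NA]
      by_cases hb : a = w
      · exact Or.inr hb
      · exact Or.inl ⟨hab.symm, hb⟩
    · subst g
      right; right; right; left
      refine ⟨rfl, ?_⟩
      rw [mem_NA]
      by_cases hb : a = w
      · exact Or.inr hb
      · exact Or.inl ⟨hab.symm, hb⟩
    · exact Or.inr (Or.inr (Or.inr (Or.inr (Or.inl g))))
    · exact Or.inr (Or.inr (Or.inr (Or.inr (Or.inr g))))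
  · rintro (⟨rfl, g | rfl⟩ | ⟨rfl, g | rfl⟩ | ⟨rfl, g | rfl⟩ | ⟨rfl, g | rfl⟩ | ⟨rfl, rfl⟩ |
      ⟨rfl, rfl⟩)
    · exact (mem_NA.1 g).1
    · exact h.uw
    · exact (mem_NA.1 g).1.symm
    · exact h.uw.symm
    · exact (mem_NA.1 g).1
    · exact h.vw
    · exact (mem_NA.1 g).1.symm
    · exact h.vw.symm
    · exact h.wz
    · exact h.wz.symm

/-- Local permutations are automorphisms. -/
theorem aut_loc (h : E2 T u v w z) {π : Equiv.Perm α}
    (h0 : ∀ x, x ∉ NA T u w → x ∉ NA T v w → π x = x) (hA : ∀ x ∈ NA T u w, π x ∈ NA T u w)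
    (hB : ∀ x ∈ NA T v w, π x ∈ NA T v w) : IsAut T π := by
  have n1 := nA h
  have n2 := nA (sy h)
  have hd := Finset.disjoint_left.1 (disj h)
  have kA : ∀ x, π x ∈ NA T u w ↔ x ∈ NA T u w := by
    intro x
    refine ⟨fun g => ?_, hA x⟩
    by_contra hx
    by_cases hy : x ∈ NA T v w
    · exact hd g (hB x hy)
    · rw [h0 x hx hy] at g
      exact hx g
  have kB : ∀ x, π x ∈ NA T v w ↔ x ∈ NA T v w := by
    intro x
    refine ⟨fun g => ?_, hB x⟩
    by_contra hx
    by_cases hy : x ∈ NA T u w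
    · exact hd (hA x hy) g
    · rw [h0 x hy hx] at g
      exact hx g
  have k0 : ∀ c, c ∉ NA T u w → c ∉ NA T v w → ∀ x, π x = c ↔ x = c := by
    intro c h1 h2 x
    constructor
    · intro g
      have hx1 : x ∉ NA T u w := fun g' => h1 (g ▸ hA x g')
      have hx2 : x ∉ NA T v w := fun g' => h2 (g ▸ hB x g')
      rw [← g, h0 x hx1 hx2]
    · intro g
      rw [g, h0 c h1 h2]
  intro a b
  rw [adj_iff h, adj_iff h a b, kA, kA, kB, kB, k0 u n1.1 n2.2.1, k0 u n1.1 n2.2.1,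
    k0 v n1.2.1 n2.1, k0 v n1.2.1 n2.1, k0 w n1.2.2.1 n2.2.2.1, k0 w n1.2.2.1 n2.2.2.1,
    k0 z n1.2.2.2 n2.2.2.2, k0 z n1.2.2.2 n2.2.2.2]

/-- The profile of a set. -/
noncomputable def pr (T : SimpleGraph α) (u v w z : α) (S : Finset α) :
    Bool × Bool × Bool × Bool × ℕ × ℕ :=
  (decide (u ∈ S), decide (v ∈ S), decide (w ∈ S), decide (z ∈ S), (S ∩ NA T u w).card,
    (S ∩ NA T v w).card)

/-- Sets with the same profile give isomorphic graphs. -/
theorem iso_pr (hP : S_PRM) (h : E2 T u v w z) {S S' : Finset α}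
    (e : pr T u v w z S = pr T u v w z S') : Nonempty (sw T S ≃g sw T S') := by
  unfold pr at e
  simp only [Prod.mk.injEq, decide_eq_decide] at e
  obtain ⟨e1, e2, e3, e4, e5, e6⟩ := e
  have n1 := nA h
  obtain ⟨π, h0, hA, hB, hi⟩ := hP α (NA T u w) (NA T v w) S S' (disj h) e5 e6 (by
    intro x h1 h2
    rcases cover h x with g | g | g | g | g | g
    · rw [g]; exact e1
    · rw [g]; exact e2
    · rw [g]; exact e3
    · rw [g]; exact e4
    · exact absurd g h1
    · exact absurd g h2)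
  have := iso_im (mem_AA.2 (aut_loc h h0 hA hB)) S
  rwa [hi] at this

theorem card_im {s : Equiv.Perm α} {A A' : Finset α} (hA : ∀ x, s x ∈ A ↔ x ∈ A')
    (S : Finset α) : (im s S ∩ A).card = (S ∩ A').card := by
  have : im s S ∩ A = im s (S ∩ A') := by
    ext x
    rw [mem_inter, mem_im, mem_im, mem_inter]
    have h1 := hA (s⁻¹ x)
    have h2 : s (s⁻¹ x) = x := by simp
    rw [h2] at h1
    rw [h1]
  rw [this]
  exact card_map _

theorem mem_im' {s : Equiv.Perm α} {x y : α} (h : s x = y) (S : Finset α) :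
    y ∈ im s S ↔ x ∈ S := by
  have h2 : s⁻¹ (s x) = x := by simp
  rw [mem_im, ← h, h2]

theorem aut_w (h : E2 T u v w z) {s : Equiv.Perm α} (hs : IsAut T s)
    (hu : (s u = u ∧ s v = v) ∨ (s u = v ∧ s v = u)) : s w = w ∧ s z = z := by
  have h1 : T.Adj u (s w) ∧ T.Adj v (s w) := by
    have g1 := (hs u w).2 h.uw
    have g2 := (hs v w).2 h.vw
    rcases hu with ⟨e1, e2⟩ | ⟨e1, e2⟩
    · rw [e1] at g1; rw [e2] at g2; exact ⟨g1, g2⟩
    · rw [e1] at g1; rw [e2] at g2; exact ⟨g2, g1⟩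
  have h2 : ¬ T.Adj u (s z) ∧ ¬ T.Adj v (s z) := by
    have g1 : ¬ T.Adj (s u) (s z) := fun g => h.nuz ((hs u z).1 g)
    have g2 : ¬ T.Adj (s v) (s z) := fun g => h.nvz ((hs v z).1 g)
    rcases hu with ⟨e1, e2⟩ | ⟨e1, e2⟩
    · rw [e1] at g1; rw [e2] at g2; exact ⟨g1, g2⟩
    · rw [e1] at g1; rw [e2] at g2; exact ⟨g2, g1⟩
  have h3 : s z ≠ u ∧ s z ≠ v := by
    rcases hu with ⟨e1, e2⟩ | ⟨e1, e2⟩
    · exact ⟨fun g => h.zu (s.injective (g.trans e1.symm)),
        fun g => h.zv (s.injective (g.trans e2.symm))⟩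
    · exact ⟨fun g => h.zv (s.injective (g.trans e2.symm)),
        fun g => h.zu (s.injective (g.trans e1.symm))⟩
  constructor
  · by_contra hne
    by_cases hz : s w = z
    · exact h.nuz (hz ▸ h1.1)
    · exact (h.one (s w) (fun g => h1.1.ne g.symm) (fun g => h1.2.ne g.symm) hne hz).1 h1.1 h1.2
  · by_contra hne
    by_cases hw : s z = w
    · exact h2.1 (hw ▸ h.uw)
    · have := h.one (s z) h3.1 h3.2 hw hne
      tauto

theorem pr_fix (h : E2 T u v w z) {s : Equiv.Perm α} (hs : IsAut T s)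
    (hu : s u = u) (hv : s v = v) (S : Finset α) :
    pr T u v w z (im s S) = pr T u v w z S := by
  obtain ⟨hw, hz⟩ := aut_w h hs (Or.inl ⟨hu, hv⟩)
  have kA : ∀ c, s c = c → ∀ x, s x ∈ NA T c w ↔ x ∈ NA T c w := by
    intro c hc x
    rw [mem_NA, mem_NA]
    have h1 := hs c x
    rw [hc] at h1
    have h2 : s x = w ↔ x = w := by
      constructor
      · intro g
        exact s.injective (g.trans hw.symm)
      · rintro rfl
        exact hw
    rw [h1, Ne, Ne, h2]
  unfold pr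
  rw [card_im (kA u hu), card_im (kA v hv)]
  simp only [mem_im' hu, mem_im' hv, mem_im' hw, mem_im' hz]

theorem pr_swap (h : E2 T u v w z) {s : Equiv.Perm α} (hs : IsAut T s)
    (hu : s u = v) (hv : s v = u) (S : Finset α) :
    pr T u v w z (im s S) = (decide (v ∈ S), decide (u ∈ S), decide (w ∈ S), decide (z ∈ S),
      (S ∩ NA T v w).card, (S ∩ NA T u w).card) ∧ (NA T u w).card = (NA T v w).card := by
  obtain ⟨hw, hz⟩ := aut_w h hs (Or.inr ⟨hu, hv⟩)
  have kA : ∀ c d, s d = c → ∀ x, s x ∈ NA T c w ↔ x ∈ NA T d w := by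
    intro c d hc x
    rw [mem_NA, mem_NA]
    have h1 := hs d x
    rw [hc] at h1
    have h2 : s x = w ↔ x = w := by
      constructor
      · intro g
        exact s.injective (g.trans hw.symm)
      · rintro rfl
        exact hw
    rw [h1, Ne, Ne, h2]
  constructor
  · unfold pr
    rw [card_im (kA u v hv), card_im (kA v u hu)]
    simp only [mem_im' hu, mem_im' hv, mem_im' hw, mem_im' hz]
  · have h1 := card_im (kA v u hu) univ
    have h2 : im s (univ : Finset α) = univ := by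
      ext x
      rw [mem_im]
      simp
    rw [h2, univ_inter, univ_inter] at h1
    exact h1.symm

/-- Classes of vertices. -/
theorem cls (h : E2 T u v w z) (x : α) : ∃ c : Fin 6, (x = u ↔ c = 0) ∧ (x = v ↔ c = 1) ∧
    (x = w ↔ c = 2) ∧ (x = z ↔ c = 3) ∧ (x ∈ NA T u w ↔ c = 4) ∧ (x ∈ NA T v w ↔ c = 5) := by
  have n1 := nA h
  have n2 := nA (sy h)
  have hd := Finset.disjoint_left.1 (disj h)
  have e1 := h.uv
  have e2 : u ≠ w := h.uw.ne
  have e3 : v ≠ w := h.vw.ne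
  have e4 := h.zu
  have e5 := h.zv
  have e6 : w ≠ z := h.wz.ne
  rcases cover h x with g | g | g | g | g | g
  · refine ⟨0, ?_⟩
    rw [g]
    simp [e1, e2, e4.symm, n1.1, n2.2.1]
  · refine ⟨1, ?_⟩
    rw [g]
    simp [e1.symm, e3, e5.symm, n1.2.1, n2.1]
  · refine ⟨2, ?_⟩
    rw [g]
    simp [e2.symm, e3.symm, e6, n1.2.2.1, n2.2.2.1]
  · refine ⟨3, ?_⟩
    rw [g]
    simp [e4, e5, e6.symm, n1.2.2.2, n2.2.2.2]
  · refine ⟨4, ?_⟩
    have h1 : x ≠ u := fun g' => n1.1 (g' ▸ g)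
    have h2 : x ≠ v := fun g' => n1.2.1 (g' ▸ g)
    have h3 : x ≠ w := fun g' => n1.2.2.1 (g' ▸ g)
    have h4 : x ≠ z := fun g' => n1.2.2.2 (g' ▸ g)
    simp [h1, h2, h3, h4, g, hd g]
  · refine ⟨5, ?_⟩
    have h1 : x ≠ u := fun g' => n2.2.1 (g' ▸ g)
    have h2 : x ≠ v := fun g' => n2.1 (g' ▸ g)
    have h3 : x ≠ w := fun g' => n2.2.2.1 (g' ▸ g)
    have h4 : x ≠ z := fun g' => n2.2.2.2 (g' ▸ g)
    have h5 : x ∉ NA T u w := fun g' => hd g' g
    simp [h1, h2, h3, h4, g, h5]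

/-- The involution. -/
def tau (u v w z : α) : Equiv.Perm α := Equiv.swap u v * Equiv.swap w z

theorem tau_u (h : E2 T u v w z) : tau u v w z u = v := by
  unfold tau
  rw [Equiv.Perm.mul_apply, Equiv.swap_apply_of_ne_of_ne h.uw.ne h.zu.symm,
    Equiv.swap_apply_left]

theorem tau_v (h : E2 T u v w z) : tau u v w z v = u := by
  unfold tau
  rw [Equiv.Perm.mul_apply, Equiv.swap_apply_of_ne_of_ne h.vw.ne h.zv.symm,
    Equiv.swap_apply_right]

theorem tau_w (h : E2 T u v w z) : tau u v w z w = z := by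
  unfold tau
  rw [Equiv.Perm.mul_apply, Equiv.swap_apply_left, Equiv.swap_apply_of_ne_of_ne h.zu h.zv]

theorem tau_z (h : E2 T u v w z) : tau u v w z z = w := by
  unfold tau
  rw [Equiv.Perm.mul_apply, Equiv.swap_apply_right,
    Equiv.swap_apply_of_ne_of_ne h.uw.ne' h.vw.ne']

theorem tau_o {x : α} (h1 : x ≠ u) (h2 : x ≠ v) (h3 : x ≠ w) (h4 : x ≠ z) :
    tau u v w z x = x := by
  unfold tau
  rw [Equiv.Perm.mul_apply, Equiv.swap_apply_of_ne_of_ne h3 h4,
    Equiv.swap_apply_of_ne_of_ne h1 h2]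

theorem tau_tau (h : E2 T u v w z) (x : α) : tau u v w z (tau u v w z x) = x := by
  by_cases h1 : x = u
  · rw [h1, tau_u h, tau_v h]
  by_cases h2 : x = v
  · rw [h2, tau_v h, tau_u h]
  by_cases h3 : x = w
  · rw [h3, tau_w h, tau_z h]
  by_cases h4 : x = z
  · rw [h4, tau_z h, tau_w h]
  rw [tau_o h1 h2 h3 h4, tau_o h1 h2 h3 h4]

theorem tau_eq (h : E2 T u v w z) {c d : α} (e : tau u v w z c = d) (x : α) :
    tau u v w z x = d ↔ x = c := by
  constructor
  · intro g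
    exact (tau u v w z).injective (g.trans e.symm)
  · rintro rfl
    exact e

theorem tau_A (h : E2 T u v w z) (x : α) :
    (tau u v w z x ∈ NA T u w ↔ x ∈ NA T u w) ∧ (tau u v w z x ∈ NA T v w ↔ x ∈ NA T v w) := by
  have n1 := nA h
  have n2 := nA (sy h)
  by_cases h1 : x = u
  · rw [h1, tau_u h]
    exact ⟨iff_of_false n1.2.1 n1.1, iff_of_false n2.1 n2.2.1⟩
  by_cases h2 : x = v
  · rw [h2, tau_v h]
    exact ⟨iff_of_false n1.1 n1.2.1, iff_of_false n2.2.1 n2.1⟩
  by_cases h3 : x = w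
  · rw [h3, tau_w h]
    exact ⟨iff_of_false n1.2.2.2 n1.2.2.1, iff_of_false n2.2.2.2 n2.2.2.1⟩
  by_cases h4 : x = z
  · rw [h4, tau_z h]
    exact ⟨iff_of_false n1.2.2.1 n1.2.2.2, iff_of_false n2.2.2.1 n2.2.2.2⟩
  rw [tau_o h1 h2 h3 h4]
  exact ⟨Iff.rfl, Iff.rfl⟩

theorem tau_adj (h : E2 T u v w z) (a b : α) :
    (sw T {u, v}).Adj (tau u v w z a) (tau u v w z b) ↔ T.Adj a b := by
  by_cases hab : a = b
  · subst hab
    exact iff_of_false (fun g => g.ne rfl) (fun g => g.ne rfl)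
  have hne : tau u v w z a ≠ tau u v w z b := fun g => hab ((tau u v w z).injective g)
  obtain ⟨c, c1, c2, c3, c4, c5, c6⟩ := cls h a
  obtain ⟨d, d1, d2, d3, d4, d5, d6⟩ := cls h b
  rw [sw_adj, adj_iff h (tau u v w z a) (tau u v w z b), adj_iff h a b]
  simp only [hne, ne_eq, not_false_eq_true, true_and, mem_insert, mem_singleton,
    tau_eq h (tau_u h), tau_eq h (tau_v h), tau_eq h (tau_w h), tau_eq h (tau_z h),
    (tau_A h a).1, (tau_A h a).2, (tau_A h b).1, (tau_A h b).2,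
    c1, c2, c3, c4, c5, c6, d1, d2, d3, d4, d5, d6]
  clear c1 c2 c3 c4 c5 c6 d1 d2 d3 d4 d5 d6
  revert c d
  decide

theorem tau_V (h : E2 T u v w z) : im (tau u v w z) {u, v} = {u, v} := by
  ext x
  rw [mem_im]
  have h2 : (tau u v w z)⁻¹ x = tau u v w z x := by
    rw [Equiv.Perm.inv_eq_iff_eq]
    exact (tau_tau h x).symm
  rw [h2, mem_insert, mem_singleton, mem_insert, mem_singleton, tau_eq h (tau_u h),
    tau_eq h (tau_v h)]
  exact or_comm

theorem inter_sd (h : E2 T u v w z) (S : Finset α) :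
    symmDiff S {u, v} ∩ NA T u w = S ∩ NA T u w ∧
    symmDiff S {u, v} ∩ NA T v w = S ∩ NA T v w := by
  have n1 := nA h
  have n2 := nA (sy h)
  constructor
  · ext x
    rw [mem_inter, mem_inter, mem_symmDiff, mem_insert, mem_singleton]
    refine and_congr_left fun hx => ?_
    have h1 : x ≠ u := fun g => n1.1 (g ▸ hx)
    have h2 : x ≠ v := fun g => n1.2.1 (g ▸ hx)
    tauto
  · ext x
    rw [mem_inter, mem_inter, mem_symmDiff, mem_insert, mem_singleton]
    refine and_congr_left fun hx => ?_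
    have h1 : x ≠ u := fun g => n2.2.1 (g ▸ hx)
    have h2 : x ≠ v := fun g => n2.1 (g ▸ hx)
    tauto

theorem pr_sd (h : E2 T u v w z) (S : Finset α) : pr T u v w z (symmDiff S {u, v}) =
    (!decide (u ∈ S), !decide (v ∈ S), decide (w ∈ S), decide (z ∈ S), (S ∩ NA T u w).card,
      (S ∩ NA T v w).card) := by
  have e2 : w ≠ u := h.uw.ne'
  have e3 : w ≠ v := h.vw.ne'
  unfold pr
  rw [(inter_sd h S).1, (inter_sd h S).2]
  simp only [mem_symmDiff, mem_insert, mem_singleton, true_or, or_true, not_true_eq_false,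
    and_false, false_or, true_and, e2, e3, h.zu, h.zv, or_self, not_false_eq_true, and_true,
    false_and, or_false, decide_not]

theorem pr_tau (h : E2 T u v w z) (S : Finset α) :
    pr T u v w z (symmDiff (im (tau u v w z) S) {u, v}) =
    (!decide (v ∈ S), !decide (u ∈ S), decide (z ∈ S), decide (w ∈ S), (S ∩ NA T u w).card,
      (S ∩ NA T v w).card) := by
  rw [pr_sd h, card_im (fun x => (tau_A h x).1), card_im (fun x => (tau_A h x).2)]
  simp only [mem_im' (tau_u h), mem_im' (tau_v h), mem_im' (tau_w h), mem_im' (tau_z h)]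

theorem pr_compl (S : Finset α) : pr T u v w z Sᶜ =
    (!decide (u ∈ S), !decide (v ∈ S), !decide (w ∈ S), !decide (z ∈ S),
      (NA T u w).card - (S ∩ NA T u w).card, (NA T v w).card - (S ∩ NA T v w).card) := by
  have hc : ∀ A : Finset α, (Sᶜ ∩ A).card = A.card - (S ∩ A).card := by
    intro A
    have h1 : (S ∩ A).card + (Sᶜ ∩ A).card = A.card := by
      rw [← card_union_of_disjoint]
      · congr 1
        ext x
        simp only [mem_union, mem_inter, mem_compl]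
        tauto
      · rw [Finset.disjoint_left]
        intro x hx hy
        exact (mem_compl.1 (mem_inter.1 hy).1) (mem_inter.1 hx).1
    omega
  unfold pr
  rw [hc, hc]
  simp only [mem_compl, decide_not]

/-- The possible profiles. -/
def Alt (a b : ℕ) (R : Prop) (p q r o : Bool) (m n : ℕ)
    (x : Bool × Bool × Bool × Bool × ℕ × ℕ) : Prop :=
  x = (!p, !q, r, o, m, n) ∨ x = (p, q, !r, !o, a - m, b - n) ∨ x = (q, p, o, r, m, n) ∨
  x = (!q, !p, !o, !r, a - m, b - n) ∨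
  (R ∧ (x = (!q, !p, r, o, n, m) ∨ x = (q, p, !r, !o, b - n, a - m) ∨ x = (p, q, o, r, n, m) ∨
    x = (!p, !q, !o, !r, b - n, a - m)))

theorem logic {a b m n : ℕ} {p q r o : Bool} {R : Prop} (hm : m ≤ a) (hn : n ≤ b)
    (h4 : (a + b + 4) % 4 = 0) (ha : a < b + 4) (hb : b < a + 4) (hR : R → a = b)
    (N1 : ¬ (p = q ∧ r = o)) (N2 : ¬ (p = !q ∧ r = !o ∧ m = a - m ∧ n = b - n))
    (N3 : R → ¬ (p = !q ∧ m = n))
    (K1 : ∃ q' o' m' n', Alt a b R p q r o m n (p, q', r, o', m', n'))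
    (K2 : a < b + 2 → ∃ q' r' o' n', Alt a b R p q r o m n (p, q', r', o', m, n'))
    (K3 : b < a + 2 → ∃ p' r' o' m', Alt a b R p q r o m n (p', q, r', o', m', n)) : False := by
  obtain ⟨q', o', m', n', K1⟩ := K1
  unfold Alt at K1 K2 K3
  simp only [Prod.mk.injEq] at K1 K2 K3
  by_cases hpq : p = q
  · have hro : r ≠ o := fun g => N1 ⟨hpq, g⟩
    clear K2 K3 N1 N2 N3
    subst hpq
    cases p <;> cases r <;> cases o <;> simp_all
  · have hpq' : p = !q := by cases p <;> cases q <;> simp_all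
    subst hpq'
    have b1 : ∀ x : Bool, x = !x → False := by decide
    have b2 : ∀ x : Bool, (!x) = x → False := by decide
    have b3 : ∀ x : Bool, (!x) = !(!x) → False := by decide
    have i1 : a < b + 2 → m = a - m := by
      intro h
      obtain ⟨q', r', o', n', K⟩ := K2 h
      rcases K with ⟨k1, k2, k3, k4, k5, k6⟩ | ⟨k1, k2, k3, k4, k5, k6⟩ |
        ⟨k1, k2, k3, k4, k5, k6⟩ | ⟨k1, k2, k3, k4, k5, k6⟩ |
        ⟨hr, ⟨k1, k2, k3, k4, k5, k6⟩ | ⟨k1, k2, k3, k4, k5, k6⟩ |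
        ⟨k1, k2, k3, k4, k5, k6⟩ | ⟨k1, k2, k3, k4, k5, k6⟩⟩
      · exact (b3 _ k1).elim
      · exact k5
      · exact (b2 _ k1).elim
      · exact k5
      · exact (N3 hr ⟨rfl, k5⟩).elim
      · exact (b2 _ k1).elim
      · exact (N3 hr ⟨rfl, k5⟩).elim
      · exact (b3 _ k1).elim
    have i2 : b < a + 2 → n = b - n := by
      intro h
      obtain ⟨q', r', o', n', K⟩ := K3 h
      rcases K with ⟨k1, k2, k3, k4, k5, k6⟩ | ⟨k1, k2, k3, k4, k5, k6⟩ |
        ⟨k1, k2, k3, k4, k5, k6⟩ | ⟨k1, k2, k3, k4, k5, k6⟩ |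
        ⟨hr, ⟨k1, k2, k3, k4, k5, k6⟩ | ⟨k1, k2, k3, k4, k5, k6⟩ |
        ⟨k1, k2, k3, k4, k5, k6⟩ | ⟨k1, k2, k3, k4, k5, k6⟩⟩
      · exact (b1 _ k2).elim
      · exact k6
      · exact (b1 _ k2).elim
      · exact k6
      · exact (N3 hr ⟨rfl, k6.symm⟩).elim
      · exact (b1 _ k2).elim
      · exact (N3 hr ⟨rfl, k6.symm⟩).elim
      · exact (b1 _ k2).elim
    clear K2 K3
    have b4 : ∀ x y : Bool, x ≠ y → x = !y := by decide
    have j1 : a < b + 2 := by
      by_contra hc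
      have := i2 (by omega)
      omega
    have j2 : b < a + 2 := by
      by_contra hc
      have := i1 (by omega)
      omega
    have k1 := i1 j1
    have k2 := i2 j2
    have hro : r = o := by
      by_contra hne
      exact N2 ⟨rfl, b4 _ _ hne, k1, k2⟩
    subst hro
    rcases K1 with ⟨k1, k2, k3, k4, k5, k6⟩ | ⟨k1, k2, k3, k4, k5, k6⟩ |
      ⟨k1, k2, k3, k4, k5, k6⟩ | ⟨k1, k2, k3, k4, k5, k6⟩ |
      ⟨hr, ⟨k1, k2, k3, k4, k5, k6⟩ | ⟨k1, k2, k3, k4, k5, k6⟩ |
      ⟨k1, k2, k3, k4, k5, k6⟩ | ⟨k1, k2, k3, k4, k5, k6⟩⟩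
    · exact b3 _ k1
    · exact b1 _ k3
    · exact b2 _ k1
    · exact b1 _ k3
    · exact N3 hr ⟨rfl, by have := hR hr; omega⟩
    · exact b2 _ k1
    · exact N3 hr ⟨rfl, by have := hR hr; omega⟩
    · exact b3 _ k1

/-- Profiles: the set is switched at `u`, `v`. -/
def sm (x : Bool × Bool × Bool × Bool × ℕ × ℕ) : Bool × Bool × Bool × Bool × ℕ × ℕ :=
  (!x.1, !x.2.1, x.2.2.1, x.2.2.2.1, x.2.2.2.2.1, x.2.2.2.2.2)

/-- Profiles: the involution. -/
def tm (x : Bool × Bool × Bool × Bool × ℕ × ℕ) : Bool × Bool × Bool × Bool × ℕ × ℕ :=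
  (!x.2.1, !x.1, x.2.2.2.1, x.2.2.1, x.2.2.2.2.1, x.2.2.2.2.2)

/-- Profiles: the complement. -/
def cm (a b : ℕ) (x : Bool × Bool × Bool × Bool × ℕ × ℕ) : Bool × Bool × Bool × Bool × ℕ × ℕ :=
  (!x.1, !x.2.1, !x.2.2.1, !x.2.2.2.1, a - x.2.2.2.2.1, b - x.2.2.2.2.2)

/-- Profiles: `u` and `v` are exchanged. -/
def wm (x : Bool × Bool × Bool × Bool × ℕ × ℕ) : Bool × Bool × Bool × Bool × ℕ × ℕ :=
  (x.2.1, x.1, x.2.2.1, x.2.2.2.1, x.2.2.2.2.2, x.2.2.2.2.1)

theorem wm_wm (x : Bool × Bool × Bool × Bool × ℕ × ℕ) : wm (wm x) = x := rfl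

theorem q_sd (h : E2 T u v w z) (S : Finset α) :
    pr T u v w z (symmDiff S {u, v}) = sm (pr T u v w z S) := pr_sd h S

theorem q_tau (h : E2 T u v w z) (S : Finset α) :
    pr T u v w z (symmDiff (im (tau u v w z) S) {u, v}) = tm (pr T u v w z S) := pr_tau h S

theorem q_compl (S : Finset α) : pr T u v w z Sᶜ =
    cm (NA T u w).card (NA T v w).card (pr T u v w z S) := pr_compl S

theorem q_swap (h : E2 T u v w z) {s : Equiv.Perm α} (hs : IsAut T s)
    (hu : s u = v) (hv : s v = u) (S : Finset α) :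
    pr T u v w z (im s S) = wm (pr T u v w z S) := (pr_swap h hs hu hv S).1

theorem dd {S t U : Finset α} (e : S ∩ U = t ∩ U) {x : α} (hx : x ∈ U) :
    decide (x ∈ S) = decide (x ∈ t) := by
  rw [decide_eq_decide]
  have h1 : x ∈ S ∩ U ↔ x ∈ t ∩ U := by rw [e]
  rw [mem_inter, mem_inter] at h1
  tauto

theorem di {S t U A : Finset α} (e : S ∩ U = t ∩ U) (hA : A ⊆ U) : S ∩ A = t ∩ A := by
  ext x
  have h1 : x ∈ S ∩ U ↔ x ∈ t ∩ U := by rw [e]
  rw [mem_inter, mem_inter] at h1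
  rw [mem_inter, mem_inter]
  have h2 := @hA x
  tauto

end MEX2

open MEX2 in
/-- EX2. -/
theorem t_EX2 : S_OPP → S_PRR → S_ISO → S_PRM → S_EX2 := by
  intro hOPP hPRR hISO hPRM α _ _ T _ u v w z h h8 h4 hdu hdv haut hcl t t' hdeck
  by_contra hne
  have hcard := card_eq h
  rw [deg_eq h] at hdu
  rw [deg_eq (sy h)] at hdv
  have hV : ∀ σ, IsClassAut T σ → (σ u = u ∧ σ v = v) ∨ (σ u = v ∧ σ v = u) := by
    intro σ hσ
    rcases hcl σ hσ with h1 | h1
    · exact haut σ h1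
    · have h2 : IsAut T (tau u v w z * σ) := by
        intro a b
        have h3 := tau_adj h (tau u v w z (σ a)) (tau u v w z (σ b))
        rw [tau_tau h, tau_tau h] at h3
        exact h3.symm.trans (h1 a b)
      rcases haut _ h2 with ⟨e1, e2⟩ | ⟨e1, e2⟩
      · exact Or.inr ⟨(tau_eq h (tau_v h) _).1 e1, (tau_eq h (tau_u h) _).1 e2⟩
      · exact Or.inl ⟨(tau_eq h (tau_u h) _).1 e1, (tau_eq h (tau_v h) _).1 e2⟩
  obtain ⟨ψ⟩ := hPRR α T t t' u v hdeck hne (by omega) h.uv hV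
  obtain ⟨I1, I2⟩ := hISO α T (tau u v w z) {u, v} (tau_adj h) (tau_tau h) (tau_V h)
  have I2' := I2 hcl
  have no : ¬ Nonempty (sw T t ≃g sw T (symmDiff t {u, v})) := by
    rintro ⟨φ⟩
    exact hne ⟨φ.trans ψ⟩
  have key : ∀ U : Finset α, 2 * U.card < Fintype.card α → ∃ S, S ∩ U = t ∩ U ∧
      Alt (NA T u w).card (NA T v w).card (∃ ρ, IsAut T ρ ∧ ρ u = v ∧ ρ v = u)
        (decide (u ∈ t)) (decide (v ∈ t)) (decide (w ∈ t)) (decide (z ∈ t))
        (t ∩ NA T u w).card (t ∩ NA T v w).card (pr T u v w z S) := by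
    intro U hU
    obtain ⟨S, hS, ⟨φ⟩⟩ := hOPP α T t t' U t hdeck hne hU ⟨RelIso.refl _⟩
    refine ⟨S, hS, ?_⟩
    obtain ⟨s, hs, hX⟩ := I2' S _ ⟨φ.trans ψ.symm⟩
    unfold Alt
    rcases haut s hs with ⟨hu, hv⟩ | ⟨hu, hv⟩
    · have hp := pr_fix h hs hu hv S
      rcases hX with g | g | g | g
      · rw [g, q_sd h] at hp
        exact Or.inl hp.symm
      · rw [g, q_compl, q_sd h] at hp
        refine Or.inr (Or.inl ?_)
        rw [← hp]
        simp [cm, sm, pr]
      · rw [g, q_tau h, q_sd h] at hp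
        refine Or.inr (Or.inr (Or.inl ?_))
        rw [← hp]
        simp [tm, sm, pr]
      · rw [g, q_compl, q_tau h, q_sd h] at hp
        refine Or.inr (Or.inr (Or.inr (Or.inl ?_)))
        rw [← hp]
        simp [cm, tm, sm, pr]
    · have hp := congrArg wm (q_swap h hs hu hv S)
      rw [wm_wm] at hp
      refine Or.inr (Or.inr (Or.inr (Or.inr ⟨⟨s, hs, hu, hv⟩, ?_⟩)))
      rcases hX with g | g | g | g
      · rw [g, q_sd h] at hp
        exact Or.inl hp.symm
      · rw [g, q_compl, q_sd h] at hp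
        refine Or.inr (Or.inl ?_)
        rw [← hp]
        simp [wm, cm, sm, pr]
      · rw [g, q_tau h, q_sd h] at hp
        refine Or.inr (Or.inr (Or.inl ?_))
        rw [← hp]
        simp [wm, tm, sm, pr]
      · rw [g, q_compl, q_tau h, q_sd h] at hp
        refine Or.inr (Or.inr (Or.inr ?_))
        rw [← hp]
        simp [wm, cm, tm, sm, pr]
  have hR : (∃ ρ, IsAut T ρ ∧ ρ u = v ∧ ρ v = u) → (NA T u w).card = (NA T v w).card := by
    rintro ⟨ρ, hρ, hu, hv⟩
    exact (pr_swap h hρ hu hv ∅).2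
  refine logic (a := (NA T u w).card) (b := (NA T v w).card) (m := (t ∩ NA T u w).card)
    (n := (t ∩ NA T v w).card) (p := decide (u ∈ t)) (q := decide (v ∈ t))
    (r := decide (w ∈ t)) (o := decide (z ∈ t))
    (R := ∃ ρ, IsAut T ρ ∧ ρ u = v ∧ ρ v = u)
    (card_le_card inter_subset_right) (card_le_card inter_subset_right) (by omega) (by omega)
    (by omega) hR ?_ ?_ ?_ ?_ ?_ ?_
  · rintro ⟨e1, e2⟩
    apply no
    obtain ⟨φ⟩ := I1 t
    have e : pr T u v w z (symmDiff (im (tau u v w z) t) {u, v}) =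
        pr T u v w z (symmDiff t {u, v}) := by
      rw [q_tau h, q_sd h]
      simp [tm, sm, pr, e1, e2]
    obtain ⟨χ⟩ := iso_pr hPRM h e
    exact ⟨φ.trans χ⟩
  · rintro ⟨e1, e2, e3, e4⟩
    apply no
    obtain ⟨φ⟩ := I1 (symmDiff t {u, v})
    have e : pr T u v w z t =
        pr T u v w z (symmDiff (im (tau u v w z) (symmDiff t {u, v})) {u, v})ᶜ := by
      rw [q_compl, q_tau h, q_sd h]
      simp only [pr, cm, tm, sm, Bool.not_not, Prod.mk.injEq]
      refine ⟨e1, ?_, e2, ?_, e3, e4⟩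
      · rw [e1, Bool.not_not]
      · rw [e2, Bool.not_not]
    obtain ⟨χ⟩ := iso_pr hPRM h e
    rw [swC_compl] at χ
    exact ⟨χ.trans φ.symm⟩
  · rintro ⟨ρ, hρ, hu, hv⟩ ⟨e1, e2⟩
    apply no
    obtain ⟨φ⟩ := iso_im (mem_AA.2 hρ) (symmDiff t {u, v})
    have e : pr T u v w z t = pr T u v w z (im ρ (symmDiff t {u, v})) := by
      rw [q_swap h hρ hu hv, q_sd h]
      simp only [pr, wm, sm, Prod.mk.injEq]
      refine ⟨e1, ?_, trivial, trivial, e2, e2.symm⟩
      rw [e1, Bool.not_not]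
    obtain ⟨χ⟩ := iso_pr hPRM h e
    exact ⟨χ.trans φ.symm⟩
  · obtain ⟨S, hS, hA⟩ := key {u, w} (by
      have : ({u, w} : Finset α).card ≤ 2 := card_le_two
      omega)
    refine ⟨decide (v ∈ S), decide (z ∈ S), (S ∩ NA T u w).card, (S ∩ NA T v w).card, ?_⟩
    have hu := dd hS (x := u) (by simp)
    have hw := dd hS (x := w) (by simp)
    unfold pr at hA
    rw [hu, hw] at hA
    exact hA
  · intro hab
    obtain ⟨S, hS, hA⟩ := key (insert u (NA T u w)) (by
      rw [card_insert_of_notMem (nA h).1]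
      omega)
    refine ⟨decide (v ∈ S), decide (w ∈ S), decide (z ∈ S), (S ∩ NA T v w).card, ?_⟩
    have hu := dd hS (x := u) (by simp)
    have hw := di hS (subset_insert _ _)
    unfold pr at hA
    rw [hu, hw] at hA
    exact hA
  · intro hab
    obtain ⟨S, hS, hA⟩ := key (insert v (NA T v w)) (by
      rw [card_insert_of_notMem (nA (sy h)).1]
      omega)
    refine ⟨decide (u ∈ S), decide (w ∈ S), decide (z ∈ S), (S ∩ NA T u w).card, ?_⟩
    have hu := dd hS (x := v) (by simp)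
    have hw := di hS (subset_insert _ _)
    unfold pr at hA
    rw [hu, hw] at hA
    exact hA

end Pool.Agent.TRC
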