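import Pool.Agent.TRC.Std

/-!
# TRC (MP_e73337_co), module ISO: isomorphisms of the members of the class
-/

set_option autoImplicit false

namespace Pool.Agent.TRC

open Finset Pool.Agent.Lib_helper61.SwitchBasic

namespace ISO

/-- A permutation that maps `C` onto `sw C V` maps `sw C t` onto `sw C (symmDiff V (im σ t))`. -/
theorem img {α : Type} [DecidableEq α] {C : SimpleGraph α} {σ : Equiv.Perm α}
    {V : Finset α} (h : ∀ a b, (sw C V).Adj (σ a) (σ b) ↔ C.Adj a b) (t : Finset α) (a b : α) :
    (sw C (symmDiff V (im σ t))).Adj (σ a) (σ b) ↔ (sw C t).Adj a b := by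
  have h1 := h a b
  have ha : σ a ∈ im σ t ↔ a ∈ t := by
    rw [mem_im]
    simp
  have hb : σ b ∈ im σ t ↔ b ∈ t := by
    rw [mem_im]
    simp
  rw [sw_adj] at h1 ⊢
  rw [sw_adj, mem_symmDiff, mem_symmDiff, ha, hb]
  by_cases hab : a = b
  · subst hab
    simp
  · have hne : σ a ≠ σ b := fun g => hab (σ.injective g)
    tauto

/-- The same for automorphisms. -/
theorem img' {α : Type} [DecidableEq α] {C : SimpleGraph α} {σ : Equiv.Perm α}
    (h : IsAut C σ) (t : Finset α) (a b : α) :
    (sw C (im σ t)).Adj (σ a) (σ b) ↔ (sw C t).Adj a b := by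
  have h1 := h a b
  have ha : σ a ∈ im σ t ↔ a ∈ t := by
    rw [mem_im]
    simp
  have hb : σ b ∈ im σ t ↔ b ∈ t := by
    rw [mem_im]
    simp
  rw [sw_adj, sw_adj, ha, hb, h1]
  by_cases hab : a = b
  · subst hab
    simp
  · have hne : σ a ≠ σ b := fun g => hab (σ.injective g)
    tauto

/-- Graphs that are images of the same graph under `σ` are equal. -/
theorem eq_of_img {α : Type} {G H K : SimpleGraph α} {σ : Equiv.Perm α}
    (h1 : ∀ a b, G.Adj (σ a) (σ b) ↔ K.Adj a b) (h2 : ∀ a b, H.Adj (σ a) (σ b) ↔ K.Adj a b) :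
    G = H := by
  ext u v
  have e1 := h1 (σ.symm u) (σ.symm v)
  have e2 := h2 (σ.symm u) (σ.symm v)
  rw [Equiv.apply_symm_apply, Equiv.apply_symm_apply] at e1 e2
  rw [e1, e2]

end ISO

/-- ISO. -/
theorem t_ISO : S_ISO := by
  intro α _ _ C τ V hτ hττ hV
  refine ⟨fun t => ?_, ?_⟩
  · have h1 := ISO.img hτ t
    rw [symmDiff_comm] at h1
    exact ⟨{ toEquiv := τ, map_rel_iff' := fun {a b} => h1 a b }⟩
  · intro hσ S t hiso
    obtain ⟨σ, hc, hφ⟩ : ∃ σ : Equiv.Perm α, IsClassAut C σ ∧
        ∀ a b, (sw C t).Adj (σ a) (σ b) ↔ (sw C S).Adj a b := by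
      obtain ⟨φ⟩ := hiso
      exact ⟨φ.toEquiv, classAut_of_iso C S t φ, fun a b => φ.map_rel_iff'⟩
    rcases hσ σ hc with hA | hB
    · refine ⟨σ, hA, ?_⟩
      have e : sw C (im σ S) = sw C t := ISO.eq_of_img (ISO.img' hA S) hφ
      rcases sw_eq e with h | h
      · exact Or.inl h
      · exact Or.inr (Or.inl h)
    · refine ⟨τ * σ, ?_, ?_⟩
      · intro a b
        have h1 := ISO.img hτ V (σ a) (σ b)
        rw [hV, symmDiff_self, Finset.bot_eq_empty, sw_empty] at h1
        rw [Equiv.Perm.mul_apply, Equiv.Perm.mul_apply]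
        exact h1.trans (hB a b)
      · have e : sw C (symmDiff V (im σ S)) = sw C t :=
          ISO.eq_of_img (ISO.img hB S) hφ
        rw [im_mul]
        rcases sw_eq e with h | h
        · have h2 : im σ S = symmDiff V t := by
            rw [← h, symmDiff_symmDiff_cancel_left]
          right; right; left
          rw [h2, im_sd, hV, symmDiff_comm]
        · have h2 : im σ S = symmDiff V tᶜ := by
            rw [← h, symmDiff_symmDiff_cancel_left]
          right; right; right
          rw [h2, im_sd, hV, im_compl]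
          ext y
          simp only [mem_symmDiff, mem_compl]
          tauto

end Pool.Agent.TRC
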