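import Pool.Agent.TRC.Ste

/-! TRC_LEA: the leaves at the centre of an exceptional tree. -/

set_option autoImplicit false

namespace Pool.Agent.TRC

open Finset Pool.Agent.Lib_helper61.SwitchBasic

namespace LEA

private theorem key {α : Type} [Fintype α] [DecidableEq α] (T : SimpleGraph α) [DecidableRel T.Adj]
    (u c : α) (huc : T.Adj u c) (h : ∀ a, T.Adj u a → a ≠ c → ∀ b, T.Adj a b → b = u)
    (hd : Fintype.card α + 2 ≤ 2 * T.degree u) :
    ∃ L : Finset α, (∀ x ∈ L, ∀ y, T.Adj x y ↔ y = u) ∧ Fintype.card α ≤ 2 * L.card := by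
  refine ⟨(T.neighborFinset u).erase c, ?_, ?_⟩
  · intro x hx y
    rw [Finset.mem_erase, SimpleGraph.mem_neighborFinset] at hx
    constructor
    · exact h x hx.2 hx.1 y
    · rintro rfl
      exact hx.2.symm
  · have hc : c ∈ T.neighborFinset u := by
      rw [SimpleGraph.mem_neighborFinset]
      exact huc
    rw [Finset.card_erase_of_mem hc, SimpleGraph.card_neighborFinset_eq_degree]
    omega

end LEA

theorem t_LEA : S_LEA := by
  intro α _ _ T _ u v h hd
  rcases h with ⟨x, y, h⟩ | ⟨w, z, h⟩
  · refine LEA.key T u x h.ux (fun a ha hax b hab => ?_) hd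
    have hau : a ≠ u := fun e => T.loopless.irrefl u (e ▸ ha)
    have hav : a ≠ v := fun e => h.nuv (e ▸ ha)
    rcases h.rest a b hab with e | e | e | e | ⟨e, -⟩ | ⟨e, -⟩
    · exact absurd e hau
    · exact absurd e hav
    · exact e
    · exact absurd ((e ▸ hab).symm) ((h.one a hau hav).1 ha)
    · exact absurd e hax
    · exact absurd h.vy (e ▸ (h.one a hau hav).1 ha)
  · refine LEA.key T u w h.uw (fun a ha haw b hab => ?_) hd
    have hau : a ≠ u := fun e => T.loopless.irrefl u (e ▸ ha)
    have hav : a ≠ v := fun e => h.nuv (e ▸ ha)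
    have haz : a ≠ z := fun e => h.nuz (e ▸ ha)
    rcases h.rest a b hab with e | e | e | e | ⟨e, -⟩ | ⟨e, -⟩
    · exact absurd e hau
    · exact absurd e hav
    · exact e
    · exact absurd ((e ▸ hab).symm) ((h.one a hau hav haw haz).1 ha)
    · exact absurd e haw
    · exact absurd e haz

end Pool.Agent.TRC
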