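import Pool.Agent.TRC.Stc
import Pool.Agent.TRC.MFIX

/-!
# TRC, module MIX: a central vertex with mixed blocks is fixed by all class automorphisms (helper8)
-/

set_option autoImplicit false

namespace Pool.Agent.TRC

namespace MIX

open Finset Pool.Agent.Lib_helper61.SwitchBasic

/-- `σ` as an isomorphism of the graphs without the edges at `c` and at `σ c`. -/
def iso {α : Type} (C Δ : SimpleGraph α) (c : α) (σ : Equiv.Perm α)
    (h : ∀ u v, Δ.Adj (σ u) (σ v) ↔ C.Adj u v) : del C c ≃g del Δ (σ c) where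
  toEquiv := σ
  map_rel_iff' := by
    intro u v
    show (Δ.Adj (σ u) (σ v) ∧ σ u ≠ σ c ∧ σ v ≠ σ c) ↔ (C.Adj u v ∧ u ≠ c ∧ v ≠ c)
    rw [h u v, σ.injective.ne_iff, σ.injective.ne_iff]

theorem card_blk {α : Type} [Fintype α] [DecidableEq α] (C Δ : SimpleGraph α) (c z : α)
    (σ : Equiv.Perm α) (h : ∀ u v, Δ.Adj (σ u) (σ v) ↔ C.Adj u v) :
    (blk Δ (σ c) (σ z)).card = (blk C c z).card := by
  symm
  apply Finset.card_bij (fun y _ => σ y)
  · intro y hy
    rw [FIX.mem_blk] at hy ⊢
    exact ((iso C Δ c σ h).reachable_iff).2 hy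
  · intro a _ b _ hab
    exact σ.injective hab
  · intro b hb
    refine ⟨σ.symm b, ?_, σ.apply_symm_apply b⟩
    rw [FIX.mem_blk] at hb ⊢
    refine ((iso C Δ c σ h).reachable_iff).1 ?_
    have : (iso C Δ c σ h) (σ.symm b) = b := σ.apply_symm_apply b
    rw [this]
    exact hb

theorem reach_c {α : Type} (C : SimpleGraph α) (c : α) : ∀ {x : α}, (del C c).Reachable c x → x = c
  | _, ⟨.nil⟩ => rfl
  | _, ⟨.cons h _⟩ => absurd rfl h.2.1

theorem not_reach {α : Type} (C : SimpleGraph α) (c : α) {x : α} (h : (del C c).Reachable x c) :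
    x = c := reach_c C c h.symm

/-- walks inside a closed set are walks in the other graph -/
theorem reach_of_closed {α : Type} (G H : SimpleGraph α) (R : α → Prop)
    (hcl : ∀ u v, R u → G.Adj u v → R v ∧ H.Adj u v) :
    ∀ {x y : α} (_ : G.Walk x y), R x → H.Reachable x y
  | _, _, .nil, _ => SimpleGraph.Reachable.refl _
  | _, _, .cons h p, hx =>
    ((hcl _ _ hx h).2.reachable).trans (reach_of_closed G H R hcl p (hcl _ _ hx h).1)

end MIX

open Finset Pool.Agent.Lib_helper61.SwitchBasic in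
theorem t_MIX : S_MIX := by
  classical
  intro α _ _ C c hev h1 h2 σ hσ
  obtain ⟨S, hS⟩ := hσ
  by_contra hne
  obtain ⟨c', hc'⟩ : ∃ c', c' = σ c := ⟨_, rfl⟩
  rw [← hc'] at hne
  obtain ⟨q, hq⟩ := hev
  obtain ⟨P, hP⟩ : ∃ P : α → Prop, P = fun x => ¬ (x ∈ S ↔ c' ∈ S) := ⟨_, rfl⟩
  have hadj : ∀ u v, (sw C S).Adj u v ↔ u ≠ v ∧ (C.Adj u v ↔ (P u ↔ P v)) := by
    intro u v
    rw [sw_adj, hP]
    have : (u ∈ S ↔ v ∈ S) ↔ (¬ (u ∈ S ↔ c' ∈ S) ↔ ¬ (v ∈ S ↔ c' ∈ S)) := by tauto
    rw [this]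
  obtain ⟨D, hD⟩ : ∃ D, D = del (sw C S) c' := ⟨_, rfl⟩
  have hDadj : ∀ u v, D.Adj u v ↔ (sw C S).Adj u v ∧ u ≠ c' ∧ v ≠ c' := by
    intro u v; rw [hD]; exact Iff.rfl
  -- (*)
  have star : ∀ t, t ≠ c' → ∀ T : Finset α, (∀ z ∈ T, D.Reachable t z) →
      2 * T.card < Fintype.card α := by
    intro t ht T hT
    have hsub : T ⊆ blk (sw C S) c' t := by
      intro z hz
      rw [FIX.mem_blk, ← hD]
      exact hT z hz
    have hz : σ.symm t ≠ c := by
      intro e
      apply ht
      rw [hc', ← e, σ.apply_symm_apply]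
    have h3 := MIX.card_blk C (sw C S) c (σ.symm t) σ hS
    rw [σ.apply_symm_apply, ← hc'] at h3
    have h4 := card_le_card hsub
    have h5 := h1 _ hz
    omega
  obtain ⟨B, hB⟩ : ∃ B, B = blk C c c' := ⟨_, rfl⟩
  have hmB : ∀ x, x ∈ B ↔ (del C c).Reachable c' x := by
    intro x; rw [hB]; exact FIX.mem_blk C c c' x
  have hcB : c ∉ B := fun h => hne (MIX.not_reach C c ((hmB c).1 h))
  have hc'B : c' ∈ B := (hmB c').2 (SimpleGraph.Reachable.refl _)
  have hBcard : 2 * B.card < Fintype.card α := by rw [hB]; exact h1 c' hne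
  have hB2 : 2 ≤ B.card := by
    obtain ⟨⟨y, hy, hy'⟩, z, hz, hz'⟩ := h2 c' hne
    rw [← hB] at hy hz
    have hyz : y ≠ z := fun e => hz' (e ▸ hy')
    exact Finset.one_lt_card.2 ⟨y, hy, z, hz, hyz⟩
  obtain ⟨R, hR⟩ : ∃ R, R = (insert c B)ᶜ := ⟨_, rfl⟩
  have hmR : ∀ x, x ∈ R ↔ x ≠ c ∧ x ∉ B := by
    intro x; rw [hR, mem_compl, mem_insert, not_or]
  have hRcard : R.card + B.card + 1 = Fintype.card α := by
    rw [hR, card_compl, card_insert_of_notMem hcB]
    have := card_le_univ (insert c B)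
    rw [card_insert_of_notMem hcB] at this
    omega
  have hRbig : Fintype.card α ≤ 2 * R.card := by omega
  have hRc' : ∀ x ∈ R, x ≠ c' := fun x hx e => ((hmR x).1 hx).2 (e ▸ hc'B)
  have hBc : ∀ x ∈ B, x ≠ c := fun x hx e => hcB (e ▸ hx)
  -- no edges between `B` and `R`
  have hcross : ∀ x ∈ B, ∀ y ∈ R, ¬ C.Adj x y := by
    intro x hx y hy h
    have : (del C c).Adj x y := ⟨h, hBc x hx, ((hmR y).1 hy).1⟩
    exact ((hmR y).1 hy).2 ((hmB y).2 (((hmB x).1 hx).trans this.reachable))
  -- edges of `D`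
  have hDe : ∀ x y, x ≠ c' → y ≠ c' → ¬ C.Adj x y → ¬ (P x ↔ P y) → D.Reachable x y := by
    intro x y hx hy hxy hPxy
    have hne' : x ≠ y := fun e => hPxy (e ▸ Iff.rfl)
    have : D.Adj x y :=
      (hDadj x y).2 ⟨(hadj x y).2 ⟨hne', iff_of_false hxy hPxy⟩, hx, hy⟩
    exact this.reachable
  have hBR : ∀ x ∈ B, x ≠ c' → ∀ y ∈ R, ¬ (P x ↔ P y) → D.Reachable x y :=
    fun x hx hx' y hy h => hDe x y hx' (hRc' y hy) (hcross x hx y hy) h
  -- step 1
  have step1 : ∀ b ∈ B, b ≠ c' → ∀ x ∈ B, x ≠ c' → (P x ↔ P b) := by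
    intro b0 hb0 hb0' b1 hb1 hb1'
    by_contra hP01
    have e0 : ∃ r0 ∈ R, (P r0 ↔ P b1) := by
      by_contra hno
      refine absurd (star b1 hb1' R fun z hz => ?_) (by omega)
      exact hBR b1 hb1 hb1' z hz fun h => hno ⟨z, hz, h.symm⟩
    have e1 : ∃ r1 ∈ R, (P r1 ↔ P b0) := by
      by_contra hno
      refine absurd (star b0 hb0' R fun z hz => ?_) (by omega)
      exact hBR b0 hb0 hb0' z hz fun h => hno ⟨z, hz, h.symm⟩
    obtain ⟨r0, hr0, hr0P⟩ := e0
    obtain ⟨r1, hr1, hr1P⟩ := e1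
    have k0 : D.Reachable b0 r0 := hBR b0 hb0 hb0' r0 hr0 (by tauto)
    have k1 : D.Reachable b1 r1 := hBR b1 hb1 hb1' r1 hr1 (by tauto)
    by_cases h01 : D.Reachable b0 b1
    · -- everything is in one component
      have hall : ∀ z ∈ (B.erase c') ∪ R, D.Reachable b0 z := by
        intro z hz
        rcases mem_union.1 hz with hz | hz
        · have hzB := mem_of_mem_erase hz
          have hzc := ne_of_mem_erase hz
          by_cases hPz : (P z ↔ P b0)
          · have : D.Reachable z r0 := hBR z hzB hzc r0 hr0 (by tauto)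
            exact k0.trans this.symm
          · have : D.Reachable z r1 := hBR z hzB hzc r1 hr1 (by tauto)
            exact h01.trans (k1.trans this.symm)
        · by_cases hPz : (P z ↔ P b0)
          · exact h01.trans (hBR b1 hb1 hb1' z hz (by tauto))
          · exact hBR b0 hb0 hb0' z hz (by tauto)
      have h3 := star b0 hb0' _ hall
      have hdis : Disjoint (B.erase c') R := by
        rw [disjoint_left]
        intro z hz hz'
        exact ((hmR z).1 hz').2 (mem_of_mem_erase hz)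
      rw [card_union_of_disjoint hdis, card_erase_of_mem hc'B] at h3
      omega
    · -- all of one kind are `C`-adjacent to all of the other kind
      have hkey : ∀ r ∈ R, ∀ r' ∈ R, ¬ (P r ↔ P b0) → ¬ (P r' ↔ P b1) → C.Adj r r' := by
        intro r hr r' hr' hPr hPr'
        by_contra hn
        have m1 : D.Reachable b0 r := hBR b0 hb0 hb0' r hr (by tauto)
        have m2 : D.Reachable b1 r' := hBR b1 hb1 hb1' r' hr' (by tauto)
        have m3 : D.Reachable r r' := hDe r r' (hRc' r hr) (hRc' r' hr') hn (by tauto)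
        exact h01 (m1.trans (m3.trans m2.symm))
      have hsub : R ⊆ blk C c r1 := by
        intro r hr
        rw [FIX.mem_blk]
        have hrc := ((hmR r).1 hr).1
        have hr0c := ((hmR r0).1 hr0).1
        have hr1c := ((hmR r1).1 hr1).1
        by_cases hPr : (P r ↔ P b0)
        · have a1 : C.Adj r0 r := hkey r0 hr0 r hr (by tauto) (by tauto)
          have a2 : C.Adj r0 r1 := hkey r0 hr0 r1 hr1 (by tauto) (by tauto)
          have a1' : (del C c).Adj r0 r := ⟨a1, hr0c, hrc⟩
          have a2' : (del C c).Adj r0 r1 := ⟨a2, hr0c, hr1c⟩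
          exact a2'.reachable.symm.trans a1'.reachable
        · have a1 : C.Adj r r1 := hkey r hr r1 hr1 hPr (by tauto)
          have a1' : (del C c).Adj r r1 := ⟨a1, hrc, hr1c⟩
          exact a1'.reachable.symm
      have h3 := card_le_card hsub
      have h4 := h1 r1 ((hmR r1).1 hr1).1
      omega
  -- a second vertex of `B`
  obtain ⟨b, hb, hbc'⟩ : ∃ b ∈ B, b ≠ c' := by
    obtain ⟨x, hx, y, hy, hxy⟩ := Finset.one_lt_card.1 (by omega : 1 < B.card)
    by_cases h : x = c'
    · exact ⟨y, hy, fun e => hxy (h.trans e.symm)⟩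
    · exact ⟨x, hx, h⟩
  -- steps 2 and 3
  have step2 : ∀ r ∈ R, (P r ↔ P b) := by
    intro r hr
    by_contra hPr
    obtain ⟨T, hT⟩ : ∃ T, T = (B.erase c') ∪ insert r (R \ blk C c r) := ⟨_, rfl⟩
    have hbr : D.Reachable b r := hBR b hb hbc' r hr (by tauto)
    have hall : ∀ z ∈ T, D.Reachable r z := by
      intro z hz
      rw [hT] at hz
      rcases mem_union.1 hz with hz | hz
      · have hzB := mem_of_mem_erase hz
        have hzc := ne_of_mem_erase hz
        have hPz := step1 b hb hbc' z hzB hzc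
        exact (hBR z hzB hzc r hr (by tauto)).symm
      · rcases mem_insert.1 hz with hz | hz
        · rw [hz]
        · obtain ⟨hzR, hzD⟩ := mem_sdiff.1 hz
          by_cases hPz : (P z ↔ P b)
          · have hn : ¬ C.Adj r z := by
              intro h
              apply hzD
              rw [FIX.mem_blk]
              have : (del C c).Adj r z := ⟨h, ((hmR r).1 hr).1, ((hmR z).1 hzR).1⟩
              exact this.reachable
            exact hDe r z (hRc' r hr) (hRc' z hzR) hn (by tauto)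
          · exact hbr.symm.trans (hBR b hb hbc' z hzR (by tauto))
    have h3 := star r (hRc' r hr) T hall
    have hrD : r ∉ R \ blk C c r := by
      intro h
      apply (mem_sdiff.1 h).2
      rw [FIX.mem_blk]
    have hdis : Disjoint (B.erase c') (insert r (R \ blk C c r)) := by
      rw [disjoint_left]
      intro z hz hz'
      have hzB := mem_of_mem_erase hz
      rcases mem_insert.1 hz' with h | h
      · rw [h] at hzB
        exact ((hmR r).1 hr).2 hzB
      · exact ((hmR z).1 (mem_sdiff.1 h).1).2 hzB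
    rw [hT, card_union_of_disjoint hdis, card_erase_of_mem hc'B, card_insert_of_notMem hrD] at h3
    have h4 := Finset.le_card_sdiff (blk C c r) R
    have h5 := h1 r ((hmR r).1 hr).1
    omega
  -- the last step
  have hclosed : ∀ u v, u ∈ R → (del C c).Adj u v → v ∈ R ∧ D.Adj u v := by
    intro u v hu huv
    have hv : v ∈ R := by
      refine (hmR v).2 ⟨huv.2.2, fun h => ?_⟩
      have := hcross v h u hu
      exact this huv.1.symm
    refine ⟨hv, (hDadj u v).2 ⟨(hadj u v).2 ⟨huv.1.ne, ?_⟩, hRc' u hu, hRc' v hv⟩⟩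
    exact iff_of_true huv.1 ((step2 u hu).trans (step2 v hv).symm)
  have hall : ∀ z ∈ R, D.Reachable c z := by
    intro z hz
    have hzc := ((hmR z).1 hz).1
    obtain ⟨⟨y, hy, hy'⟩, w, hw, hw'⟩ := h2 z hzc
    rw [FIX.mem_blk] at hy hw
    have hreach : ∀ y, (del C c).Reachable z y → y ∈ R := by
      intro y hy
      refine (hmR y).2 ⟨fun e => hzc (MIX.not_reach C c (e ▸ hy)), fun h => ?_⟩
      exact ((hmR z).1 hz).2 ((hmB z).2 (((hmB y).1 h).trans hy.symm))
    have hDr : ∀ y, (del C c).Reachable z y → D.Reachable z y := by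
      rintro y ⟨p⟩
      exact MIX.reach_of_closed (del C c) D (fun x => x ∈ R) hclosed p hz
    by_cases hPc : (P c ↔ P b)
    · have hyR := hreach y hy
      have : D.Adj c y := (hDadj c y).2 ⟨(hadj c y).2 ⟨hy'.ne,
        iff_of_true hy' (hPc.trans (step2 y hyR).symm)⟩, (Ne.symm hne), hRc' y hyR⟩
      exact this.reachable.trans (hDr y hy).symm
    · have hwR := hreach w hw
      have : D.Reachable c w := hDe c w (Ne.symm hne) (hRc' w hwR) hw' (by
        have := step2 w hwR
        tauto)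
      exact this.trans (hDr w hw).symm
  have := star c (Ne.symm hne) R hall
  omega

end Pool.Agent.TRC
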