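import Pool.Agent.TRC.Std

/-!
# TRC, module OPP: the trace principle
-/

set_option autoImplicit false

namespace Pool.Agent.TRC

open Finset Pool.Agent.Lib_helper61.SwitchBasic

theorem t_OPP : S_OPP := by
  intro α _ _ C t t' U S₀ hdeck hne hU hS₀
  by_contra hcon
  have hcon' : ∀ T : Finset α, T ∩ U = S₀ ∩ U → ¬ Nonempty (sw C T ≃g sw C t') := by
    intro T hT hiso
    exact hcon ⟨T, hT, hiso⟩
  have hsd : ∀ S, sw (sw C t) (symmDiff t S) = sw C S := by
    intro S
    rw [sw_sw, symmDiff_symmDiff_cancel_left]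
  have hF : ∀ S, ∑ i : α, (fun S => ff (sw C t) (sw C t') (symmDiff t S)) (symmDiff S {i}) = 0 := by
    intro S
    rw [← sum_ff hdeck (symmDiff t S)]
    exact sum_congr rfl fun i _ => by rw [symmDiff_assoc]
  have h0 := tr_zero (F := fun S => ff (sw C t) (sw C t') (symmDiff t S)) hF hU S₀
  have hnn : ∀ T : Finset α, T ∩ U = S₀ ∩ U →
      0 ≤ ff (sw C t) (sw C t') (symmDiff t T) := by
    intro T hT
    unfold ff
    rw [hsd, ind_of_not _ _ (hcon' T hT), mul_zero, sub_zero]
    refine mul_nonneg ?_ (ind_nonneg _ _)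
    unfold cnt
    exact sum_nonneg fun _ _ => ind_nonneg _ _
  have hpos : 0 < tr (fun S => ff (sw C t) (sw C t') (symmDiff t S)) U S₀ := by
    unfold tr
    refine sum_pos' (fun T _ => ?_) ⟨S₀, mem_univ _, ?_⟩
    · by_cases hT : T ∩ U = S₀ ∩ U
      · rw [if_pos hT]
        exact hnn T hT
      · rw [if_neg hT]
    · rw [if_pos rfl]
      show 0 < ff (sw C t) (sw C t') (symmDiff t S₀)
      have hα : 0 < Fintype.card α := by omega
      obtain ⟨c⟩ := Fintype.card_pos_iff.1 hα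
      obtain ⟨T₀, hT₀⟩ := exists_sw hdeck c
      unfold ff
      rw [hsd, ind_of_not _ _ (hcon' S₀ rfl), ind_of _ _ hS₀, mul_zero, sub_zero, mul_one]
      exact cnt_pos _ _ T₀ hT₀
  exact hpos.ne' h0

end Pool.Agent.TRC
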