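import Pool.Agent.TRC.Std

/-!
# TRC, module PRM: a permutation of `A` and of `B` that maps `S` to `S'`
-/

set_option autoImplicit false

namespace Pool.Agent.TRC

open Finset Pool.Agent.Lib_helper61.SwitchBasic

namespace PRM

theorem cardA {α : Type} [Fintype α] [DecidableEq α] (A S : Finset α) :
    Fintype.card {x : {z // z ∈ A} // x.1 ∈ S} = (S ∩ A).card := by
  rw [Fintype.card_congr (Equiv.subtypeSubtypeEquivSubtypeInter (fun z => z ∈ A) (fun z => z ∈ S)),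
    Fintype.card_subtype]
  congr 1
  ext z
  simp [and_comm]

theorem one {α : Type} [Fintype α] [DecidableEq α] (A S S' : Finset α)
    (h : (S ∩ A).card = (S' ∩ A).card) : ∃ π : Equiv.Perm α, (∀ z, z ∉ A → π z = z) ∧
      (∀ z ∈ A, π z ∈ A) ∧ ∀ z ∈ A, (z ∈ S ↔ π z ∈ S') := by
  classical
  have hc : Fintype.card {x : {z // z ∈ A} // x.1 ∈ S} =
      Fintype.card {x : {z // z ∈ A} // x.1 ∈ S'} := by
    rw [cardA, cardA, h]
  let e := Fintype.equivOfCardEq hc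
  let σ : Equiv.Perm {z // z ∈ A} := e.extendSubtype
  have hval : ∀ (z : α) (hz : z ∈ A), Equiv.Perm.ofSubtype σ z = (σ ⟨z, hz⟩ : {z // z ∈ A}).1 :=
    fun z hz => Equiv.Perm.ofSubtype_apply_of_mem σ hz
  refine ⟨Equiv.Perm.ofSubtype σ, fun z hz => Equiv.Perm.ofSubtype_apply_of_not_mem σ hz,
    fun z hz => ?_, fun z hz => ?_⟩
  · rw [hval z hz]
    exact (σ ⟨z, hz⟩).2
  · rw [hval z hz]
    constructor
    · intro h1
      exact e.extendSubtype_mem ⟨z, hz⟩ h1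
    · intro h1
      by_contra h2
      exact e.extendSubtype_not_mem ⟨z, hz⟩ h2 h1

end PRM

theorem t_PRM : S_PRM := by
  intro α _ _ A B S S' hAB hA hB hrest
  obtain ⟨p, p1, p2, p3⟩ := PRM.one A S S' hA
  obtain ⟨q, q1, q2, q3⟩ := PRM.one B S S' hB
  have hAB1 : ∀ z ∈ A, z ∉ B := fun z h1 h2 => Finset.disjoint_left.1 hAB h1 h2
  have hBA1 : ∀ z ∈ B, z ∉ A := fun z h1 h2 => Finset.disjoint_left.1 hAB h2 h1
  have e1 : ∀ z, z ∉ A → z ∉ B → (p * q) z = z := by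
    intro z h1 h2
    rw [Equiv.Perm.mul_apply, q1 z h2, p1 z h1]
  have e2 : ∀ z ∈ A, (p * q) z = p z := by
    intro z h1
    rw [Equiv.Perm.mul_apply, q1 z (hAB1 z h1)]
  have e3 : ∀ z ∈ B, (p * q) z = q z := by
    intro z h1
    rw [Equiv.Perm.mul_apply, p1 _ (hBA1 _ (q2 z h1))]
  have key : ∀ z, z ∈ S ↔ (p * q) z ∈ S' := by
    intro z
    by_cases h1 : z ∈ A
    · rw [e2 z h1]
      exact p3 z h1
    by_cases h2 : z ∈ B
    · rw [e3 z h2]
      exact q3 z h2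
    rw [e1 z h1 h2]
    exact hrest z h1 h2
  refine ⟨p * q, e1, fun z hz => ?_, fun z hz => ?_, ?_⟩
  · rw [e2 z hz]
    exact p2 z hz
  · rw [e3 z hz]
    exact q2 z hz
  · ext x
    rw [mem_im, key]
    have h : (p * q) ((p * q)⁻¹ x) = x := (p * q).apply_symm_apply x
    rw [h]

end Pool.Agent.TRC
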