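import Pool.Agent.TRC.Std

/-! # TRC (MP_e73337_co), module PRR: an invariant pair. -/

set_option autoImplicit false

namespace Pool.Agent.TRC

open Finset Pool.Agent.Lib_helper61.SwitchBasic

namespace MPRR

theorem classAut_sw {α : Type} [DecidableEq α] {C : SimpleGraph α} {t : Finset α}
    {σ : Equiv.Perm α} (h : IsClassAut (sw C t) σ) : IsClassAut C σ := by
  obtain ⟨S, hS⟩ := h
  rw [sw_sw] at hS
  exact classAut_of_iso C t (symmDiff t S) ⟨σ, fun {a b} => hS a b⟩

end MPRR

theorem t_PRR : S_PRR := by
  intro α _ _ C t t' u v hdeck hne hn huv hσ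
  have hV : IsInvariant (sw C t) {u, v} := by
    intro σ h w
    have h1 := hσ σ (MPRR.classAut_sw h)
    simp only [mem_insert, mem_singleton]
    rcases h1 with ⟨h2, h3⟩ | ⟨h2, h3⟩
    · constructor
      · rintro (h4 | h4)
        · left; exact σ.injective (h4.trans h2.symm)
        · right; exact σ.injective (h4.trans h3.symm)
      · rintro (h4 | h4)
        · left; rw [h4, h2]
        · right; rw [h4, h3]
    · constructor
      · rintro (h4 | h4)
        · right; exact σ.injective (h4.trans h3.symm)
        · left; exact σ.injective (h4.trans h2.symm)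
      · rintro (h4 | h4)
        · right; rw [h4, h2]
        · left; rw [h4, h3]
  have hcard : ({u, v} : Finset α).card = 2 * 1 := by rw [card_pair huv]
  have h1 := ff_switch hn hdeck hV 1 hcard ∅
  rw [ff_empty hne] at h1
  have hpos : 0 < cnt (sw C t) (sw C t') := by
    refine cnt_pos _ _ (symmDiff t t') ?_
    rw [sw_sw, symmDiff_symmDiff_cancel_left]
    exact ⟨SimpleGraph.Iso.refl⟩
  have e0 : symmDiff (∅ : Finset α) {u, v} = {u, v} := by
    rw [symmDiff_comm, sd_empty]
  rw [e0] at h1
  rw [← sw_sw]
  by_contra hc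
  have h2 : 0 ≤ ff (sw C t) (sw C t') {u, v} := by
    unfold ff
    rw [ind_of_not _ _ hc, mul_zero, sub_zero]
    refine mul_nonneg hpos.le ?_
    unfold ind
    split_ifs <;> norm_num
  rw [h1] at h2
  simp at h2
  linarith

end Pool.Agent.TRC
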