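import Pool.Agent.TRC.Std
import Pool.Agent.Lib_helper61.SwMain

/-! SCL: many isolated vertices (module TRC_SCL). -/

set_option autoImplicit false

namespace Pool.Agent.TRC

open Finset Pool.Agent.Lib_helper61.SwitchBasic Pool.Agent.Lib_helper61.SwMain

namespace SCLaux

theorem isolated {α : Type} {Γ : SimpleGraph α} {x y : α} (hx : ∀ z, ¬ Γ.Adj x z)
    (h : Γ.Reachable x y) : x = y := by
  obtain ⟨p⟩ := h
  cases p with
  | nil => rfl
  | cons h' _ => exact absurd h' (hx _)

theorem iso_of {α : Type} (C : SimpleGraph α) (w : α) (L : Finset α)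
    (hL : ∀ x ∈ L, ∀ y, C.Adj x y ↔ y = w) (x : α) (hx : x ∈ L) (z : α) :
    ¬ (sw C {w}).Adj x z := by
  rw [sw_adj]
  rintro ⟨h1, h2⟩
  have h3 : x ≠ w := by
    intro e
    have h4 := (hL x hx w).2 rfl
    rw [e] at h4
    exact C.loopless.irrefl w h4
  have h5 := hL x hx z
  rw [Finset.mem_singleton, Finset.mem_singleton] at h2
  tauto

end SCLaux

open SCLaux

theorem t_SCL : S_SCL := by
  classical
  intro α _ _ C w L hL hcard h8 t t' hdeck
  have hiso : ∀ x ∈ L, ∀ z, ¬ (sw C {w}).Adj x z := fun x hx z => iso_of C w L hL x hx z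
  have hL4 : 4 ≤ L.card := by omega
  have h3 : 3 ≤ Nat.card (sw C {w}).ConnectedComponent := by
    have : Fintype (sw C {w}).ConnectedComponent := Fintype.ofFinite _
    rw [Nat.card_eq_fintype_card, ← Finset.card_univ]
    refine le_trans (by omega : 3 ≤ L.card) ?_
    refine Finset.card_le_card_of_injOn (fun x => (sw C {w}).connectedComponentMk x)
      (fun x _ => Finset.mem_coe.2 (Finset.mem_univ _)) ?_
    intro x hx y _ hxy
    have h1 : (sw C {w}).Reachable x y := SimpleGraph.ConnectedComponent.exact hxy
    exact isolated (hiso x hx) h1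
  have hs : ∀ c : (sw C {w}).ConnectedComponent, 2 * c.supp.ncard ≤ Fintype.card α := by
    intro c
    by_cases hc : ∃ x ∈ L, x ∈ c.supp
    · obtain ⟨x, hx, hxc⟩ := hc
      have h1 : c.supp ⊆ {x} := by
        intro y hy
        rw [SimpleGraph.ConnectedComponent.mem_supp_iff] at hy hxc
        have h2 : (sw C {w}).Reachable x y :=
          SimpleGraph.ConnectedComponent.exact (hxc.trans hy.symm)
        rw [Set.mem_singleton_iff]
        exact (isolated (hiso x hx) h2).symm
      have h2 := Set.ncard_le_ncard h1 (Set.finite_singleton x)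
      rw [Set.ncard_singleton] at h2
      omega
    · push Not at hc
      have h1 : c.supp ⊆ ((Lᶜ : Finset α) : Set α) := by
        intro y hy
        rw [Finset.mem_coe, Finset.mem_compl]
        exact fun h => hc y h hy
      have h2 := Set.ncard_le_ncard h1 (Finset.finite_toSet _)
      rw [Set.ncard_coe_finset, Finset.card_compl] at h2
      omega
  have hsz : ∀ c : (sw C {w}).ConnectedComponent, c.supp.ncard + 3 ≤ Fintype.card α := by
    intro c
    have := hs c
    omega
  refine main_comps (by omega) h3 hsz (small_aut _ h3 hs) (symmDiff t {w}) ?_ hdeck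
  rw [sw_sw, symmDiff_symmDiff_cancel_left]

end Pool.Agent.TRC
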