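import Pool.Agent.TRC.Ste

/-!
# TRC, module TYP: the structure of the exceptional trees
-/

set_option autoImplicit false

namespace Pool.Agent.TRC

open Finset Pool.Agent.Lib_helper61.SwitchBasic

namespace TYP

/-- no cycle of length 4 -/
theorem four {α : Type} {T : SimpleGraph α} (hT : T.IsAcyclic) {u v w₁ w₂ : α} (huv : u ≠ v)
    (h1 : T.Adj u w₁) (h2 : T.Adj v w₁) (h3 : T.Adj u w₂) (h4 : T.Adj v w₂) : w₁ = w₂ := by
  classical
  have p1 : (SimpleGraph.Walk.cons h1 (SimpleGraph.Walk.cons h2.symm SimpleGraph.Walk.nil)).IsPath := by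
    simp [SimpleGraph.Walk.cons_isPath_iff, huv, h1.ne, h2.ne']
  have p2 : (SimpleGraph.Walk.cons h3 (SimpleGraph.Walk.cons h4.symm SimpleGraph.Walk.nil)).IsPath := by
    simp [SimpleGraph.Walk.cons_isPath_iff, huv, h3.ne, h4.ne']
  have h := (hT.subsingleton_path u v).elim ⟨_, p1⟩ ⟨_, p2⟩
  have h' := congrArg (fun p : T.Path u v => p.1.support) h
  simp at h'
  exact h'

/-- no triangle -/
theorem three {α : Type} {T : SimpleGraph α} (hT : T.IsAcyclic) {u r t : α}
    (h1 : T.Adj u r) (h2 : T.Adj u t) (h3 : T.Adj r t) : False := by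
  classical
  have p1 : (SimpleGraph.Walk.cons h3 SimpleGraph.Walk.nil).IsPath := by
    simp [SimpleGraph.Walk.cons_isPath_iff, h3.ne]
  have p2 : (SimpleGraph.Walk.cons h1.symm (SimpleGraph.Walk.cons h2 SimpleGraph.Walk.nil)).IsPath := by
    simp [SimpleGraph.Walk.cons_isPath_iff, h1.ne', h2.ne, h3.ne]
  have h := (hT.subsingleton_path r t).elim ⟨_, p1⟩ ⟨_, p2⟩
  have h' := congrArg (fun p : T.Path r t => p.1.length) h
  simp at h'

variable {α : Type} [Fintype α] [DecidableEq α]

/-- exactly one edge has no end in `{u, v}` -/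
theorem edges (T : SimpleGraph α) [DecidableRel T.Adj] (hT : T.IsTree) (u v : α) (huv : u ≠ v)
    (hn : ¬ T.Adj u v) (hp : 2 ≤ Fintype.card α)
    (hd : T.degree u + T.degree v = Fintype.card α - 2) :
    ∃ r t, r ≠ u ∧ r ≠ v ∧ t ≠ u ∧ t ≠ v ∧ T.Adj r t ∧
      ∀ a b, T.Adj a b → a = u ∨ a = v ∨ b = u ∨ b = v ∨ (a = r ∧ b = t) ∨ (a = t ∧ b = r) := by
  classical
  have h1 := hT.card_edgeFinset
  have hsub : T.incidenceFinset u ∪ T.incidenceFinset v ⊆ T.edgeFinset := by
    intro e he
    rw [SimpleGraph.mem_edgeFinset]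
    rcases mem_union.1 he with he | he
    · rw [SimpleGraph.mem_incidenceFinset] at he
      exact T.incidenceSet_subset u he
    · rw [SimpleGraph.mem_incidenceFinset] at he
      exact T.incidenceSet_subset v he
  have hint : Disjoint (T.incidenceFinset u) (T.incidenceFinset v) := by
    rw [disjoint_left]
    intro e he he'
    rw [SimpleGraph.mem_incidenceFinset] at he he'
    have h4 := (Sym2.mem_and_mem_iff huv).1 ⟨he.2, he'.2⟩
    rw [h4] at he
    exact hn he.1
  have hc := card_union_of_disjoint hint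
  rw [SimpleGraph.card_incidenceFinset_eq_degree, SimpleGraph.card_incidenceFinset_eq_degree,
    hd] at hc
  have hs := card_sdiff_of_subset hsub
  have hs1 : (T.edgeFinset \ (T.incidenceFinset u ∪ T.incidenceFinset v)).card = 1 := by omega
  obtain ⟨e, he⟩ := card_eq_one.1 hs1
  have hmem : ∀ f : Sym2 α, f ∈ T.edgeSet → u ∉ f → v ∉ f → f = e := by
    intro f hf h5 h6
    have : f ∈ T.edgeFinset \ (T.incidenceFinset u ∪ T.incidenceFinset v) := by
      rw [mem_sdiff, mem_union, SimpleGraph.mem_incidenceFinset, SimpleGraph.mem_incidenceFinset,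
        SimpleGraph.mem_edgeFinset]
      refine ⟨hf, ?_⟩
      rintro (h | h)
      · exact h5 h.2
      · exact h6 h.2
    rw [he, mem_singleton] at this
    exact this
  have hin : e ∈ T.edgeFinset \ (T.incidenceFinset u ∪ T.incidenceFinset v) := by
    rw [he]
    exact mem_singleton_self e
  rw [mem_sdiff, mem_union, SimpleGraph.mem_incidenceFinset, SimpleGraph.mem_incidenceFinset,
    SimpleGraph.mem_edgeFinset] at hin
  obtain ⟨hE, hE'⟩ := hin
  induction e using Sym2.ind with
  | _ r t =>
    have hu : u ∉ s(r, t) := fun h => hE' (Or.inl ⟨hE, h⟩)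
    have hv : v ∉ s(r, t) := fun h => hE' (Or.inr ⟨hE, h⟩)
    rw [Sym2.mem_iff, not_or] at hu hv
    refine ⟨r, t, fun h => hu.1 h.symm, fun h => hv.1 h.symm, fun h => hu.2 h.symm,
      fun h => hv.2 h.symm, hE, fun a b hab => ?_⟩
    by_cases ha : a = u
    · exact Or.inl ha
    by_cases ha' : a = v
    · exact Or.inr (Or.inl ha')
    by_cases hb : b = u
    · exact Or.inr (Or.inr (Or.inl hb))
    by_cases hb' : b = v
    · exact Or.inr (Or.inr (Or.inr (Or.inl hb')))
    have h7 := hmem s(a, b) hab (by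
      rw [Sym2.mem_iff, not_or]
      exact ⟨fun h => ha h.symm, fun h => hb h.symm⟩) (by
      rw [Sym2.mem_iff, not_or]
      exact ⟨fun h => ha' h.symm, fun h => hb' h.symm⟩)
    rw [Sym2.eq_iff] at h7
    exact Or.inr (Or.inr (Or.inr (Or.inr h7)))

end TYP

theorem t_TYP : S_TYP := by
  intro α _ _ T _ hT hp u v huv hn hd hsw
  obtain ⟨r, t, hru, hrv, htu, htv, hrt, hrest⟩ := TYP.edges T hT u v huv hn (by omega) hd
  have hrest' : ∀ a b, T.Adj a b →
      a = u ∨ a = v ∨ b = u ∨ b = v ∨ (a = t ∧ b = r) ∨ (a = r ∧ b = t) := by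
    intro a b hab
    have := hrest a b hab
    tauto
  set A := T.neighborFinset u with hA
  set B := T.neighborFinset v with hB
  set R : Finset α := univ \ {u, v} with hR
  have hRc : R.card = Fintype.card α - 2 := by
    rw [hR, card_sdiff_of_subset (subset_univ _), card_univ, card_pair huv]
  have hmR : ∀ z, z ∈ R ↔ z ≠ u ∧ z ≠ v := by
    intro z
    rw [hR, mem_sdiff, mem_insert, mem_singleton, not_or]
    simp
  have hmA : ∀ z, z ∈ A ↔ T.Adj u z := by
    intro z
    rw [hA, SimpleGraph.mem_neighborFinset]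
  have hmB : ∀ z, z ∈ B ↔ T.Adj v z := by
    intro z
    rw [hB, SimpleGraph.mem_neighborFinset]
  have hsub : A ∪ B ⊆ R := by
    intro z hz
    rw [mem_union, hmA, hmB] at hz
    rw [hmR]
    rcases hz with hz | hz
    · refine ⟨hz.ne', ?_⟩
      rintro rfl
      exact hn hz
    · refine ⟨?_, hz.ne'⟩
      rintro rfl
      exact hn hz.symm
  have hc := card_union_add_card_inter A B
  rw [hA, hB, SimpleGraph.card_neighborFinset_eq_degree,
    SimpleGraph.card_neighborFinset_eq_degree, hd, ← hA, ← hB] at hc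
  by_cases h0 : ∃ w, T.Adj u w ∧ T.Adj v w
  · right
    obtain ⟨w, hw1, hw2⟩ := h0
    have hwu : w ≠ u := hw1.ne'
    have hwv : w ≠ v := hw2.ne'
    have hAB : A ∩ B = {w} := by
      ext q
      rw [mem_inter, mem_singleton, hmA, hmB]
      constructor
      · rintro ⟨h1, h2⟩
        exact TYP.four hT.isAcyclic huv h1 h2 hw1 hw2
      · rintro rfl
        exact ⟨hw1, hw2⟩
    rw [hAB, card_singleton] at hc
    have hz1 : (R \ (A ∪ B)).card = 1 := by
      rw [card_sdiff_of_subset hsub]
      omega
    obtain ⟨z, hz⟩ := card_eq_one.1 hz1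
    have hmz : ∀ q, q ≠ u → q ≠ v → ¬ T.Adj u q → ¬ T.Adj v q → q = z := by
      intro q h1 h2 h3 h4
      have : q ∈ R \ (A ∪ B) := by
        rw [mem_sdiff, mem_union, hmR, hmA, hmB, not_or]
        exact ⟨⟨h1, h2⟩, h3, h4⟩
      rw [hz, mem_singleton] at this
      exact this
    have hzz : z ∈ R \ (A ∪ B) := by
      rw [hz]
      exact mem_singleton_self z
    rw [mem_sdiff, mem_union, hmR, hmA, hmB, not_or] at hzz
    obtain ⟨⟨hzu, hzv⟩, hnuz, hnvz⟩ := hzz
    have hone : ∀ q, q ≠ u → q ≠ v → q ≠ w → q ≠ z → (T.Adj u q ↔ ¬ T.Adj v q) := by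
      intro q h1 h2 h3 h4
      constructor
      · intro h5 h6
        exact h3 (TYP.four hT.isAcyclic huv h5 h6 hw1 hw2)
      · intro h5
        by_contra h6
        exact h4 (hmz q h1 h2 h6 h5)
    -- the neighbour of `z`
    have : Nontrivial α := ⟨⟨u, v, huv⟩⟩
    have hpz := hT.connected.preconnected.degree_pos_of_nontrivial z
    rw [SimpleGraph.degree_pos_iff_exists_adj] at hpz
    obtain ⟨q, hq⟩ := hpz
    -- `w` has a third neighbour
    obtain ⟨s, hs⟩ : ∃ s, (sw T {u, v}).Adj w s := by
      classical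
      have hpw := hsw.preconnected.degree_pos_of_nontrivial w
      rwa [SimpleGraph.degree_pos_iff_exists_adj] at hpw
    rw [sw_adj, mem_insert, mem_singleton, mem_insert, mem_singleton] at hs
    have hsu : s ≠ u := by
      rintro rfl
      have := hs.2.1 hw1.symm
      simp [hwu, hwv] at this
    have hsv : s ≠ v := by
      rintro rfl
      have := hs.2.1 hw2.symm
      simp [hwu, hwv] at this
    have hws : T.Adj w s := hs.2.2 (by simp [hwu, hwv, hsu, hsv])
    have hqz : z = s ∧ q = w ∨ z = w := by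
      have h1 := hrest z q hq
      have h2 := hrest w s hws
      have hqu : q ≠ u := by
        rintro rfl
        exact hnuz hq.symm
      have hqv : q ≠ v := by
        rintro rfl
        exact hnvz hq.symm
      rcases h1 with h1 | h1 | h1 | h1 | h1 | h1
      · exact absurd h1 hzu
      · exact absurd h1 hzv
      · exact absurd h1 hqu
      · exact absurd h1 hqv
      · rcases h2 with h2 | h2 | h2 | h2 | h2 | h2
        · exact absurd h2 hwu
        · exact absurd h2 hwv
        · exact absurd h2 hsu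
        · exact absurd h2 hsv
        · right
          rw [h1.1, h2.1]
        · left
          exact ⟨by rw [h1.1, h2.2], by rw [h1.2, h2.1]⟩
      · rcases h2 with h2 | h2 | h2 | h2 | h2 | h2
        · exact absurd h2 hwu
        · exact absurd h2 hwv
        · exact absurd h2 hsu
        · exact absurd h2 hsv
        · left
          exact ⟨by rw [h1.1, h2.2], by rw [h1.2, h2.1]⟩
        · right
          rw [h1.1, h2.1]
    rcases hqz with ⟨hq1, hq2⟩ | hq1
    · refine ⟨w, z, huv, hn, hw1, hw2, ?_, hnuz, hnvz, hzu, hzv, hone, ?_⟩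
      · rw [hq1]
        exact hws
      · intro a b hab
        have h1 := hrest a b hab
        have h2 := hrest w s hws
        rw [← hq1] at h2
        have h3 : (w = r ∧ z = t) ∨ (w = t ∧ z = r) := by
          tauto
        rcases h3 with ⟨h3, h4⟩ | ⟨h3, h4⟩
        · rw [h3, h4]
          exact h1
        · rw [h3, h4]
          exact hrest' a b hab
    · exact absurd (hq1 ▸ hw1) hnuz
  · left
    have hAB : A ∩ B = ∅ := by
      rw [eq_empty_iff_forall_notMem]
      intro w hw
      rw [mem_inter, hmA, hmB] at hw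
      exact h0 ⟨w, hw⟩
    rw [hAB, card_empty] at hc
    have hAB' : A ∪ B = R := eq_of_subset_of_card_le hsub (by omega)
    have hone : ∀ z, z ≠ u → z ≠ v → (T.Adj u z ↔ ¬ T.Adj v z) := by
      intro z h1 h2
      constructor
      · intro h3 h4
        exact h0 ⟨z, h3, h4⟩
      · intro h3
        have h4 : z ∈ A ∪ B := by
          rw [hAB', hmR]
          exact ⟨h1, h2⟩
        rw [mem_union, hmA, hmB] at h4
        exact h4.resolve_right h3
    by_cases hr : T.Adj u r
    · have ht : ¬ T.Adj u t := fun h => TYP.three hT.isAcyclic hr h hrt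
      have ht' : T.Adj v t := by
        by_contra h
        exact ht ((hone t htu htv).2 h)
      exact ⟨r, t, huv, hn, hr, ht', hrt, hone, hrest⟩
    · have hr' : T.Adj v r := by
        by_contra h
        exact hr ((hone r hru hrv).2 h)
      have ht' : ¬ T.Adj v t := fun h => TYP.three hT.isAcyclic hr' h hrt
      have ht : T.Adj u t := (hone t htu htv).2 ht'
      exact ⟨t, r, huv, hn, ht, hr', hrt.symm, hone, hrest'⟩

end Pool.Agent.TRC
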