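import Pool.Agent.TRC.Ste

/-! # TRC (MP_e73337_co), module UNI: uniqueness of the exceptional pair. -/

set_option autoImplicit false

namespace Pool.Agent.TRC

open Finset Pool.Agent.Lib_helper61.SwitchBasic

namespace MUNI

variable {α : Type} [Fintype α] [DecidableEq α] {T : SimpleGraph α} [DecidableRel T.Adj]

theorem deg_le {c : α} {F : Finset α} (h : ∀ d, T.Adj c d → d ∈ F) : T.degree c ≤ F.card := by
  rw [← SimpleGraph.card_neighborFinset_eq_degree]
  exact card_le_card fun d hd => h d ((SimpleGraph.mem_neighborFinset _ _ _).1 hd)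

omit [DecidableRel T.Adj] in
theorem not_iso {a b x : α} (hc : (sw T {a, b}).Connected) (hcard : 8 ≤ Fintype.card α)
    (h : ∀ c, ¬ (sw T {a, b}).Adj x c) : False := by
  have : Nontrivial α := Fintype.one_lt_card_iff_nontrivial.1 (by omega)
  obtain ⟨y, hy⟩ := exists_ne x
  obtain ⟨w⟩ := hc.preconnected x y
  cases w with
  | nil => exact hy rfl
  | cons hadj _ => exact h _ hadj

omit [DecidableRel T.Adj] in
/-- a vertex whose neighbours are exactly `a` and `b` -/
theorem iso_pair {a b x : α} (hc : (sw T {a, b}).Connected) (hcard : 8 ≤ Fintype.card α)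
    (hxa : x ≠ a) (hxb : x ≠ b) (h : ∀ c, T.Adj x c ↔ c = a ∨ c = b) : False := by
  refine not_iso hc hcard (x := x) fun c hadj => ?_
  have h1 := hadj.2
  simp only [mem_insert, mem_singleton, hxa, hxb, or_self, false_iff] at h1
  have h2 := h c
  tauto

/-- What is needed of the degrees. -/
structure Deg (T : SimpleGraph α) [DecidableRel T.Adj] (u v : α) : Prop where
  two : ∀ a b, a ≠ b → a ≠ u → a ≠ v → b ≠ u → b ≠ v → T.degree a + T.degree b ≤ 4
  three : ∀ b, b ≠ u → b ≠ v → T.degree b ≤ 3
  last : ∀ a b, (a = u ∨ a = v) → b ≠ u → b ≠ v → ¬ T.Adj a b → 2 ≤ T.degree b →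
    8 ≤ Fintype.card α → ¬ (sw T {a, b}).Connected

theorem deg1 {u v x y : α} (h : E1 T u v x y) : Deg T u v := by
  have hxu : x ≠ u := h.ux.ne'
  have hxv : x ≠ v := fun e => h.nuv (e ▸ h.ux)
  have hyv : y ≠ v := h.vy.ne'
  have hyu : y ≠ u := fun e => h.nuv ((e ▸ h.vy).symm)
  have hxy : x ≠ y := h.xy.ne
  have hvx : ¬ T.Adj v x := (h.one x hxu hxv).1 h.ux
  have huy : ¬ T.Adj u y := fun e => (h.one y hyu hyv).1 e h.vy
  have nx : ∀ c, T.Adj x c ↔ c = u ∨ c = y := by
    intro c
    constructor
    · intro hc
      rcases h.rest x c hc with e | e | e | e | e | e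
      · exact absurd e hxu
      · exact absurd e hxv
      · exact Or.inl e
      · subst e; exact absurd hc.symm hvx
      · exact Or.inr e.2
      · exact absurd e.1 hxy
    · rintro (e | e)
      · rw [e]; exact h.ux.symm
      · rw [e]; exact h.xy
  have ny : ∀ c, T.Adj y c ↔ c = v ∨ c = x := by
    intro c
    constructor
    · intro hc
      rcases h.rest y c hc with e | e | e | e | e | e
      · exact absurd e hyu
      · exact absurd e hyv
      · subst e; exact absurd hc.symm huy
      · exact Or.inl e
      · exact absurd e.1.symm hxy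
      · exact Or.inr e.2
    · rintro (e | e)
      · rw [e]; exact h.vy.symm
      · rw [e]; exact h.xy.symm
  have dx : T.degree x ≤ 2 := by
    refine (deg_le (F := {u, y}) fun d hd => ?_).trans card_le_two
    simpa using (nx d).1 hd
  have dy : T.degree y ≤ 2 := by
    refine (deg_le (F := {v, x}) fun d hd => ?_).trans card_le_two
    simpa using (ny d).1 hd
  have dz : ∀ z, z ≠ u → z ≠ v → z ≠ x → z ≠ y → T.degree z ≤ 1 := by
    intro z hzu hzv hzx hzy
    have h1 : ∀ c, T.Adj z c → c = u ∨ c = v := by
      intro c hc
      rcases h.rest z c hc with e | e | e | e | e | e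
      · exact absurd e hzu
      · exact absurd e hzv
      · exact Or.inl e
      · exact Or.inr e
      · exact absurd e.1 hzx
      · exact absurd e.1 hzy
    by_cases hu : T.Adj u z
    · have hv := (h.one z hzu hzv).1 hu
      refine (deg_le (F := {u}) fun d hd => ?_).trans (card_singleton u).le
      rcases h1 d hd with e | e
      · simpa using e
      · subst e; exact absurd hd.symm hv
    · refine (deg_le (F := {v}) fun d hd => ?_).trans (card_singleton v).le
      rcases h1 d hd with e | e
      · subst e; exact absurd hd.symm hu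
      · simpa using e
  have d2 : ∀ z, z ≠ u → z ≠ v → T.degree z ≤ 2 := by
    intro z hzu hzv
    by_cases hzx : z = x
    · rw [hzx]; exact dx
    · by_cases hzy : z = y
      · rw [hzy]; exact dy
      · exact (dz z hzu hzv hzx hzy).trans (by norm_num)
  refine ⟨?_, ?_, ?_⟩
  · intro a b _ ha1 ha2 hb1 hb2
    have := d2 a ha1 ha2
    have := d2 b hb1 hb2
    omega
  · intro b hb1 hb2
    have := d2 b hb1 hb2
    omega
  · intro a b ha hb1 hb2 hab hb hcard hc
    have hbxy : b = x ∨ b = y := by
      by_contra hcon
      push Not at hcon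
      have := dz b hb1 hb2 hcon.1 hcon.2
      omega
    rcases ha with ha | ha
    · subst ha
      rcases hbxy with e | e
      · subst e; exact hab h.ux
      · subst e
        exact iso_pair hc hcard hxu hxy nx
    · subst ha
      rcases hbxy with e | e
      · subst e
        exact iso_pair hc hcard hyv hxy.symm ny
      · subst e; exact hab h.vy

theorem deg2 {u v w z : α} (h : E2 T u v w z) : Deg T u v := by
  have hwu : w ≠ u := h.uw.ne'
  have hwv : w ≠ v := h.vw.ne'
  have hwz : w ≠ z := h.wz.ne
  have dw : T.degree w ≤ 3 := by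
    refine (deg_le (F := {u, v, z}) fun d hd => ?_).trans card_le_three
    rcases h.rest w d hd with e | e | e | e | e | e
    · exact absurd e hwu
    · exact absurd e hwv
    · simp [e]
    · simp [e]
    · simp [e.2]
    · exact absurd e.1 hwz
  have dz : ∀ c, c ≠ u → c ≠ v → c ≠ w → T.degree c ≤ 1 := by
    intro c hcu hcv hcw
    by_cases hcz : c = z
    · subst hcz
      refine (deg_le (F := {w}) fun d hd => ?_).trans (card_singleton w).le
      rcases h.rest c d hd with e | e | e | e | e | e
      · exact absurd e hcu
      · exact absurd e hcv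
      · subst e; exact absurd hd.symm h.nuz
      · subst e; exact absurd hd.symm h.nvz
      · exact absurd e.1 hcw
      · simpa using e.2
    · have h1 : ∀ d, T.Adj c d → d = u ∨ d = v := by
        intro d hd
        rcases h.rest c d hd with e | e | e | e | e | e
        · exact absurd e hcu
        · exact absurd e hcv
        · exact Or.inl e
        · exact Or.inr e
        · exact absurd e.1 hcw
        · exact absurd e.1 hcz
      by_cases hu : T.Adj u c
      · have hv := (h.one c hcu hcv hcw hcz).1 hu
        refine (deg_le (F := {u}) fun d hd => ?_).trans (card_singleton u).le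
        rcases h1 d hd with e | e
        · simpa using e
        · subst e; exact absurd hd.symm hv
      · refine (deg_le (F := {v}) fun d hd => ?_).trans (card_singleton v).le
        rcases h1 d hd with e | e
        · subst e; exact absurd hd.symm hu
        · simpa using e
  have d3 : ∀ c, c ≠ u → c ≠ v → T.degree c ≤ 3 := by
    intro c hcu hcv
    by_cases hcw : c = w
    · rw [hcw]; exact dw
    · exact (dz c hcu hcv hcw).trans (by norm_num)
  refine ⟨?_, d3, ?_⟩
  · intro a b hab ha1 ha2 hb1 hb2
    by_cases haw : a = w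
    · have := d3 a ha1 ha2
      have := dz b hb1 hb2 (fun e => hab (haw.trans e.symm))
      omega
    · have := dz a ha1 ha2 haw
      have := d3 b hb1 hb2
      omega
  · intro a b ha hb1 hb2 hab hb _ _
    have hbw : b = w := by
      by_contra hcon
      have := dz b hb1 hb2 hcon
      omega
    subst hbw
    rcases ha with ha | ha
    · subst ha; exact hab h.uw
    · subst ha; exact hab h.vw

theorem main {u v : α} (hD : Deg T u v) (h8 : 8 ≤ Fintype.card α)
    (h4 : Fintype.card α % 4 = 0) (hu : 2 * T.degree u < Fintype.card α + 2)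
    (hv : 2 * T.degree v < Fintype.card α + 2) (a b : α) (hab : DegEq T a b)
    (hc : (sw T {a, b}).Connected) (ha : a = u ∨ a = v) : b = u ∨ b = v := by
  by_contra hcon
  push Not at hcon
  obtain ⟨hb1, hb2⟩ := hcon
  obtain ⟨_, h1⟩ := hab
  have h3 := hD.three b hb1 hb2
  have hda : 2 * T.degree a < Fintype.card α + 2 := by
    rcases ha with e | e
    · rw [e]; exact hu
    · rw [e]; exact hv
  by_cases hadj : T.Adj a b
  · rw [if_pos hadj] at h1
    omega
  · rw [if_neg hadj] at h1
    exact hD.last a b ha hb1 hb2 hadj (by omega) h8 hc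

end MUNI

theorem t_UNI : S_UNI := by
  intro α _ _ T _ u v h8 h4 _ hE hu hv a b hab hc
  have hD : MUNI.Deg T u v := by
    rcases hE with ⟨x, y, h⟩ | ⟨w, z, h⟩
    · exact MUNI.deg1 h
    · exact MUNI.deg2 h
  have hab' : DegEq T b a := by
    obtain ⟨h1, h2⟩ := hab
    refine ⟨h1.symm, ?_⟩
    rw [add_comm, h2]
    simp only [SimpleGraph.adj_comm]
  have hc' : (sw T {b, a}).Connected := by
    rw [pair_comm]
    exact hc
  by_cases ha : a = u ∨ a = v
  · have hb := MUNI.main hD h8 h4 hu hv a b hab hc ha
    have hne := hab.1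
    rcases ha with ha | ha <;> rcases hb with hb | hb
    · exact absurd (ha.trans hb.symm) hne
    · exact Or.inl ⟨ha, hb⟩
    · exact Or.inr ⟨ha, hb⟩
    · exact absurd (ha.trans hb.symm) hne
  · by_cases hb : b = u ∨ b = v
    · exact absurd (MUNI.main hD h8 h4 hu hv b a hab' hc' hb) ha
    · exfalso
      push Not at ha hb
      obtain ⟨hne, h1⟩ := hab
      have h2 := hD.two a b hne ha.1 ha.2 hb.1 hb.2
      split_ifs at h1 <;> omega

end Pool.Agent.TRC
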