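import Pool.Agent.TRC.Grp

/-!
# TRC: the abstract theorem
-/

set_option autoImplicit false

namespace Pool.Agent.TRC

open Finset Pool.Agent.Lib_helper61.SwitchBasic

variable {α : Type} [DecidableEq α] [Fintype α] {ι : Type} [DecidableEq ι]

theorem sum_N (A : Finset (Equiv.Perm α)) (t U R : Finset α) :
    (∑ T : Finset α, if T ∩ U = R ∩ U then ((A.filter fun s => im s t = T).card : ℚ) else 0) =
      ((A.filter fun s => im s t ∩ U = R ∩ U).card : ℚ) := by
  have h1 : ∀ T : Finset α, (if T ∩ U = R ∩ U then ((A.filter fun s => im s t = T).card : ℚ)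
      else 0) = ∑ s ∈ A, if im s t = T then (if T ∩ U = R ∩ U then (1 : ℚ) else 0) else 0 := by
    intro T
    by_cases h : T ∩ U = R ∩ U
    · rw [if_pos h, card_filter]
      push_cast
      exact sum_congr rfl fun s _ => by simp [h]
    · simp [h]
  simp only [h1]
  rw [sum_comm, card_filter]
  push_cast
  exact sum_congr rfl fun s _ => by simp

variable {A : Finset (Equiv.Perm α)} {comp : α → ι}

section

variable {K : Finset α} (hKA : ∀ s ∈ A, ∀ x, s x ∈ K ↔ x ∈ K) {t : Finset α}
  (ht : ∀ x ∈ K, x ∉ t)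

include hKA ht

theorem im_K {s : Equiv.Perm α} (hs : s ∈ A) {x : α} (hx : x ∈ K) : x ∉ im s t := by
  rw [mem_im]
  apply ht
  rw [← hKA s hs]
  simpa using hx

theorem filter_eq {x κ : α} (hκ : κ ∈ K) {R : Finset α} (hR : R ⊆ bl comp x) (hRK : κ ∉ R) :
    (A.filter fun s => im s t ∩ insert κ (bl comp x) = R ∩ insert κ (bl comp x)) =
      A.filter fun s => im s t ∩ bl comp x = R := by
  refine filter_congr fun s hs => ?_
  have hk := im_K hKA ht hs hκ
  rw [inter_eq_iff]
  constructor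
  · intro h
    ext y
    rw [mem_inter]
    constructor
    · intro hy
      exact (h y (mem_insert_of_mem hy.2)).1 hy.1
    · intro hy
      exact ⟨(h y (mem_insert_of_mem (hR hy))).2 hy, hR hy⟩
  · intro h y hy
    rcases mem_insert.1 hy with rfl | hy
    · exact ⟨fun g => absurd g hk, fun g => absurd g hRK⟩
    · constructor
      · intro g
        rw [← h]
        exact mem_inter.2 ⟨g, hy⟩
      · intro g
        rw [← h] at g
        exact (mem_inter.1 g).1

theorem cs_zero {x : α} {R : Finset α} (h : ¬ (R ⊆ bl comp x ∧ ∀ y ∈ K, y ∉ R)) :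
    cs A comp t x R = 0 := by
  unfold cs
  rw [card_eq_zero, filter_eq_empty_iff]
  rintro s hs rfl
  apply h
  exact ⟨inter_subset_right, fun y hy g => im_K hKA ht hs hy (mem_inter.1 g).1⟩

end

theorem sum_cs (t : Finset α) (x : α) (W : Finset (Finset α)) :
    ∑ R ∈ W, cs A comp t x R ≤ A.card := by
  unfold cs
  rw [← card_biUnion]
  · refine card_le_card fun s hs => ?_
    rw [mem_biUnion] at hs
    obtain ⟨R, _, h⟩ := hs
    exact (mem_filter.1 h).1
  · intro R _ R' _ hne
    rw [Function.onFun, disjoint_left]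
    intro s h1 h2
    exact hne ((mem_filter.1 h1).2.symm.trans (mem_filter.1 h2).2)

/-- the orbit of a block -/
theorem card_A (h : Blocks A comp) (x : α) :
    A.card = (JJ A comp ∅ x ∅).card * st A comp x ∅ := by
  rw [← cs_eq h]
  unfold cs
  rw [filter_true_of_mem]
  intro s _
  rw [im_empty, empty_inter]

theorem bl_card (h : Blocks A comp) {s : Equiv.Perm α} (hs : s ∈ A) (x : α) :
    (bl comp (s⁻¹ x)).card = (bl comp x).card := by
  have : im s (bl comp (s⁻¹ x)) = bl comp x := by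
    ext y
    rw [mem_im, ← mem_bl_inv h hs]
  rw [← this]
  unfold im
  rw [card_map]

/-- at most two blocks have more than a third of the points -/
theorem orbit_le (h : Blocks A comp) (x : α) (hx : Fintype.card α < 3 * (bl comp x).card) :
    (JJ A comp ∅ x ∅).card ≤ 2 := by
  by_contra hcon
  rw [not_le, two_lt_card] at hcon
  obtain ⟨a, ha, b, hb, c, hc, hab, hac, hbc⟩ := hcon
  have key : ∀ κ ∈ JJ A comp ∅ x ∅, ∃ y, comp y = κ ∧ (bl comp y).card = (bl comp x).card := by
    intro κ hκ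
    obtain ⟨s, hs, _, h2⟩ := mem_JJ.1 hκ
    exact ⟨s⁻¹ x, h2, bl_card h hs x⟩
  obtain ⟨u, rfl, hu⟩ := key a ha
  obtain ⟨v, rfl, hv⟩ := key b hb
  obtain ⟨w, rfl, hw⟩ := key c hc
  have hd : ∀ {y z : α}, comp y ≠ comp z → Disjoint (bl comp y) (bl comp z) := by
    intro y z hyz
    rw [disjoint_left]
    intro q h1 h2
    exact hyz ((mem_bl.1 h1).symm.trans (mem_bl.1 h2))
  have h1 := card_union_of_disjoint (hd hab)
  have h2 : Disjoint (bl comp u ∪ bl comp v) (bl comp w) :=
    disjoint_union_left.2 ⟨hd hac, hd hbc⟩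
  have h3 := card_union_of_disjoint h2
  have h4 := card_le_univ (bl comp u ∪ bl comp v ∪ bl comp w)
  omega

/-- The abstract theorem. -/
theorem abs_core (h : Blocks A comp) {K : Finset α} (hK : K.Nonempty)
    (hKA : ∀ s ∈ A, ∀ x, s x ∈ K ↔ x ∈ K) {t t' : Finset α} (ht : ∀ x ∈ K, x ∉ t)
    (ht' : ∀ x ∈ K, x ∉ t') {F : Finset α → ℚ} (hF : ∀ S, ∑ i : α, F (symmDiff S {i}) = 0)
    {a b : ℚ} (ha : 0 < a)
    (hFS : ∀ S, (∃ x ∈ K, x ∉ S) → F S = a * ((A.filter fun s => im s t = S).card : ℚ) -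
      b * ((A.filter fun s => im s t' = S).card : ℚ))
    (hn : 8 ≤ Fintype.card α)
    (hU : ∀ x, ∃ κ ∈ K, 2 * (insert κ (bl comp x)).card ≤ Fintype.card α) :
    ∃ s ∈ A, im s t = t' := by
  have hA : (0 : ℚ) < A.card := by
    exact_mod_cast card_pos.2 ⟨1, h.one⟩
  -- the sums in terms of the counts
  have trU : ∀ (U R : Finset α), (∃ κ ∈ K, κ ∈ U ∧ κ ∉ R) →
      tr F U R = a * ((A.filter fun s => im s t ∩ U = R ∩ U).card : ℚ) -
        b * ((A.filter fun s => im s t' ∩ U = R ∩ U).card : ℚ) := by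
    rintro U R ⟨κ, hκ, hκU, hκR⟩
    rw [← sum_N, ← sum_N]
    unfold tr
    rw [mul_sum, mul_sum, ← sum_sub_distrib]
    refine sum_congr rfl fun T _ => ?_
    by_cases hT : T ∩ U = R ∩ U
    · rw [if_pos hT, if_pos hT, if_pos hT]
      apply hFS
      refine ⟨κ, hκ, fun g => hκR ?_⟩
      exact (inter_eq_iff.1 hT κ hκU).1 g
    · rw [if_neg hT, if_neg hT, if_neg hT]
      ring
  -- `a = b`
  have hab : a = b := by
    obtain ⟨κ, hκ⟩ := hK
    have h1 := trU {κ} ∅ ⟨κ, hκ, mem_singleton_self κ, notMem_empty κ⟩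
    rw [tr_zero hF (by rw [card_singleton]; omega)] at h1
    have h2 : ∀ {t₀ : Finset α}, (∀ x ∈ K, x ∉ t₀) →
        (A.filter fun s => im s t₀ ∩ {κ} = ∅ ∩ {κ}) = A := by
      intro t₀ h0
      rw [filter_true_of_mem]
      intro s hs
      rw [inter_eq_iff]
      intro x hx
      rw [mem_singleton] at hx
      subst hx
      have := im_K hKA h0 hs hκ
      simp [this]
    rw [h2 ht, h2 ht'] at h1
    have h3 : (a - b) * (A.card : ℚ) = 0 := by linarith
    rcases mul_eq_zero.1 h3 with h4 | h4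
    · linarith
    · exact absurd h4 hA.ne'
  subst hab
  have trB : ∀ x, ∀ κ ∈ K, ∀ R, R ⊆ bl comp x → κ ∉ R →
      tr F (insert κ (bl comp x)) R = a * ((cs A comp t x R : ℚ) - (cs A comp t' x R : ℚ)) := by
    intro x κ hκ R hR hκR
    rw [trU _ R ⟨κ, hκ, mem_insert_self _ _, hκR⟩, filter_eq hKA ht hκ hR hκR,
      filter_eq hKA ht' hκ hR hκR]
    unfold cs
    ring
  refine exchange h fun x R => ?_
  by_cases hR : R ⊆ bl comp x ∧ ∀ y ∈ K, y ∉ R
  swap
  · rw [cs_zero hKA ht hR, cs_zero hKA ht' hR]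
  obtain ⟨κ, hκ, hU1⟩ := hU x
  have hκR : κ ∉ R := hR.2 κ hκ
  have h1 := trB x κ hκ R hR.1 hκR
  have fin0 : tr F (insert κ (bl comp x)) R = 0 → cs A comp t x R = cs A comp t' x R := by
    intro h2
    rw [h2] at h1
    rcases mul_eq_zero.1 h1.symm with h3 | h3
    · exact absurd h3 ha.ne'
    · exact_mod_cast (sub_eq_zero.1 h3)
  apply fin0
  rcases hU1.lt_or_eq with hlt | heq
  · exact tr_zero hF hlt R
  -- the half case
  obtain ⟨m, hm⟩ := tr_abs hF heq
  rw [← abs_eq_zero, hm R]
  by_contra hm0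
  have hmpos : 0 < m := lt_of_le_of_ne (by rw [← hm R]; exact abs_nonneg _) (Ne.symm hm0)
  -- upper bound
  have hup : 4 * m ≤ a * A.card := by
    have s1 : ∑ R' ∈ ((insert κ (bl comp x)).erase κ).powerset,
        |tr F (insert κ (bl comp x)) R'| = (2 : ℚ) ^ ((insert κ (bl comp x)).card - 1) * m := by
      rw [sum_congr rfl fun R' _ => hm R', sum_const, card_powerset,
        card_erase_of_mem (mem_insert_self _ _), nsmul_eq_mul]
      push_cast
      ring
    have s2 : ∑ R' ∈ ((insert κ (bl comp x)).erase κ).powerset,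
        |tr F (insert κ (bl comp x)) R'| ≤ ∑ R' ∈ ((insert κ (bl comp x)).erase κ).powerset,
          (a * (cs A comp t x R' : ℚ) + a * (cs A comp t' x R' : ℚ)) := by
      refine sum_le_sum fun R' hR' => ?_
      have hR'' := mem_powerset.1 hR'
      have hb : R' ⊆ bl comp x := by
        intro y hy
        have := hR'' hy
        rw [mem_erase, mem_insert] at this
        tauto
      have hk : κ ∉ R' := fun g => by
        have := hR'' g
        rw [mem_erase] at this
        exact this.1 rfl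
      rw [trB x κ hκ R' hb hk, abs_mul, abs_of_pos ha, ← mul_add]
      refine mul_le_mul_of_nonneg_left ?_ ha.le
      refine (abs_sub _ _).trans ?_
      rw [Nat.abs_cast, Nat.abs_cast]
    rw [s1, sum_add_distrib, ← mul_sum, ← mul_sum] at s2
    have s3 : ∑ R' ∈ ((insert κ (bl comp x)).erase κ).powerset, (cs A comp t x R' : ℚ) ≤
        A.card := by exact_mod_cast sum_cs (A := A) (comp := comp) t x _
    have s4 : ∑ R' ∈ ((insert κ (bl comp x)).erase κ).powerset, (cs A comp t' x R' : ℚ) ≤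
        A.card := by exact_mod_cast sum_cs (A := A) (comp := comp) t' x _
    have s5 : (8 : ℚ) ≤ (2 : ℚ) ^ ((insert κ (bl comp x)).card - 1) := by
      have : (2 : ℚ) ^ 3 ≤ (2 : ℚ) ^ ((insert κ (bl comp x)).card - 1) :=
        pow_le_pow_right₀ (by norm_num) (by omega)
      linarith
    have s6 := mul_le_mul_of_nonneg_right s5 hmpos.le
    have s7 := mul_le_mul_of_nonneg_left s3 ha.le
    have s8 := mul_le_mul_of_nonneg_left s4 ha.le
    linarith
  -- lower bound
  have hb3 : Fintype.card α < 3 * (bl comp x).card := by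
    have := card_insert_le κ (bl comp x)
    omega
  have hO := orbit_le h x hb3
  have hcard := card_A h x
  have h0 := trB x κ hκ ∅ (empty_subset _) (notMem_empty _)
  have hm1 := hm ∅
  rw [h0, cs_eq h, cs_eq h, abs_mul, abs_of_pos ha] at hm1
  push_cast at hm1
  rw [← sub_mul, abs_mul, Nat.abs_cast] at hm1
  have hj : (1 : ℚ) ≤ |((JJ A comp t x ∅).card : ℚ) - ((JJ A comp t' x ∅).card : ℚ)| := by
    have hne : ((JJ A comp t x ∅).card : ℤ) - ((JJ A comp t' x ∅).card : ℤ) ≠ 0 := by
      intro g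
      have g' : ((JJ A comp t x ∅).card : ℚ) - ((JJ A comp t' x ∅).card : ℚ) = 0 := by
        exact_mod_cast g
      rw [g'] at hm1
      simp only [abs_zero, zero_mul, mul_zero] at hm1
      exact hmpos.ne hm1
    have := Int.one_le_abs hne
    exact_mod_cast this
  have hst : (A.card : ℚ) ≤ 2 * (st A comp x ∅ : ℚ) := by
    rw [hcard]
    push_cast
    refine mul_le_mul_of_nonneg_right ?_ (Nat.cast_nonneg _)
    exact_mod_cast hO
  have hst0 : (0 : ℚ) ≤ (st A comp x ∅ : ℚ) := Nat.cast_nonneg _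
  have e1 : (st A comp x ∅ : ℚ) ≤
      |((JJ A comp t x ∅).card : ℚ) - ((JJ A comp t' x ∅).card : ℚ)| * (st A comp x ∅ : ℚ) := by
    have := mul_le_mul_of_nonneg_right hj hst0
    linarith
  have e2 := mul_le_mul_of_nonneg_left e1 ha.le
  have e3 := mul_le_mul_of_nonneg_left hst ha.le
  have e4 : 0 < a * (A.card : ℚ) := mul_pos ha hA
  linarith

end Pool.Agent.TRC
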