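import Pool.Agent.TRC.Abs

/-!
# TRC: application of the abstract theorem to switching classes
-/

set_option autoImplicit false

namespace Pool.Agent.TRC

open Finset Pool.Agent.Lib_helper61.SwitchBasic

theorem swapPerm {α ι : Type} [DecidableEq ι] {comp : α → ι} {s : Equiv.Perm α}
    (hs : ∀ x y, comp x = comp y → comp (s x) = comp (s y))
    (hs' : ∀ x y, comp x = comp y → comp (s⁻¹ x) = comp (s⁻¹ y)) (x : α) :
    ∃ r : Equiv.Perm α, (∀ y, comp y = comp x → r y = s y) ∧
      (∀ y, comp y = comp (s x) → comp (s x) ≠ comp x → r y = s⁻¹ y) ∧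
      (∀ y, comp y ≠ comp x → comp y ≠ comp (s x) → r y = y) := by
  have hx : ∀ y, comp y = comp (s x) → comp (s⁻¹ y) = comp x := by
    intro y hy
    have := hs' _ _ hy
    simpa using this
  refine ⟨⟨fun y => if comp y = comp x then s y else if comp y = comp (s x) then s⁻¹ y else y,
    fun y => if comp y = comp (s x) then s⁻¹ y else if comp y = comp x then s y else y,
    ?_, ?_⟩, ?_, ?_, ?_⟩
  · intro y
    by_cases h1 : comp y = comp x
    · have h2 : comp (s y) = comp (s x) := hs _ _ h1
      simp [h1, h2]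
    · by_cases h2 : comp y = comp (s x)
      · have h3 := hx y h2
        have h4 : comp (s x) ≠ comp x := fun g => h1 (h2.trans g)
        simp only [h1, h2, if_false, if_true, h3, h4]
        rw [if_neg (fun g => h4 g.symm)]
        simp
      · simp [h1, h2]
  · intro y
    by_cases h2 : comp y = comp (s x)
    · have h3 := hx y h2
      simp only [h2, if_true, h3]
      simp
    · by_cases h1 : comp y = comp x
      · have h3 : comp (s y) = comp (s x) := hs _ _ h1
        have h4 : comp (s x) ≠ comp x := fun g => h2 (h1.trans g.symm)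
        have h5 : comp x ≠ comp (s x) := h4.symm
        simp [h1, h3, h4, h5]
      · simp [h1, h2]
  · intro y hy
    simp [hy]
  · intro y hy h
    simp [hy, h]
  · intro y h1 h2
    simp [h1, h2]

variable {α : Type} [Fintype α] [DecidableEq α]

open Classical in
/-- The automorphism group of `C` as a finite set. -/
noncomputable def AA (C : SimpleGraph α) : Finset (Equiv.Perm α) := univ.filter (IsAut C)

theorem mem_AA {C : SimpleGraph α} {s : Equiv.Perm α} : s ∈ AA C ↔ IsAut C s := by
  simp [AA]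

theorem one_AA (C : SimpleGraph α) : (1 : Equiv.Perm α) ∈ AA C := mem_AA.2 fun _ _ => Iff.rfl

theorem mul_AA {C : SimpleGraph α} {s r : Equiv.Perm α} (hs : s ∈ AA C) (hr : r ∈ AA C) :
    s * r ∈ AA C :=
  mem_AA.2 fun u v => (mem_AA.1 hs (r u) (r v)).trans (mem_AA.1 hr u v)

theorem inv_AA {C : SimpleGraph α} {s : Equiv.Perm α} (hs : s ∈ AA C) : s⁻¹ ∈ AA C :=
  mem_AA.2 fun u v => by
    have := mem_AA.1 hs (s⁻¹ u) (s⁻¹ v)
    simpa using this.symm

theorem blocks_of {C : SimpleGraph α} {ι : Type} [DecidableEq ι] {comp : α → ι}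
    (hperm : ∀ s ∈ AA C, ∀ x y, comp x = comp y → comp (s x) = comp (s y))
    (hcross : ∀ g₁ ∈ AA C, ∀ g₂ ∈ AA C, ∀ u v, comp u ≠ comp v → comp (g₁ u) ≠ comp (g₂ v) →
      (C.Adj (g₁ u) (g₂ v) ↔ C.Adj u v)) : Blocks (AA C) comp where
  one := one_AA C
  mul := fun _ hs _ hr => mul_AA hs hr
  inv := fun _ hs => inv_AA hs
  perm := hperm
  exch := by
    intro s hs x
    obtain ⟨r, h1, h2, h3⟩ := swapPerm (hperm s hs) (hperm _ (inv_AA hs)) x
    refine ⟨r, ?_, h1, h2, h3⟩
    have hx : ∀ y, comp y = comp (s x) → comp (s⁻¹ y) = comp x := by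
      intro y hy
      have := hperm _ (inv_AA hs) _ _ hy
      simpa using this
    -- on every block `r` is given by an element of the group
    have hloc : ∀ u, ∃ g ∈ AA C, ∀ w, comp w = comp u → r w = g w := by
      intro u
      by_cases e1 : comp u = comp x
      · exact ⟨s, hs, fun w hw => h1 w (hw.trans e1)⟩
      · by_cases e2 : comp u = comp (s x)
        · exact ⟨s⁻¹, inv_AA hs, fun w hw => h2 w (hw.trans e2) fun g => e1 (e2.trans g)⟩
        · exact ⟨1, one_AA C, fun w hw => h3 w (by rw [hw]; exact e1) (by rw [hw]; exact e2)⟩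
    have hne : ∀ u v, comp u ≠ comp v → comp (r u) ≠ comp (r v) := by
      intro u v huv
      by_cases u1 : comp u = comp x
      · have ru : comp (r u) = comp (s x) := by rw [h1 u u1]; exact hperm s hs _ _ u1
        have v1 : comp v ≠ comp x := fun g => huv (u1.trans g.symm)
        by_cases v2 : comp v = comp (s x)
        · have hsx : comp (s x) ≠ comp x := fun g => v1 (v2.trans g)
          have rv : comp (r v) = comp x := by rw [h2 v v2 hsx]; exact hx v v2
          rw [ru, rv]
          exact hsx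
        · rw [ru, h3 v v1 v2]
          exact fun g => v2 g.symm
      · by_cases u2 : comp u = comp (s x)
        · have hsx : comp (s x) ≠ comp x := fun g => u1 (u2.trans g)
          have ru : comp (r u) = comp x := by rw [h2 u u2 hsx]; exact hx u u2
          by_cases v1 : comp v = comp x
          · have rv : comp (r v) = comp (s x) := by rw [h1 v v1]; exact hperm s hs _ _ v1
            rw [ru, rv]
            exact hsx.symm
          · have v2 : comp v ≠ comp (s x) := fun g => huv (u2.trans g.symm)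
            rw [ru, h3 v v1 v2]
            exact fun g => v1 g.symm
        · rw [h3 u u1 u2]
          by_cases v1 : comp v = comp x
          · have rv : comp (r v) = comp (s x) := by rw [h1 v v1]; exact hperm s hs _ _ v1
            rw [rv]
            exact u2
          · by_cases v2 : comp v = comp (s x)
            · have hsx : comp (s x) ≠ comp x := fun g => v1 (v2.trans g)
              have rv : comp (r v) = comp x := by rw [h2 v v2 hsx]; exact hx v v2
              rw [rv]
              exact u1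
            · rw [h3 v v1 v2]
              exact huv
    rw [mem_AA]
    intro u v
    by_cases huv : comp u = comp v
    · obtain ⟨g, hg, hgu⟩ := hloc v
      rw [hgu u huv, hgu v rfl]
      exact mem_AA.1 hg u v
    · obtain ⟨g₁, hg₁, hu⟩ := hloc u
      obtain ⟨g₂, hg₂, hv⟩ := hloc v
      have h5 := hne u v huv
      rw [hu u rfl, hv v rfl] at h5 ⊢
      exact hcross g₁ hg₁ g₂ hg₂ u v huv h5

theorem im_compl (s : Equiv.Perm α) (S : Finset α) : im s Sᶜ = (im s S)ᶜ := by
  ext x
  rw [mem_im, mem_compl, mem_compl, mem_im]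

omit [Fintype α] in
theorem im_sd (s : Equiv.Perm α) (S T : Finset α) :
    im s (symmDiff S T) = symmDiff (im s S) (im s T) := by
  ext x
  rw [mem_im, mem_symmDiff, mem_symmDiff, mem_im, mem_im]

theorem swC_compl (C : SimpleGraph α) (S : Finset α) : sw C Sᶜ = sw C S := by
  ext u v
  rw [sw_adj, sw_adj, mem_compl, mem_compl]
  tauto

theorem sw_eq {C : SimpleGraph α} {S T : Finset α} (h : sw C S = sw C T) : S = T ∨ S = Tᶜ := by
  have key : ∀ u v, ((u ∈ S ↔ v ∈ S) ↔ (u ∈ T ↔ v ∈ T)) := by
    intro u v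
    by_cases huv : u = v
    · subst huv
      simp
    · have h1 : (sw C S).Adj u v ↔ (sw C T).Adj u v := by rw [h]
      rw [sw_adj, sw_adj] at h1
      tauto
  by_cases hα : Nonempty α
  · obtain ⟨x₀⟩ := hα
    by_cases h0 : x₀ ∈ S ↔ x₀ ∈ T
    · left
      ext v
      have := key x₀ v
      tauto
    · right
      ext v
      rw [mem_compl]
      have := key x₀ v
      tauto
  · left
    ext v
    exact absurd ⟨v⟩ hα

/-- An automorphism as a graph isomorphism. -/
def autIso {C : SimpleGraph α} {s : Equiv.Perm α} (hs : IsAut C s) : C ≃g C where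
  toEquiv := s
  map_rel_iff' := hs _ _

theorem iso_im {C : SimpleGraph α} {s : Equiv.Perm α} (hs : s ∈ AA C) (t : Finset α) :
    Nonempty (sw C t ≃g sw C (im s t)) := ⟨isoSw (autIso (mem_AA.1 hs)) t⟩

theorem iso_iff {C : SimpleGraph α} (hA : ∀ σ, IsClassAut C σ → IsAut C σ) (S t : Finset α) :
    Nonempty (sw C S ≃g sw C t) ↔ ∃ s ∈ AA C, im s t = S ∨ im s t = Sᶜ := by
  constructor
  · rintro ⟨φ⟩
    have hσ : IsAut C φ.toEquiv := hA _ (classAut_of_iso C S t φ)
    have e : sw C (im φ.toEquiv S) = sw C t := by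
      ext u v
      have h1 : (sw C (im φ.toEquiv S)).Adj (φ.toEquiv (φ.toEquiv.symm u))
          (φ.toEquiv (φ.toEquiv.symm v)) ↔ (sw C S).Adj (φ.toEquiv.symm u) (φ.toEquiv.symm v) :=
        (isoSw (autIso hσ) S).map_rel_iff'
      have h2 : (sw C t).Adj (φ.toEquiv (φ.toEquiv.symm u))
          (φ.toEquiv (φ.toEquiv.symm v)) ↔ (sw C S).Adj (φ.toEquiv.symm u) (φ.toEquiv.symm v) :=
        φ.map_rel_iff'
      rw [Equiv.apply_symm_apply, Equiv.apply_symm_apply] at h1 h2
      rw [h1, h2]
    refine ⟨(φ.toEquiv : Equiv.Perm α)⁻¹, inv_AA (mem_AA.2 hσ), ?_⟩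
    rcases sw_eq e with h | h
    · left
      have h2 : im (φ.toEquiv : Equiv.Perm α)⁻¹ (im φ.toEquiv S) =
          im (φ.toEquiv : Equiv.Perm α)⁻¹ t := by rw [h]
      rw [← h2, ← im_mul, inv_mul_cancel, im_one]
    · right
      have h2 : im (φ.toEquiv : Equiv.Perm α)⁻¹ (im φ.toEquiv S) =
          im (φ.toEquiv : Equiv.Perm α)⁻¹ tᶜ := by rw [h]
      rw [im_compl, ← im_mul, inv_mul_cancel, im_one] at h2
      have h3 := congrArg (fun Z : Finset α => Zᶜ) h2
      simp only [compl_compl] at h3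
      exact h3.symm
  · rintro ⟨s, hs, h | h⟩
    · obtain ⟨ψ⟩ := iso_im hs t
      rw [h] at ψ
      exact ⟨ψ.symm⟩
    · obtain ⟨ψ⟩ := iso_im hs t
      rw [h, swC_compl] at ψ
      exact ⟨ψ.symm⟩

/-- The number of elements mapping `t` to `S`. -/
theorem count_eq {C : SimpleGraph α} {t S : Finset α} (h : ∃ s ∈ AA C, im s t = S) :
    ((AA C).filter fun s => im s t = S).card = ((AA C).filter fun s => im s t = t).card := by
  obtain ⟨s₀, hs₀, e⟩ := h
  refine card_nbij' (fun s => s₀⁻¹ * s) (fun s => s₀ * s) ?_ ?_ ?_ ?_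
  · intro s hs
    simp only [coe_filter, Set.mem_ofPred_eq] at hs ⊢
    refine ⟨mul_AA (inv_AA hs₀) hs.1, ?_⟩
    rw [im_mul, hs.2, ← e, ← im_mul, inv_mul_cancel, im_one]
  · intro s hs
    simp only [coe_filter, Set.mem_ofPred_eq] at hs ⊢
    refine ⟨mul_AA hs₀ hs.1, ?_⟩
    rw [im_mul, hs.2, e]
  · intro s _
    simp
  · intro s _
    simp

theorem count_zero {C : SimpleGraph α} {t S : Finset α} (h : ¬ ∃ s ∈ AA C, im s t = S) :
    ((AA C).filter fun s => im s t = S).card = 0 := by
  rw [card_eq_zero, filter_eq_empty_iff]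
  exact fun s hs e => h ⟨s, hs, e⟩

/-- Isomorphism of two members of the class in twisted coordinates. -/
theorem iso_twist {C : SimpleGraph α} (hA : ∀ σ, IsClassAut C σ → IsAut C σ)
    {K : Finset α} (hKA : ∀ s ∈ AA C, ∀ x, s x ∈ K ↔ x ∈ K) {Y : Finset α}
    (hY : ∀ s ∈ AA C, im s Y = Y ∨ im s Y = Yᶜ) {t : Finset α} (ht : ∀ x ∈ K, x ∉ symmDiff t Y)
    {S : Finset α} (hS : ∃ x ∈ K, x ∉ S) :
    Nonempty (sw C (symmDiff S Y) ≃g sw C t) ↔ ∃ s ∈ AA C, im s (symmDiff t Y) = S := by
  obtain ⟨x, hx, hxS⟩ := hS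
  rw [iso_iff hA]
  constructor
  · rintro ⟨s, hs, h⟩
    refine ⟨s, hs, ?_⟩
    have hxn := im_K hKA ht hs hx
    have e : im s (symmDiff t Y) = S ∨ im s (symmDiff t Y) = Sᶜ := by
      rw [im_sd]
      rcases h with h | h <;> rcases hY s hs with g | g <;> rw [h, g]
      · left
        rw [symmDiff_symmDiff_cancel_right]
      · right
        ext y
        simp only [mem_symmDiff, mem_compl]
        tauto
      · right
        ext y
        simp only [mem_symmDiff, mem_compl]
        tauto
      · left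
        ext y
        simp only [mem_symmDiff, mem_compl]
        tauto
    rcases e with e | e
    · exact e
    · exfalso
      apply hxn
      rw [e, mem_compl]
      exact hxS
  · rintro ⟨s, hs, h⟩
    refine ⟨s, hs, ?_⟩
    have e : im s t = symmDiff S (im s Y) := by
      rw [← h, im_sd, symmDiff_symmDiff_cancel_right]
    rcases hY s hs with g | g
    · left
      rw [e, g]
    · right
      rw [e, g]
      ext y
      simp only [mem_symmDiff, mem_compl]
      tauto

/-- The main lemma. -/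
theorem main_lemma {C : SimpleGraph α} (hA : ∀ σ, IsClassAut C σ → IsAut C σ)
    (hn : 8 ≤ Fintype.card α) {ι : Type} [DecidableEq ι] {comp : α → ι}
    (hB : Blocks (AA C) comp) {K : Finset α} (hK : K.Nonempty)
    (hKA : ∀ s ∈ AA C, ∀ x, s x ∈ K ↔ x ∈ K)
    (hU : ∀ x, ∃ κ ∈ K, 2 * (insert κ (bl comp x)).card ≤ Fintype.card α) {Y : Finset α}
    (hY : ∀ s ∈ AA C, im s Y = Y ∨ im s Y = Yᶜ) {t t' : Finset α}
    (ht : ∀ x ∈ K, x ∉ symmDiff t Y) (ht' : ∀ x ∈ K, x ∉ symmDiff t' Y)
    (hdeck : SameDeck (sw C t) (sw C t')) : Nonempty (sw C t ≃g sw C t') := by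
  by_contra hne
  have hxx : ∃ x₀ : α, True := by
    obtain ⟨κ, _⟩ := hK
    exact ⟨κ, trivial⟩
  obtain ⟨x₀, -⟩ := hxx
  -- positivity of the coefficients
  obtain ⟨T₀, hT₀⟩ := exists_sw hdeck x₀
  have c1 : 0 < cnt (sw C t) (sw C t') := cnt_pos _ _ T₀ hT₀
  have st0 : ∀ t₀ : Finset α, (0 : ℚ) < (((AA C).filter fun s => im s t₀ = t₀).card : ℚ) := by
    intro t₀
    exact_mod_cast card_pos.2 ⟨1, mem_filter.2 ⟨one_AA C, im_one t₀⟩⟩
  have hind : ∀ t₀ : Finset α, (∀ x ∈ K, x ∉ symmDiff t₀ Y) → ∀ S : Finset α, (∃ x ∈ K, x ∉ S) →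
      ind (sw C (symmDiff S Y)) (sw C t₀) =
        (((AA C).filter fun s => im s (symmDiff t₀ Y) = S).card : ℚ) /
          (((AA C).filter fun s => im s (symmDiff t₀ Y) = symmDiff t₀ Y).card : ℚ) := by
    intro t₀ h0 S hS
    have h1 := iso_twist hA hKA hY h0 hS
    by_cases h2 : ∃ s ∈ AA C, im s (symmDiff t₀ Y) = S
    · rw [ind_of _ _ (h1.2 h2), count_eq h2, div_self (st0 _).ne']
    · rw [ind_of_not _ _ (fun g => h2 (h1.1 g)), count_zero h2]
      simp
  have hsd : ∀ S, sw (sw C t) (symmDiff t (symmDiff S Y)) = sw C (symmDiff S Y) := by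
    intro S
    rw [sw_sw, symmDiff_symmDiff_cancel_left]
  obtain ⟨s, hs, e⟩ := abs_core hB hK hKA ht ht'
    (F := fun S => ff (sw C t) (sw C t') (symmDiff t (symmDiff S Y)))
    (a := cnt (sw C t) (sw C t') /
      (((AA C).filter fun s => im s (symmDiff t Y) = symmDiff t Y).card : ℚ))
    (b := cnt (sw C t) (sw C t) /
      (((AA C).filter fun s => im s (symmDiff t' Y) = symmDiff t' Y).card : ℚ))
    (by
      intro S
      rw [← sum_ff hdeck (symmDiff t (symmDiff S Y))]
      refine sum_congr rfl fun i _ => ?_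
      congr 1
      rw [symmDiff_assoc, symmDiff_assoc, symmDiff_assoc, symmDiff_comm {i} Y])
    (div_pos c1 (st0 _))
    (by
      intro S hS
      have h1 := hind t ht S hS
      have h2 := hind t' ht' S hS
      simp only [ff, hsd]
      rw [h1, h2]
      ring)
    hn hU
  apply hne
  have h5 : Nonempty (sw C t' ≃g sw C t) := by
    rw [iso_iff hA]
    refine ⟨s, hs, ?_⟩
    have e2 : im s t = symmDiff (symmDiff t' Y) (im s Y) := by
      rw [← e, im_sd, symmDiff_symmDiff_cancel_right]
    rcases hY s hs with g | g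
    · left
      rw [e2, g, symmDiff_symmDiff_cancel_right]
    · right
      rw [e2, g]
      ext y
      simp only [mem_symmDiff, mem_compl]
      tauto
  obtain ⟨ψ⟩ := h5
  exact ⟨ψ.symm⟩

end Pool.Agent.TRC
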