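import Pool.Agent.TRC.Asm

/-!
# TRC: classes with three small components, cographs (adapted from helper61, MP_e73337_co.Cographs)
-/

set_option autoImplicit false

namespace Pool.Agent.TRC

open Finset Pool.Agent.Lib_helper61.SwitchBasic Pool.Agent.Lib_helper61.SwMain
  Pool.Agent.Lib_helper61.SwCograph

theorem p4Free_of {α : Type*} (Γ : SimpleGraph α)
    (h : ¬ (SimpleGraph.pathGraph 4).IsIndContained Γ) : P4Free Γ := by
  intro a b c d hab hbc hcd hac hbd had
  apply h
  have e1 : a ≠ b := hab.ne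
  have e2 : b ≠ c := hbc.ne
  have e3 : c ≠ d := hcd.ne
  have e4 : a ≠ c := by
    rintro rfl
    exact had hcd
  have e5 : b ≠ d := by
    rintro rfl
    exact had hab
  have e6 : a ≠ d := by
    rintro rfl
    exact hac hcd.symm
  refine ⟨⟨⟨![a, b, c, d], ?_⟩, ?_⟩⟩
  · intro i j hij
    fin_cases i <;> fin_cases j <;> simp_all
  · intro i j
    have hba := hab.symm
    have hcb := hbc.symm
    have hdc := hcd.symm
    have hca : ¬ Γ.Adj c a := fun h => hac h.symm
    have hdb : ¬ Γ.Adj d b := fun h => hbd h.symm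
    have hda : ¬ Γ.Adj d a := fun h => had h.symm
    change Γ.Adj (![a, b, c, d] i) (![a, b, c, d] j) ↔ (SimpleGraph.pathGraph 4).Adj i j
    fin_cases i <;> fin_cases j <;>
      simp [SimpleGraph.pathGraph_adj, hab, hbc, hcd, hac, hbd, had, hba, hcb, hdc, hca, hdb, hda]

variable {α : Type} [Fintype α] [DecidableEq α]

theorem comps_all {C : SimpleGraph α} (h4 : Fintype.card α ≠ 4)
    (h3 : 3 ≤ Nat.card C.ConnectedComponent)
    (hs : ∀ c : C.ConnectedComponent, 2 * c.supp.ncard ≤ Fintype.card α) : AllRec C := by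
  intro t t' hdeck
  refine cograph_core h4 (S := t) ?_ h3 hs hdeck
  rw [sw_sw, symmDiff_self, Finset.bot_eq_empty, sw_empty]

theorem compl_all {C : SimpleGraph α} (h : AllRec Cᶜ) : AllRec C := by
  intro t t' hdeck
  have h1 := sameDeck_compl hdeck
  rw [sw_isoCompl, sw_isoCompl] at h1
  have h2 := h t t' h1
  rw [← sw_isoCompl, ← sw_isoCompl] at h2
  exact iso_compl h2

theorem cograph_all' {C : SimpleGraph α} (h4 : Fintype.card α ≠ 4)
    (h : ¬ (SimpleGraph.pathGraph 4).IsIndContained C) : AllRec C :=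
  cograph_all h4 ∅ (by rw [sw_empty]; exact p4Free_of C h)

end Pool.Agent.TRC
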