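import Pool.Agent.QMark.Brd

/-!
# MP_f8fadf_co: 2-faces which are not 4-gons, for facets in cones
-/

namespace Pool.Agent.Results.MP_f8fadf_co.Cones

open Finset
open scoped InnerProductSpace

/-- The four dimensional Euclidean space. -/
abbrev E4 := EuclideanSpace ℝ (Fin 4)

variable {n : ℕ}

/-- The polyhedron `P` of the inequalities `⟪u i, p⟫ ≤ b i`, `i < n`. -/
def Poly (u : Fin n → E4) (b : Fin n → ℝ) : Set E4 := {p | ∀ i, ⟪u i, p⟫_ℝ ≤ b i}

/-- The facet `F_i` of `P`. -/
def Facet (u : Fin n → E4) (b : Fin n → ℝ) (i : Fin n) : Set E4 :=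
  {p | p ∈ Poly u b ∧ ⟪u i, p⟫_ℝ = b i}

/-- `P` is a simple 4-polytope with exactly `n` facets `F_0, ..., F_(n-1)`: it is bounded, for every
`i` some point of `P` lies in `F_i` and in no other `F_j`, and every point of `P` lies in at most
four of the `F_j`. -/
structure IsSimple4Polytope (u : Fin n → E4) (b : Fin n → ℝ) : Prop where
  bounded : Bornology.IsBounded (Poly u b)
  facet : ∀ i, ∃ p ∈ Poly u b, ∀ j, ⟪u j, p⟫_ℝ = b j ↔ j = i
  simple : ∀ p ∈ Poly u b, {j | ⟪u j, p⟫_ℝ = b j}.ncard ≤ 4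

/-- The 2-faces `F_i ∩ F_j` (`i < j`) of the simple 4-polytope `P` which are not 4-gons. -/
def NonQuads (u : Fin n → E4) (b : Fin n → ℝ) : Set (Fin n × Fin n) :=
  {e | e.1 < e.2 ∧ (Facet u b e.1 ∩ Facet u b e.2).Nonempty ∧
    (Set.extremePoints ℝ (Facet u b e.1 ∩ Facet u b e.2)).ncard ≠ 4}

/-- The hyperplanes of the facets in `L` have a common point in the projective space: a common
point, or a common direction. -/
def IsCone (u : Fin n → E4) (b : Fin n → ℝ) (L : Set (Fin n)) : Prop :=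
  (∃ a : E4, ∀ i ∈ L, ⟪u i, a⟫_ℝ = b i) ∨ ∃ d : E4, d ≠ 0 ∧ ∀ i ∈ L, ⟪u i, d⟫_ℝ = 0

/-- The vertices of `P` which are on facets of at least three classes. -/
def Mixed {k : ℕ} (u : Fin n → E4) (b : Fin n → ℝ) (c : Fin n → Fin k) : Set E4 :=
  {v | v ∈ Set.extremePoints ℝ (Poly u b) ∧ 3 ≤ {j | ∃ i, v ∈ Facet u b i ∧ c i = j}.ncard}

theorem sp {u : Fin n → E4} {b : Fin n → ℝ} (h : IsSimple4Polytope u b) : QMark.SP u b := by
  refine ⟨h.bounded, fun p hp => ?_⟩
  have hc : {j | ⟪u j, p⟫_ℝ = b j}.ncard = (QMark.act u b p).card := by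
    rw [← Set.ncard_coe_finset]
    congr 1
    ext j
    rw [mem_coe, QMark.mem_act]
    rfl
  rw [← hc]
  exact h.simple p hp

theorem inter_eq (u : Fin n → E4) (b : Fin n → ℝ) (i j : Fin n) :
    Facet u b i ∩ Facet u b j = QMark.Two u b i j := by
  ext p
  constructor
  · rintro ⟨⟨h1, h2⟩, -, h3⟩
    exact ⟨h1, h2, h3⟩
  · rintro ⟨h1, h2, h3⟩
    exact ⟨⟨h1, h2⟩, h1, h3⟩

theorem nonQuads_card {u : Fin n → E4} {b : Fin n → ℝ} (h : QMark.SP u b) :
    (NonQuads u b).ncard = (QMark.nonq u b).card := by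
  classical
  rw [Set.ncard_eq_toFinset_card']
  apply QMark.card_pairs
  · intro x hx
    exact (QMark.mem_faces.mp (mem_filter.mp hx).1).1
  · intro a
    rw [Set.mem_toFinset, QMark.nonq, mem_filter]
    constructor
    · rintro ⟨h1, h2, h3⟩
      rw [inter_eq, QMark.nonempty_two h h1.ne] at h2
      rw [inter_eq, QMark.ncard_two h] at h3
      exact ⟨h1, h2, h3⟩
    · rintro ⟨h1, h2, h3⟩
      refine ⟨h1, ?_, ?_⟩
      · rw [inter_eq, QMark.nonempty_two h h1.ne]
        exact h2
      · rw [inter_eq, QMark.ncard_two h]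
        exact h3

theorem mixed_card {k : ℕ} {u : Fin n → E4} {b : Fin n → ℝ} (h : QMark.SP u b)
    (c : Fin n → Fin k) : (Mixed u b c).ncard = (QMark.three u b c).card := by
  apply QMark.ncard_vertices h
  · exact fun t ht => (mem_filter.mp ht).1
  · intro v
    rw [QMark.three, mem_filter]
    have key : v ∈ Set.extremePoints ℝ (Poly u b) →
        {j | ∃ i, v ∈ Facet u b i ∧ c i = j}.ncard = ((QMark.act u b v).image c).card := by
      intro hv
      have hv' := (QMark.extreme_poly h).mp hv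
      rw [← Set.ncard_coe_finset]
      congr 1
      ext j
      simp only [Set.mem_ofPred_eq, coe_image, Set.mem_image, mem_coe, QMark.mem_act]
      constructor
      · rintro ⟨i, ⟨-, h1⟩, h2⟩
        exact ⟨i, h1, h2⟩
      · rintro ⟨i, h1, h2⟩
        exact ⟨i, ⟨hv'.1, h1⟩, h2⟩
    constructor
    · rintro ⟨h1, h2⟩
      have h3 := (QMark.extreme_poly h).mp h1
      rw [key h1] at h2
      exact ⟨h1, QMark.mem_tets.mpr ⟨h3.2, v, h3.1, rfl⟩, h2⟩
    · rintro ⟨h1, -, h2⟩
      refine ⟨h1, ?_⟩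
      rw [key h1]
      exact h2

/-- **Main result.** Let the facets of a simple 4-polytope `P` with `n` facets be divided into
classes such that the hyperplanes of the facets of each class have a common projective point. Then
at most `125 n + 14 r` of the 2-faces of `P` are not 4-gons, where `r` is the number of vertices of
`P` which are on facets of at least three classes; in particular at most `125 n` for two classes. -/
theorem result :
    (∀ (n k : ℕ) (u : Fin n → E4) (b : Fin n → ℝ) (c : Fin n → Fin k), IsSimple4Polytope u b →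
      (∀ j, IsCone u b {i | c i = j}) →
      (NonQuads u b).ncard ≤ 125 * n + 14 * (Mixed u b c).ncard) ∧
    ∀ (n : ℕ) (u : Fin n → E4) (b : Fin n → ℝ) (c : Fin n → Fin 2), IsSimple4Polytope u b →
      (∀ j, IsCone u b {i | c i = j}) → (NonQuads u b).ncard ≤ 125 * n := by
  have main : ∀ (n k : ℕ) (u : Fin n → E4) (b : Fin n → ℝ) (c : Fin n → Fin k),
      IsSimple4Polytope u b → (∀ j, IsCone u b {i | c i = j}) →
      (NonQuads u b).ncard ≤ 125 * n + 14 * (Mixed u b c).ncard := by
    intro n k u b c h hc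
    have hs := sp h
    have h1 := QMark.cones hs (κ := c) (by
      intro j
      rcases hc j with ⟨a, ha⟩ | ⟨d, hd, hd'⟩
      · exact ⟨a, 1, Or.inr one_ne_zero, fun i hi => by rw [one_mul]; exact ha i hi⟩
      · exact ⟨d, 0, Or.inl hd, fun i hi => by rw [zero_mul]; exact hd' i hi⟩)
    rw [Fintype.card_fin, ← nonQuads_card hs, ← mixed_card hs] at h1
    omega
  refine ⟨main, ?_⟩
  intro n u b c h hc
  have h1 := main n 2 u b c h hc
  have h2 : Mixed u b c = ∅ := by
    rw [Set.eq_empty_iff_forall_notMem]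
    rintro v ⟨-, hv⟩
    have h3 := Set.ncard_le_ncard (Set.subset_univ {j | ∃ i, v ∈ Facet u b i ∧ c i = j})
      (Set.toFinite _)
    rw [Set.ncard_univ, Nat.card_eq_fintype_card, Fintype.card_fin] at h3
    omega
  rw [h2, Set.ncard_empty] at h1
  omega

end Pool.Agent.Results.MP_f8fadf_co.Cones
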