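import Pool.Agent.KAL.Euler
import Pool.Agent.QMark.Brd

/-!
# Faces of subsystems which cross a hyperplane

Working file of helper56 for MP_f8fadf_co.
-/

set_option autoImplicit false

namespace TRC

open Finset QMark
open scoped InnerProductSpace

variable {ι : Type*} [Fintype ι] [DecidableEq ι] {u : ι → E4} {b : ι → ℝ}

/-- The relative interior of the face `S` of the polyhedron of the facets in `I`. -/
def Rel (u : ι → E4) (b : ι → ℝ) (I S : Finset ι) : Set E4 :=
  {p | (∀ i ∈ S, ⟪u i, p⟫_ℝ = b i) ∧ ∀ i ∈ I, i ∉ S → ⟪u i, p⟫_ℝ < b i}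

/-- The face `S` of the polyhedron of the facets in `I` crosses the hyperplane `⟪g, p⟫ = c`. -/
def Cr (u : ι → E4) (b : ι → ℝ) (g : E4) (c : ℝ) (I S : Finset ι) : Prop :=
  ∃ p ∈ Rel u b I S, ∃ q ∈ Rel u b I S, ⟪g, p⟫_ℝ < c ∧ c < ⟪g, q⟫_ℝ

omit [Fintype ι] [DecidableEq ι] in
theorem Rel.mono {I I' S S' : Finset ι} (hI : I' ⊆ I) (hS : S' ⊆ S) (hSI : ∀ i ∈ I', i ∈ S → i ∈ S') :
    Rel u b I S ⊆ Rel u b I' S' := by
  rintro p ⟨h1, h2⟩
  exact ⟨fun i hi => h1 i (hS hi), fun i hi hiS => h2 i (hI hi) fun hc => hiS (hSI i hi hc)⟩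

omit [Fintype ι] [DecidableEq ι] in
theorem Cr.mono {g : E4} {c : ℝ} {I I' S S' : Finset ι} (h : Cr u b g c I S) (hI : I' ⊆ I)
    (hS : S' ⊆ S) (hSI : ∀ i ∈ I', i ∈ S → i ∈ S') : Cr u b g c I' S' := by
  obtain ⟨p, hp, q, hq, h1, h2⟩ := h
  exact ⟨p, Rel.mono hI hS hSI hp, q, Rel.mono hI hS hSI hq, h1, h2⟩

omit [DecidableEq ι] in
theorem Cr.mid {g : E4} {c : ℝ} {I S : Finset ι} (h : Cr u b g c I S) :
    ∃ p ∈ Rel u b I S, ⟪g, p⟫_ℝ = c ∧ ∃ v : E4, (∀ i ∈ S, ⟪u i, v⟫_ℝ = 0) ∧ ⟪g, v⟫_ℝ ≠ 0 := by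
  obtain ⟨p, ⟨hp1, hp2⟩, q, ⟨hq1, hq2⟩, h1, h2⟩ := h
  have hd : 0 < ⟪g, q⟫_ℝ - ⟪g, p⟫_ℝ := by linarith
  set θ : ℝ := (c - ⟪g, p⟫_ℝ) / (⟪g, q⟫_ℝ - ⟪g, p⟫_ℝ) with hθ
  have h0 : 0 < θ := div_pos (by linarith) hd
  have hθ1 : θ < 1 := by rw [hθ, div_lt_one hd]; linarith
  have hθm : θ * (⟪g, q⟫_ℝ - ⟪g, p⟫_ℝ) = c - ⟪g, p⟫_ℝ := div_mul_cancel₀ _ hd.ne'
  have hin : ∀ w : E4, ⟪w, p + θ • (q - p)⟫_ℝ = (1 - θ) * ⟪w, p⟫_ℝ + θ * ⟪w, q⟫_ℝ := by
    intro w
    rw [inner_add_right, inner_smul_right, inner_sub_right]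
    ring
  refine ⟨p + θ • (q - p), ⟨?_, ?_⟩, ?_, q - p, ?_, ?_⟩
  · intro i hi
    rw [hin, hp1 i hi, hq1 i hi]
    ring
  · intro i hi hiS
    rw [hin]
    have e1 := mul_lt_mul_of_pos_left (hp2 i hi hiS) (show 0 < 1 - θ by linarith)
    have e2 := mul_lt_mul_of_pos_left (hq2 i hi hiS) h0
    have e3 : (1 - θ) * b i + θ * b i = b i := by ring
    linarith
  · rw [hin]
    linarith
  · intro i hi
    rw [inner_sub_right, hp1 i hi, hq1 i hi, sub_self]
  · rw [inner_sub_right]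
    exact hd.ne'

theorem Cr.wit {g : E4} {c : ℝ} {I S : Finset ι} (h : Cr u b g c I S) (hSI : S ⊆ I)
    (hind : Ind u S) : Wit (ext u I g) (extb b I c) (insertNone (S.subtype (· ∈ I))) := by
  obtain ⟨p, ⟨h1, h2⟩, h3, v, h4, h5⟩ := h.mid
  refine ⟨p, ?_, ?_, ?_⟩
  · intro o ho
    cases o with
    | none => exact h3
    | some i =>
      rw [some_mem_insertNone, mem_subtype] at ho
      exact h1 i ho
  · intro o ho
    cases o with
    | none => exact absurd (mem_insertNone.mpr (by simp)) ho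
    | some i =>
      rw [some_mem_insertNone, mem_subtype] at ho
      exact h2 i i.2 ho
  · intro d hd
    rw [Finset.sum_insertNone] at hd
    have hd' : d none • g + ∑ i ∈ S.subtype (· ∈ I), d (some i) • u i = 0 := hd
    have h6 : d none * ⟪g, v⟫_ℝ = 0 := by
      have h6 : ⟪d none • g + ∑ i ∈ S.subtype (· ∈ I), d (some i) • u i, v⟫_ℝ = 0 := by
        rw [hd', inner_zero_left]
      rw [inner_add_left, inner_smul_left, sum_inner, sum_eq_zero, add_zero] at h6
      · simpa using h6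
      · intro i hi
        rw [mem_subtype] at hi
        rw [inner_smul_left, h4 i hi, mul_zero]
    have h7 : d none = 0 := (mul_eq_zero.mp h6).resolve_right h5
    rw [h7, zero_smul, zero_add] at hd'
    have h8 := hind (fun j => if hj : j ∈ I then d (some ⟨j, hj⟩) else 0) (by
      rw [← hd', ← sum_subtype_of_mem _ (p := (· ∈ I)) (fun i hi => hSI hi)]
      apply sum_congr rfl
      intro j _
      simp only [j.2, dite_true])
    intro o ho
    cases o with
    | none => exact h7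
    | some i =>
      rw [some_mem_insertNone, mem_subtype] at ho
      have h9 := h8 i ho
      simpa [i.2] using h9

/-- At most two vertices on an edge. -/
theorem edge_bound (y : Finset ι) (hy : y.card = 3) (𝒜 : Finset (Finset ι))
    (h : ∀ A ∈ 𝒜, A.card = 4 ∧ y ⊆ A ∧ Wit u b A) : 𝒜.card ≤ 2 := by
  rcases 𝒜.eq_empty_or_nonempty with rfl | ⟨A0, hA0⟩
  · simp
  obtain ⟨u', b', hsp, hA⟩ := reduce u b 𝒜 (fun A hA => by
    obtain ⟨-, -, p, h1, h2, h3⟩ := h A hA
    exact ⟨p, h1, h2, ind_iff.mp h3⟩)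
  have hm : ∀ A ∈ 𝒜, A.map Function.Embedding.inl ∈ tets u' b' := by
    intro A hAm
    obtain ⟨p, hp, hpa⟩ := hA A hAm
    exact mem_tets.mpr ⟨by rw [card_map, (h A hAm).1], p, hp, hpa⟩
  have h1 := card_three hsp (y := y.map Function.Embedding.inl) (by rw [card_map, hy])
    (hm A0 hA0) (map_subset_map.mpr (h A0 hA0).2.1)
  rw [← h1]
  apply card_le_card_of_injOn (fun A => A.map Function.Embedding.inl)
  · intro A hAm
    rw [mem_coe] at hAm
    rw [mem_coe, mem_filter]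
    exact ⟨hm A hAm, map_subset_map.mpr (h A hAm).2.1⟩
  · intro A _ B _ hAB
    exact map_injective _ hAB

theorem count_two {g : E4} {c : ℝ} (I : Finset ι) (F : Finset (Finset ι))
    (hF : ∀ S ∈ F, S.card = 2 ∧ S ⊆ I ∧ Ind u S ∧ Cr u b g c I S) : F.card ≤ 3 * (I.card + 5) := by
  have hb := three_bound (u := ext u I g) (b := extb b I c) none
    (F.image fun x => insertNone (x.subtype (· ∈ I))) (by
      intro A hA
      obtain ⟨S, hS, rfl⟩ := mem_image.mp hA
      obtain ⟨h1, h2, h3, h4⟩ := hF S hS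
      refine ⟨?_, mem_insertNone.mpr (by simp), h4.wit h2 h3⟩
      rw [card_insertNone, card_subtype, filter_true_of_mem (fun i hi => h2 hi), h1])
  rw [inj_insertNone (fun x hx => (hF x hx).2.1), Fintype.card_option, Fintype.card_coe] at hb
  omega

theorem count_three {g : E4} {c : ℝ} (I : Finset ι) (F : Finset (Finset ι))
    (hF : ∀ S ∈ F, S.card = 3 ∧ S ⊆ I ∧ Ind u S ∧ Cr u b g c I S) : F.card ≤ 2 * (I.card + 5) := by
  have hb := four_bound (u := ext u I g) (b := extb b I c) none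
    (F.image fun x => insertNone (x.subtype (· ∈ I))) (by
      intro A hA
      obtain ⟨S, hS, rfl⟩ := mem_image.mp hA
      obtain ⟨h1, h2, h3, h4⟩ := hF S hS
      refine ⟨?_, mem_insertNone.mpr (by simp), h4.wit h2 h3⟩
      rw [card_insertNone, card_subtype, filter_true_of_mem (fun i hi => h2 hi), h1])
  rw [inj_insertNone (fun x hx => (hF x hx).2.1), Fintype.card_option, Fintype.card_coe] at hb
  omega

theorem count_pair {g : E4} {c : ℝ} (I y : Finset ι) (hy : y.card = 2) (F : Finset (Finset ι))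
    (hF : ∀ S ∈ F, S.card = 3 ∧ y ⊆ S ∧ S ⊆ I ∧ Ind u S ∧ Cr u b g c I S) : F.card ≤ 2 := by
  classical
  rcases F.eq_empty_or_nonempty with rfl | ⟨S0, hS0⟩
  · simp
  have hyI : y ⊆ I := (hF S0 hS0).2.1.trans (hF S0 hS0).2.2.1
  have hb := edge_bound (u := ext u I g) (b := extb b I c) (insertNone (y.subtype (· ∈ I))) (by
      rw [card_insertNone, card_subtype, filter_true_of_mem (fun i hi => hyI hi), hy])
    (F.image fun x => insertNone (x.subtype (· ∈ I))) (by
      intro A hA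
      obtain ⟨S, hS, rfl⟩ := mem_image.mp hA
      obtain ⟨h1, h2, h3, h4, h5⟩ := hF S hS
      refine ⟨?_, ?_, h5.wit h3 h4⟩
      · rw [card_insertNone, card_subtype, filter_true_of_mem (fun i hi => h3 hi), h1]
      · intro o ho
        cases o with
        | none => exact mem_insertNone.mpr (by simp)
        | some i =>
          rw [some_mem_insertNone, mem_subtype] at ho ⊢
          exact h2 ho)
  rw [inj_insertNone (fun x hx => (hF x hx).2.2.1)] at hb
  exact hb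

/-- The normals of a part of a vertex are independent. -/
theorem ind_sub (h : SP u b) {t S : Finset ι} (ht : t ∈ tets u b) (hS : S ⊆ t) : Ind u S := by
  obtain ⟨p, hp, hpa⟩ := exists_pt h ht hS
  have := indep h hp
  rw [hpa] at this
  exact ind_iff.mpr this

end TRC
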