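import Pool.Agent.TRC.App

/-!
# TRC: graphs with a central vertex or a central edge
-/

set_option autoImplicit false

namespace Pool.Agent.TRC

open Finset Pool.Agent.Lib_helper61.SwitchBasic

variable {α : Type} [Fintype α] [DecidableEq α]

/-- choice of the complement -/
theorem norm (C : SimpleGraph α) (K Y t : Finset α)
    (h : ∀ x ∈ K, ∀ y ∈ K, (x ∈ symmDiff t Y ↔ y ∈ symmDiff t Y)) :
    ∃ t₁, sw C t₁ = sw C t ∧ ∀ x ∈ K, x ∉ symmDiff t₁ Y := by
  by_cases h0 : ∃ x ∈ K, x ∈ symmDiff t Y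
  · obtain ⟨x, hx, hxt⟩ := h0
    refine ⟨tᶜ, swC_compl C t, fun y hy => ?_⟩
    have := (h x hx y hy).1 hxt
    simp only [mem_symmDiff, mem_compl] at this ⊢
    tauto
  · push Not at h0
    exact ⟨t, rfl, h0⟩

section vertex

variable {C : SimpleGraph α} {c : α}

theorem mem_blk {x y : α} : y ∈ blk C c x ↔ (del C c).Reachable x y := by
  simp [blk]

theorem blk_eq {x y : α} : blk C c x = blk C c y ↔ (del C c).Reachable x y := by
  constructor
  · intro h
    rw [← mem_blk, h, mem_blk]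
  · intro h
    ext z
    rw [mem_blk, mem_blk]
    exact ⟨fun g => h.symm.trans g, fun g => h.trans g⟩

theorem fix_iff {s : Equiv.Perm α} (hs : s c = c) (x : α) : s x = c ↔ x = c := by
  constructor
  · intro h
    exact s.injective (h.trans hs.symm)
  · rintro rfl
    exact hs

theorem blk_perm {s : Equiv.Perm α} (hs : s ∈ AA C) (hsc : s c = c) {x y : α}
    (h : (del C c).Reachable x y) : (del C c).Reachable (s x) (s y) := by
  refine h.map (⟨s, ?_⟩ : del C c →g del C c)
  intro u v huv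
  exact ⟨(mem_AA.1 hs u v).2 huv.1, fun g => huv.2.1 ((fix_iff hsc u).1 g),
    fun g => huv.2.2 ((fix_iff hsc v).1 g)⟩

theorem blocks_vertex (hfix : ∀ s ∈ AA C, s c = c) : Blocks (AA C) (blk C c) := by
  refine blocks_of ?_ ?_
  · intro s hs x y h
    rw [blk_eq] at h ⊢
    exact blk_perm hs (hfix s hs) h
  · intro g₁ hg₁ g₂ hg₂ u v huv hguv
    by_cases hu : u = c
    · subst hu
      rw [hfix g₁ hg₁]
      have := mem_AA.1 hg₂ u v
      rwa [hfix g₂ hg₂] at this
    · by_cases hv : v = c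
      · subst hv
        rw [hfix g₂ hg₂]
        have := mem_AA.1 hg₁ u v
        rwa [hfix g₁ hg₁] at this
      · refine iff_of_false (fun h => hguv ?_) (fun h => huv ?_)
        · rw [blk_eq]
          refine SimpleGraph.Adj.reachable ⟨h, ?_, ?_⟩
          · exact fun g => hu ((fix_iff (hfix g₁ hg₁) u).1 g)
          · exact fun g => hv ((fix_iff (hfix g₂ hg₂) v).1 g)
        · rw [blk_eq]
          exact SimpleGraph.Adj.reachable ⟨h, hu, hv⟩

theorem bl_blk (x : α) : bl (blk C c) x = blk C c x := by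
  ext y
  rw [mem_bl, blk_eq, mem_blk]
  exact ⟨fun h => h.symm, fun h => h.symm⟩

theorem blk_self : blk C c c = {c} := by
  ext y
  rw [mem_blk, mem_singleton]
  constructor
  · rintro ⟨w⟩
    cases w with
    | nil => rfl
    | cons h _ => exact absurd rfl h.2.1
  · rintro rfl
    exact SimpleGraph.Reachable.refl y

/-- Central vertex. -/
theorem vertex_core (hn : 8 ≤ Fintype.card α) (he : Even (Fintype.card α))
    (hc : ∀ x, x ≠ c → 2 * (blk C c x).card < Fintype.card α)
    (hA : ∀ σ, IsClassAut C σ → IsAut C σ) (hfix : ∀ s, IsAut C s → s c = c)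
    {t t' : Finset α} (hdeck : SameDeck (sw C t) (sw C t')) : Nonempty (sw C t ≃g sw C t') := by
  obtain ⟨m, hm⟩ := he
  have h1 : ∀ t₀ : Finset α, ∃ t₁, sw C t₁ = sw C t₀ ∧ ∀ x ∈ ({c} : Finset α),
      x ∉ symmDiff t₁ ∅ := fun t₀ => norm C {c} ∅ t₀ fun x hx y hy => by
    rw [mem_singleton] at hx hy
    rw [hx, hy]
  obtain ⟨t₁, e1, ht₁⟩ := h1 t
  obtain ⟨t₂, e2, ht₂⟩ := h1 t'
  rw [← e1, ← e2] at hdeck ⊢
  have hfix' : ∀ s ∈ AA C, s c = c := fun s hs => hfix s (mem_AA.1 hs)
  refine main_lemma hA hn (blocks_vertex hfix') (K := {c}) ⟨c, mem_singleton_self c⟩ ?_ ?_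
    (Y := ∅) ?_ ht₁ ht₂ hdeck
  · intro s hs x
    rw [mem_singleton, mem_singleton]
    exact fix_iff (hfix' s hs) x
  · intro x
    refine ⟨c, mem_singleton_self c, ?_⟩
    rw [bl_blk]
    by_cases hx : x = c
    · subst hx
      rw [blk_self, insert_eq_of_mem (mem_singleton_self x), card_singleton]
      omega
    · have h2 := hc x hx
      have h3 := card_insert_le c (blk C c x)
      omega
  · intro s _
    left
    exact im_empty s

end vertex

section edge

variable {C : SimpleGraph α} {c d : α}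

open Classical in
/-- the component in `cut C c d` -/
noncomputable def cmp (C : SimpleGraph α) (c d x : α) : Finset α :=
  univ.filter fun y => (cut C c d).Reachable x y

theorem mem_cmp {x y : α} : y ∈ cmp C c d x ↔ (cut C c d).Reachable x y := by
  simp [cmp]

theorem cmp_eq {x y : α} : cmp C c d x = cmp C c d y ↔ (cut C c d).Reachable x y := by
  constructor
  · intro h
    rw [← mem_cmp, h, mem_cmp]
  · intro h
    ext z
    rw [mem_cmp, mem_cmp]
    exact ⟨fun g => h.symm.trans g, fun g => h.trans g⟩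

omit [Fintype α] [DecidableEq α] in
theorem cut_comm : cut C d c = cut C c d := by
  ext u v
  constructor
  · exact fun h => ⟨h.1, h.2.2, h.2.1⟩
  · exact fun h => ⟨h.1, h.2.2, h.2.1⟩

theorem side_eq : side C c d = cmp C c d c := by
  ext y
  rw [mem_cmp]
  simp [side]

theorem side_eq' : side C d c = cmp C c d d := by
  ext y
  rw [mem_cmp]
  simp [side, cut_comm]

theorem cut_perm {s : Equiv.Perm α} (hs : s ∈ AA C)
    (hK : (s c = c ∧ s d = d) ∨ (s c = d ∧ s d = c)) {x y : α}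
    (h : (cut C c d).Reachable x y) : (cut C c d).Reachable (s x) (s y) := by
  refine h.map (⟨s, ?_⟩ : cut C c d →g cut C c d)
  intro u v huv
  have key : ∀ w z, s w = z → ∀ x, s x = z → x = w := fun w z h1 x h2 =>
    s.injective (h2.trans h1.symm)
  refine ⟨(mem_AA.1 hs u v).2 huv.1, ?_, ?_⟩
  · rintro ⟨h1, h2⟩
    rcases hK with ⟨k1, k2⟩ | ⟨k1, k2⟩
    · exact huv.2.1 ⟨key c c k1 u h1, key d d k2 v h2⟩
    · exact huv.2.2 ⟨key d c k2 u h1, key c d k1 v h2⟩
  · rintro ⟨h1, h2⟩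
    rcases hK with ⟨k1, k2⟩ | ⟨k1, k2⟩
    · exact huv.2.2 ⟨key d d k2 u h1, key c c k1 v h2⟩
    · exact huv.2.1 ⟨key c d k1 u h1, key d c k2 v h2⟩

theorem K_iff (hK : ∀ s ∈ AA C, (s c = c ∧ s d = d) ∨ (s c = d ∧ s d = c)) {s : Equiv.Perm α}
    (hs : s ∈ AA C) (x : α) : s x ∈ ({c, d} : Finset α) ↔ x ∈ ({c, d} : Finset α) := by
  have key : ∀ w z, s w = z → ∀ x, s x = z → x = w := fun w z h1 x h2 =>
    s.injective (h2.trans h1.symm)
  simp only [mem_insert, mem_singleton]
  rcases hK s hs with ⟨k1, k2⟩ | ⟨k1, k2⟩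
  · constructor
    · rintro (h | h)
      · exact Or.inl (key c c k1 x h)
      · exact Or.inr (key d d k2 x h)
    · rintro (rfl | rfl)
      · exact Or.inl k1
      · exact Or.inr k2
  · constructor
    · rintro (h | h)
      · exact Or.inr (key d c k2 x h)
      · exact Or.inl (key c d k1 x h)
    · rintro (rfl | rfl)
      · exact Or.inr k1
      · exact Or.inl k2

theorem cross_iff (hcd : C.Adj c d) {u v : α} (h : cmp C c d u ≠ cmp C c d v) :
    C.Adj u v ↔ (u ∈ ({c, d} : Finset α) ∧ v ∈ ({c, d} : Finset α)) := by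
  simp only [mem_insert, mem_singleton]
  constructor
  · intro huv
    by_contra hcon
    apply h
    rw [cmp_eq]
    refine SimpleGraph.Adj.reachable ⟨huv, ?_, ?_⟩
    · rintro ⟨rfl, rfl⟩
      exact hcon ⟨Or.inl rfl, Or.inr rfl⟩
    · rintro ⟨rfl, rfl⟩
      exact hcon ⟨Or.inr rfl, Or.inl rfl⟩
  · rintro ⟨rfl | rfl, rfl | rfl⟩
    · exact absurd rfl h
    · exact hcd
    · exact hcd.symm
    · exact absurd rfl h

theorem blocks_edge (hcd : C.Adj c d)
    (hK : ∀ s ∈ AA C, (s c = c ∧ s d = d) ∨ (s c = d ∧ s d = c)) :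
    Blocks (AA C) (cmp C c d) := by
  refine blocks_of ?_ ?_
  · intro s hs x y h
    rw [cmp_eq] at h ⊢
    exact cut_perm hs (hK s hs) h
  · intro g₁ hg₁ g₂ hg₂ u v huv hguv
    rw [cross_iff hcd huv, cross_iff hcd hguv, K_iff hK hg₁, K_iff hK hg₂]

theorem bl_cmp (x : α) : bl (cmp C c d) x = cmp C c d x := by
  ext y
  rw [mem_bl, cmp_eq, mem_cmp]
  exact ⟨fun h => h.symm, fun h => h.symm⟩

theorem im_cmp (hK : ∀ s ∈ AA C, (s c = c ∧ s d = d) ∨ (s c = d ∧ s d = c)) {s : Equiv.Perm α}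
    (hs : s ∈ AA C) (x : α) : im s (cmp C c d x) = cmp C c d (s x) := by
  ext y
  rw [mem_im, mem_cmp, mem_cmp]
  constructor
  · intro h
    have := cut_perm hs (hK s hs) h
    simpa using this
  · intro h
    have := cut_perm (inv_AA hs) (hK _ (inv_AA hs)) h
    simpa using this

/-- The relation between the colours of `c` and `d` is determined by the deck. -/
theorem colour (hn : 8 ≤ Fintype.card α) (hcd : C.Adj c d)
    (hA : ∀ σ, IsClassAut C σ → IsAut C σ)
    (hK : ∀ s ∈ AA C, (s c = c ∧ s d = d) ∨ (s c = d ∧ s d = c))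
    {t t' : Finset α} (hdeck : SameDeck (sw C t) (sw C t'))
    (hne : ¬ Nonempty (sw C t ≃g sw C t')) : (c ∈ t ↔ d ∈ t) ↔ (c ∈ t' ↔ d ∈ t') := by
  by_contra hcon
  have hsd : ∀ S, sw (sw C t) (symmDiff t S) = sw C S := by
    intro S
    rw [sw_sw, symmDiff_symmDiff_cancel_left]
  have hF : ∀ S, ∑ i : α, (fun S => ff (sw C t) (sw C t') (symmDiff t S)) (symmDiff S {i}) = 0 := by
    intro S
    rw [← sum_ff hdeck (symmDiff t S)]
    exact sum_congr rfl fun i _ => by rw [symmDiff_assoc]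
  have h2 : 2 * ({c, d} : Finset α).card < Fintype.card α := by
    rw [card_pair hcd.ne]
    omega
  have h0 := tr_zero (F := fun S => ff (sw C t) (sw C t') (symmDiff t S)) hF h2 t
  have hnn : ∀ T : Finset α, T ∩ {c, d} = t ∩ {c, d} →
      0 ≤ ff (sw C t) (sw C t') (symmDiff t T) := by
    intro T hT
    have hno : ¬ Nonempty (sw C T ≃g sw C t') := by
      intro hiso
      rw [iso_iff hA] at hiso
      obtain ⟨s, hs, h⟩ := hiso
      apply hcon
      have hT' := inter_eq_iff.1 hT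
      have tc := hT' c (by simp)
      have td := hT' d (by simp)
      rw [← tc, ← td]
      have ec : ∀ x, x ∈ im s t' ↔ s⁻¹ x ∈ t' := fun x => mem_im
      have hc1 : (c ∈ im s t' ↔ d ∈ im s t') ↔ (c ∈ t' ↔ d ∈ t') := by
        rw [ec, ec]
        rcases hK _ (inv_AA hs) with ⟨k1, k2⟩ | ⟨k1, k2⟩
        · rw [k1, k2]
        · rw [k1, k2]
          tauto
      rw [← hc1]
      rcases h with h | h
      · rw [h]
      · rw [h, mem_compl, mem_compl]
        tauto
    unfold ff
    rw [hsd, ind_of_not _ _ hno, mul_zero, sub_zero]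
    refine mul_nonneg ?_ (ind_nonneg _ _)
    unfold cnt
    exact sum_nonneg fun _ _ => ind_nonneg _ _
  have hpos : 0 < tr (fun S => ff (sw C t) (sw C t') (symmDiff t S)) {c, d} t := by
    unfold tr
    refine sum_pos' (fun T _ => ?_) ⟨t, mem_univ _, ?_⟩
    · by_cases hT : T ∩ {c, d} = t ∩ {c, d}
      · rw [if_pos hT]
        exact hnn T hT
      · rw [if_neg hT]
    · rw [if_pos rfl]
      show 0 < ff (sw C t) (sw C t') (symmDiff t t)
      rw [symmDiff_self, Finset.bot_eq_empty, ff_empty hne]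
      obtain ⟨T₀, hT₀⟩ := exists_sw hdeck c
      exact cnt_pos _ _ T₀ hT₀
  exact hpos.ne' h0

/-- Central edge. -/
theorem edge_core (hn : 8 ≤ Fintype.card α) (hcd : C.Adj c d)
    (hr : ¬ (cut C c d).Reachable c d) (h1 : 2 * (side C c d).card = Fintype.card α)
    (h2 : 2 * (side C d c).card = Fintype.card α)
    (hA : ∀ σ, IsClassAut C σ → IsAut C σ)
    (hfix : ∀ s, IsAut C s → (s c = c ∧ s d = d) ∨ (s c = d ∧ s d = c))
    {t t' : Finset α} (hdeck : SameDeck (sw C t) (sw C t')) : Nonempty (sw C t ≃g sw C t') := by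
  have hK : ∀ s ∈ AA C, (s c = c ∧ s d = d) ∨ (s c = d ∧ s d = c) :=
    fun s hs => hfix s (mem_AA.1 hs)
  by_contra hne
  have hcol := colour hn hcd hA hK hdeck hne
  apply hne
  rw [side_eq] at h1
  rw [side_eq'] at h2
  -- the two sides cover everything
  have hdisj : Disjoint (cmp C c d c) (cmp C c d d) := by
    rw [disjoint_left]
    intro x hx hx'
    rw [mem_cmp] at hx hx'
    exact hr (hx.trans hx'.symm)
  have hcov : cmp C c d c ∪ cmp C c d d = univ := by
    apply eq_univ_of_card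
    rw [card_union_of_disjoint hdisj]
    omega
  have hcompl : (cmp C c d d)ᶜ = cmp C c d c := by
    ext x
    rw [mem_compl]
    constructor
    · intro hx
      have : x ∈ cmp C c d c ∪ cmp C c d d := by rw [hcov]; exact mem_univ x
      rcases mem_union.1 this with h | h
      · exact h
      · exact absurd h hx
    · intro hx hx'
      exact disjoint_left.1 hdisj hx hx'
  have hcmp : ∀ x, cmp C c d x = cmp C c d c ∨ cmp C c d x = cmp C c d d := by
    intro x
    have : x ∈ cmp C c d c ∪ cmp C c d d := by rw [hcov]; exact mem_univ x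
    rcases mem_union.1 this with h | h
    · left
      rw [cmp_eq]
      exact (mem_cmp.1 h).symm
    · right
      rw [cmp_eq]
      exact (mem_cmp.1 h).symm
  have hcc : c ∈ cmp C c d c := mem_cmp.2 (SimpleGraph.Reachable.refl c)
  have hdd : d ∈ cmp C c d d := mem_cmp.2 (SimpleGraph.Reachable.refl d)
  have hdc : c ∉ cmp C c d d := fun h => disjoint_left.1 hdisj hcc h
  have hU : ∀ x, ∃ κ ∈ ({c, d} : Finset α),
      2 * (insert κ (bl (cmp C c d) x)).card ≤ Fintype.card α := by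
    intro x
    rw [bl_cmp]
    rcases hcmp x with h | h
    · refine ⟨c, by simp, ?_⟩
      rw [h, insert_eq_of_mem hcc]
      omega
    · refine ⟨d, by simp, ?_⟩
      rw [h, insert_eq_of_mem hdd]
      omega
  -- the twist
  obtain ⟨Y, hY, hYt⟩ : ∃ Y : Finset α, (∀ s ∈ AA C, im s Y = Y ∨ im s Y = Yᶜ) ∧
      ∀ t₀ : Finset α, ((c ∈ t₀ ↔ d ∈ t₀) ↔ (c ∈ t ↔ d ∈ t)) →
        (c ∈ symmDiff t₀ Y ↔ d ∈ symmDiff t₀ Y) := by
    by_cases h : c ∈ t ↔ d ∈ t
    · refine ⟨∅, fun s _ => Or.inl (im_empty s), fun t₀ h0 => ?_⟩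
      rw [sd_empty]
      exact h0.2 h
    · refine ⟨cmp C c d d, fun s hs => ?_, fun t₀ h0 => ?_⟩
      · rw [im_cmp hK hs]
        rcases hK s hs with ⟨k1, k2⟩ | ⟨k1, k2⟩
        · left
          rw [k2]
        · right
          rw [k2, hcompl]
      · simp only [mem_symmDiff]
        tauto
  have hn1 : ∀ t₀ : Finset α, ((c ∈ t₀ ↔ d ∈ t₀) ↔ (c ∈ t ↔ d ∈ t)) →
      ∃ t₁, sw C t₁ = sw C t₀ ∧ ∀ x ∈ ({c, d} : Finset α), x ∉ symmDiff t₁ Y := by
    intro t₀ h0
    refine norm C {c, d} Y t₀ fun x hx y hy => ?_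
    have := hYt t₀ h0
    simp only [mem_insert, mem_singleton] at hx hy
    rcases hx with rfl | rfl <;> rcases hy with rfl | rfl <;> tauto
  obtain ⟨t₁, e1, ht₁⟩ := hn1 t Iff.rfl
  obtain ⟨t₂, e2, ht₂⟩ := hn1 t' hcol.symm
  rw [← e1, ← e2] at hdeck ⊢
  exact main_lemma hA hn (blocks_edge hcd hK) (K := {c, d}) ⟨c, by simp⟩
    (fun s hs x => K_iff hK hs x) hU hY ht₁ ht₂ hdeck

end edge

end Pool.Agent.TRC
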