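import Pool.Agent.TRC.Half

/-!
# TRC: groups that permute blocks. Counting lemma and exchange argument
-/

set_option autoImplicit false

namespace Pool.Agent.TRC

open Finset Pool.Agent.Lib_helper61.SwitchBasic

variable {α : Type} [DecidableEq α]

/-- The image of a set under a permutation. -/
def im (s : Equiv.Perm α) (S : Finset α) : Finset α := S.map s.toEmbedding

omit [DecidableEq α] in
theorem mem_im {s : Equiv.Perm α} {S : Finset α} {x : α} : x ∈ im s S ↔ s⁻¹ x ∈ S := by
  unfold im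
  rw [mem_map_equiv]
  rfl

omit [DecidableEq α] in
theorem im_mul (s r : Equiv.Perm α) (S : Finset α) : im (s * r) S = im s (im r S) := by
  ext x
  rw [mem_im, mem_im, mem_im, mul_inv_rev]
  rfl

omit [DecidableEq α] in
theorem im_one (S : Finset α) : im 1 S = S := by
  ext x
  rw [mem_im]
  simp

omit [DecidableEq α] in
theorem im_empty (s : Equiv.Perm α) : im s ∅ = ∅ := by
  ext x
  rw [mem_im]
  simp

variable [Fintype α] {ι : Type} [DecidableEq ι]

/-- The block of `x`. -/
def bl (comp : α → ι) (x : α) : Finset α := univ.filter fun y => comp y = comp x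

theorem mem_bl {comp : α → ι} {x y : α} : y ∈ bl comp x ↔ comp y = comp x := by
  simp [bl]

/-- A group `A` of permutations that permutes the blocks (the fibres of `comp`) and admits local
exchanges. -/
structure Blocks (A : Finset (Equiv.Perm α)) (comp : α → ι) : Prop where
  one : (1 : Equiv.Perm α) ∈ A
  mul : ∀ s ∈ A, ∀ r ∈ A, s * r ∈ A
  inv : ∀ s ∈ A, s⁻¹ ∈ A
  perm : ∀ s ∈ A, ∀ x y, comp x = comp y → comp (s x) = comp (s y)
  exch : ∀ s ∈ A, ∀ x, ∃ r ∈ A, (∀ y, comp y = comp x → r y = s y) ∧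
    (∀ y, comp y = comp (s x) → comp (s x) ≠ comp x → r y = s⁻¹ y) ∧
    (∀ y, comp y ≠ comp x → comp y ≠ comp (s x) → r y = y)

variable {A : Finset (Equiv.Perm α)} {comp : α → ι}

/-- The number of elements of `A` for which the image of `t` has the trace `R` on the block of
`x`. -/
def cs (A : Finset (Equiv.Perm α)) (comp : α → ι) (t : Finset α) (x : α) (R : Finset α) : ℕ :=
  (A.filter fun s => im s t ∩ bl comp x = R).card

/-- The blocks which can be mapped to the block of `x` so that the trace of `t` is mapped to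
`R`; they are represented by their labels. -/
noncomputable def JJ (A : Finset (Equiv.Perm α)) (comp : α → ι) (t : Finset α) (x : α)
    (R : Finset α) : Finset ι :=
  (A.filter fun s => im s t ∩ bl comp x = R).image fun s => comp (s⁻¹ x)

/-- The stabiliser of the block of `x` and of the set `R`. -/
def st (A : Finset (Equiv.Perm α)) (comp : α → ι) (x : α) (R : Finset α) : ℕ :=
  (A.filter fun s => comp (s⁻¹ x) = comp x ∧ im s R = R).card

theorem Blocks.iff (h : Blocks A comp) {s : Equiv.Perm α} (hs : s ∈ A) (x y : α) :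
    comp (s x) = comp (s y) ↔ comp x = comp y := by
  constructor
  · intro h1
    have := h.perm s⁻¹ (h.inv s hs) _ _ h1
    simpa using this
  · exact h.perm s hs x y

theorem mem_bl_inv (h : Blocks A comp) {s : Equiv.Perm α} (hs : s ∈ A) (x y : α) :
    y ∈ bl comp x ↔ s⁻¹ y ∈ bl comp (s⁻¹ x) := by
  rw [mem_bl, mem_bl, h.iff (h.inv s hs)]

theorem im_inter (h : Blocks A comp) {s : Equiv.Perm α} (hs : s ∈ A) (t : Finset α) (x : α) :
    im s t ∩ bl comp x = im s (t ∩ bl comp (s⁻¹ x)) := by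
  ext y
  rw [mem_inter, mem_im, mem_im, mem_inter, mem_bl_inv h hs x y]

theorem mem_JJ {t : Finset α} {x : α} {R : Finset α} {κ : ι} :
    κ ∈ JJ A comp t x R ↔ ∃ s ∈ A, im s t ∩ bl comp x = R ∧ comp (s⁻¹ x) = κ := by
  unfold JJ
  rw [mem_image]
  constructor
  · rintro ⟨s, hs, rfl⟩
    rw [mem_filter] at hs
    exact ⟨s, hs.1, hs.2, rfl⟩
  · rintro ⟨s, h1, h2, h3⟩
    exact ⟨s, mem_filter.2 ⟨h1, h2⟩, h3⟩

/-- All elements of one fibre are obtained from one of them by the stabiliser. -/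
theorem fib (h : Blocks A comp) {t : Finset α} {x : α} {R : Finset α} {r : Equiv.Perm α}
    (hr : r ∈ A) (hrR : im r t ∩ bl comp x = R) :
    ((A.filter fun s => im s t ∩ bl comp x = R).filter
      fun s => comp (s⁻¹ x) = comp (r⁻¹ x)).card = st A comp x R := by
  unfold st
  have e0 : im r (t ∩ bl comp (r⁻¹ x)) = R := by rw [← im_inter h hr]; exact hrR
  refine card_nbij' (fun s => s * r⁻¹) (fun s => s * r) ?_ ?_ ?_ ?_
  · intro s hs
    simp only [coe_filter, Set.mem_ofPred_eq, mem_filter] at hs ⊢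
    obtain ⟨⟨hs1, hs2⟩, hs3⟩ := hs
    have e1 : bl comp (s⁻¹ x) = bl comp (r⁻¹ x) := by
      ext y
      rw [mem_bl, mem_bl, hs3]
    refine ⟨h.mul s hs1 _ (h.inv r hr), ?_, ?_⟩
    · rw [mul_inv_rev, inv_inv, Equiv.Perm.mul_apply]
      have h1 := h.perm r hr _ _ hs3
      simpa using h1
    · rw [← e0, im_mul, ← im_mul r⁻¹ r, inv_mul_cancel, im_one, e0, ← e1, ← im_inter h hs1]
      exact hs2
  · intro s hs
    simp only [coe_filter, Set.mem_ofPred_eq, mem_filter] at hs ⊢
    obtain ⟨hs1, hs2, hs3⟩ := hs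
    have e2 : comp ((s * r)⁻¹ x) = comp (r⁻¹ x) := by
      rw [mul_inv_rev, Equiv.Perm.mul_apply]
      exact h.perm _ (h.inv r hr) _ _ hs2
    refine ⟨⟨h.mul s hs1 r hr, ?_⟩, e2⟩
    rw [im_inter h (h.mul s hs1 r hr), im_mul]
    have e3 : bl comp ((s * r)⁻¹ x) = bl comp (r⁻¹ x) := by
      ext y
      rw [mem_bl, mem_bl, e2]
    rw [e3, e0, hs3]
  · intro s _
    simp
  · intro s _
    simp

theorem cs_eq (h : Blocks A comp) (t : Finset α) (x : α) (R : Finset α) :
    cs A comp t x R = (JJ A comp t x R).card * st A comp x R := by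
  unfold cs
  rw [card_eq_sum_card_fiberwise (f := fun s => comp (s⁻¹ x)) (t := JJ A comp t x R)]
  · rw [sum_const_nat]
    intro κ hκ
    obtain ⟨r, hr, hrR, rfl⟩ := mem_JJ.1 hκ
    exact fib h hr hrR
  · intro s hs
    exact mem_image_of_mem _ hs

theorem st_pos (h : Blocks A comp) (x : α) (R : Finset α) : 0 < st A comp x R :=
  card_pos.2 ⟨1, mem_filter.2 ⟨h.one, by simp, im_one R⟩⟩

theorem card_JJ_eq (h : Blocks A comp) {t t' : Finset α} {x : α} {R : Finset α}
    (e : cs A comp t x R = cs A comp t' x R) :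
    (JJ A comp t x R).card = (JJ A comp t' x R).card := by
  rw [cs_eq h, cs_eq h] at e
  exact Nat.eq_of_mul_eq_mul_right (st_pos h x R) e

theorem cs_im (h : Blocks A comp) {r : Equiv.Perm α} (hr : r ∈ A) (t : Finset α) (x : α)
    (R : Finset α) : cs A comp (im r t) x R = cs A comp t x R := by
  unfold cs
  refine card_nbij' (fun s => s * r) (fun s => s * r⁻¹) ?_ ?_ ?_ ?_
  · intro s hs
    simp only [coe_filter, Set.mem_ofPred_eq] at hs ⊢
    exact ⟨h.mul s hs.1 r hr, by rw [im_mul]; exact hs.2⟩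
  · intro s hs
    simp only [coe_filter, Set.mem_ofPred_eq] at hs ⊢
    refine ⟨h.mul s hs.1 _ (h.inv r hr), ?_⟩
    rw [← im_mul]
    simpa using hs.2
  · intro s _
    simp
  · intro s _
    simp

/-- The exchange argument: equal counts for all blocks and all traces give an element of `A` that
maps `t` to `t'`. -/
theorem exchange (h : Blocks A comp) {t t' : Finset α}
    (hc : ∀ x R, cs A comp t x R = cs A comp t' x R) : ∃ s ∈ A, im s t = t' := by
  obtain ⟨s, hs, hmax⟩ := exists_max_image A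
    (fun s => (univ.filter fun x => im s t ∩ bl comp x = t' ∩ bl comp x).card) ⟨1, h.one⟩
  refine ⟨s, hs, ?_⟩
  by_contra hne
  obtain ⟨x, hx⟩ : ∃ x, im s t ∩ bl comp x ≠ t' ∩ bl comp x := by
    by_contra hall
    push Not at hall
    apply hne
    ext y
    have h1 : y ∈ im s t ∩ bl comp y ↔ y ∈ t' ∩ bl comp y := by rw [hall y]
    simpa [mem_bl] using h1
  set t₁ := im s t with ht₁
  have hc1 : ∀ x R, cs A comp t₁ x R = cs A comp t' x R := fun x R => by
    rw [ht₁, cs_im h hs]
    exact hc x R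
  -- an element `r` whose local version improves the agreement
  have key : ∃ r ∈ A, im r t₁ ∩ bl comp x = t' ∩ bl comp x ∧
      (comp (r⁻¹ x) = comp x ∨
        (comp (r⁻¹ x) ≠ comp x ∧ t₁ ∩ bl comp (r⁻¹ x) ≠ t' ∩ bl comp (r⁻¹ x))) := by
    by_cases hJ : comp x ∈ JJ A comp t₁ x (t' ∩ bl comp x)
    · obtain ⟨r, hr, h1, h2⟩ := mem_JJ.1 hJ
      exact ⟨r, hr, h1, Or.inl h2⟩
    · have hcard := card_JJ_eq h (hc1 x (t' ∩ bl comp x))
      have hJ' : comp x ∈ JJ A comp t' x (t' ∩ bl comp x) :=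
        mem_JJ.2 ⟨1, h.one, by rw [im_one], by simp⟩
      have hsub : ¬ JJ A comp t₁ x (t' ∩ bl comp x) ⊆ JJ A comp t' x (t' ∩ bl comp x) := by
        intro hsub
        have := eq_of_subset_of_card_le hsub hcard.ge
        rw [this] at hJ
        exact hJ hJ'
      obtain ⟨κ, hκ, hκ'⟩ := not_subset.1 hsub
      obtain ⟨r, hr, h1, h2⟩ := mem_JJ.1 hκ
      refine ⟨r, hr, h1, Or.inr ⟨fun h3 => hJ (by rw [← h3, h2]; exact hκ), fun h3 => ?_⟩⟩
      apply hκ'
      refine mem_JJ.2 ⟨r, hr, ?_, h2⟩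
      rw [im_inter h hr, ← h3, ← im_inter h hr]
      exact h1
  obtain ⟨r, hr, h1, h2⟩ := key
  obtain ⟨q, hq, hq1, hq2, hq3⟩ := h.exch r hr (r⁻¹ x)
  have hrx : r (r⁻¹ x) = x := by simp
  rw [hrx] at hq2 hq3
  -- traces of `im q t₁`
  have tx : im q t₁ ∩ bl comp x = t' ∩ bl comp x := by
    rw [← h1]
    ext y
    rw [mem_inter, mem_inter, mem_bl]
    refine and_congr_left fun hy => ?_
    have h3 : comp (r⁻¹ y) = comp (r⁻¹ x) := h.perm _ (h.inv r hr) _ _ hy
    have h4 : q (r⁻¹ y) = y := by rw [hq1 _ h3]; simp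
    have h5 : q⁻¹ y = r⁻¹ y := by rw [Equiv.Perm.inv_eq_iff_eq]; exact h4.symm
    rw [mem_im (s := q), mem_im (s := r), h5]
  have tz : ∀ z, comp z ≠ comp x → comp z ≠ comp (r⁻¹ x) →
      im q t₁ ∩ bl comp z = t₁ ∩ bl comp z := by
    intro z hz1 hz2
    ext y
    rw [mem_inter, mem_inter, mem_bl]
    refine and_congr_left fun hy => ?_
    have h4 : q y = y := hq3 y (by rw [hy]; exact hz2) (by rw [hy]; exact hz1)
    have h5 : q⁻¹ y = y := by rw [Equiv.Perm.inv_eq_iff_eq]; exact h4.symm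
    rw [mem_im (s := q), h5]
  have blc : ∀ {y z : α}, comp y = comp z → bl comp y = bl comp z := by
    intro y z hyz
    ext w
    rw [mem_bl, mem_bl, hyz]
  have hlt : (univ.filter fun y => im s t ∩ bl comp y = t' ∩ bl comp y).card <
      (univ.filter fun y => im (q * s) t ∩ bl comp y = t' ∩ bl comp y).card := by
    apply card_lt_card
    rw [ssubset_iff_of_subset]
    · refine ⟨x, ?_, ?_⟩
      · rw [mem_filter, im_mul]
        exact ⟨mem_univ _, tx⟩
      · rw [mem_filter]
        exact fun g => hx g.2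
    · intro y hy
      rw [mem_filter] at hy ⊢
      refine ⟨mem_univ _, ?_⟩
      rw [im_mul]
      by_cases hy1 : comp y = comp x
      · rw [blc hy1]
        exact tx
      · by_cases hy2 : comp y = comp (r⁻¹ x)
        · exfalso
          rcases h2 with h2 | h2
          · exact hy1 (hy2.trans h2)
          · apply h2.2
            rw [← blc hy2]
            exact hy.2
        · rw [tz y hy1 hy2]
          exact hy.2
  exact absurd (hmax (q * s) (h.mul q hq s hs)) (not_le.2 hlt)

end Pool.Agent.TRC
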