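import Pool.Agent.TRC.St

/-!
# TRC: sums over the sets with a given trace on a set of at most half of the points
-/

set_option autoImplicit false

namespace Pool.Agent.TRC

open Finset Pool.Agent.Lib_helper61.SwitchBasic

variable {α : Type} [DecidableEq α]

theorem inter_eq_iff {T S U : Finset α} : T ∩ U = S ∩ U ↔ ∀ x ∈ U, (x ∈ T ↔ x ∈ S) := by
  constructor
  · intro h x hx
    have h1 : x ∈ T ∩ U ↔ x ∈ S ∩ U := by rw [h]
    simpa [hx] using h1
  · intro h
    ext x
    by_cases hx : x ∈ U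
    · simp [hx, h x hx]
    · simp [hx]

variable [Fintype α]

/-- The sum of `F` over all sets that have the same intersection with `U` as `S`. -/
noncomputable def tr (F : Finset α → ℚ) (U S : Finset α) : ℚ :=
  ∑ T : Finset α, if T ∩ U = S ∩ U then F T else 0

theorem tr_congr (F : Finset α → ℚ) {U S S' : Finset α} (h : S ∩ U = S' ∩ U) :
    tr F U S = tr F U S' := by
  unfold tr
  rw [h]

theorem tr_in (F : Finset α → ℚ) (U S : Finset α) {i : α} :
    tr F U (symmDiff S {i}) = ∑ T : Finset α, if T ∩ U = S ∩ U then F (symmDiff T {i}) else 0 := by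
  unfold tr
  rw [← Equiv.sum_comp (flipE i)]
  refine sum_congr rfl fun T _ => ?_
  rw [flipE_apply]
  have h : (symmDiff T {i} ∩ U = symmDiff S {i} ∩ U) ↔ (T ∩ U = S ∩ U) := by
    rw [inter_eq_iff, inter_eq_iff]
    refine forall₂_congr fun x _ => ?_
    rw [mem_symmDiff, mem_symmDiff, mem_singleton]
    by_cases hx : x = i <;> simp [hx] <;> tauto
  simp only [h]

theorem tr_out (F : Finset α → ℚ) (U S : Finset α) {i : α} (hi : i ∉ U) :
    ∑ T : Finset α, (if T ∩ U = S ∩ U then F (symmDiff T {i}) else 0) = tr F U S := by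
  rw [← tr_in]
  refine tr_congr F ?_
  rw [inter_eq_iff]
  intro x hx
  have hxi : x ≠ i := fun h => hi (h ▸ hx)
  rw [mem_symmDiff, mem_singleton]
  simp [hxi]

theorem tr_sum {F : Finset α → ℚ} (hF : ∀ S, ∑ i : α, F (symmDiff S {i}) = 0) (U S : Finset α) :
    ∑ i ∈ U, tr F U (symmDiff S {i}) + ((Uᶜ).card : ℚ) * tr F U S = 0 := by
  have h1 : ∑ i : α, ∑ T : Finset α, (if T ∩ U = S ∩ U then F (symmDiff T {i}) else 0) = 0 := by
    rw [sum_comm]
    refine sum_eq_zero fun T _ => ?_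
    by_cases h : T ∩ U = S ∩ U
    · simp only [h, if_true]
      exact hF T
    · simp [h]
  rw [← sum_add_sum_compl U] at h1
  have h2 : ∑ i ∈ Uᶜ, ∑ T : Finset α, (if T ∩ U = S ∩ U then F (symmDiff T {i}) else 0) =
      ((Uᶜ).card : ℚ) * tr F U S := by
    rw [sum_congr rfl fun i hi => tr_out F U S (by simpa using hi), sum_const, nsmul_eq_mul]
  have h3 : ∑ i ∈ U, ∑ T : Finset α, (if T ∩ U = S ∩ U then F (symmDiff T {i}) else 0) =
      ∑ i ∈ U, tr F U (symmDiff S {i}) := sum_congr rfl fun i _ => (tr_in F U S).symm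
  rw [h2, h3] at h1
  exact h1

theorem exists_max (F : Finset α → ℚ) (U : Finset α) :
    ∃ S₀, ∀ S, |tr F U S| ≤ |tr F U S₀| := by
  obtain ⟨S₀, -, h⟩ := exists_max_image (univ : Finset (Finset α)) (fun S => |tr F U S|)
    ⟨∅, mem_univ _⟩
  exact ⟨S₀, fun S => h S (mem_univ _)⟩

theorem tr_zero {F : Finset α → ℚ} (hF : ∀ S, ∑ i : α, F (symmDiff S {i}) = 0) {U : Finset α}
    (hU : 2 * U.card < Fintype.card α) (S : Finset α) : tr F U S = 0 := by
  obtain ⟨S₀, h0⟩ := exists_max F U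
  have h1 := tr_sum hF U S₀
  have h2 : |∑ i ∈ U, tr F U (symmDiff S₀ {i})| ≤ (U.card : ℚ) * |tr F U S₀| := by
    refine (abs_sum_le_sum_abs _ _).trans ?_
    refine (sum_le_card_nsmul _ _ _ fun i _ => h0 _).trans ?_
    rw [nsmul_eq_mul]
  have h3 : ((Uᶜ).card : ℚ) * |tr F U S₀| = |∑ i ∈ U, tr F U (symmDiff S₀ {i})| := by
    have h4 : ∑ i ∈ U, tr F U (symmDiff S₀ {i}) = - (((Uᶜ).card : ℚ) * tr F U S₀) := by linarith
    rw [h4, abs_neg, abs_mul, Nat.abs_cast]
  have h5 : (U.card : ℚ) < ((Uᶜ).card : ℚ) := by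
    have := card_add_card_compl U
    exact_mod_cast (by omega : U.card < (Uᶜ).card)
  have h6 : |tr F U S₀| = 0 := by
    by_contra hne
    have hpos : 0 < |tr F U S₀| := lt_of_le_of_ne (abs_nonneg _) (Ne.symm hne)
    have := mul_lt_mul_of_pos_right h5 hpos
    linarith
  have h7 := h0 S
  rw [h6] at h7
  exact abs_eq_zero.1 (le_antisymm h7 (abs_nonneg _))

theorem tr_alt_aux {F : Finset α → ℚ} (hF : ∀ S, ∑ i : α, F (symmDiff S {i}) = 0) {U : Finset α}
    (hU : 2 * U.card = Fintype.card α) {m : ℚ} (hm : ∀ S, |tr F U S| ≤ m) {S : Finset α}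
    (hS : |tr F U S| = m) {i : α} (hi : i ∈ U) : tr F U (symmDiff S {i}) = - tr F U S := by
  have hc : (Uᶜ).card = U.card := by
    have := card_add_card_compl U
    omega
  have h1 := tr_sum hF U S
  rw [hc] at h1
  have h2 : ∑ i ∈ U, (tr F U (symmDiff S {i}) + tr F U S) = 0 := by
    rw [sum_add_distrib, sum_const, nsmul_eq_mul]
    exact h1
  rcases le_total 0 (tr F U S) with h0 | h0
  · rw [abs_of_nonneg h0] at hS
    have h3 : ∀ j ∈ U, 0 ≤ tr F U (symmDiff S {j}) + tr F U S := by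
      intro j _
      have := neg_le_of_abs_le (hm (symmDiff S {j}))
      linarith
    have := (sum_eq_zero_iff_of_nonneg h3).1 h2 i hi
    linarith
  · rw [abs_of_nonpos h0] at hS
    have h3 : ∀ j ∈ U, tr F U (symmDiff S {j}) + tr F U S ≤ 0 := by
      intro j _
      have := le_of_abs_le (hm (symmDiff S {j}))
      linarith
    have := (sum_eq_zero_iff_of_nonpos h3).1 h2 i hi
    linarith

theorem tr_abs {F : Finset α → ℚ} (hF : ∀ S, ∑ i : α, F (symmDiff S {i}) = 0) {U : Finset α}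
    (hU : 2 * U.card = Fintype.card α) : ∃ m : ℚ, ∀ S, |tr F U S| = m := by
  obtain ⟨S₀, h0⟩ := exists_max F U
  refine ⟨|tr F U S₀|, ?_⟩
  have key : ∀ V : Finset α, V ⊆ U → |tr F U (symmDiff S₀ V)| = |tr F U S₀| := by
    intro V
    induction V using Finset.induction_on with
    | empty => intro _; rw [sd_empty]
    | insert a V ha ih =>
      intro hV
      have h1 := ih fun x hx => hV (mem_insert_of_mem hx)
      rw [sd_insert _ _ _ ha, tr_alt_aux hF hU h0 h1 (hV (mem_insert_self a V)), abs_neg, h1]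
  intro S
  rw [← key (symmDiff S₀ S ∩ U) inter_subset_right]
  refine congrArg _ (tr_congr F ?_)
  rw [inter_eq_iff]
  intro x hx
  rw [mem_symmDiff, mem_inter, mem_symmDiff]
  tauto

theorem tr_alt {F : Finset α → ℚ} (hF : ∀ S, ∑ i : α, F (symmDiff S {i}) = 0) {U : Finset α}
    (hU : 2 * U.card = Fintype.card α) (S : Finset α) {i : α} (hi : i ∈ U) :
    tr F U (symmDiff S {i}) = - tr F U S := by
  obtain ⟨m, hm⟩ := tr_abs hF hU
  exact tr_alt_aux hF hU (fun S => (hm S).le) (hm S) hi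

end Pool.Agent.TRC
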