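import Pool.Agent.TRC.Std

/-!
# TRC (MP_e73337_co): structure of the exceptional trees
-/

set_option autoImplicit false

namespace Pool.Agent.TRC

open Finset Pool.Agent.Lib_helper61.SwitchBasic

namespace STR

variable {α : Type} [Fintype α] [DecidableEq α] (T : SimpleGraph α) [DecidableRel T.Adj]

omit [Fintype α] [DecidableEq α] [DecidableRel T.Adj] in
/-- no cycle of length 4 -/
theorem common (hT : T.IsTree) {u v w w' : α} (huv : u ≠ v) (h1 : T.Adj u w) (h2 : T.Adj v w)
    (h3 : T.Adj u w') (h4 : T.Adj v w') : w = w' := by
  have hp : (SimpleGraph.Walk.cons h1 (SimpleGraph.Walk.cons h2.symm SimpleGraph.Walk.nil)).IsPath := by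
    simp [SimpleGraph.Walk.cons_isPath_iff, huv, h1.ne, h2.ne']
  have hq : (SimpleGraph.Walk.cons h3 (SimpleGraph.Walk.cons h4.symm SimpleGraph.Walk.nil)).IsPath := by
    simp [SimpleGraph.Walk.cons_isPath_iff, huv, h3.ne, h4.ne']
  have h := (hT.isAcyclic.subsingleton_path _ _).elim ⟨_, hp⟩ ⟨_, hq⟩
  have h' := congrArg (fun p : T.Path u v => (p : T.Walk u v).support) h
  simpa using h'

omit [Fintype α] [DecidableEq α] [DecidableRel T.Adj] in
/-- no triangle -/
theorem tri (hT : T.IsTree) {u x y : α} (h1 : T.Adj u x) (h2 : T.Adj u y) (h3 : T.Adj x y) :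
    False := by
  have hp : (SimpleGraph.Walk.cons h3 SimpleGraph.Walk.nil).IsPath := by
    simp [SimpleGraph.Walk.cons_isPath_iff, h3.ne]
  have hq : (SimpleGraph.Walk.cons h1.symm (SimpleGraph.Walk.cons h2 SimpleGraph.Walk.nil)).IsPath := by
    simp [SimpleGraph.Walk.cons_isPath_iff, h3.ne, h1.ne', h2.ne]
  have h := (hT.isAcyclic.subsingleton_path _ _).elim ⟨_, hp⟩ ⟨_, hq⟩
  have h' := congrArg (fun p : T.Path x y => (p : T.Walk x y).length) h
  simp at h'

/-- exactly one edge avoids `u` and `v` -/
theorem oneEdge (hT : T.IsTree) {u v : α} (huv : u ≠ v) (hn : ¬ T.Adj u v)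
    (hc : 2 ≤ Fintype.card α)
    (hd : T.degree u + T.degree v = Fintype.card α - 2) :
    ∃ x y, T.Adj x y ∧ x ≠ u ∧ x ≠ v ∧ y ≠ u ∧ y ≠ v ∧
      ∀ a b, T.Adj a b → a ≠ u → a ≠ v → b ≠ u → b ≠ v → (a = x ∧ b = y) ∨ (a = y ∧ b = x) := by
  have hE := hT.card_edgeFinset
  set R := T.edgeFinset.filter (fun e => u ∉ e ∧ v ∉ e) with hR
  have hu : (T.edgeFinset.filter (fun e => u ∈ e)).card = T.degree u := by
    rw [← T.incidenceFinset_eq_filter u]; exact T.card_incidenceFinset_eq_degree u
  have hv : (T.edgeFinset.filter (fun e => v ∈ e)).card = T.degree v := by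
    rw [← T.incidenceFinset_eq_filter v]; exact T.card_incidenceFinset_eq_degree v
  have hun : T.edgeFinset = (T.edgeFinset.filter (fun e => u ∈ e)) ∪
      ((T.edgeFinset.filter (fun e => v ∈ e)) ∪ R) := by
    ext e
    simp only [hR, mem_union, mem_filter]
    tauto
  have hd1 : Disjoint (T.edgeFinset.filter (fun e => v ∈ e)) R := by
    rw [Finset.disjoint_left]
    intro e h1 h2
    exact (mem_filter.1 h2).2.2 (mem_filter.1 h1).2
  have hd2 : Disjoint (T.edgeFinset.filter (fun e => u ∈ e))
      ((T.edgeFinset.filter (fun e => v ∈ e)) ∪ R) := by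
    rw [Finset.disjoint_left]
    intro e h1 h2
    rcases mem_union.1 h2 with h2 | h2
    · have he := (mem_filter.1 h1).1
      have h1' := (mem_filter.1 h1).2
      have h2' := (mem_filter.1 h2).2
      have : e = s(u, v) := (Sym2.mem_and_mem_iff huv).1 ⟨h1', h2'⟩
      rw [this, SimpleGraph.mem_edgeFinset, SimpleGraph.mem_edgeSet] at he
      exact hn he
    · exact (mem_filter.1 h2).2.1 (mem_filter.1 h1).2
  have hcard : R.card = 1 := by
    have h1 := congrArg Finset.card hun
    rw [card_union_of_disjoint hd2, card_union_of_disjoint hd1, hu, hv] at h1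
    omega
  obtain ⟨e, he⟩ := card_eq_one.1 hcard
  induction e using Sym2.ind with
  | _ x y =>
    have hxy : s(x, y) ∈ R := by rw [he]; exact mem_singleton_self _
    have h1 := mem_filter.1 hxy
    rw [SimpleGraph.mem_edgeFinset, SimpleGraph.mem_edgeSet] at h1
    obtain ⟨hadj, h2, h3⟩ := h1
    simp only [Sym2.mem_iff, not_or] at h2 h3
    refine ⟨x, y, hadj, fun h => h2.1 h.symm, fun h => h3.1 h.symm, fun h => h2.2 h.symm,
      fun h => h3.2 h.symm, ?_⟩
    intro a b hab ha1 ha2 hb1 hb2
    have hm : s(a, b) ∈ R := by
      rw [hR, mem_filter, SimpleGraph.mem_edgeFinset, SimpleGraph.mem_edgeSet]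
      refine ⟨hab, ?_, ?_⟩
      · rw [Sym2.mem_iff]
        rintro (h | h)
        · exact ha1 h.symm
        · exact hb1 h.symm
      · rw [Sym2.mem_iff]
        rintro (h | h)
        · exact ha2 h.symm
        · exact hb2 h.symm
    rw [he, mem_singleton, Sym2.eq_iff] at hm
    exact hm

/-- the leaves at `u` -/
def lv (u : α) : Finset α := univ.filter fun x => T.Adj u x ∧ ∀ y, T.Adj x y → y = u

theorem mem_lv {u x : α} : x ∈ lv T u ↔ T.Adj u x ∧ ∀ y, T.Adj x y → y = u := by
  simp [lv]

theorem lv_iff {u x : α} (h : x ∈ lv T u) (y : α) : T.Adj x y ↔ y = u := by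
  rw [mem_lv] at h
  constructor
  · exact h.2 y
  · rintro rfl; exact h.1.symm

/-- few neighbours of `u` outside the set of leaves and `E` -/
theorem deg_le {u : α} (E : Finset α) (h : ∀ x, T.Adj u x → x ∉ E → ∀ y, T.Adj x y → y = u) :
    T.degree u ≤ (lv T u).card + E.card := by
  rw [← T.card_neighborFinset_eq_degree u]
  refine (card_le_card (t := lv T u ∪ E) ?_).trans (card_union_le _ _)
  intro x hx
  rw [SimpleGraph.mem_neighborFinset] at hx
  rw [mem_union]
  by_cases hE : x ∈ E
  · exact Or.inr hE
  · exact Or.inl ((mem_lv T).2 ⟨hx, h x hx hE⟩)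

omit [DecidableEq α] in
theorem deg_le' {a : α} (E : Finset α) (h : ∀ y, T.Adj a y → y ∈ E) : T.degree a ≤ E.card := by
  rw [← T.card_neighborFinset_eq_degree a]
  exact card_le_card fun y hy => h y ((T.mem_neighborFinset a y).1 hy)

end STR

open STR in
theorem t_STR : S_STR := by
  intro α _ _ T _ hT h12 hev u v huv hn hd
  set p := Fintype.card α with hp
  by_cases hA : p ≤ 2 * (lv T u).card
  · exact Or.inl ⟨u, lv T u, fun x hx y => lv_iff T hx y, hA⟩
  by_cases hB : p ≤ 2 * (lv T v).card
  · exact Or.inl ⟨v, lv T v, fun x hx y => lv_iff T hx y, hB⟩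
  right
  obtain ⟨k, hk⟩ := hev
  have : Nontrivial α := ⟨⟨u, v, huv⟩⟩
  obtain ⟨x, y, hxy, hxu, hxv, hyu, hyv, hrest⟩ := oneEdge T hT huv hn (by omega) hd
  -- the numbers of vertices of the types (1,1) and (0,0)
  set C := T.neighborFinset u ∩ T.neighborFinset v with hC
  set Z := univ.filter (fun z => z ≠ u ∧ z ≠ v ∧ ¬ T.Adj u z ∧ ¬ T.Adj v z) with hZ
  have hCZ : Z.card = C.card := by
    have h1 := card_union_add_card_inter (T.neighborFinset u) (T.neighborFinset v)
    rw [T.card_neighborFinset_eq_degree, T.card_neighborFinset_eq_degree, hd] at h1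
    have h2 : (univ : Finset α) = ({u, v} : Finset α) ∪
        ((T.neighborFinset u ∪ T.neighborFinset v) ∪ Z) := by
      ext z
      simp only [hZ, mem_univ, mem_union, mem_insert, mem_singleton, SimpleGraph.mem_neighborFinset,
        mem_filter, true_and, true_iff]
      tauto
    have hd1 : Disjoint (T.neighborFinset u ∪ T.neighborFinset v) Z := by
      rw [Finset.disjoint_left]
      intro z h3 h4
      simp only [hZ, mem_union, SimpleGraph.mem_neighborFinset, mem_filter] at h3 h4
      tauto
    have hd2 : Disjoint ({u, v} : Finset α) ((T.neighborFinset u ∪ T.neighborFinset v) ∪ Z) := by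
      rw [Finset.disjoint_left]
      intro z h3 h4
      simp only [hZ, mem_insert, mem_singleton, mem_union, SimpleGraph.mem_neighborFinset,
        mem_filter] at h3 h4
      rcases h3 with rfl | rfl
      · rcases h4 with (h4 | h4) | h4
        · exact h4.ne rfl
        · exact hn h4.symm
        · exact h4.2.1 rfl
      · rcases h4 with (h4 | h4) | h4
        · exact hn h4
        · exact h4.ne rfl
        · exact h4.2.2.1 rfl
    have h3 := congrArg Finset.card h2
    rw [card_union_of_disjoint hd2, card_union_of_disjoint hd1, card_univ, card_pair huv] at h3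
    have h4 : C.card = (T.neighborFinset u ∩ T.neighborFinset v).card := by rw [hC]
    omega
  have hCm : ∀ w, w ∈ C ↔ T.Adj u w ∧ T.Adj v w := by
    intro w
    rw [hC, mem_inter, SimpleGraph.mem_neighborFinset, SimpleGraph.mem_neighborFinset]
  have hZm : ∀ z, z ∈ Z ↔ z ≠ u ∧ z ≠ v ∧ ¬ T.Adj u z ∧ ¬ T.Adj v z := by
    intro z
    rw [hZ, mem_filter]
    simp
  -- the degree condition from bounds
  have key : ∀ m1 m2 : ℕ, 2 * T.degree u ≤ m1 → 2 * T.degree v ≤ m1 →
      (∀ a, a ≠ u → a ≠ v → T.degree a ≤ m2) → m2 ≤ 3 → m1 + 2 * m2 ≤ p + 6 →
      ∀ a b, a ≠ b → T.degree a + T.degree b = (if T.Adj a b then p else p - 2) →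
        (a = u ∧ b = v) ∨ (a = v ∧ b = u) := by
    intro m1 m2 h1 h2 h3 h4 h5 a b hab hdeg
    have hge : p - 2 ≤ T.degree a + T.degree b := by
      rw [hdeg]; split_ifs <;> omega
    by_cases hau : a = u
    · by_cases hbv : b = v
      · exact Or.inl ⟨hau, hbv⟩
      · exfalso
        have hbu : b ≠ u := fun h => hab (hau.trans h.symm)
        have := h3 b hbu hbv
        rw [hau] at hge
        omega
    · by_cases hav : a = v
      · by_cases hbu : b = u
        · exact Or.inr ⟨hav, hbu⟩
        · exfalso
          have hbv : b ≠ v := fun h => hab (hav.trans h.symm)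
          have := h3 b hbu hbv
          rw [hav] at hge
          omega
      · exfalso
        have h6 := h3 a hau hav
        by_cases hbu : b = u
        · rw [hbu] at hge; omega
        · by_cases hbv : b = v
          · rw [hbv] at hge; omega
          · have := h3 b hbu hbv
            omega
  rcases Nat.eq_zero_or_pos C.card with h0 | h0
  · -- case 0
    have hC0 : C = ∅ := card_eq_zero.1 h0
    have hZ0 : Z = ∅ := card_eq_zero.1 (hCZ.trans h0)
    have hcom : ∀ w, T.Adj u w → ¬ T.Adj v w := by
      intro w h1 h2
      have : w ∈ C := (hCm w).2 ⟨h1, h2⟩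
      rw [hC0] at this
      exact absurd this (notMem_empty w)
    have hone : ∀ z, z ≠ u → z ≠ v → (T.Adj u z ↔ ¬ T.Adj v z) := by
      intro z h1 h2
      constructor
      · exact hcom z
      · intro h3
        by_contra h4
        have : z ∈ Z := (hZm z).2 ⟨h1, h2, h4, h3⟩
        rw [hZ0] at this
        exact absurd this (notMem_empty z)
    -- endpoints of the edge
    have hE : ∃ x y, E1 T u v x y := by
      have hr : ∀ x y : α, (∀ a b, T.Adj a b → a ≠ u → a ≠ v → b ≠ u → b ≠ v →
          (a = x ∧ b = y) ∨ (a = y ∧ b = x)) →
          ∀ a b, T.Adj a b → a = u ∨ a = v ∨ b = u ∨ b = v ∨ (a = x ∧ b = y) ∨ (a = y ∧ b = x) := by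
        intro x y h a b hab
        by_cases h1 : a = u
        · exact Or.inl h1
        by_cases h2 : a = v
        · exact Or.inr (Or.inl h2)
        by_cases h3 : b = u
        · exact Or.inr (Or.inr (Or.inl h3))
        by_cases h4 : b = v
        · exact Or.inr (Or.inr (Or.inr (Or.inl h4)))
        exact Or.inr (Or.inr (Or.inr (Or.inr (h a b hab h1 h2 h3 h4))))
      by_cases h1 : T.Adj u x
      · have h2 : ¬ T.Adj u y := fun h => tri T hT h1 h hxy
        have h3 : T.Adj v y := by
          by_contra h4
          exact h2 ((hone y hyu hyv).2 h4)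
        exact ⟨x, y, huv, hn, h1, h3, hxy, hone, hr x y hrest⟩
      · have h2 : T.Adj v x := by
          by_contra h4
          exact h1 ((hone x hxu hxv).2 h4)
        have h3 : ¬ T.Adj v y := fun h => tri T hT h2 h hxy
        have h4 : T.Adj u y := (hone y hyu hyv).2 h3
        exact ⟨y, x, huv, hn, h4, h2, hxy.symm, hone, hr y x fun a b hab q1 q2 q3 q4 =>
          (hrest a b hab q1 q2 q3 q4).symm⟩
    obtain ⟨x', y', hE'⟩ := hE
    have hu1 : T.degree u ≤ (lv T u).card + ({x'} : Finset α).card := by
      apply deg_le
      intro a ha hax b hab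
      rcases hE'.rest a b hab with h | h | h | h | h | h
      · exact absurd h ha.ne'
      · rw [h] at ha; exact absurd ha hn
      · exact h
      · rw [h] at hab; exact absurd hab.symm (hcom a ha)
      · exact absurd (mem_singleton.2 h.1) hax
      · rw [h.1] at ha; exact absurd hE'.vy (hcom y' ha)
    have hv1 : T.degree v ≤ (lv T v).card + ({y'} : Finset α).card := by
      apply deg_le
      intro a ha hax b hab
      rcases hE'.rest a b hab with h | h | h | h | h | h
      · rw [h] at ha; exact absurd ha.symm hn
      · exact absurd h ha.ne'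
      · rw [h] at hab; exact absurd ha (hcom a hab.symm)
      · exact h
      · rw [h.1] at ha; exact absurd ha (hcom x' hE'.ux)
      · exact absurd (mem_singleton.2 h.1) hax
    rw [card_singleton] at hu1 hv1
    have hoth : ∀ a, a ≠ u → a ≠ v → T.degree a ≤ 3 := by
      intro a hau hav
      by_cases hax : a = x'
      · have : T.degree a ≤ ({u, v, y'} : Finset α).card := by
          apply deg_le'
          intro b hab
          rcases hE'.rest a b hab with h | h | h | h | h | h
          · exact absurd h hau
          · exact absurd h hav
          · simp [h]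
          · simp [h]
          · simp [h.2]
          · exfalso
            have h7 : x' = y' := hax.symm.trans h.1
            exact hE'.xy.ne h7
        exact this.trans card_le_three
      · have : T.degree a ≤ ({u, v, x'} : Finset α).card := by
          apply deg_le'
          intro b hab
          rcases hE'.rest a b hab with h | h | h | h | h | h
          · exact absurd h hau
          · exact absurd h hav
          · simp [h]
          · simp [h]
          · exact absurd h.1 hax
          · simp [h.2]
        exact this.trans card_le_three
    refine ⟨key p 3 (by omega) (by omega) hoth le_rfl (by omega), Or.inl ⟨x', y', hE'⟩⟩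
  · -- one vertex `w` of type (1,1)
    obtain ⟨w, hw⟩ := card_pos.1 h0
    have hwC := (hCm w).1 hw
    have hC1 : C = {w} := by
      ext a
      rw [mem_singleton]
      constructor
      · intro ha
        have ha' := (hCm a).1 ha
        exact common T hT huv ha'.1 ha'.2 hwC.1 hwC.2
      · rintro rfl; exact hw
    have hcom : ∀ a, T.Adj u a → T.Adj v a → a = w := fun a h1 h2 =>
      common T hT huv h1 h2 hwC.1 hwC.2
    have hZ1 : Z.card = 1 := by rw [hCZ, hC1, card_singleton]
    obtain ⟨z, hz⟩ := card_eq_one.1 hZ1
    have hzZ := (hZm z).1 (by rw [hz]; exact mem_singleton_self z)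
    obtain ⟨hzu, hzv, hnuz, hnvz⟩ := hzZ
    have hZz : ∀ q, q ≠ u → q ≠ v → ¬ T.Adj u q → ¬ T.Adj v q → q = z := by
      intro q h1 h2 h3 h4
      have : q ∈ Z := (hZm q).2 ⟨h1, h2, h3, h4⟩
      rw [hz, mem_singleton] at this
      exact this
    have hwu : w ≠ u := hwC.1.ne'
    have hwv : w ≠ v := hwC.2.ne'
    have hwz : w ≠ z := by
      rintro rfl; exact hnuz hwC.1
    have hdz : 0 < T.degree z := hT.connected.preconnected.degree_pos_of_nontrivial z
    obtain ⟨r, hr⟩ := (T.degree_pos_iff_exists_adj z).1 hdz
    have hru : r ≠ u := by
      rintro rfl; exact hnuz hr.symm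
    have hrv : r ≠ v := by
      rintro rfl; exact hnvz hr.symm
    have hrest' : ∀ a b, T.Adj a b → a ≠ u → a ≠ v → b ≠ u → b ≠ v →
        (a = r ∧ b = z) ∨ (a = z ∧ b = r) := by
      intro a b hab h1 h2 h3 h4
      have h5 := hrest a b hab h1 h2 h3 h4
      have h6 := hrest z r hr hzu hzv hru hrv
      rcases h6 with ⟨h6, h7⟩ | ⟨h6, h7⟩
      · rcases h5 with ⟨h8, h9⟩ | ⟨h8, h9⟩
        · exact Or.inr ⟨h8.trans h6.symm, h9.trans h7.symm⟩
        · exact Or.inl ⟨h8.trans h7.symm, h9.trans h6.symm⟩
      · rcases h5 with ⟨h8, h9⟩ | ⟨h8, h9⟩
        · exact Or.inl ⟨h8.trans h7.symm, h9.trans h6.symm⟩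
        · exact Or.inr ⟨h8.trans h6.symm, h9.trans h7.symm⟩
    by_cases hrw : r = w
    · -- `E2`
      subst hrw
      have hE2 : E2 T u v r z := by
        refine ⟨huv, hn, hwC.1, hwC.2, hr.symm, hnuz, hnvz, hzu, hzv, ?_, ?_⟩
        · intro q h1 h2 h3 h4
          constructor
          · intro h5 h6
            exact h3 (hcom q h5 h6)
          · intro h5
            by_contra h6
            exact h4 (hZz q h1 h2 h6 h5)
        · intro a b hab
          by_cases h1 : a = u
          · exact Or.inl h1
          by_cases h2 : a = v
          · exact Or.inr (Or.inl h2)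
          by_cases h3 : b = u
          · exact Or.inr (Or.inr (Or.inl h3))
          by_cases h4 : b = v
          · exact Or.inr (Or.inr (Or.inr (Or.inl h4)))
          exact Or.inr (Or.inr (Or.inr (Or.inr (hrest' a b hab h1 h2 h3 h4))))
      have hu1 : T.degree u ≤ (lv T u).card + ({r} : Finset α).card := by
        apply deg_le
        intro a ha hax b hab
        rw [mem_singleton] at hax
        by_contra hbu
        by_cases hbv : b = v
        · rw [hbv] at hab
          exact hax (hcom a ha hab.symm)
        · have hav : a ≠ v := by
            rintro rfl; exact hn ha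
          rcases hrest' a b hab ha.ne' hav hbu hbv with h | h
          · exact hax h.1
          · rw [h.1] at ha; exact hnuz ha
      have hv1 : T.degree v ≤ (lv T v).card + ({r} : Finset α).card := by
        apply deg_le
        intro a ha hax b hab
        rw [mem_singleton] at hax
        by_contra hbv
        by_cases hbu : b = u
        · rw [hbu] at hab
          exact hax (hcom a hab.symm ha)
        · have hau : a ≠ u := by
            rintro rfl; exact hn ha.symm
          rcases hrest' a b hab hau ha.ne' hbu hbv with h | h
          · exact hax h.1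
          · rw [h.1] at ha; exact hnvz ha
      rw [card_singleton] at hu1 hv1
      have hoth : ∀ a, a ≠ u → a ≠ v → T.degree a ≤ 3 := by
        intro a hau hav
        by_cases har : a = r
        · have : T.degree a ≤ ({u, v, z} : Finset α).card := by
            apply deg_le'
            intro b hab
            by_cases h1 : b = u
            · simp [h1]
            by_cases h2 : b = v
            · simp [h2]
            rcases hrest' a b hab hau hav h1 h2 with h | h
            · simp [h.2]
            · exact absurd (har.symm.trans h.1) hwz
          exact this.trans card_le_three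
        · have : T.degree a ≤ ({u, v, r} : Finset α).card := by
            apply deg_le'
            intro b hab
            by_cases h1 : b = u
            · simp [h1]
            by_cases h2 : b = v
            · simp [h2]
            rcases hrest' a b hab hau hav h1 h2 with h | h
            · exact absurd h.1 har
            · simp [h.2]
          exact this.trans card_le_three
      refine ⟨key p 3 (by omega) (by omega) hoth le_rfl (by omega),
        Or.inr (Or.inl ⟨r, z, hE2, by omega, by omega⟩)⟩
    · -- `w` is isolated after the switching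
      have hwn : ∀ b, T.Adj w b → b = u ∨ b = v := by
        intro b hab
        by_contra h
        push Not at h
        rcases hrest' w b hab hwu hwv h.1 h.2 with h1 | h1
        · exact hrw h1.1.symm
        · exact hwz h1.1
      have hu1 : T.degree u ≤ (lv T u).card + ({w, r} : Finset α).card := by
        apply deg_le
        intro a ha hax b hab
        simp only [mem_insert, mem_singleton, not_or] at hax
        by_contra hbu
        by_cases hbv : b = v
        · rw [hbv] at hab
          exact hax.1 (hcom a ha hab.symm)
        · have hav : a ≠ v := by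
            rintro rfl; exact hn ha
          rcases hrest' a b hab ha.ne' hav hbu hbv with h | h
          · exact hax.2 h.1
          · rw [h.1] at ha; exact hnuz ha
      have hv1 : T.degree v ≤ (lv T v).card + ({w, r} : Finset α).card := by
        apply deg_le
        intro a ha hax b hab
        simp only [mem_insert, mem_singleton, not_or] at hax
        by_contra hbv
        by_cases hbu : b = u
        · rw [hbu] at hab
          exact hax.1 (hcom a hab.symm ha)
        · have hau : a ≠ u := by
            rintro rfl; exact hn ha.symm
          rcases hrest' a b hab hau ha.ne' hbu hbv with h | h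
          · exact hax.2 h.1
          · rw [h.1] at ha; exact hnvz ha
      have hwr : ({w, r} : Finset α).card = 2 := card_pair (fun h => hrw h.symm)
      rw [hwr] at hu1 hv1
      have hoth : ∀ a, a ≠ u → a ≠ v → T.degree a ≤ 2 := by
        intro a hau hav
        by_cases haw : a = w
        · have : T.degree a ≤ ({u, v} : Finset α).card := by
            apply deg_le'
            intro b hab
            rw [haw] at hab
            rcases hwn b hab with h | h <;> simp [h]
          exact this.trans card_le_two
        · by_cases haz : a = z
          · have : T.degree a ≤ ({r} : Finset α).card := by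
              apply deg_le'
              intro b hab
              have h1 : b ≠ u := by
                rintro rfl; rw [haz] at hab; exact hnuz hab.symm
              have h2 : b ≠ v := by
                rintro rfl; rw [haz] at hab; exact hnvz hab.symm
              rcases hrest' a b hab hau hav h1 h2 with h | h
              · exact absurd (haz.symm.trans h.1) hr.ne
              · simp [h.2]
            rw [card_singleton] at this
            omega
          · -- adjacent to exactly one of `u`, `v`
            by_cases hua : T.Adj u a
            · have hva : ¬ T.Adj v a := fun h => haw (hcom a hua h)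
              have : T.degree a ≤ ({u, z} : Finset α).card := by
                apply deg_le'
                intro b hab
                by_cases h1 : b = u
                · simp [h1]
                by_cases h2 : b = v
                · rw [h2] at hab; exact absurd hab.symm hva
                rcases hrest' a b hab hau hav h1 h2 with h | h
                · simp [h.2]
                · exact absurd h.1 haz
              exact this.trans card_le_two
            · have : T.degree a ≤ ({v, z} : Finset α).card := by
                apply deg_le'
                intro b hab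
                by_cases h1 : b = u
                · rw [h1] at hab; exact absurd hab.symm hua
                by_cases h2 : b = v
                · simp [h2]
                rcases hrest' a b hab hau hav h1 h2 with h | h
                · simp [h.2]
                · exact absurd h.1 haz
              exact this.trans card_le_two
      refine ⟨key (p + 2) 2 (by omega) (by omega) hoth (by norm_num) (by omega),
        Or.inr (Or.inr ?_)⟩
      intro hcon
      have hiso : ∀ b, ¬ (sw T {u, v}).Adj w b := by
        intro b hb
        rw [sw_adj] at hb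
        obtain ⟨h1, h2⟩ := hb
        have hw' : w ∉ ({u, v} : Finset α) := by simp [hwu, hwv]
        by_cases hbuv : b ∈ ({u, v} : Finset α)
        · have hadj : T.Adj w b := by
            simp only [mem_insert, mem_singleton] at hbuv
            rcases hbuv with rfl | rfl
            · exact hwC.1.symm
            · exact hwC.2.symm
          exact hw' ((h2.1 hadj).2 hbuv)
        · have hadj : T.Adj w b := h2.2 ⟨fun h => absurd h hw', fun h => absurd h hbuv⟩
          rcases hwn b hadj with h | h
          · exact hbuv (by simp [h])
          · exact hbuv (by simp [h])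
      obtain ⟨q⟩ := hcon.preconnected w u
      cases q with
      | nil => exact hwu rfl
      | cons h _ => exact hiso _ h

end Pool.Agent.TRC
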