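import Pool.Agent.TRC.Cr

/-!
# Truncations of edges which cross few hyperplanes

Working file of helper56 for MP_f8fadf_co.
-/

set_option autoImplicit false

namespace TRC

open Finset QMark
open scoped InnerProductSpace

variable {n r : ℕ} {u : Fin n → E4} {b : Fin n → ℝ} {g : Fin r → E4} {c : Fin r → ℝ}
  {j : Fin n → Fin r}

/-- The heights: the index of the facet. -/
def ht (n : ℕ) : Fin n → ℝ := fun i => ((i : ℕ) : ℝ)

theorem ht_lt {i k : Fin n} : ht n i < ht n k ↔ i < k := by
  have h1 : ((i : ℕ) : ℝ) < ((k : ℕ) : ℝ) ↔ (i : ℕ) < (k : ℕ) := Nat.cast_lt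
  exact h1

theorem ht_inj : Function.Injective (ht n) := by
  intro i k hik
  exact Fin.ext (Nat.cast_injective (R := ℝ) hik)

theorem sorted4 {t : Finset (Fin n)} (h4 : t.card = 4) :
    ∃ x1 x2 x3 x4, t = {x1, x2, x3, x4} ∧ x1 < x2 ∧ x2 < x3 ∧ x3 < x4 := by
  obtain ⟨y, hy, hmax⟩ := exists_max_image t id (card_pos.mp (by omega))
  obtain ⟨x1, x2, x3, he, h12, h23⟩ := KAL.sorted3 ht_inj (L := t.erase y) (by
    rw [card_erase_of_mem hy, h4])
  rw [ht_lt] at h12 h23
  have h3 : x3 ∈ t.erase y := by rw [he]; simp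
  refine ⟨x1, x2, x3, y, ?_, h12, h23, lt_of_le_of_ne (hmax x3 (mem_of_mem_erase h3))
    (ne_of_mem_erase h3)⟩
  rw [← insert_erase hy, he]
  ext i
  simp only [mem_insert, mem_singleton]
  tauto

/-- The last two. -/
theorem top_eq {s t : Finset (Fin n)} {x1 x2 x3 x4 : Fin n} (ht4 : t = {x1, x2, x3, x4})
    (h12 : x1 < x2) (h23 : x2 < x3) (h34 : x3 < x4) (hs : s.card = 2) (hst : s ⊆ t)
    (hz : ∀ z ∈ t, z ∉ s → ∀ a ∈ s, z < a) : s = {x3, x4} := by
  obtain ⟨a, a', hne, rfl⟩ := card_eq_two.mp hs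
  have h4 : x4 ∈ ({a, a'} : Finset (Fin n)) := by
    by_contra hc
    have h1 := hz x4 (by rw [ht4]; simp) hc a (by simp)
    have h2 : a ∈ t := hst (by simp)
    rw [ht4] at h2
    simp only [mem_insert, mem_singleton] at h2
    rcases h2 with rfl | rfl | rfl | rfl
    · exact absurd h1 (by omega)
    · exact absurd h1 (by omega)
    · exact absurd h1 (by omega)
    · exact absurd h1 (lt_irrefl _)
  have h3 : x3 ∈ ({a, a'} : Finset (Fin n)) := by
    by_contra hc
    have hall : ∀ e ∈ ({a, a'} : Finset (Fin n)), e = x4 := by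
      intro e he
      have h1 := hz x3 (by rw [ht4]; simp) hc e he
      have h2 : e ∈ t := hst he
      rw [ht4] at h2
      simp only [mem_insert, mem_singleton] at h2
      rcases h2 with rfl | rfl | rfl | rfl
      · exact absurd h1 (by omega)
      · exact absurd h1 (by omega)
      · exact absurd h1 (lt_irrefl _)
      · rfl
    exact hne ((hall a (by simp)).trans (hall a' (by simp)).symm)
  symm
  apply eq_of_subset_of_card_le
  · intro i hi
    rw [mem_insert, mem_singleton] at hi
    rcases hi with rfl | rfl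
    · exact h3
    · exact h4
  · rw [hs, card_pair h34.ne]

/-- The first two. -/
theorem bot_eq {s t : Finset (Fin n)} {x1 x2 x3 x4 : Fin n} (ht4 : t = {x1, x2, x3, x4})
    (h12 : x1 < x2) (h23 : x2 < x3) (h34 : x3 < x4) (hs : s.card = 2) (hst : s ⊆ t)
    (hz : ∀ z ∈ t, z ∉ s → ∀ a ∈ s, a < z) : s = {x1, x2} := by
  obtain ⟨a, a', hne, rfl⟩ := card_eq_two.mp hs
  have h4 : x1 ∈ ({a, a'} : Finset (Fin n)) := by
    by_contra hc
    have h1 := hz x1 (by rw [ht4]; simp) hc a (by simp)
    have h2 : a ∈ t := hst (by simp)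
    rw [ht4] at h2
    simp only [mem_insert, mem_singleton] at h2
    rcases h2 with rfl | rfl | rfl | rfl
    · exact absurd h1 (lt_irrefl _)
    · exact absurd h1 (by omega)
    · exact absurd h1 (by omega)
    · exact absurd h1 (by omega)
  have h3 : x2 ∈ ({a, a'} : Finset (Fin n)) := by
    by_contra hc
    have hall : ∀ e ∈ ({a, a'} : Finset (Fin n)), e = x1 := by
      intro e he
      have h1 := hz x2 (by rw [ht4]; simp) hc e he
      have h2 : e ∈ t := hst he
      rw [ht4] at h2
      simp only [mem_insert, mem_singleton] at h2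
      rcases h2 with rfl | rfl | rfl | rfl
      · rfl
      · exact absurd h1 (lt_irrefl _)
      · exact absurd h1 (by omega)
      · exact absurd h1 (by omega)
    exact hne ((hall a (by simp)).trans (hall a' (by simp)).symm)
  symm
  apply eq_of_subset_of_card_le
  · intro i hi
    rw [mem_insert, mem_singleton] at hi
    rcases hi with rfl | rfl
    · exact h4
    · exact h3
  · rw [hs, card_pair h12.ne]

/-- The vertex `t` arises by cutting an edge which crosses the hyperplane of its last facet. -/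
def IsGood (u : Fin n → E4) (b : Fin n → ℝ) (g : Fin r → E4) (c : Fin r → ℝ) (j : Fin n → Fin r)
    (t : Finset (Fin n)) : Prop :=
  ∃ y ∈ t, (∀ i ∈ t, i ≤ y) ∧ Cr u b (g (j y)) (c (j y)) (Iio y) (t.erase y)

open Classical in
/-- The other vertices. -/
noncomputable def badT (u : Fin n → E4) (b : Fin n → ℝ) (g : Fin r → E4) (c : Fin r → ℝ)
    (j : Fin n → Fin r) : Finset (Finset (Fin n)) :=
  (tets u b).filter fun t => ¬ IsGood u b g c j t

theorem good_erase {t : Finset (Fin n)} {x1 x2 x3 x4 : Fin n} (ht4 : t = {x1, x2, x3, x4})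
    (h12 : x1 < x2) (h23 : x2 < x3) (h34 : x3 < x4) (h : IsGood u b g c j t) :
    Cr u b (g (j x4)) (c (j x4)) (Iio x4) {x1, x2, x3} := by
  obtain ⟨y, hy, hmax, hcr⟩ := h
  have h4 : x4 ∈ t := by rw [ht4]; simp
  have h5 := hmax x4 h4
  have h6 : y = x4 := by
    rw [ht4] at hy
    simp only [mem_insert, mem_singleton] at hy
    rcases hy with rfl | rfl | rfl | rfl
    · exact absurd h5 (by omega)
    · exact absurd h5 (by omega)
    · exact absurd h5 (by omega)
    · rfl
  subst h6
  have h7 : t.erase y = {x1, x2, x3} := by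
    rw [ht4]
    ext i
    simp only [mem_erase, mem_insert, mem_singleton]
    constructor
    · tauto
    · rintro (rfl | rfl | rfl)
      · exact ⟨by omega, by tauto⟩
      · exact ⟨by omega, by tauto⟩
      · exact ⟨by omega, by tauto⟩
  rw [h7] at hcr
  exact hcr

/-- Long intervals between the third and the fourth facet. -/
theorem bound_triples (h : SP u b) (M : ℕ) (T : Finset (Finset (Fin n)))
    (hT : ∀ S ∈ T, ∃ x1 x2 x3 x4 : Fin n, S = {x1, x2, x3} ∧ x1 < x2 ∧ x2 < x3 ∧
      x3.val + M ≤ x4.val ∧ (∃ t ∈ tets u b, S ⊆ t) ∧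
      Cr u b (g (j x4)) (c (j x4)) (Iio x4) S) :
    T.card * M ≤ n * r * (2 * (n + 5)) := by
  classical
  have h1 := card_mul_le_card_mul (s := T) (t := (univ : Finset (Fin n × Fin r)))
    (fun (S : Finset (Fin n)) (p : Fin n × Fin r) =>
      S.card = 3 ∧ S ⊆ Iio p.1 ∧ Cr u b (g p.2) (c p.2) (Iio p.1) S)
    (m := M) (n := 2 * (n + 5)) (by
      intro S hS
      obtain ⟨x1, x2, x3, x4, rfl, h12, h23, h34, -, hcr⟩ := hT S hS
      have e1 : M ≤ (Ioc x3 x4).card := by
        rw [Fin.card_Ioc]
        omega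
      refine e1.trans ?_
      apply card_le_card_of_injOn (fun t => ((t, j x4) : Fin n × Fin r))
      · intro t htt
        rw [mem_coe, mem_Ioc] at htt
        rw [mem_coe, mem_bipartiteAbove]
        refine ⟨mem_univ _, ?_, ?_, ?_⟩
        · rw [card_eq_three]
          exact ⟨x1, x2, x3, h12.ne, (h12.trans h23).ne, h23.ne, rfl⟩
        · intro i hi
          simp only [mem_insert, mem_singleton] at hi
          rw [mem_Iio]
          dsimp only
          rcases hi with rfl | rfl | rfl
          · exact (h12.trans h23).trans htt.1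
          · exact h23.trans htt.1
          · exact htt.1
        · exact hcr.mono (Iio_subset_Iio htt.2) (Subset.refl _) (fun i _ hi => hi)
      · intro t _ t' _ he
        exact (Prod.mk.inj he).1) (by
      rintro ⟨t, k⟩ -
      have e1 := count_three (u := u) (b := b) (g := g k) (c := c k) (Iio t)
        (T.bipartiteBelow (fun (S : Finset (Fin n)) (p : Fin n × Fin r) =>
          S.card = 3 ∧ S ⊆ Iio p.1 ∧ Cr u b (g p.2) (c p.2) (Iio p.1) S) (t, k)) (by
          intro S hS
          rw [mem_bipartiteBelow] at hS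
          obtain ⟨-, -, -, -, -, -, -, -, ⟨t', ht', hsub⟩, -⟩ := hT S hS.1
          exact ⟨hS.2.1, hS.2.2.1, ind_sub h ht' hsub, hS.2.2.2⟩)
      refine e1.trans ?_
      rw [Fin.card_Iio]
      have := t.isLt
      omega)
  rw [card_univ, Fintype.card_prod, Fintype.card_fin, Fintype.card_fin] at h1
  exact h1

/-- Long intervals between the second and the third facet. -/
theorem bound_pairs (h : SP u b) (M : ℕ) (T : Finset (Finset (Fin n)))
    (hT : ∀ S ∈ T, ∃ x1 x2 x3 x4 : Fin n, S = {x1, x2} ∧ x1 < x2 ∧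
      x2.val + M ≤ x3.val ∧ x3 < x4 ∧ (∃ t ∈ tets u b, S ⊆ t) ∧
      Cr u b (g (j x4)) (c (j x4)) (Iio x4) {x1, x2, x3}) :
    T.card * M ≤ n * r * (3 * (n + 5)) := by
  classical
  have h1 := card_mul_le_card_mul (s := T) (t := (univ : Finset (Fin n × Fin r)))
    (fun (S : Finset (Fin n)) (p : Fin n × Fin r) =>
      S.card = 2 ∧ S ⊆ Iio p.1 ∧ Cr u b (g p.2) (c p.2) (Iio p.1) S)
    (m := M) (n := 3 * (n + 5)) (by
      intro S hS
      obtain ⟨x1, x2, x3, x4, rfl, h12, h23, h34, -, hcr⟩ := hT S hS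
      have e1 : M ≤ (Ioc x2 x3).card := by
        rw [Fin.card_Ioc]
        omega
      refine e1.trans ?_
      apply card_le_card_of_injOn (fun t => ((t, j x4) : Fin n × Fin r))
      · intro t htt
        rw [mem_coe, mem_Ioc] at htt
        rw [mem_coe, mem_bipartiteAbove]
        refine ⟨mem_univ _, ?_, ?_, ?_⟩
        · exact card_pair h12.ne
        · intro i hi
          simp only [mem_insert, mem_singleton] at hi
          rw [mem_Iio]
          dsimp only
          rcases hi with rfl | rfl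
          · exact h12.trans htt.1
          · exact htt.1
        · refine hcr.mono (Iio_subset_Iio (htt.2.trans h34.le)) ?_ ?_
          · intro i hi
            simp only [mem_insert, mem_singleton] at hi ⊢
            tauto
          · intro i hi hi3
            rw [mem_Iio] at hi
            dsimp only at hi
            simp only [mem_insert, mem_singleton] at hi3 ⊢
            rcases hi3 with rfl | rfl | rfl
            · left; rfl
            · right; rfl
            · exact absurd (lt_of_lt_of_le hi htt.2) (lt_irrefl _)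
      · intro t _ t' _ he
        exact (Prod.mk.inj he).1) (by
      rintro ⟨t, k⟩ -
      have e1 := count_two (u := u) (b := b) (g := g k) (c := c k) (Iio t)
        (T.bipartiteBelow (fun (S : Finset (Fin n)) (p : Fin n × Fin r) =>
          S.card = 2 ∧ S ⊆ Iio p.1 ∧ Cr u b (g p.2) (c p.2) (Iio p.1) S) (t, k)) (by
          intro S hS
          rw [mem_bipartiteBelow] at hS
          obtain ⟨-, -, -, -, -, -, -, -, ⟨t', ht', hsub⟩, -⟩ := hT S hS.1
          exact ⟨hS.2.1, hS.2.2.1, ind_sub h ht' hsub, hS.2.2.2⟩)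
      refine e1.trans ?_
      rw [Fin.card_Iio]
      have := t.isLt
      omega)
  rw [card_univ, Fintype.card_prod, Fintype.card_fin, Fintype.card_fin] at h1
  exact h1

/-- Short intervals, for one last facet `y`. -/
theorem bound_short (h : SP u b) (M : ℕ) (y : Fin n) (T : Finset (Finset (Fin n)))
    (hT : ∀ S ∈ T, ∃ x1 x2 x3 : Fin n, S = {x1, x2, x3} ∧ x1 < x2 ∧ x2 < x3 ∧ x3 < y ∧
      y.val ≤ x2.val + 2 * M ∧ (∃ t ∈ tets u b, S ⊆ t) ∧
      Cr u b (g (j y)) (c (j y)) (Iio y) S) :
    T.card ≤ 8 * (2 * M + 5) := by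
  classical
  set R : Finset (Fin n) := (Iio y).filter fun i => y.val ≤ i.val + 2 * M with hR
  have hRy : R ⊆ Iio y := filter_subset _ _
  have hRc : R.card ≤ 2 * M := by
    have h1 : R.card ≤ (range (2 * M)).card := by
      apply card_le_card_of_injOn (fun i => y.val - i.val - 1)
      · intro i hi
        rw [mem_coe, hR, mem_filter, mem_Iio] at hi
        rw [mem_coe, mem_range]
        have := Fin.lt_def.mp hi.1
        have h2 := hi.2
        dsimp only
        omega
      · intro i hi k hk he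
        rw [mem_coe, hR, mem_filter, mem_Iio] at hi hk
        have e1 := Fin.lt_def.mp hi.1
        have e2 := Fin.lt_def.mp hk.1
        dsimp only at he
        apply Fin.ext
        omega
    rwa [card_range] at h1
  have hin : (T.filter fun S => S ⊆ R).card ≤ 2 * (2 * M + 5) := by
    refine (count_three (u := u) (b := b) (g := g (j y)) (c := c (j y)) R _ ?_).trans (by omega)
    intro S hS
    rw [mem_filter] at hS
    obtain ⟨x1, x2, x3, he, h12, h23, -, -, ⟨t, htt, hst⟩, hcr⟩ := hT S hS.1
    refine ⟨?_, hS.2, ind_sub h htt hst, hcr.mono hRy (Subset.refl _) fun i _ hi => hi⟩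
    rw [he, card_eq_three]
    exact ⟨x1, x2, x3, h12.ne, (h12.trans h23).ne, h23.ne, rfl⟩
  have hout : (T.filter fun S => ¬ S ⊆ R).card ≤ 6 * (2 * M + 5) := by
    have key : ∀ S ∈ T.filter (fun S => ¬ S ⊆ R), ∃ x1 x2 x3 : Fin n, S = {x1, x2, x3} ∧
        x1 < x2 ∧ x2 < x3 ∧ x3 < y ∧ S ∩ R = {x2, x3} ∧ x1 ∉ R := by
      intro S hS
      rw [mem_filter] at hS
      obtain ⟨x1, x2, x3, he, h12, h23, h3y, hy2, -, -⟩ := hT S hS.1
      have h2R : x2 ∈ R := by
        rw [hR, mem_filter, mem_Iio]
        exact ⟨h23.trans h3y, hy2⟩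
      have h3R : x3 ∈ R := by
        rw [hR, mem_filter, mem_Iio]
        have := Fin.lt_def.mp h23
        exact ⟨h3y, by omega⟩
      have h1R : x1 ∉ R := by
        intro hc
        apply hS.2
        rw [he]
        intro i hi
        simp only [mem_insert, mem_singleton] at hi
        rcases hi with rfl | rfl | rfl
        · exact hc
        · exact h2R
        · exact h3R
      refine ⟨x1, x2, x3, he, h12, h23, h3y, ?_, h1R⟩
      rw [he]
      ext i
      simp only [mem_inter, mem_insert, mem_singleton]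
      constructor
      · rintro ⟨rfl | rfl | rfl, hi⟩
        · exact absurd hi h1R
        · left; rfl
        · right; rfl
      · rintro (rfl | rfl)
        · exact ⟨by tauto, h2R⟩
        · exact ⟨by tauto, h3R⟩
    have h1 := card_le_mul_card_image (f := fun S : Finset (Fin n) => S ∩ R)
      (T.filter fun S => ¬ S ⊆ R) 2 (by
        intro p hp
        obtain ⟨S0, hS0, rfl⟩ := mem_image.mp hp
        obtain ⟨x1, x2, x3, he, h12, h23, h3y, hSR, -⟩ := key S0 hS0
        refine count_pair (u := u) (b := b) (g := g (j y)) (c := c (j y)) (Iio y) (S0 ∩ R) ?_ _ ?_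
        · rw [hSR, card_pair h23.ne]
        · intro S hS
          rw [mem_filter] at hS
          obtain ⟨hS1, hS2⟩ := hS
          obtain ⟨z1, z2, z3, he', k12, k23, k3y, -, -⟩ := key S hS1
          obtain ⟨-, -, -, -, -, -, -, -, ⟨t, htt, hst⟩, hcr⟩ := hT S (mem_filter.mp hS1).1
          refine ⟨?_, ?_, ?_, ind_sub h htt hst, hcr⟩
          · rw [he', card_eq_three]
            exact ⟨z1, z2, z3, k12.ne, (k12.trans k23).ne, k23.ne, rfl⟩
          · rw [← hS2]
            exact inter_subset_left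
          · rw [he']
            intro i hi
            simp only [mem_insert, mem_singleton] at hi
            rw [mem_Iio]
            rcases hi with rfl | rfl | rfl
            · exact (k12.trans k23).trans k3y
            · exact k23.trans k3y
            · exact k3y)
    have h2 : ((T.filter fun S => ¬ S ⊆ R).image fun S : Finset (Fin n) => S ∩ R).card ≤
        3 * (2 * M + 5) := by
      refine (count_two (u := u) (b := b) (g := g (j y)) (c := c (j y)) R _ ?_).trans (by omega)
      intro p hp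
      obtain ⟨S, hS, rfl⟩ := mem_image.mp hp
      obtain ⟨x1, x2, x3, he, h12, h23, h3y, hSR, h1R⟩ := key S hS
      obtain ⟨-, -, -, -, -, -, -, -, ⟨t, htt, hst⟩, hcr⟩ := hT S (mem_filter.mp hS).1
      refine ⟨?_, inter_subset_right, ind_sub h htt (inter_subset_left.trans hst),
        hcr.mono hRy inter_subset_left fun i hi hi' => mem_inter.mpr ⟨hi', hi⟩⟩
      rw [hSR, card_pair h23.ne]
    omega
  have hsum := card_filter_add_card_filter_not (s := T) (fun S => S ⊆ R)
  omega

/-- The pairs at a small distance. -/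
theorem near_pairs (M : ℕ) : ((univ : Finset (Fin n × Fin n)).filter fun p => p.1 < p.2 ∧
    p.2.val ≤ p.1.val + M).card ≤ n * M := by
  classical
  have h1 := card_le_mul_card_image (f := fun p : Fin n × Fin n => p.1)
    ((univ : Finset (Fin n × Fin n)).filter fun p => p.1 < p.2 ∧ p.2.val ≤ p.1.val + M) M (by
      intro a _
      have h2 : (((univ : Finset (Fin n × Fin n)).filter fun p => p.1 < p.2 ∧
          p.2.val ≤ p.1.val + M).filter fun p => p.1 = a).card ≤ (range M).card := by
        apply card_le_card_of_injOn (fun p => p.2.val - a.val - 1)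
        · intro p hp
          rw [mem_coe, mem_filter, mem_filter] at hp
          obtain ⟨⟨-, h3, h4⟩, rfl⟩ := hp
          rw [mem_coe, mem_range]
          have := Fin.lt_def.mp h3
          dsimp only
          omega
        · intro p hp q hq he
          rw [mem_coe, mem_filter, mem_filter] at hp hq
          obtain ⟨⟨-, h3, h4⟩, h5⟩ := hp
          obtain ⟨⟨-, h6, h7⟩, h8⟩ := hq
          have e1 := Fin.lt_def.mp h3
          have e2 := Fin.lt_def.mp h6
          dsimp only at he
          refine Prod.ext (h5.trans h8.symm) (Fin.ext ?_)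
          rw [h5] at e1
          rw [h8] at e2
          omega
      rwa [card_range] at h2)
  refine h1.trans ?_
  rw [Nat.mul_comm]
  apply Nat.mul_le_mul_right
  have h3 := card_le_univ (((univ : Finset (Fin n × Fin n)).filter fun p => p.1 < p.2 ∧
    p.2.val ≤ p.1.val + M).image fun p => p.1)
  rwa [Fintype.card_fin] at h3

/-- **The number of the top and the bottom pairs.** -/
theorem top_bot (h : SP u b) (g : Fin r → E4) (c : Fin r → ℝ) (j : Fin n → Fin r) (M : ℕ) :
    ((KAL.top u b (ht n)).card + (KAL.bot u b (ht n)).card) * M ≤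
      (2 * (badT u b g c j).card + n * (17 * M + 40)) * M + 11 * (n * r * (n + 5)) := by
  classical
  rcases (tets u b).eq_empty_or_nonempty with hE | ⟨t0, ht0⟩
  · have h1 : KAL.top u b (ht n) = ∅ := by
      rw [eq_empty_iff_forall_notMem]
      intro s hs
      obtain ⟨-, t, ht, -⟩ := KAL.mem_top.mp hs
      rw [hE] at ht
      exact notMem_empty _ ht
    have h2 : KAL.bot u b (ht n) = ∅ := by
      rw [eq_empty_iff_forall_notMem]
      intro s hs
      obtain ⟨-, t, ht, -⟩ := KAL.mem_bot.mp hs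
      rw [hE] at ht
      exact notMem_empty _ ht
    rw [h1, h2, card_empty, Nat.zero_add, Nat.zero_mul]
    exact Nat.zero_le _
  obtain ⟨i0, -⟩ := card_pos.mp (show 0 < t0.card by rw [(mem_tets.mp ht0).1]; omega)
  have : Nonempty (Fin n) := ⟨i0⟩
  have hsort : ∀ t ∈ tets u b, ∃ x1 x2 x3 x4, t = {x1, x2, x3, x4} ∧ x1 < x2 ∧ x2 < x3 ∧ x3 < x4 :=
    fun t ht => sorted4 (mem_tets.mp ht).1
  choose! f1 f2 f3 f4 hf using hsort
  set B := badT u b g c j with hB
  set G := (tets u b).filter fun t => IsGood u b g c j t with hG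
  have hBG : ∀ t ∈ tets u b, t ∈ B ∨ t ∈ G := by
    intro t ht
    by_cases hc : IsGood u b g c j t
    · exact Or.inr (mem_filter.mpr ⟨ht, hc⟩)
    · exact Or.inl (mem_filter.mpr ⟨ht, hc⟩)
  have hGt : ∀ t ∈ G, t ∈ tets u b := fun t ht => (mem_filter.mp ht).1
  have hGc : ∀ t ∈ G, Cr u b (g (j (f4 t))) (c (j (f4 t))) (Iio (f4 t)) {f1 t, f2 t, f3 t} := by
    intro t ht
    obtain ⟨h0, h12, h23, h34⟩ := hf t (hGt t ht)
    exact good_erase h0 h12 h23 h34 (mem_filter.mp ht).2
  have hsub3 : ∀ t ∈ tets u b, ({f1 t, f2 t, f3 t} : Finset (Fin n)) ⊆ t := by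
    intro t ht i hi
    rw [(hf t ht).1]
    simp only [mem_insert, mem_singleton] at hi ⊢
    tauto
  have hsub2 : ∀ t ∈ tets u b, ({f1 t, f2 t} : Finset (Fin n)) ⊆ t := by
    intro t ht i hi
    rw [(hf t ht).1]
    simp only [mem_insert, mem_singleton] at hi ⊢
    tauto
  have hins : ∀ t ∈ tets u b, t = insert (f4 t) {f1 t, f2 t, f3 t} := by
    intro t ht
    conv_lhs => rw [(hf t ht).1]
    ext i
    simp only [mem_insert, mem_singleton]
    tauto
  -- the three kinds of good vertices
  set G1 := G.filter fun t => (f3 t).val + M ≤ (f4 t).val with hG1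
  set G2 := G.filter fun t => (f2 t).val + M ≤ (f3 t).val with hG2
  set G3 := G.filter fun t => (f4 t).val ≤ (f2 t).val + 2 * M with hG3
  set T1 := G1.image fun t => ({f1 t, f2 t, f3 t} : Finset (Fin n)) with hT1
  set P2 := G2.image fun t => ({f1 t, f2 t} : Finset (Fin n)) with hP2
  have hG1c : G1.card ≤ 2 * T1.card := by
    refine card_le_mul_card_image G1 2 ?_
    intro S hS
    obtain ⟨t, ht, rfl⟩ := mem_image.mp hS
    have ht1 := hGt t (mem_filter.mp ht).1
    obtain ⟨h0, h12, h23, h34⟩ := hf t ht1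
    have hc3 : ({f1 t, f2 t, f3 t} : Finset (Fin n)).card = 3 := by
      rw [card_eq_three]
      exact ⟨_, _, _, h12.ne, (h12.trans h23).ne, h23.ne, rfl⟩
    rw [← card_three h hc3 ht1 (hsub3 t ht1)]
    apply card_le_card
    intro t' ht'
    rw [mem_filter] at ht' ⊢
    have ht2 := hGt t' (mem_filter.mp ht'.1).1
    refine ⟨ht2, ?_⟩
    rw [← ht'.2]
    exact hsub3 t' ht2
  have hT1c : T1.card * M ≤ n * r * (2 * (n + 5)) := by
    refine bound_triples (g := g) (c := c) (j := j) h M T1 ?_
    intro S hS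
    obtain ⟨t, ht, rfl⟩ := mem_image.mp hS
    rw [hG1, mem_filter] at ht
    have ht1 := hGt t ht.1
    obtain ⟨h0, h12, h23, h34⟩ := hf t ht1
    exact ⟨f1 t, f2 t, f3 t, f4 t, rfl, h12, h23, ht.2, ⟨t, ht1, hsub3 t ht1⟩, hGc t ht.1⟩
  have hP2c : P2.card * M ≤ n * r * (3 * (n + 5)) := by
    refine bound_pairs (g := g) (c := c) (j := j) h M P2 ?_
    intro S hS
    obtain ⟨t, ht, rfl⟩ := mem_image.mp hS
    rw [hG2, mem_filter] at ht
    have ht1 := hGt t ht.1
    obtain ⟨h0, h12, h23, h34⟩ := hf t ht1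
    exact ⟨f1 t, f2 t, f3 t, f4 t, rfl, h12, ht.2, h34, ⟨t, ht1, hsub2 t ht1⟩, hGc t ht.1⟩
  have hG3c : G3.card ≤ 8 * (2 * M + 5) * n := by
    have h1 := card_le_mul_card_image (f := f4) G3 (8 * (2 * M + 5)) (by
      intro y _
      have h2 : (G3.filter fun t => f4 t = y).card =
          ((G3.filter fun t => f4 t = y).image fun t => ({f1 t, f2 t, f3 t} : Finset (Fin n))).card := by
        rw [card_image_of_injOn]
        intro t ht t' ht' he
        rw [mem_coe, mem_filter, hG3, mem_filter] at ht ht'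
        rw [hins t (hGt t ht.1.1), hins t' (hGt t' ht'.1.1), ht.2, ht'.2]
        exact congrArg _ he
      rw [h2]
      refine bound_short (g := g) (c := c) (j := j) h M y _ ?_
      intro S hS
      obtain ⟨t, ht, rfl⟩ := mem_image.mp hS
      rw [mem_filter, hG3, mem_filter] at ht
      obtain ⟨⟨htG, ht2⟩, rfl⟩ := ht
      have ht1 := hGt t htG
      obtain ⟨h0, h12, h23, h34⟩ := hf t ht1
      exact ⟨f1 t, f2 t, f3 t, rfl, h12, h23, h34, ht2, ⟨t, ht1, hsub3 t ht1⟩, hGc t htG⟩)
    refine h1.trans (Nat.mul_le_mul_left _ ?_)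
    have h3 := card_le_univ (G3.image f4)
    rwa [Fintype.card_fin] at h3
  have hcov : ∀ t ∈ G, t ∈ G1 ∨ t ∈ G2 ∨ t ∈ G3 := by
    intro t ht
    have h1 : (f3 t).val + M ≤ (f4 t).val ∨ (f2 t).val + M ≤ (f3 t).val ∨
        (f4 t).val ≤ (f2 t).val + 2 * M := by omega
    rcases h1 with h1 | h1 | h1
    · exact Or.inl (mem_filter.mpr ⟨ht, h1⟩)
    · exact Or.inr (Or.inl (mem_filter.mpr ⟨ht, h1⟩))
    · exact Or.inr (Or.inr (mem_filter.mpr ⟨ht, h1⟩))
  -- the top pairs
  have htop : (KAL.top u b (ht n)).card ≤ B.card + G1.card + n * M := by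
    have h1 : KAL.top u b (ht n) ⊆ (B.image fun t => ({f3 t, f4 t} : Finset (Fin n))) ∪
        (G1.image fun t => ({f3 t, f4 t} : Finset (Fin n))) ∪
        ((univ : Finset (Fin n × Fin n)).filter fun p => p.1 < p.2 ∧
          p.2.val ≤ p.1.val + M).image fun p => ({p.1, p.2} : Finset (Fin n)) := by
      intro s hs
      obtain ⟨hs2, t, htt, hst, hz⟩ := KAL.mem_top.mp hs
      obtain ⟨h0, h12, h23, h34⟩ := hf t htt
      have he := top_eq h0 h12 h23 h34 (mem_faces.mp hs2).1 hst
        (fun z hz1 hz2 a ha => ht_lt.mp (hz z hz1 hz2 a ha))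
      rw [mem_union, mem_union]
      rcases hBG t htt with hb | hg
      · exact Or.inl (Or.inl (mem_image.mpr ⟨t, hb, he.symm⟩))
      · by_cases hc : (f3 t).val + M ≤ (f4 t).val
        · exact Or.inl (Or.inr (mem_image.mpr ⟨t, mem_filter.mpr ⟨hg, hc⟩, he.symm⟩))
        · refine Or.inr (mem_image.mpr ⟨(f3 t, f4 t), mem_filter.mpr ⟨mem_univ _, h34, ?_⟩, he.symm⟩)
          dsimp only
          omega
    have h2 := card_le_card h1
    have h3 := card_union_le ((B.image fun t => ({f3 t, f4 t} : Finset (Fin n))) ∪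
        (G1.image fun t => ({f3 t, f4 t} : Finset (Fin n))))
        (((univ : Finset (Fin n × Fin n)).filter fun p => p.1 < p.2 ∧
          p.2.val ≤ p.1.val + M).image fun p => ({p.1, p.2} : Finset (Fin n)))
    have h4 := card_union_le (B.image fun t => ({f3 t, f4 t} : Finset (Fin n)))
        (G1.image fun t => ({f3 t, f4 t} : Finset (Fin n)))
    have h5 := card_image_le (s := B) (f := fun t => ({f3 t, f4 t} : Finset (Fin n)))
    have h6 := card_image_le (s := G1) (f := fun t => ({f3 t, f4 t} : Finset (Fin n)))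
    have h7 := card_image_le (s := (univ : Finset (Fin n × Fin n)).filter fun p => p.1 < p.2 ∧
          p.2.val ≤ p.1.val + M) (f := fun p => ({p.1, p.2} : Finset (Fin n)))
    have h8 := near_pairs (n := n) M
    omega
  have hbot : (KAL.bot u b (ht n)).card ≤ B.card + G1.card + P2.card + G3.card := by
    have h1 : KAL.bot u b (ht n) ⊆ (B.image fun t => ({f1 t, f2 t} : Finset (Fin n))) ∪
        (G1.image fun t => ({f1 t, f2 t} : Finset (Fin n))) ∪ P2 ∪
        (G3.image fun t => ({f1 t, f2 t} : Finset (Fin n))) := by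
      intro s hs
      obtain ⟨hs2, t, htt, hst, hz⟩ := KAL.mem_bot.mp hs
      obtain ⟨h0, h12, h23, h34⟩ := hf t htt
      have he := bot_eq h0 h12 h23 h34 (mem_faces.mp hs2).1 hst
        (fun z hz1 hz2 a ha => ht_lt.mp (hz z hz1 hz2 a ha))
      rw [mem_union, mem_union, mem_union]
      rcases hBG t htt with hb | hg
      · exact Or.inl (Or.inl (Or.inl (mem_image.mpr ⟨t, hb, he.symm⟩)))
      · rcases hcov t hg with hg1 | hg2 | hg3
        · exact Or.inl (Or.inl (Or.inr (mem_image.mpr ⟨t, hg1, he.symm⟩)))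
        · exact Or.inl (Or.inr (mem_image.mpr ⟨t, hg2, he.symm⟩))
        · exact Or.inr (mem_image.mpr ⟨t, hg3, he.symm⟩)
    have h2 := card_le_card h1
    have h3 := card_union_le ((B.image fun t => ({f1 t, f2 t} : Finset (Fin n))) ∪
        (G1.image fun t => ({f1 t, f2 t} : Finset (Fin n))) ∪ P2)
        (G3.image fun t => ({f1 t, f2 t} : Finset (Fin n)))
    have h4 := card_union_le ((B.image fun t => ({f1 t, f2 t} : Finset (Fin n))) ∪
        (G1.image fun t => ({f1 t, f2 t} : Finset (Fin n)))) P2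
    have h5 := card_union_le (B.image fun t => ({f1 t, f2 t} : Finset (Fin n)))
        (G1.image fun t => ({f1 t, f2 t} : Finset (Fin n)))
    have h6 := card_image_le (s := B) (f := fun t => ({f1 t, f2 t} : Finset (Fin n)))
    have h7 := card_image_le (s := G1) (f := fun t => ({f1 t, f2 t} : Finset (Fin n)))
    have h8 := card_image_le (s := G3) (f := fun t => ({f1 t, f2 t} : Finset (Fin n)))
    omega
  have hsum : (KAL.top u b (ht n)).card + (KAL.bot u b (ht n)).card ≤
      2 * B.card + 4 * T1.card + P2.card + n * (17 * M + 40) := by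
    have e1 : n * (17 * M + 40) = n * M + 8 * (2 * M + 5) * n := by ring
    omega
  calc ((KAL.top u b (ht n)).card + (KAL.bot u b (ht n)).card) * M
      ≤ (2 * B.card + 4 * T1.card + P2.card + n * (17 * M + 40)) * M :=
        Nat.mul_le_mul_right _ hsum
    _ = (2 * B.card + n * (17 * M + 40)) * M + 4 * (T1.card * M) + P2.card * M := by ring
    _ ≤ (2 * B.card + n * (17 * M + 40)) * M + 4 * (n * r * (2 * (n + 5))) +
        n * r * (3 * (n + 5)) := by
        exact Nat.add_le_add (Nat.add_le_add_left (Nat.mul_le_mul_left _ hT1c) _) hP2c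
    _ = _ := by ring

/-- **The inequality.** -/
theorem main (h : SP u b) (g : Fin r → E4) (c : Fin r → ℝ) (j : Fin n → Fin r) :
    ((nonq u b).card : ℝ) ≤ 2000 * Real.sqrt r * (n : ℝ) ^ (3 / 2 : ℝ) +
      28 * ((badT u b g c j).card : ℝ) := by
  classical
  have h1 := KAL.nonq_le (η := ht n) h ht_inj
  rw [Fintype.card_fin] at h1
  rcases Nat.eq_zero_or_pos n with hn | hn
  · have h2 : KAL.top u b (ht n) = ∅ := by
      rw [eq_empty_iff_forall_notMem]
      intro s hs
      obtain ⟨i, -⟩ := card_pos.mp (show 0 < s.card by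
        rw [(mem_faces.mp (KAL.mem_top.mp hs).1).1]; omega)
      exact absurd i.isLt (by omega)
    have h3 : KAL.bot u b (ht n) = ∅ := by
      rw [eq_empty_iff_forall_notMem]
      intro s hs
      obtain ⟨i, -⟩ := card_pos.mp (show 0 < s.card by
        rw [(mem_faces.mp (KAL.mem_bot.mp hs).1).1]; omega)
      exact absurd i.isLt (by omega)
    rw [h2, h3, card_empty] at h1
    have h4 : (nonq u b).card = 0 := by omega
    rw [h4, Nat.cast_zero]
    positivity
  have hr : 0 < r := lt_of_le_of_lt (Nat.zero_le _) (j ⟨0, hn⟩).isLt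
  have hn1 : (1 : ℝ) ≤ n := by exact_mod_cast hn
  have hr1 : (1 : ℝ) ≤ r := by exact_mod_cast hr
  set s : ℝ := Real.sqrt r * Real.sqrt n with hs
  have hsq : s * s = r * n := by
    rw [hs]
    have e1 := Real.mul_self_sqrt (show (0 : ℝ) ≤ r by linarith)
    have e2 := Real.mul_self_sqrt (show (0 : ℝ) ≤ n by linarith)
    calc Real.sqrt r * Real.sqrt n * (Real.sqrt r * Real.sqrt n)
        = (Real.sqrt r * Real.sqrt r) * (Real.sqrt n * Real.sqrt n) := by ring
      _ = r * n := by rw [e1, e2]
  have hs1 : 1 ≤ s := by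
    have e1 : (1 : ℝ) ≤ Real.sqrt r := Real.one_le_sqrt.mpr hr1
    have e2 : (1 : ℝ) ≤ Real.sqrt n := Real.one_le_sqrt.mpr hn1
    rw [hs]
    nlinarith
  have hs0 : 0 < s := by linarith
  set M : ℕ := ⌈s⌉₊ with hM
  have hM1 : s ≤ (M : ℝ) := Nat.le_ceil _
  have hM2 : (M : ℝ) < s + 1 := Nat.ceil_lt_add_one hs0.le
  have hM0 : (0 : ℝ) < M := by linarith
  have h2 := top_bot h g c j M
  set X := (KAL.top u b (ht n)).card + (KAL.bot u b (ht n)).card with hX
  set B := (badT u b g c j).card with hB
  have h3 : (X : ℝ) * M ≤ (2 * B + n * (17 * M + 40)) * M + 11 * (n * r * (n + 5)) := by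
    exact_mod_cast h2
  have h4 : (X : ℝ) ≤ 2 * B + n * (17 * M + 40) + 11 * s * (n + 5) := by
    have e1 : 11 * ((n : ℝ) * r * (n + 5)) ≤ 11 * s * (n + 5) * M := by
      have e2 : (n : ℝ) * r ≤ s * M := by
        have e3 : (n : ℝ) * r = s * s := by rw [hsq]; ring
        rw [e3]
        exact mul_le_mul_of_nonneg_left hM1 hs0.le
      have e4 : (n : ℝ) * r * (n + 5) ≤ s * M * (n + 5) :=
        mul_le_mul_of_nonneg_right e2 (by linarith)
      calc 11 * ((n : ℝ) * r * (n + 5)) ≤ 11 * (s * M * (n + 5)) := by linarith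
        _ = 11 * s * (n + 5) * M := by ring
    have e5 : (X : ℝ) * M ≤ (2 * B + n * (17 * M + 40) + 11 * s * (n + 5)) * M := by
      calc (X : ℝ) * M ≤ (2 * B + n * (17 * M + 40)) * M + 11 * (n * r * (n + 5)) := h3
        _ ≤ (2 * B + n * (17 * M + 40)) * M + 11 * s * (n + 5) * M := by linarith
        _ = _ := by ring
    exact le_of_mul_le_mul_right e5 hM0
  have h5 : (X : ℝ) ≤ 2 * B + 140 * (n * s) := by
    have e1 : (n : ℝ) * (17 * M + 40) ≤ 74 * (n * s) := by
      have e2 : (17 : ℝ) * M + 40 ≤ 74 * s := by linarith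
      have e3 := mul_le_mul_of_nonneg_left e2 (show (0 : ℝ) ≤ n by linarith)
      calc (n : ℝ) * (17 * M + 40) ≤ n * (74 * s) := e3
        _ = 74 * (n * s) := by ring
    have e4 : 11 * s * ((n : ℝ) + 5) ≤ 66 * (n * s) := by
      have e5 : (n : ℝ) + 5 ≤ 6 * n := by linarith
      have e6 := mul_le_mul_of_nonneg_left e5 (show (0 : ℝ) ≤ 11 * s by linarith)
      calc 11 * s * ((n : ℝ) + 5) ≤ 11 * s * (6 * n) := e6
        _ = 66 * (n * s) := by ring
    linarith
  have h6 : ((nonq u b).card : ℝ) ≤ 4 * n + 14 * X := by exact_mod_cast h1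
  have h7 : (n : ℝ) ≤ n * s := by nlinarith
  have h8 : (n : ℝ) * s = Real.sqrt r * (n : ℝ) ^ (3 / 2 : ℝ) := by
    have e1 : (n : ℝ) ^ (3 / 2 : ℝ) = n * Real.sqrt n := by
      rw [Real.sqrt_eq_rpow, show (3 / 2 : ℝ) = 1 + 1 / 2 by norm_num,
        Real.rpow_add (by linarith), Real.rpow_one]
    rw [e1, hs]
    ring
  have h9 : 2000 * Real.sqrt r * (n : ℝ) ^ (3 / 2 : ℝ) = 2000 * (n * s) := by
    rw [h8]
    ring
  rw [h9]
  have h10 : 0 ≤ (n : ℝ) * s := by positivity
  linarith

end TRC
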