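import Pool.Agent.Lib_helper61.SwitchBasic

/-!
# TRC (MP_e73337_co): switching classes of trees. Definitions and statements of the modules

Every `S_xxx` is proved in the file `Pool/Agent/TRC/Mxxx.lean` as `theorem t_xxx : S_xxx`
(namespace `Pool.Agent.TRC`).
-/

set_option autoImplicit false

namespace Pool.Agent.TRC

open Finset Pool.Agent.Lib_helper61.SwitchBasic

/-- `s` is an automorphism of the graph `C`. -/
def IsAut {α : Type} (C : SimpleGraph α) (s : Equiv.Perm α) : Prop :=
  ∀ u v, C.Adj (s u) (s v) ↔ C.Adj u v

/-- `C` without the edges at `c`. -/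
def del {α : Type} (C : SimpleGraph α) (c : α) : SimpleGraph α where
  Adj u v := C.Adj u v ∧ u ≠ c ∧ v ≠ c
  symm := ⟨fun _ _ h => ⟨h.1.symm, h.2.2, h.2.1⟩⟩
  loopless := ⟨fun _ h => h.1.ne rfl⟩

open Classical in
/-- The vertices of the component of `x` in `C` minus the edges at `c`. -/
noncomputable def blk {α : Type} [Fintype α] (C : SimpleGraph α) (c x : α) : Finset α :=
  univ.filter fun y => (del C c).Reachable x y

/-- `C` without the edge `cd`. -/
def cut {α : Type} (C : SimpleGraph α) (c d : α) : SimpleGraph α where
  Adj u v := C.Adj u v ∧ ¬ (u = c ∧ v = d) ∧ ¬ (u = d ∧ v = c)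
  symm := ⟨fun _ _ h => ⟨h.1.symm, fun g => h.2.2 ⟨g.2, g.1⟩, fun g => h.2.1 ⟨g.2, g.1⟩⟩⟩
  loopless := ⟨fun _ h => h.1.ne rfl⟩

open Classical in
/-- The vertices of the component of `c` in `C` minus the edge `cd`. -/
noncomputable def side {α : Type} [Fintype α] (C : SimpleGraph α) (c d : α) : Finset α :=
  univ.filter fun y => (cut C c d).Reachable c y

/-- CEN. The centroid of a tree (one vertex, or an edge with two equal halves).
PROOF. For `c` let `m c` be the largest `(blk T c x).card`, `x ≠ c`. Take `c` with `m c` minimal. Let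
`B = blk T c x`, `x ≠ c`, have `2 |B| ≥ card α`. `c` has exactly one neighbour `v` in `B` (connected: at
least one; two neighbours would give a cycle, so at most one). Every walk from a vertex of `B` to `c` goes
through `v`. So the blocks of `v`: those inside `B` have at most `|B| - 1` vertices, the other one,
`blk T v c`, is contained in `Bᶜ`, so it has at most `card α - |B| ≤ |B|` vertices. If `2 |B| > card α`
all are smaller than `|B|`, so `m v < |B| ≤ m c`, contradiction. If `2 |B| = card α` the second
alternative holds with the edge `c v` (`side T c v = Bᶜ`, `side T v c = B`). -/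
def S_CEN : Prop :=
  ∀ (α : Type) [Fintype α] [DecidableEq α] (T : SimpleGraph α), T.IsTree → 2 ≤ Fintype.card α →
    (∃ c, ∀ x, x ≠ c → 2 * (blk T c x).card < Fintype.card α) ∨
    ∃ c d, T.Adj c d ∧ ¬ (cut T c d).Reachable c d ∧ 2 * (side T c d).card = Fintype.card α ∧
      2 * (side T d c).card = Fintype.card α

/-- TAU. For a tree `T` with an even number `p ≥ 8` of vertices, all automorphisms of the switching
class are automorphisms of `T`, unless two vertices `u ≠ v` are incident with all but one edge (in the
sense that exactly `p - 2` edges have exactly one end in `{u, v}`).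
PROOF. `sw T S` is isomorphic to `T`, so it has `p - 1` edges; it has
`(p - 1) + |S| (p - |S|) - 2 e(S, Sᶜ)` edges, so `|S| (p - |S|) = 2 e(S, Sᶜ) ≤ 2 (p - 1)`. For
`3 ≤ |S| ≤ p - 3` the left side is at least `3 (p - 3) > 2 (p - 1)`. `|S| = 1` or `p - 1`: `p - 1 = 2 e`,
but `p` is even. `|S| = 2` or `p - 2` (`e(S, Sᶜ)` is symmetric): `e = p - 2`, `e = deg u + deg v - 2
[uv edge]`, excluded. So `S = ∅` or `S = univ`, `sw T S = T`, and `σ` is an automorphism. -/
def S_TAU : Prop :=
  ∀ (α : Type) [Fintype α] [DecidableEq α] (T : SimpleGraph α) [DecidableRel T.Adj], T.IsTree →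
    8 ≤ Fintype.card α → Even (Fintype.card α) →
    (∀ u v, u ≠ v → T.degree u + T.degree v ≠
      if T.Adj u v then Fintype.card α else Fintype.card α - 2) →
    ∀ σ : Equiv.Perm α, IsClassAut T σ → IsAut T σ

/-- FIX. PROOF. `σ` maps the blocks of `c` to the blocks of `σ c =: c'`, so all blocks of `c'` (of
`x ≠ c'`) have less than `card α / 2` vertices. Suppose `c' ≠ c`, `B = blk C c c'`. Every vertex outside
`B` is joined to `c` by a walk that avoids `c'` (`C` is connected: its block of `c` contains a neighbour
of `c`). So `Bᶜ ⊆ blk C c' c`, which has more than `card α / 2` elements, contradiction. -/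
def S_FIX : Prop :=
  ∀ (α : Type) [Fintype α] [DecidableEq α] (C : SimpleGraph α) (c : α), C.Connected →
    (∀ x, x ≠ c → 2 * (blk C c x).card < Fintype.card α) → ∀ σ, IsAut C σ → σ c = c

/-- EUQ. PROOF. `σ` maps the edge `cd` to an edge `c'd'` with the same property (both sides have half of
the vertices; `side C c' d'` is the image of `side C c d`). Suppose `{c', d'} ≠ {c, d}`. The edge `c'd'` is
an edge of `cut C c d`, so `c', d'` lie in the same side, say in `side C c d` (else exchange). Then
`side C d c` (connected in `cut C c d` without using `c'd'`, as it does not contain `c'`) together with `c`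
is connected in `cut C c' d'`, so one of the two sides of `c'd'` has more than half of the vertices. -/
def S_EUQ : Prop :=
  ∀ (α : Type) [Fintype α] [DecidableEq α] (C : SimpleGraph α) (c d : α), C.Connected → C.Adj c d →
    ¬ (cut C c d).Reachable c d → 2 * (side C c d).card = Fintype.card α →
    2 * (side C d c).card = Fintype.card α → ∀ σ, IsAut C σ → (σ c = c ∧ σ d = d) ∨ (σ c = d ∧ σ d = c)

end Pool.Agent.TRC
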