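import Pool.Agent.TRC.St
import Pool.Agent.Lib_helper61.SwCograph

/-!
# TRC (MP_e73337_co): statements of two further modules

`S_xxx` is proved in the file `Pool/Agent/TRC/Mxxx.lean` as `theorem t_xxx : S_xxx`
(namespace `Pool.Agent.TRC`).
-/

set_option autoImplicit false

namespace Pool.Agent.TRC

open Finset Pool.Agent.Lib_helper61.SwitchBasic Pool.Agent.Lib_helper61.SwCograph

/-- RIG. PROOF. Let `β = {x // x ≠ c}` and let `D` be the graph induced by `C` on `β` (for instance
`C.comap Subtype.val`). `σ` restricts to a permutation `σ'` of `β` (`σ.subtypePerm`) and `IsClassAut C σ`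
(with `S`) gives `IsClassAut D σ'` (with the preimage of `S`). The component of `x` in `D` corresponds to
`blk C c x` (a walk in `del C c` that starts in `x ≠ c` avoids `c`), so it has less than `card α / 2`
vertices, `card α` is even, so twice its size is at most `card α - 2 < card β`. So `D` has at least three
components, and `Lib_helper61.SwMain.small_aut` shows `D.Adj (σ' u) (σ' v) ↔ D.Adj u v`, that is
`C.Adj (σ u) (σ v) ↔ C.Adj u v` for `u, v ≠ c`. Compare with `(sw C S).Adj (σ u) (σ v) ↔ C.Adj u v`: any
two vertices other than `c` are both in `S` or both not in `S`. If also `c` agrees with them, then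
`sw C S = C` and we are done. Otherwise `sw C S` is `C` switched at `c`, so (as `σ c = c`)
`C.Adj c (σ v) ↔ ¬ C.Adj c v` for all `v ≠ c`: `σ` maps the neighbours of `c` onto the non-neighbours, so
`card α - 1` is even, contradiction. -/
def S_RIG : Prop :=
  ∀ (α : Type) [Fintype α] [DecidableEq α] (C : SimpleGraph α) (c : α), Even (Fintype.card α) →
    (∀ x, x ≠ c → 2 * (blk C c x).card < Fintype.card α) →
    ∀ σ : Equiv.Perm α, IsClassAut C σ → σ c = c → IsAut C σ

/-- DST. PROOF. `T` has `card α - 1` edges and `T.degree u + T.degree v - 1` of them have an end in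
`{u, v}`, so all have. A vertex `x ∉ {u, v}` is not adjacent to both (triangle). So in `Γ = sw T {u}`:
`u, v` are not adjacent; `x ∉ {u, v}` is adjacent to `u` iff `T.Adj v x` iff it is adjacent to `v` (a
vertex `x ∉ {u, v}` has a neighbour in `T`, which is `u` or `v`, so it is adjacent to exactly one of
them); there are no further edges. So `Γ` is complete bipartite between `{u, v}` and a set, plus isolated
vertices; in a path `a b c d` of `Γ` the ends `a, d` are in different parts, so adjacent. -/
def S_DST : Prop :=
  ∀ (α : Type) [Fintype α] [DecidableEq α] (T : SimpleGraph α) [DecidableRel T.Adj], T.IsTree →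
    ∀ u v, T.Adj u v → T.degree u + T.degree v = Fintype.card α → P4Free (sw T {u})

end Pool.Agent.TRC
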