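import Pool.Agent.TRC.St

/-!
# TRC (MP_e73337_co): statement of a further module

`S_MIX` is proved in the file `Pool/Agent/TRC/MMIX.lean` as `theorem t_MIX : S_MIX`
(namespace `Pool.Agent.TRC`).
-/

set_option autoImplicit false

namespace Pool.Agent.TRC

open Finset Pool.Agent.Lib_helper61.SwitchBasic

/-- MIX. A central vertex is fixed by all automorphisms of the switching class if it has a neighbour and
a non-neighbour in every block.
PROOF. Write `p = card α` (even). A block is a component of `C - c`, a set `blk C c x`, `x ≠ c`; it has at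
most `p/2 - 1` vertices and at least 2 (a neighbour and a non-neighbour of `c`). Let `σ, S` be as in
`IsClassAut C σ`, `Δ = sw C S`, and suppose `c' = σ c ≠ c`. `σ` maps the components of `C - c` to those of
`Δ - c'`, so: (*) every connected subset of `Δ - c'` has less than `p/2` vertices (all
`(blk Δ c' y).card`, `y ≠ c'`, are small). We may assume `c' ∉ S` (`sw C Sᶜ = sw C S`). Let
`B = blk C c c'`, `R = (B ∪ {c})ᶜ` (all vertices in the other blocks), `|R| ≥ p/2`; no edge of `C`
joins `B` and `R`. Let `B0 = B \ S` without `c'`, `B1 = B ∩ S`, `R1 = R ∩ S`, `R0 = R \ S`.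
`B0 ∪ B1` is not empty. In `Δ`: (1) every vertex of `R1` is adjacent to every vertex of `B0`, and every
vertex of `R0` to every vertex of `B1`; (2) `x ∈ R0` and `y ∈ R1` in different blocks of `C - c` are
adjacent in `Δ`.
Step 1: `B0` or `B1` is empty. Otherwise, if `R0` is empty then `R ∪ B0` is connected in `Δ - c'`, and if
`R1` is empty then `R ∪ B1` is, against (*). So `R1 ∪ B0` and `R0 ∪ B1` are connected in `Δ - c'`; they
have `p - 2 ≥ p/2` vertices together, so they are not in one component, so by (*) no vertex of `R0` is
adjacent in `Δ` to a vertex of `R1`, so in `C` all of `R0` is adjacent to all of `R1`, so `R` is contained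
in one block of `C - c`, but `|R| ≥ p/2`, contradiction.
Step 2: if `B1` is empty then `R1` is empty. Otherwise `R1 ∪ B0` is connected in `Δ - c'`. If `R1` meets
two blocks, by (2) every vertex of `R0` is adjacent to a vertex of `R1`, so `R` is in one component of
`Δ - c'`, against (*). If `R1` is contained in one block `D`, then by (2) `B0 ∪ R1 ∪ (R \ D)` is connected
in `Δ - c'`; it has at least `(|B| - 1) + 1 + |R| - |D| = p - 1 - |D| ≥ p/2` elements, against (*).
Step 3: in the same way, if `B0` is empty then `R0` is empty.
So `R` is disjoint from `S` or contained in `S`: `Δ` and `C` have the same edges inside `R`, and either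
`Δ.Adj c x ↔ C.Adj c x` for all `x ∈ R`, or `Δ.Adj c x ↔ ¬ C.Adj c x` for all `x ∈ R`. As `c` has a
neighbour and a non-neighbour in every block, `R ∪ {c}` is connected in `Δ - c'`, against (*). -/
def S_MIX : Prop :=
  ∀ (α : Type) [Fintype α] [DecidableEq α] (C : SimpleGraph α) (c : α), Even (Fintype.card α) →
    (∀ x, x ≠ c → 2 * (blk C c x).card < Fintype.card α) →
    (∀ x, x ≠ c → (∃ y ∈ blk C c x, C.Adj c y) ∧ ∃ y ∈ blk C c x, ¬ C.Adj c y) →
    ∀ σ : Equiv.Perm α, IsClassAut C σ → σ c = c

end Pool.Agent.TRC
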