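import Pool.Agent.TRC.Std

/-!
# TRC (MP_e73337_co): the exceptional trees, all `p ≥ 8`. Statements of four modules

`S_xxx` is proved in the file `Pool/Agent/TRC/Mxxx.lean` as `theorem t_xxx : S_xxx`
(namespace `Pool.Agent.TRC`).
-/

set_option autoImplicit false

namespace Pool.Agent.TRC

open Finset Pool.Agent.Lib_helper61.SwitchBasic

/-- The degree equation for the pair `a, b`: exactly `card α - 2` edges have one end in `{a, b}`. -/
def DegEq {α : Type} [Fintype α] (T : SimpleGraph α) [DecidableRel T.Adj] (a b : α) : Prop :=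
  a ≠ b ∧ T.degree a + T.degree b = if T.Adj a b then Fintype.card α else Fintype.card α - 2

/-- CL2. PROOF. As `t_TAU` (`Pool/Agent/TRC/MTAU.lean`): a class automorphism `σ` maps `T` onto some
`sw T S`, the number of edges gives `|S| ∈ {0, 2, p - 2, p}` (`p = card α`); if `|S| = 0` or `p` then
`sw T S = T`; otherwise `S` or its complement is a pair `{a, b}`, `sw T S = sw T {a, b}`, and the number
of edges gives the degree equation. -/
def S_CL2 : Prop :=
  ∀ (α : Type) [Fintype α] [DecidableEq α] (T : SimpleGraph α) [DecidableRel T.Adj], T.IsTree →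
    8 ≤ Fintype.card α → Even (Fintype.card α) → ∀ σ, IsClassAut T σ →
    IsAut T σ ∨ ∃ a b, DegEq T a b ∧ ∀ x y, (sw T {a, b}).Adj (σ x) (σ y) ↔ T.Adj x y

/-- TYP. PROOF. `p = card α`, `T` has `p - 1` edges, exactly `p - 2` of them have an end in `{u, v}` (not
both), so exactly one edge `e` has none. The type of `z ∉ {u, v}` is (z ~ u, z ~ v). At most one vertex
has type (1,1) (no 4-cycle); as `deg u + deg v = p - 2` the number of vertices of type (1,1) is the number
of vertices of type (0,0).
Case 0: no such vertices. `T` is connected, so `e = xy` with `u ~ x`, `v ~ y`: `E1`.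
Case 1: `w` of type (1,1), `z` of type (0,0); `z` has a neighbour, so `e = zr`. If `r = w` this is `E2`.
If `r ≠ w` then `w` has no neighbour in `sw T {u, v}` (`T.Adj w u`, `T.Adj w v`, no other neighbours), so it
is not connected. -/
def S_TYP : Prop :=
  ∀ (α : Type) [Fintype α] [DecidableEq α] (T : SimpleGraph α) [DecidableRel T.Adj], T.IsTree →
    8 ≤ Fintype.card α → ∀ u v : α, u ≠ v → ¬ T.Adj u v →
    T.degree u + T.degree v = Fintype.card α - 2 → (sw T {u, v}).Connected →
    (∃ x y, E1 T u v x y) ∨ ∃ w z, E2 T u v w z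

/-- LEA. PROOF. All neighbours of `u` but `x` (or `w`) have no other neighbour; `L` is the set of
these. -/
def S_LEA : Prop :=
  ∀ (α : Type) [Fintype α] [DecidableEq α] (T : SimpleGraph α) [DecidableRel T.Adj] (u v : α),
    ((∃ x y, E1 T u v x y) ∨ ∃ w z, E2 T u v w z) → Fintype.card α + 2 ≤ 2 * T.degree u →
    ∃ L : Finset α, (∀ x ∈ L, ∀ y, T.Adj x y ↔ y = u) ∧ Fintype.card α ≤ 2 * L.card

/-- UNI. Uniqueness of the pair. PROOF. `p = card α`. For `E1`: `deg u + deg v = p - 2`, `deg x = deg y = 2`
and all other vertices have degree 1. For `E2`: `deg u + deg v = p - 2`, `deg w = 3` and all other vertices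
have degree 1. As `deg u, deg v ≤ p/2`, both are at least `p/2 - 2`, so at least 2, and at least 4 if
`p ≥ 12` (`p` is divisible by 4). Let `a ≠ b` be another pair with the degree equation. If `a, b` are
both not in `{u, v}` then `deg a + deg b ≤ 4 < p - 2` (`E1`: at most `2 + 2`; `E2`: at most `3 + 1`). So let
(by symmetry) `a ∈ {u, v}`, `b ∉ {u, v}`. If `a ~ b` then `deg a + deg b = p`, but
`deg a + deg b ≤ p/2 + 3 < p`. So `a ≁ b` and `deg b = p - 2 - deg a` is the degree of the other vertex of
`{u, v}`, so `2 ≤ deg b ≤ 3`, `p = 8`. `E2`: `b = w` is adjacent to `a`, contradiction. `E1`: `b` is `x` or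
`y`; as `a ≁ b`, if `a = u` then `b = y`, and `x` is adjacent to `a` and `b` and has no other neighbours, so
in `sw T {a, b}` the vertex `x` has no neighbour, so `sw T {a, b}` is not connected, contradiction; the
same for `a = v`, `b = x` and the vertex `y`. -/
def S_UNI : Prop :=
  ∀ (α : Type) [Fintype α] [DecidableEq α] (T : SimpleGraph α) [DecidableRel T.Adj] (u v : α),
    8 ≤ Fintype.card α → Fintype.card α % 4 = 0 → DegEq T u v →
    ((∃ x y, E1 T u v x y) ∨ ∃ w z, E2 T u v w z) →
    2 * T.degree u < Fintype.card α + 2 → 2 * T.degree v < Fintype.card α + 2 →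
    ∀ a b, DegEq T a b → (sw T {a, b}).Connected → (a = u ∧ b = v) ∨ (a = v ∧ b = u)

end Pool.Agent.TRC
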