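import Pool.Agent.TRC.Asm
import Pool.Agent.TRC.Ste

/-!
# TRC: all trees
-/

set_option autoImplicit false

namespace Pool.Agent.TRC

open Finset Pool.Agent.Lib_helper61.SwitchBasic Pool.Agent.Lib_helper61.SwMain
  Pool.Agent.Lib_helper61.SwCograph

theorem E1.swap {α : Type} {T : SimpleGraph α} {u v x y : α} (h : E1 T u v x y) :
    E1 T v u y x where
  uv := h.uv.symm
  nuv := fun g => h.nuv g.symm
  ux := h.vy
  vy := h.ux
  xy := h.xy.symm
  one := fun z h1 h2 => by
    have := h.one z h2 h1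
    tauto
  rest := fun a b hab => by
    have := h.rest a b hab
    tauto

theorem E2.swap {α : Type} {T : SimpleGraph α} {u v w z : α} (h : E2 T u v w z) :
    E2 T v u w z where
  uv := h.uv.symm
  nuv := fun g => h.nuv g.symm
  uw := h.vw
  vw := h.uw
  wz := h.wz
  nuz := h.nvz
  nvz := h.nuz
  zu := h.zv
  zv := h.zu
  one := fun q h1 h2 h3 h4 => by
    have := h.one q h2 h1 h3 h4
    tauto
  rest := fun a b hab => by
    have := h.rest a b hab
    tauto

variable {α : Type} [Fintype α] [DecidableEq α]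

theorem typ_swap {T : SimpleGraph α} {u v : α}
    (h : (∃ x y, E1 T u v x y) ∨ ∃ w z, E2 T u v w z) :
    (∃ x y, E1 T v u x y) ∨ ∃ w z, E2 T v u w z := by
  rcases h with ⟨x, y, h⟩ | ⟨w, z, h⟩
  · exact Or.inl ⟨y, x, h.swap⟩
  · exact Or.inr ⟨w, z, h.swap⟩

theorem im_pair (s : Equiv.Perm α) (u v : α) : im s {u, v} = {s u, s v} := by
  unfold im
  rw [map_insert, map_singleton]
  rfl

theorem tree_all (hTYP : S_TYP) (hLEA : S_LEA) (hSCL : S_SCL) (hUNI : S_UNI) (hCL2 : S_CL2)
    (hEX1 : S_EX1) (hEX2 : S_EX2) (h4 : Fintype.card α ≠ 4) (T : SimpleGraph α)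
    (hT : T.IsTree) : AllRec T := by
  classical
  intro t t' hdeck
  by_contra hne
  obtain ⟨⟨m, hm⟩, h0⟩ := four_dvd hdeck hne
  have h8 : 8 ≤ Fintype.card α := by omega
  have he : Even (Fintype.card α) := ⟨2 * m, by omega⟩
  apply hne
  by_cases hu : ∃ u v, T.Adj u v ∧ T.degree u + T.degree v = Fintype.card α
  · obtain ⟨u, v, huv, h⟩ := hu
    exact cograph_all h4 {u} (t_DST α T hT u v huv h) t t' hdeck
  push Not at hu
  -- a class automorphism of the second kind gives a connected switching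
  have hconn : ∀ (σ : Equiv.Perm α) (a b : α),
      (∀ x y, (sw T {a, b}).Adj (σ x) (σ y) ↔ T.Adj x y) → (sw T {a, b}).Connected := by
    intro σ a b h
    have ψ : T ≃g sw T {a, b} := ⟨σ, fun {x y} => h x y⟩
    exact ψ.connected_iff.1 hT.connected
  by_cases hp : ∃ u v, DegEq T u v ∧ (sw T {u, v}).Connected
  · obtain ⟨u, v, hd, hcon⟩ := hp
    have huv := hd.1
    have hna : ¬ T.Adj u v := fun h => hu u v h (by
      have := hd.2
      rwa [if_pos h] at this)
    have hdeg : T.degree u + T.degree v = Fintype.card α - 2 := by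
      have := hd.2
      rwa [if_neg hna] at this
    have htyp := hTYP α T hT h8 u v huv hna hdeg hcon
    by_cases lu : Fintype.card α + 2 ≤ 2 * T.degree u
    · obtain ⟨L, hL, hL2⟩ := hLEA α T u v htyp lu
      exact hSCL α T u L hL hL2 h8 t t' hdeck
    by_cases lv : Fintype.card α + 2 ≤ 2 * T.degree v
    · obtain ⟨L, hL, hL2⟩ := hLEA α T v u (typ_swap htyp) lv
      exact hSCL α T v L hL hL2 h8 t t' hdeck
    have huni := hUNI α T u v h8 (by omega) hd htyp (by omega) (by omega)
    have hcl : ∀ σ, IsClassAut T σ → IsAut T σ ∨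
        ∀ a b, (sw T {u, v}).Adj (σ a) (σ b) ↔ T.Adj a b := by
      intro σ hσ
      rcases hCL2 α T hT h8 he σ hσ with h | ⟨a, b, hab, h⟩
      · exact Or.inl h
      · right
        rcases huni a b hab (hconn σ a b h) with ⟨rfl, rfl⟩ | ⟨rfl, rfl⟩
        · exact h
        · rw [pair_comm a b] at h
          exact h
    have hK : ∀ s, IsAut T s → (s u = u ∧ s v = v) ∨ (s u = v ∧ s v = u) := by
      intro s hs
      have hdg : ∀ x, T.degree (s x) = T.degree x := by
        intro x
        have ψ : T ≃g T := autIso hs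
        exact (autIso hs).degree_eq x
      have hc2 : (sw T {s u, s v}).Connected := by
        obtain ⟨ψ⟩ := iso_im (mem_AA.2 hs) ({u, v} : Finset α)
        rw [im_pair] at ψ
        exact ψ.connected_iff.1 hcon
      refine huni (s u) (s v) ⟨fun g => huv (s.injective g), ?_⟩ hc2
      rw [hdg, hdg, hdeg, if_neg]
      exact fun g => hna ((hs u v).1 g)
    rcases htyp with ⟨x, y, h⟩ | ⟨w, z, h⟩
    · exact hEX1 α T u v x y h h8 hK hcl t t' hdeck
    · exact hEX2 α T u v w z h h8 (by omega) (by omega) (by omega) hK hcl t t' hdeck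
  · refine tree_core h4 T hT (fun σ hσ => ?_) t t' hdeck
    rcases hCL2 α T hT h8 he σ hσ with h | ⟨a, b, hab, h⟩
    · exact h
    · exact absurd ⟨a, b, hab, hconn σ a b h⟩ hp

end Pool.Agent.TRC
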